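import Pool.Agent.Run7.h498.GZ.R3

set_option autoImplicit false

/-!
# Ruled surfaces: the first step, in number fields
-/

namespace Run7.h498.GZ

open NumberField Height Real Module Pool.Agent.Y740 Run7.h498

section
variable {K : Type} [Field K] [NumberField K]

lemma SU_zpow {S : Finset (FinitePlace K)} {x : K} (hx : SU S x) (n : ℤ) : SU S (x ^ n) := by
  rcases Int.eq_nat_or_neg n with ⟨m, rfl | rfl⟩
  · rw [zpow_natCast]; exact hx.pow m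
  · rw [zpow_neg, zpow_natCast]; exact (hx.pow m).inv

/-- the tree at one of the three places, generic case -/
lemma tree_place {S : Finset (FinitePlace K)} {v : Pl S} {d : ℕ} (B : Fin 3 → Fin (d + 1) → K)
    {x y : K} (σ : Fin 3) {e0 : ℝ}
    (he0 : ∀ k, kp v + ∑ i, |lg v (B k i)| + ∑ σ, |lg v (cval1 (B k) σ)| ≤ e0) (hk : kp v ≤ e0)
    (hL : ∀ k, cval1 (B k) σ ≠ 0) (hx0 : x ≠ 0) (hx1 : 1 - x ≠ 0) (hy : y ≠ 0)
    (hy1 : y - fval1 (B 0) x ≠ 0) (hy2 : y - fval1 (B 1) x ≠ 0) (hB : ∀ k, fval1 (B k) x ≠ 0)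
    (hBs : fval1 (B 0) x = fval1 (B 1) x + fval1 (B 2) x)
    {N ε c X Y : ℝ} {γ : Fin 5 → ℝ} (hN : 0 < N) (hε : 0 < ε) (heN : 2 * e0 ≤ ε * N)
    (hC : 10 * (d : ℝ) + 30 ≤ c) (hεC : ε * c ≤ 1 / 1000) (hγ : ∀ l, |γ l| ≤ e0)
    (hXY : (σ = 0 ∧ X = -1 ∧ Y = 0) ∨ (σ = 1 ∧ X = 0 ∧ Y = -1) ∨ (σ = 2 ∧ X = 1 ∧ Y = 1))
    (hX : |(lg v x + γ 0) / N - X| ≤ ε) (hY : |(lg v (1 - x) + γ 1) / N - Y| ≤ ε) :
    ∃ N', TG ((lg v y + γ 2) / N - pol σ * d) ((lg v (y - fval1 (B 0) x) + γ 3) / N - pol σ * d)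
      ((lg v (y - fval1 (B 1) x) + γ 4) / N - pol σ * d) (3 * ((2 * c + 2) * ε)) N' := by
  have hd : (0 : ℝ) ≤ d := Nat.cast_nonneg _
  have hc : 0 ≤ c := by linarith
  have hs := fun k => size_corner (B k) σ (he0 k) (hL k) hx0 hx1 (hB k) hN hε heN hC hεC (hγ 0)
    (hγ 1) hXY hX hY
  have t1 := tri_corner (v := v) (C := c) (γ := γ 2) (γ' := γ 3) (hB 0) hy hy1
    (by ring) hN hk heN (by positivity) (hγ 2) (hγ 3) (hs 0)
  have t2 := tri_corner (v := v) (C := c) (γ := γ 2) (γ' := γ 4) (hB 1) hy hy2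
    (by ring) hN hk heN (by positivity) (hγ 2) (hγ 4) (hs 1)
  have t3 := tri_corner (v := v) (C := c) (γ := γ 4) (γ' := γ 3) (hB 2) hy2 hy1
    (by rw [hBs]; ring) hN hk heN (by positivity) (hγ 4) (hγ 3) (hs 2)
  exact treeG (by positivity) t1 t2 t3.swap

end

/-- The first step: the height of `x` or of `y / (x ^ α (1 - x) ^ β)` is bounded. -/
theorem step1G (d : ℕ) (hd : 1 ≤ d) : ∃ C : ℝ, 0 < C ∧
    ∀ (K : Type) [Field K] [NumberField K] (B : Fin 3 → Fin (d + 1) → K) (x y : K)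
      (z g : Fin 5 → K), (∀ l, z l ≠ 0) → x ≠ 0 → 1 - x ≠ 0 → y ≠ 0 →
      y - fval1 (B 0) x ≠ 0 → y - fval1 (B 1) x ≠ 0 → (∀ k, fval1 (B k) x ≠ 0) →
      fval1 (B 0) x = fval1 (B 1) x + fval1 (B 2) x → (∀ k σ, cval1 (B k) σ ≠ 0) →
      (∀ l, g l ≠ 0) → z 0 = x * g 0 → z 1 = (1 - x) * g 1 → z 2 = y * g 2 →
      z 3 = (y - fval1 (B 0) x) * g 3 → z 4 = (y - fval1 (B 1) x) * g 4 → HasRelations z 3 →
      logHeight₁ x ≤ C * (finrank ℚ K + (∑ k, ∑ i, logHeight₁ (B k i) +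
        ∑ k, ∑ σ, logHeight₁ (cval1 (B k) σ) + ∑ l, logHeight₁ (g l))) ∨
      ∃ α β : ℤ, ((α = d ∧ β = 0) ∨ (α = 0 ∧ β = d) ∨ (α = 0 ∧ β = 0)) ∧
        logHeight₁ (y / (x ^ α * (1 - x) ^ β)) ≤ C * (finrank ℚ K +
        (∑ k, ∑ i, logHeight₁ (B k i) +
        ∑ k, ∑ σ, logHeight₁ (cval1 (B k) σ) + ∑ l, logHeight₁ (g l))) := by
  obtain ⟨c, hc⟩ : ∃ c : ℝ, c = 10 * (d : ℝ) + 30 := ⟨_, rfl⟩
  have hd' : (1 : ℝ) ≤ d := by exact_mod_cast hd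
  have hc0 : 30 ≤ c := by rw [hc]; linarith
  refine ⟨1000000 * c, by linarith, ?_⟩
  intro K _ _ B x y z g hz hx0 hx1 hy hy1 hy2 hB hBs hcor hg z0 z1 z2 z3 z4 hrel
  obtain ⟨S, e0, hS, he0, hγ, hkp, hγ2, hsum⟩ := err2 B g [x, 1 - x, y] (by
    intro z hz
    simp only [List.mem_cons, List.not_mem_nil, or_false] at hz
    rcases hz with rfl | rfl | rfl <;> assumption)
  have hHA0 : 0 ≤ ∑ k, ∑ i, logHeight₁ (B k i) :=
    Finset.sum_nonneg fun _ _ => Finset.sum_nonneg fun _ _ => ht_nonneg' _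
  have hHL0 : 0 ≤ ∑ k, ∑ σ, logHeight₁ (cval1 (B k) σ) :=
    Finset.sum_nonneg fun _ _ => Finset.sum_nonneg fun _ _ => ht_nonneg' _
  have hHg0 : 0 ≤ ∑ l, logHeight₁ (g l) := Finset.sum_nonneg fun _ _ => ht_nonneg' _
  obtain ⟨H, hH⟩ : ∃ H : ℝ, H = finrank ℚ K + (∑ k, ∑ i, logHeight₁ (B k i) +
        ∑ k, ∑ σ, logHeight₁ (cval1 (B k) σ) + ∑ l, logHeight₁ (g l)) := ⟨_, rfl⟩
  rw [← hH] at hsum ⊢
  have hd0 : (1 : ℝ) ≤ finrank ℚ K := by
    have : 0 < finrank ℚ K := finrank_pos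
    exact_mod_cast this
  have hHd : (finrank ℚ K : ℝ) ≤ H := by rw [hH]; linarith
  clear hH hHA0 hHL0 hHg0
  have sx : SU S x := hS _ (by simp)
  have sx' : SU S (1 - x) := hS _ (by simp)
  have sy : SU S y := hS _ (by simp)
  clear hS
  have hHpos : 0 < H := by linarith
  by_cases hcon : logHeight₁ x ≤ 1000000 * c * H
  · exact Or.inl hcon
  right
  rw [not_le] at hcon
  obtain ⟨h, hhdef⟩ : ∃ h, h = logHeight₁ x := ⟨_, rfl⟩
  rw [← hhdef] at hcon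
  have hhpos : 0 < h := lt_trans (by positivity) hcon
  obtain ⟨ε, hε⟩ : ∃ ε, ε = 16 * H / h := ⟨_, rfl⟩
  have hεpos : 0 < ε := by rw [hε]; positivity
  have hεh : ε * h = 16 * H := by rw [hε]; field_simp
  have hεc' : ε * c ≤ 1 / 10000 := by
    rw [hε, div_mul_eq_mul_div, div_le_iff₀ hhpos]
    linarith
  have hεc : ε * c ≤ 1 / 1000 := by linarith
  have hε1 : ε ≤ 1 / 1000 := by nlinarith
  obtain ⟨v0, v1, v2, hTP⟩ := exists_TP hx0 hx1 sx sx' (fun v => lg v (g 0)) (fun v => lg v (g 1))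
    (fun v => 2 * e0 v) (fun v => hγ2 v 0 1 (by decide)) (4 * H)
    (by rw [← Finset.mul_sum]; linarith) (by positivity) ε hεpos
    hε1 (by rw [← hhdef, hεh]; linarith)
  have l0 : ∀ v : Pl S, lg v (z 0) = lg v x + lg v (g 0) := fun v => by rw [z0, lg_mul v hx0 (hg 0)]
  have l1 : ∀ v : Pl S, lg v (z 1) = lg v (1 - x) + lg v (g 1) := fun v => by
    rw [z1, lg_mul v hx1 (hg 1)]
  have l2 : ∀ v : Pl S, lg v (z 2) = lg v y + lg v (g 2) := fun v => by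
    rw [z2, lg_mul v hy (hg 2)]
  have l3 : ∀ v : Pl S, lg v (z 3) = lg v (y - fval1 (B 0) x) + lg v (g 3) := fun v => by
    rw [z3, lg_mul v hy1 (hg 3)]
  have l4 : ∀ v : Pl S, lg v (z 4) = lg v (y - fval1 (B 1) x) + lg v (g 4) := fun v => by
    rw [z4, lg_mul v hy2 (hg 4)]
  have dd2 := det_of_rel' (S := S) z hz hrel 0 1 2
  have dd3 := det_of_rel' (S := S) z hz hrel 0 1 3
  have dd4 := det_of_rel' (S := S) z hz hrel 0 1 4
  simp only [l0, l1, l2, l3, l4] at dd2 dd3 dd4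
  have N0 := hTP.h0
  have N1 := hTP.h1
  have N2 := hTP.h2
  obtain ⟨M0, T0⟩ := tree_place B 0 (he0 v0) (hkp v0) (fun k => hcor k 0) hx0 hx1 hy hy1 hy2 hB hBs
    (X := -1) (Y := 0) (γ := fun l => lg v0 (g l)) N0 hεpos hTP.h0' hc.ge hεc (hγ v0)
    (Or.inl ⟨rfl, rfl, rfl⟩) (by
      rw [div_neg, div_self (by linarith : (lg v0 x + lg v0 (g 0)) ≠ 0)]
      simpa using hεpos.le) (by rw [sub_zero]; exact hTP.hb0)
  obtain ⟨M1, T1⟩ := tree_place B 1 (he0 v1) (hkp v1) (fun k => hcor k 1) hx0 hx1 hy hy1 hy2 hB hBs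
    (X := 0) (Y := -1) (γ := fun l => lg v1 (g l)) N1 hεpos hTP.h1' hc.ge hεc (hγ v1)
    (Or.inr (Or.inl ⟨rfl, rfl, rfl⟩)) (by rw [sub_zero]; exact hTP.ha1) (by
      rw [div_neg, div_self (by linarith : (lg v1 (1 - x) + lg v1 (g 1)) ≠ 0)]
      simpa using hεpos.le)
  obtain ⟨M2, T2⟩ := tree_place B 2 (he0 v2) (hkp v2) (fun k => hcor k 2) hx0 hx1 hy hy1 hy2 hB hBs
    (X := 1) (Y := 1) (γ := fun l => lg v2 (g l)) N2 hεpos hTP.h2' hc.ge hεc (hγ v2)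
    (Or.inr (Or.inr ⟨rfl, rfl, rfl⟩)) (by
      rw [div_self (by linarith : (lg v2 x + lg v2 (g 0)) ≠ 0)]
      simpa using hεpos.le) hTP.hb2
  have p0 : ((pol (0 : Fin 3) : ℕ) : ℝ) = 0 := by simp [pol]
  have p1 : ((pol (1 : Fin 3) : ℕ) : ℝ) = 0 := by simp [pol]
  have p2 : ((pol (2 : Fin 3) : ℕ) : ℝ) = 1 := by simp [pol]
  rw [p0, zero_mul, sub_zero, sub_zero, sub_zero] at T0
  rw [p1, zero_mul, sub_zero, sub_zero, sub_zero] at T1
  rw [p2, one_mul] at T2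
  have hcε : c * ε ≤ 1 / 10000 := by rw [mul_comm]; exact hεc'
  have hδ0 : 0 ≤ 3 * ((2 * c + 2) * ε) := by positivity
  have hδ1 : 3 * ((2 * c + 2) * ε) ≤ 1 / 100 := by nlinarith
  obtain ⟨a0, a1, a2⟩ := T0.bound hδ0
  obtain ⟨b0, b1, b2⟩ := T1.bound hδ0
  have k0 : 0 ≤ M0 := (abs_nonneg _).trans a0
  have k1 : 0 ≤ M1 := (abs_nonneg _).trans b0
  have k2 : 0 ≤ M2 := (abs_nonneg _).trans (T2.bound hδ0).1
  have s2 := hTP.bal dd2 a0 b0
  have s3 := hTP.bal dd3 a1 b1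
  have s4 := hTP.bal dd4 a2 b2
  have es : ∀ X Y Z : ℝ, X + Y + (Z - d) + d = X + Y + Z := fun X Y Z => by ring
  rw [← es] at s2 s3 s4
  have hθ0 : 0 ≤ 3 * ε * (M0 + M1) := by positivity
  have hθ1 : 3 * ε * (M0 + M1) ≤ (M0 + M1 + M2) / 100 := by nlinarith
  obtain ⟨hM, hcl⟩ := combG hδ0 hδ1 hd' hθ0 hθ1 T0 T1 T2 s2 s3 s4
  clear s2 s3 s4 T0 T1 T2 a0 a1 a2 b0 b1 b2 es dd3 dd4 l0 l1 l2 l3 l4 he0 hkp hγ2 hθ1
  have herr : 10 * (3 * ((2 * c + 2) * ε) + 3 * ε * (M0 + M1)) ≤ (100 * c) * ε := by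
    have h1 : 3 * ε * (M0 + M1) ≤ 3 * ε * c := by
      apply mul_le_mul_of_nonneg_left _ (by positivity)
      rw [hc]; linarith
    have h2 : 30 * ε ≤ c * ε := mul_le_mul_of_nonneg_right hc0 hεpos.le
    linarith
  obtain ⟨α, β, hαβ, hα, hβ, q0, q1⟩ : ∃ α β : ℤ, ((α = d ∧ β = 0) ∨ (α = 0 ∧ β = d) ∨
      (α = 0 ∧ β = 0)) ∧ |(α : ℝ)| ≤ c ∧ |(β : ℝ)| ≤ c ∧
      |(lg v0 y + lg v0 (g 2)) / -(lg v0 x + lg v0 (g 0)) + α| ≤ (100 * c) * ε ∧
      |(lg v1 y + lg v1 (g 2)) / -(lg v1 (1 - x) + lg v1 (g 1)) + β| ≤ (100 * c) * ε := by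
    rcases hcl with hcl | hcl | hcl
    · refine ⟨d, 0, Or.inl ⟨rfl, rfl⟩, ?_, ?_, ?_, ?_⟩
      · rw [Int.cast_natCast, abs_of_nonneg (by linarith)]; linarith
      · rw [Int.cast_zero, abs_zero]; linarith
      · have := hcl.1
        rw [Int.cast_natCast, abs_le]; constructor <;> linarith
      · have := hcl.2.1
        rw [Int.cast_zero, abs_le]; constructor <;> linarith
    · refine ⟨0, d, Or.inr (Or.inl ⟨rfl, rfl⟩), ?_, ?_, ?_, ?_⟩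
      · rw [Int.cast_zero, abs_zero]; linarith
      · rw [Int.cast_natCast, abs_of_nonneg (by linarith)]; linarith
      · have := hcl.1
        rw [Int.cast_zero, abs_le]; constructor <;> linarith
      · have := hcl.2.1
        rw [Int.cast_natCast, abs_le]; constructor <;> linarith
    · refine ⟨0, 0, Or.inr (Or.inr ⟨rfl, rfl⟩), ?_, ?_, ?_, ?_⟩
      · rw [Int.cast_zero, abs_zero]; linarith
      · rw [Int.cast_zero, abs_zero]; linarith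
      · have := hcl.1
        rw [Int.cast_zero, abs_le]; constructor <;> linarith
      · have := hcl.2.1
        rw [Int.cast_zero, abs_le]; constructor <;> linarith
  refine ⟨α, β, hαβ, ?_⟩
  have hbig : (100 * c + |(α : ℝ)| + |(β : ℝ)|) * ε ≤ 1 := by
    have : (100 * c + |(α : ℝ)| + |(β : ℝ)|) * ε ≤ (100 * c + c + c) * ε :=
      mul_le_mul_of_nonneg_right (by linarith) hεpos.le
    linarith
  have hthird := hTP.third' (u := fun v => lg v y + lg v (g 2)) dd2 (C := 100 * c) hbig q0 q1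
  have hne0 := zpow_ne_zero α hx0
  have hne1 := zpow_ne_zero β hx1
  have := plane3 (η := y / (x ^ α * (1 - x) ^ β)) sx sx'
    (sy.div ((SU_zpow sx α).mul (SU_zpow sx' β))) (fun v => lg v (g 0)) (fun v => lg v (g 1))
    (fun v => lg v (g 2) - α * lg v (g 0) - β * lg v (g 1)) e0 (fun v => hγ v 0) (fun v => hγ v 1)
    (1 + |(α : ℝ)| + |(β : ℝ)|) (fun v => by
      have h1 := hγ v 0
      have h2 := hγ v 1
      have h3 := hγ v 2
      have h4 := abs_sub (lg v (g 2) - α * lg v (g 0)) (β * lg v (g 1))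
      have h5 := abs_sub (lg v (g 2)) (α * lg v (g 0))
      rw [abs_mul] at h4 h5
      have h6 := mul_le_mul_of_nonneg_left h1 (abs_nonneg (α : ℝ))
      have h7 := mul_le_mul_of_nonneg_left h2 (abs_nonneg (β : ℝ))
      linarith) H (100 * c + |(α : ℝ)| + |(β : ℝ)| + 10) ε h hHd hsum hεpos (by positivity)
    (by positivity) hhdef hεh (by nlinarith) (fun v => by
      refine le_of_eq_of_le ?_ (hthird v)
      congr 1
      rw [lg_div v hy (mul_ne_zero hne0 hne1), lg_mul v hne0 hne1, lg_zpow, lg_zpow]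
      ring)
  refine this.trans ?_
  apply mul_le_mul_of_nonneg_right _ hHpos.le
  linarith

end Run7.h498.GZ
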