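import Pool.Agent.Run7.h498.GZ.R6

set_option autoImplicit false

/-!
# Ruled surfaces: bounded height
-/

namespace Run7.h498.GZ

open Polynomial NumberField Height Real Module Pool.Agent.Y740 Pool.Agent.Y740.G Run7.h498

/-- the difference of two polynomials -/
lemma fval1_sub {F : Type} [Field F] {d : ℕ} (D E : Fin (d + 1) → F) (x : F) :
    fval1 (fun i => D i - E i) x = fval1 D x - fval1 E x := by
  simp only [fval1, sub_mul, Finset.sum_sub_distrib]

lemma ratio (a c : Qb) {b : Qb} (hb : b ≠ 0) : a / b * (b * c) = a * c := by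
  field_simp

/-- bounded height of both coordinates, from bounded height of the first -/
theorem hbh_of {d : ℕ} (D E : Fin (d + 1) → Qb) (hD : vP D ≠ 0) (hE : vP E ≠ 0)
    (hF : vP (fun i => D i - E i) ≠ 0) (g : Fin 5 → Qb) (hg : ∀ l, g l ≠ 0)
    (hx : ∃ (C : ℝ) (U : Finset (Fin 5 → ℤ)), (∀ u ∈ U, u ≠ 0) ∧
      ∀ x y : Qb, (∀ l, cvec D E x y l ≠ 0) → fval1 D x ≠ 0 → fval1 E x ≠ 0 →
      fval1 D x ≠ fval1 E x → HasRelations (fun l => g l * cvec D E x y l) 3 →
      NumberField.absLogHeight₁ x ≤ C ∨ ∃ u ∈ U, ∏ l, (g l * cvec D E x y l) ^ u l = 1) :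
    ∃ (C : ℝ) (U : Finset (Fin 5 → ℤ)), (∀ u ∈ U, u ≠ 0) ∧
      ∀ x y : Qb, (∀ l, cvec D E x y l ≠ 0) → HasRelations (fun l => g l * cvec D E x y l) 3 →
      (NumberField.absLogHeight₁ x ≤ C ∧ NumberField.absLogHeight₁ y ≤ C) ∨
        ∃ u ∈ U, ∏ l, (g l * cvec D E x y l) ^ u l = 1 := by
  classical
  obtain ⟨C1, U1, hU1, h1⟩ := hx
  obtain ⟨C2, hC2, h2⟩ := ystepQ
  obtain ⟨D1, hD1, hD1'⟩ := ht_eval (vP D)
  obtain ⟨D2, hD2, hD2'⟩ := ht_eval (vP E)
  obtain ⟨D3, hD3, hD3'⟩ := ht_eval (vP (fun i => D i - E i))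
  choose UD hUD hUD' using fun x : Qb => fixed_x (g 0 * x) (g 1 * (1 - x)) (g 2 / g 3) 2 3 4
    (fun f => Fin.prod_univ_five f)
  choose UE hUE hUE' using fun x : Qb => fixed_x (g 0 * x) (g 1 * (1 - x)) (g 2 / g 4) 2 4 3
    (fun f => by rw [Fin.prod_univ_five f]; ring)
  choose UF hUF hUF' using fun x : Qb => fixed_x (g 0 * x) (g 1 * (1 - x)) (g 3 / g 4) 3 4 2
    (fun f => by rw [Fin.prod_univ_five f]; ring)
  set UU : Finset (Fin 5 → ℤ) := (vP D).roots.toFinset.biUnion UD ∪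
    (vP E).roots.toFinset.biUnion UE ∪ (vP (fun i => D i - E i)).roots.toFinset.biUnion UF with hUU
  refine ⟨|C1| + C2 * (1 + (D1 * (1 + |C1|) + D2 * (1 + |C1|) + D3 * (1 + |C1|) +
      ∑ l, NumberField.absLogHeight₁ (g l))), U1 ∪ UU, ?_, ?_⟩
  · intro u hu
    rcases Finset.mem_union.mp hu with h | h
    · exact hU1 u h
    · rcases Finset.mem_union.mp h with h | h
      · rcases Finset.mem_union.mp h with h | h
        · obtain ⟨y, -, h⟩ := Finset.mem_biUnion.mp h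
          exact hUD y u h
        · obtain ⟨y, -, h⟩ := Finset.mem_biUnion.mp h
          exact hUE y u h
      · obtain ⟨y, -, h⟩ := Finset.mem_biUnion.mp h
        exact hUF y u h
  intro x y hz hrel
  have hgz : ∀ l, g l * cvec D E x y l ≠ 0 := fun l => mul_ne_zero (hg l) (hz l)
  by_cases xD : fval1 D x = 0
  · right
    obtain ⟨u, hu, h⟩ := hUD' x _ hgz hrel rfl rfl (by
      show g 2 * y = g 2 / g 3 * (g 3 * (y - fval1 D x))
      rw [xD, sub_zero, ratio _ _ (hg 3)])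
    refine ⟨u, Finset.mem_union_right _ (Finset.mem_union_left _ (Finset.mem_union_left _
      (Finset.mem_biUnion.mpr ⟨x, ?_, hu⟩))), h⟩
    rw [Multiset.mem_toFinset, mem_roots hD, IsRoot.def, vP_eval, xD]
  by_cases xE : fval1 E x = 0
  · right
    obtain ⟨u, hu, h⟩ := hUE' x _ hgz hrel rfl rfl (by
      show g 2 * y = g 2 / g 4 * (g 4 * (y - fval1 E x))
      rw [xE, sub_zero, ratio _ _ (hg 4)])
    refine ⟨u, Finset.mem_union_right _ (Finset.mem_union_left _ (Finset.mem_union_right _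
      (Finset.mem_biUnion.mpr ⟨x, ?_, hu⟩))), h⟩
    rw [Multiset.mem_toFinset, mem_roots hE, IsRoot.def, vP_eval, xE]
  by_cases xF : fval1 D x = fval1 E x
  · right
    obtain ⟨u, hu, h⟩ := hUF' x _ hgz hrel rfl rfl (by
      show g 3 * (y - fval1 D x) = g 3 / g 4 * (g 4 * (y - fval1 E x))
      rw [xF, ratio _ _ (hg 4)])
    refine ⟨u, Finset.mem_union_right _ (Finset.mem_union_right _
      (Finset.mem_biUnion.mpr ⟨x, ?_, hu⟩)), h⟩
    rw [Multiset.mem_toFinset, mem_roots hF, IsRoot.def, vP_eval, fval1_sub, xF, sub_self]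
  rcases h1 x y hz xD xE xF hrel with h | ⟨u, hu, h⟩
  · left
    have h3 := h2 (fval1 D x) (fval1 E x) (fval1 (fun i => D i - E i) x) y _ g hgz (hz 2) (hz 3)
      (hz 4) xD xE (by rw [fval1_sub]; exact sub_ne_zero.mpr xF) (by rw [fval1_sub]; ring) hg
      (mul_comm _ _) (mul_comm _ _) (mul_comm _ _) hrel
    have e1 := hD1' x
    have e2 := hD2' x
    have e3 := hD3' x
    rw [vP_eval] at e1 e2 e3
    have a1 : NumberField.absLogHeight₁ x ≤ |C1| := h.trans (le_abs_self _)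
    have a2 := ht_nonneg x
    have f1 := mul_le_mul_of_nonneg_left (show 1 + NumberField.absLogHeight₁ x ≤ 1 + |C1| by
      linarith) hD1
    have f2 := mul_le_mul_of_nonneg_left (show 1 + NumberField.absLogHeight₁ x ≤ 1 + |C1| by
      linarith) hD2
    have f3 := mul_le_mul_of_nonneg_left (show 1 + NumberField.absLogHeight₁ x ≤ 1 + |C1| by
      linarith) hD3
    have h4 : NumberField.absLogHeight₁ y ≤ C2 * (1 + (D1 * (1 + |C1|) + D2 * (1 + |C1|) +
        D3 * (1 + |C1|) + ∑ l, NumberField.absLogHeight₁ (g l))) := by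
      refine h3.trans (mul_le_mul_of_nonneg_left ?_ hC2.le)
      linarith
    have h5 := (ht_nonneg y).trans h4
    have h6 := abs_nonneg C1
    constructor <;> linarith
  · exact Or.inr ⟨u, Finset.mem_union_left _ hu, h⟩

/-- The first step, over the algebraic numbers. -/
theorem step1Q (d : ℕ) (hd : 1 ≤ d) (D E : Fin (d + 1) → Qb)
    (hD : ∀ σ, cval1 D σ ≠ 0) (hE : ∀ σ, cval1 E σ ≠ 0)
    (hF : ∀ σ, cval1 (fun i => D i - E i) σ ≠ 0) (g : Fin 5 → Qb) (hg : ∀ l, g l ≠ 0) :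
    ∃ C : ℝ, ∀ x y : Qb, (∀ l, cvec D E x y l ≠ 0) → fval1 D x ≠ 0 → fval1 E x ≠ 0 →
      fval1 D x ≠ fval1 E x → HasRelations (fun l => g l * cvec D E x y l) 3 →
      NumberField.absLogHeight₁ x ≤ C ∨
      ∃ α β : ℤ, ((α = d ∧ β = 0) ∨ (α = 0 ∧ β = d) ∨ (α = 0 ∧ β = 0)) ∧
        NumberField.absLogHeight₁ (y / (x ^ α * (1 - x) ^ β)) ≤ C := by
  obtain ⟨C, hC, hb⟩ := step1G d hd
  obtain ⟨B, hB0, hB1, hB2⟩ : ∃ B : Fin 3 → Fin (d + 1) → Qb, B 0 = D ∧ B 1 = E ∧
      B 2 = fun i => D i - E i := ⟨![D, E, fun i => D i - E i], rfl, rfl, rfl⟩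
  refine ⟨C * (1 + (∑ k, ∑ i, NumberField.absLogHeight₁ (B k i) +
    ∑ k, ∑ σ, NumberField.absLogHeight₁ (cval1 (B k) σ) + ∑ l, NumberField.absLogHeight₁ (g l))), ?_⟩
  intro x y hz xD xE xF hrel
  obtain ⟨K, hK, hG, hmem⟩ := exists_galois ({x, y} ∪ Set.range g ∪
    Set.range fun i : Fin 3 × Fin (d + 1) => B i.1 i.2)
    (((by simp : ({x, y} : Set _).Finite).union (Set.finite_range g)).union (Set.finite_range _))
  have hn' := finrank_pos' K
  let xK : K := ⟨x, hmem _ (by simp)⟩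
  let yK : K := ⟨y, hmem _ (by simp)⟩
  let gK : Fin 5 → K := fun j => ⟨g j, hmem _ (by simp)⟩
  let BK : Fin 3 → Fin (d + 1) → K := fun i j => ⟨B i j, hmem _ (Or.inr ⟨(i, j), rfl⟩)⟩
  have inj := (algebraMap K Qb).injective
  have e1 : NumberField.absLogHeight₁ x = logHeight₁ xK / finrank ℚ K := ht_eq (algebraMap K Qb) xK
  have e3 : ∀ j, NumberField.absLogHeight₁ (g j) = logHeight₁ (gK j) / finrank ℚ K := fun j =>
    ht_eq (algebraMap K Qb) (gK j)
  have e4 : ∀ i j, NumberField.absLogHeight₁ (B i j) = logHeight₁ (BK i j) / finrank ℚ K :=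
    fun i j => ht_eq (algebraMap K Qb) (BK i j)
  have c1 : ∀ k σ, algebraMap K Qb (cval1 (BK k) σ) = cval1 (B k) σ := fun k σ => map_cval1 _ _ _
  have e5 : ∀ k σ, NumberField.absLogHeight₁ (cval1 (B k) σ) =
      logHeight₁ (cval1 (BK k) σ) / finrank ℚ K := fun k σ => by
    rw [← c1]; exact ht_eq (algebraMap K Qb) _
  have c2 : ∀ k, algebraMap K Qb (fval1 (BK k) xK) = fval1 (B k) x := fun k => map_fval1 _ _ _
  have e6 : ∀ α β : ℤ, NumberField.absLogHeight₁ (y / (x ^ α * (1 - x) ^ β)) =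
      logHeight₁ (yK / (xK ^ α * (1 - xK) ^ β)) / finrank ℚ K := fun α β => by
    rw [← ht_eq (algebraMap K Qb)]
    congr 1
  have hB2' : ∀ t, fval1 (B 2) t = fval1 D t - fval1 E t := fun t => by rw [hB2, fval1_sub]
  have hBne : ∀ k, fval1 (B k) x ≠ 0 := by
    intro k
    fin_cases k
    · show fval1 (B 0) x ≠ 0
      rw [hB0]; exact xD
    · show fval1 (B 1) x ≠ 0
      rw [hB1]; exact xE
    · show fval1 (B 2) x ≠ 0
      rw [hB2']; exact sub_ne_zero.mpr xF
  have hBcor : ∀ k σ, cval1 (B k) σ ≠ 0 := by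
    intro k
    fin_cases k
    · show ∀ σ, cval1 (B 0) σ ≠ 0
      rw [hB0]; exact hD
    · show ∀ σ, cval1 (B 1) σ ≠ 0
      rw [hB1]; exact hE
    · show ∀ σ, cval1 (B 2) σ ≠ 0
      rw [hB2]; exact hF
  have hB0' : ∀ t, fval1 (B 0) t = fval1 D t := fun t => by rw [hB0]
  have hB1' : ∀ t, fval1 (B 1) t = fval1 E t := fun t => by rw [hB1]
  have h := hb K BK xK yK (fun l => ![xK * gK 0, (1 - xK) * gK 1, yK * gK 2,
      (yK - fval1 (BK 0) xK) * gK 3, (yK - fval1 (BK 1) xK) * gK 4] l) gK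
    (by
      have k0 : algebraMap K Qb (xK * gK 0) ≠ 0 := by
        rw [map_mul]; exact mul_ne_zero (hz 0) (hg 0)
      have k1 : algebraMap K Qb ((1 - xK) * gK 1) ≠ 0 := by
        rw [map_mul]; exact mul_ne_zero (hz 1) (hg 1)
      have k2 : algebraMap K Qb (yK * gK 2) ≠ 0 := by
        rw [map_mul]; exact mul_ne_zero (hz 2) (hg 2)
      have k3 : algebraMap K Qb ((yK - fval1 (BK 0) xK) * gK 3) ≠ 0 := by
        rw [map_mul, map_sub, c2, hB0']; exact mul_ne_zero (hz 3) (hg 3)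
      have k4 : algebraMap K Qb ((yK - fval1 (BK 1) xK) * gK 4) ≠ 0 := by
        rw [map_mul, map_sub, c2, hB1']; exact mul_ne_zero (hz 4) (hg 4)
      intro l
      fin_cases l
      · exact fun h => k0 (by rw [← map_zero (algebraMap K Qb)]; exact congrArg _ h)
      · exact fun h => k1 (by rw [← map_zero (algebraMap K Qb)]; exact congrArg _ h)
      · exact fun h => k2 (by rw [← map_zero (algebraMap K Qb)]; exact congrArg _ h)
      · exact fun h => k3 (by rw [← map_zero (algebraMap K Qb)]; exact congrArg _ h)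
      · exact fun h => k4 (by rw [← map_zero (algebraMap K Qb)]; exact congrArg _ h))
    (fun h => hz 0 (congrArg (algebraMap K Qb) h))
    (fun h => hz 1 (congrArg (algebraMap K Qb) h))
    (fun h => hz 2 (congrArg (algebraMap K Qb) h))
    (fun h => hz 3 (by
      have := congrArg (algebraMap K Qb) h
      rw [map_sub, c2, hB0', map_zero] at this
      exact this))
    (fun h => hz 4 (by
      have := congrArg (algebraMap K Qb) h
      rw [map_sub, c2, hB1', map_zero] at this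
      exact this))
    (fun k h => hBne k (by rw [← c2, h, map_zero]))
    (inj (by rw [map_add, c2, c2, c2, hB0', hB1', hB2']; ring))
    (fun k σ h => hBcor k σ (by rw [← c1, h, map_zero]))
    (fun l h => hg l (congrArg (algebraMap K Qb) h))
    rfl rfl rfl rfl rfl
    (rel_descend (algebraMap K Qb) _ _ (fun l => by
      fin_cases l
      · exact mul_comm _ _
      · exact mul_comm _ _
      · exact mul_comm _ _
      · show algebraMap K Qb ((yK - fval1 (BK 0) xK) * gK 3) = g 3 * (y - fval1 D x)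
        rw [map_mul, map_sub, c2, hB0']
        exact mul_comm _ _
      · show algebraMap K Qb ((yK - fval1 (BK 1) xK) * gK 4) = g 4 * (y - fval1 E x)
        rw [map_mul, map_sub, c2, hB1']
        exact mul_comm _ _) hrel)
  simp only [e1, e3, e4, e5, e6]
  simp only [← Finset.sum_div, ← add_div]
  have e7 : ∀ T : ℝ, C * (1 + T / finrank ℚ K) * finrank ℚ K = C * (finrank ℚ K + T) := by
    intro T
    field_simp
  rcases h with h | ⟨α, β, hαβ, h⟩
  · left
    rw [div_le_iff₀ hn', e7]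
    exact h
  · right
    refine ⟨α, β, hαβ, ?_⟩
    rw [div_le_iff₀ hn', e7]
    exact h

/-- the coefficients of the product of a power of `x` and a power of `1 - x` -/
lemma exists_mono (d α β : ℕ) (h : α + β ≤ d) : ∃ m : Fin (d + 1) → Qb,
    ∀ x, fval1 m x = x ^ α * (1 - x) ^ β := by
  set P : Qb[X] := X ^ α * (1 - X) ^ β with hP
  have hdeg : P.natDegree < d + 1 := by
    have h1 : P.natDegree ≤ α + β := by
      rw [hP]
      refine natDegree_mul_le.trans (add_le_add (natDegree_X_pow_le _) ?_)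
      refine natDegree_pow_le.trans ?_
      have : (1 - X : Qb[X]).natDegree ≤ 1 := by
        refine (natDegree_sub_le _ _).trans ?_
        simp
      nlinarith
    omega
  refine ⟨fun i => P.coeff i, fun x => ?_⟩
  have h1 := eval_eq_sum_range' hdeg x
  rw [Finset.sum_range] at h1
  rw [fval1, ← h1, hP]
  simp

/-- bounded height, generic case -/
theorem hbhR {d : ℕ} (hd : 1 ≤ d) (D E : Fin (d + 1) → Qb)
    (hD : ∀ σ, cval1 D σ ≠ 0) (hE : ∀ σ, cval1 E σ ≠ 0)
    (hF : ∀ σ, cval1 (fun i => D i - E i) σ ≠ 0) (g : Fin 5 → Qb) (hg : ∀ l, g l ≠ 0) :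
    ∃ (C : ℝ) (U : Finset (Fin 5 → ℤ)), (∀ u ∈ U, u ≠ 0) ∧
      ∀ x y : Qb, (∀ l, cvec D E x y l ≠ 0) → fval1 D x ≠ 0 → fval1 E x ≠ 0 →
      fval1 D x ≠ fval1 E x → HasRelations (fun l => g l * cvec D E x y l) 3 →
      NumberField.absLogHeight₁ x ≤ C ∨ ∃ u ∈ U, ∏ l, (g l * cvec D E x y l) ^ u l = 1 := by
  classical
  obtain ⟨C1, h1⟩ := step1Q d hd D E hD hE hF g hg
  obtain ⟨m0, hm0⟩ := exists_mono d d 0 (by omega)
  obtain ⟨m1, hm1⟩ := exists_mono d 0 d (by omega)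
  obtain ⟨m2, hm2⟩ := exists_mono d 0 0 (by omega)
  obtain ⟨Ca, Ua, hUa, ha⟩ := step2 hd D E m0 3 D (fun x y => rfl) (fun σ => Or.inl (hD σ)) g hg C1
  obtain ⟨Cb, Ub, hUb, hb⟩ := step2 hd D E m1 3 D (fun x y => rfl) (fun σ => Or.inl (hD σ)) g hg C1
  obtain ⟨Cc, Uc, hUc, hc⟩ := step2 hd D E m2 3 D (fun x y => rfl) (fun σ => Or.inl (hD σ)) g hg C1
  refine ⟨|C1| + |Ca| + |Cb| + |Cc|, Ua ∪ Ub ∪ Uc, ?_, ?_⟩
  · intro u hu
    rcases Finset.mem_union.mp hu with h | h
    · rcases Finset.mem_union.mp h with h | h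
      · exact hUa u h
      · exact hUb u h
    · exact hUc u h
  intro x y hz xD xE xF hrel
  have i1 := le_abs_self C1
  have i2 := le_abs_self Ca
  have i3 := le_abs_self Cb
  have i4 := le_abs_self Cc
  have j1 := abs_nonneg C1
  have j2 := abs_nonneg Ca
  have j3 := abs_nonneg Cb
  have j4 := abs_nonneg Cc
  have hx0 : x ≠ 0 := hz 0
  have hx1 : 1 - x ≠ 0 := hz 1
  rcases h1 x y hz xD xE xF hrel with h | ⟨α, β, hαβ, h⟩
  · left; linarith
  have hM : x ^ α * (1 - x) ^ β ≠ 0 := mul_ne_zero (zpow_ne_zero _ hx0) (zpow_ne_zero _ hx1)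
  have hy : y = y / (x ^ α * (1 - x) ^ β) * (x ^ α * (1 - x) ^ β) := by
    rw [div_mul_cancel₀ _ hM]
  rcases hαβ with ⟨rfl, rfl⟩ | ⟨rfl, rfl⟩ | ⟨rfl, rfl⟩
  · have h3 := ha x y _ hz hrel (hy.trans (by
      rw [hm0, pow_zero, zpow_natCast, zpow_zero])) h
    rcases h3 with h3 | ⟨u, hu, h3⟩
    · left; linarith
    · exact Or.inr ⟨u, Finset.mem_union_left _ (Finset.mem_union_left _ hu), h3⟩
  · have h3 := hb x y _ hz hrel (hy.trans (by
      rw [hm1, pow_zero, zpow_natCast, zpow_zero])) h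
    rcases h3 with h3 | ⟨u, hu, h3⟩
    · left; linarith
    · exact Or.inr ⟨u, Finset.mem_union_left _ (Finset.mem_union_right _ hu), h3⟩
  · have h3 := hc x y _ hz hrel (hy.trans (by
      rw [hm2, pow_zero, pow_zero, zpow_zero, zpow_zero])) h
    rcases h3 with h3 | ⟨u, hu, h3⟩
    · left; linarith
    · exact Or.inr ⟨u, Finset.mem_union_right _ hu, h3⟩

end Run7.h498.GZ
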