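import Pool.Agent.Run7.h498.Aux2

set_option autoImplicit false

/-!
# The auxiliary polynomial, for a fixed degree: the general form
-/

namespace Run7.h498.GZ

open Filter Topology Real ComplexConjugate Run7.h498

/-- The auxiliary polynomial, for a fixed degree. -/
theorem aux_fixed {G : Type} [Fintype G] (γ : G → Fin 5 → ℝ) (GA : ℝ) (hGA : ∀ g j, |γ g j| ≤ GA)
    (A : Fin 5 → ℝ × ℝ) (BA : ℝ) (hBA : ∀ j, |(A j).1| + |(A j).2| ≤ BA)
    (J : G → Type) [∀ g, Fintype (J g)] (k0 : ℕ) (C1 : ℝ) (hC1 : 0 ≤ C1)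
    (c : ∀ g, J g → ℝ × ℝ → ℕ × ℕ → ℝ)
    (hc1 : ∀ g j a, (Summable fun n => |c g j a n|) ∧
        ∑' n, |c g j a n| ≤ 2 * Real.exp (C1 * (|a.1| + |a.2|)))
    (hc2 : ∀ g j a n, k0 ≤ n.2 → c g j a n = 0) (N T T' X n1 : ℕ) (hT' : 0 < T')
    (q : ℕ) (rr : G → ℂ → ℂ → Fin 5 → ℝ) (Ds : G → ℂ → ℂ → Fin q → ℂ) (om : G → ℂ → ℂ → ℂ)
    (M : ℕ) (Q : ℝ)
    (hpow : ∀ (g : G) (i : Fin (N + 1) × Fin (N + 1)), ∃ f : Fin q → ((Fin 5 → ℝ) → ℝ),
      (∀ s, Ex M Q (f s)) ∧ ∀ x y : ℂ, om g x y * (x ^ (i.1 : ℕ) * y ^ (i.2 : ℕ)) =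
        ∑ s, (f s (rr g x y) : ℂ) * Ds g x y s)
    (A0 : ℝ) (hA0 : Q * Real.exp (2 * M * GA) *
      (2 * Real.exp (C1 * (2 * M * BA))) ≤ A0) (hA0pos : 0 < A0)
    (hn1 : Fintype.card (Σ g, J g) ≤ n1)
    (hcard : 4 * (1 + n1 * (q * (T * k0))) ≤ (N + 1) ^ 2)
    (hX : (((N + 1) ^ 2 : ℕ) * (T' * A0 + 1)) ^
      (4 * ((1 + n1 * (q * (T * k0)) : ℕ) : ℝ) / ((N + 1) ^ 2 : ℕ)) ≤ (X : ℝ)) :
    ∃ a : Fin (N + 1) × Fin (N + 1) → ℤ, a ≠ 0 ∧ (∀ i, |(a i : ℝ)| ≤ X) ∧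
      ∀ (g : G) (w : ℝ × ℝ) (x y : ℂ), rr g x y = rw5 A (γ g) w →
        (∃ (j : J g) (u v : ℝ), |u| ≤ 1 / 2 ∧ |v| ≤ 1 ∧
          ∀ a, Real.exp (dt a w) = ∑' n, mon u v n * c g j a n) →
        ‖om g x y * ∑ i, (a i : ℂ) * (x ^ (i.1 : ℕ) * y ^ (i.2 : ℕ))‖ ≤
          (∑ s, ‖Ds g x y s‖) * (T * k0 * (2 * ((N + 1) ^ 2 : ℕ) * X / T') +
            (1 / 2) ^ T * (((N + 1) ^ 2 : ℕ) * X * A0)) := by
  classical
  have hBA0 : 0 ≤ BA := le_trans (by positivity) (hBA 0)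
  -- the forms
  have hforms : ∀ (i : Fin (N + 1) × Fin (N + 1)), ∃ L : Fin q → (Σ g, J g) → ℕ × ℕ → ℝ,
      (∀ s x, (Summable fun n => |L s x n|) ∧ ∑' n, |L s x n| ≤ A0) ∧
      (∀ s x n, k0 ≤ n.2 → L s x n = 0) ∧
      ∀ (z : Σ g, J g) (w : ℝ × ℝ) (u v : ℝ) (x y : ℂ),
        (∀ a, Real.exp (dt a w) = ∑' n, mon u v n * c z.1 z.2 a n) → |u| ≤ 1 → |v| ≤ 1 →
        rr z.1 x y = rw5 A (γ z.1) w → om z.1 x y * (x ^ (i.1 : ℕ) * y ^ (i.2 : ℕ)) =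
          ∑ s, ((∑' n, mon u v n * L s z n : ℝ) : ℂ) * Ds z.1 x y s := by
    intro i
    choose f hf hxy using fun g => hpow g i
    choose L hL1 hL2 hL3 using fun g s => forms γ GA hGA A BA hBA k0 C1 hC1 c hc1 hc2
      M Q (f g s) (hf g s)
    refine ⟨fun s x => L x.1 s x, fun s x => ⟨(hL1 x.1 s x).1, (hL1 x.1 s x).2.trans hA0⟩,
      fun s x => hL2 x.1 s x, ?_⟩
    intro z w u v x y hw hu hv hr
    rw [hxy]
    apply Finset.sum_congr rfl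
    intro s _
    rw [hr, hL3 z.1 s z w u v hw hu hv]
  choose L hL1 hL2 hL3 using hforms
  -- Siegel's lemma
  set Rw := Option ((Σ g, J g) × (Fin q × (Fin T × Fin k0))) with hRw
  have hcR : Fintype.card Rw ≤ 1 + n1 * (q * (T * k0)) := by
    show Fintype.card (Option ((Σ g, J g) × (Fin q × (Fin T × Fin k0)))) ≤ _
    rw [Fintype.card_option, Fintype.card_prod, Fintype.card_prod, Fintype.card_prod,
      Fintype.card_fin, Fintype.card_fin, Fintype.card_fin]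
    have := Nat.mul_le_mul_right (q * (T * k0)) hn1
    omega
  have hcI : Fintype.card (Fin (N + 1) × Fin (N + 1)) = (N + 1) ^ 2 := by
    rw [Fintype.card_prod, Fintype.card_fin]; ring
  set F : Rw → (Fin (N + 1) × Fin (N + 1)) → ℂ := fun r i =>
    match r with
    | none => 0
    | some (z, s, p, q) => ((L i s z ((p : ℕ), (q : ℕ)) : ℝ) : ℂ) with hF
  have hLle : ∀ i s z n, |L i s z n| ≤ A0 := by
    intro i s z n
    exact ((hL1 i s z).1.le_tsum n fun _ _ => abs_nonneg _).trans (hL1 i s z).2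
  have hFb : ∀ r i, ‖F r i‖ ≤ A0 := by
    intro r i
    rcases r with _ | ⟨z, s, p, q⟩
    · simp only [hF, norm_zero]; exact hA0pos.le
    · simp only [hF, Complex.norm_real, Real.norm_eq_abs]
      exact hLle _ _ _ _
  have hX' : ((Fintype.card (Fin (N + 1) × Fin (N + 1)) : ℝ) * max 1 (T' * A0 + 1)) ^
      (((2 * Fintype.card Rw : ℕ) : ℝ) / ((Fintype.card (Fin (N + 1) × Fin (N + 1)) : ℝ) -
        ((2 * Fintype.card Rw : ℕ) : ℝ))) ≤ X := by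
    rw [hcI]
    refine le_trans ?_ hX
    have hm : max 1 ((T' : ℝ) * A0 + 1) = T' * A0 + 1 := max_eq_right (by
      have : 0 ≤ (T' : ℝ) * A0 := by positivity
      linarith)
    rw [hm]
    have hcI1 : (1 : ℝ) ≤ ((N + 1) ^ 2 : ℕ) := by
      have : 1 ≤ (N + 1) ^ 2 := Nat.one_le_pow _ _ (Nat.succ_pos N)
      exact_mod_cast this
    apply Real.rpow_le_rpow_of_exponent_le
    · have : 0 ≤ (T' : ℝ) * A0 := by positivity
      nlinarith
    · have h1 : ((2 * Fintype.card Rw : ℕ) : ℝ) ≤ 2 * ((1 + n1 * (q * (T * k0)) : ℕ) : ℝ) := by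
        have : 2 * Fintype.card Rw ≤ 2 * (1 + n1 * (q * (T * k0))) := by omega
        exact_mod_cast this
      have h2 : 4 * ((1 + n1 * (q * (T * k0)) : ℕ) : ℝ) ≤ ((N + 1) ^ 2 : ℕ) := by
        exact_mod_cast hcard
      have h3 : (((N + 1) ^ 2 : ℕ) : ℝ) / 2 ≤ ((N + 1) ^ 2 : ℕ) - ((2 * Fintype.card Rw : ℕ) : ℝ) := by
        linarith
      have h4 : 4 * ((1 + n1 * (q * (T * k0)) : ℕ) : ℝ) / ((N + 1) ^ 2 : ℕ) =
          2 * ((1 + n1 * (q * (T * k0)) : ℕ) : ℝ) / ((((N + 1) ^ 2 : ℕ) : ℝ) / 2) := by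
        field_simp; ring
      rw [h4]
      apply div_le_div₀ (by positivity) h1 (by positivity) h3
  obtain ⟨a, ha0, haX, ha⟩ := Pool.Agent.Y740.siegel_approx F A0 T' X hFb hT' (by
    rw [hcI]
    have : 0 < (N + 1) ^ 2 := by positivity
    omega) hX'
  rw [hcI] at ha
  refine ⟨a, ha0, haX, ?_⟩
  rintro g w x y hr ⟨j, u, v, hu, hv, hexp⟩
  have hu1 : |u| ≤ 1 := hu.trans (by norm_num)
  set z : Σ g, J g := ⟨g, j⟩ with hz
  have hms : ∀ h : ℕ × ℕ → ℝ, Summable (fun n => |h n|) →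
      Summable (fun n => mon u v n * h n) := by
    intro h hh
    apply Summable.of_norm_bounded hh
    intro n
    rw [Real.norm_eq_abs, abs_mul]
    exact mul_le_of_le_one_left (abs_nonneg _) (mon_le hu1 hv n)
  set Λ : Fin q → ℕ × ℕ → ℝ := fun s n => ∑ i, (a i : ℝ) * L i s z n with hΛ
  have hΛpt : ∀ s n, |Λ s n| ≤ ∑ i, (X : ℝ) * |L i s z n| := by
    intro s n
    rw [hΛ]; dsimp only
    refine (Finset.abs_sum_le_sum_abs _ _).trans (Finset.sum_le_sum fun i _ => ?_)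
    rw [abs_mul]
    exact mul_le_mul_of_nonneg_right (haX i) (abs_nonneg _)
  have hs0 : ∀ s, Summable fun n => ∑ i, (X : ℝ) * |L i s z n| := fun s =>
    summable_sum fun i _ => (hL1 i s z).1.mul_left _
  have hΛs : ∀ s, Summable fun n => |Λ s n| := fun s =>
    Summable.of_nonneg_of_le (fun n => abs_nonneg _) (hΛpt s) (hs0 s)
  have hΛsum : ∀ s, ∑' n, |Λ s n| ≤ ((N + 1) ^ 2 : ℕ) * X * A0 := by
    intro s
    refine (Summable.tsum_le_tsum (hΛpt s) (hΛs s) (hs0 s)).trans ?_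
    rw [Summable.tsum_finsetSum fun i _ => (hL1 i s z).1.mul_left _]
    simp only [tsum_mul_left]
    calc ∑ i, (X : ℝ) * ∑' n, |L i s z n| ≤ ∑ _i : Fin (N + 1) × Fin (N + 1), (X : ℝ) * A0 :=
          Finset.sum_le_sum fun i _ => mul_le_mul_of_nonneg_left (hL1 i s z).2 (Nat.cast_nonneg _)
      _ = _ := by
          rw [Finset.sum_const, Finset.card_univ, hcI, nsmul_eq_mul]; ring
  have hΛ0 : ∀ s (n : ℕ × ℕ), k0 ≤ n.2 → Λ s n = 0 := by
    intro s n hn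
    apply Finset.sum_eq_zero
    intro i _
    rw [hL2 i s z n hn, mul_zero]
  have hΛε : ∀ s (n : ℕ × ℕ), n.1 < T → n.2 < k0 → |Λ s n| ≤ 2 * ((N + 1) ^ 2 : ℕ) * X / T' := by
    intro s n h1 h2
    have h3 := ha (some (z, s, ⟨n.1, h1⟩, ⟨n.2, h2⟩))
    have h4 : ∑ i, (a i : ℂ) * F (some (z, s, ⟨n.1, h1⟩, ⟨n.2, h2⟩)) i = ((Λ s n : ℝ) : ℂ) := by
      rw [hΛ]; push_cast
      rfl
    rw [h4, Complex.norm_real, Real.norm_eq_abs] at h3
    exact h3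
  have htail := fun s => tail (Λ s) (hΛs s) k0 T (hΛ0 s) _ (hΛε s) hu hv
  -- the polynomial
  have hFeq : om g x y * ∑ i, (a i : ℂ) * (x ^ (i.1 : ℕ) * y ^ (i.2 : ℕ)) =
      ∑ s, ((∑' n, mon u v n * Λ s n : ℝ) : ℂ) * Ds g x y s := by
    have h1 : ∀ i : Fin (N + 1) × Fin (N + 1), om g x y * (x ^ (i.1 : ℕ) * y ^ (i.2 : ℕ)) =
        ∑ s, ((∑' n, mon u v n * L i s z n : ℝ) : ℂ) * Ds g x y s := fun i =>
      hL3 i z w u v x y hexp hu1 hv hr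
    have h0 : ∀ i : Fin (N + 1) × Fin (N + 1), om g x y * ((a i : ℂ) * (x ^ (i.1 : ℕ) * y ^ (i.2 : ℕ))) =
        (a i : ℂ) * (om g x y * (x ^ (i.1 : ℕ) * y ^ (i.2 : ℕ))) := fun i => by ring
    rw [Finset.mul_sum]
    simp only [h0, h1]
    simp only [Finset.mul_sum]
    rw [Finset.sum_comm]
    apply Finset.sum_congr rfl
    intro s _
    have h2 : (∑' n, mon u v n * Λ s n) = ∑ i, (a i : ℝ) * ∑' n, mon u v n * L i s z n := by
      simp only [← tsum_mul_left]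
      rw [← Summable.tsum_finsetSum fun i _ => (hms _ (hL1 i s z).1).mul_left _]
      apply tsum_congr
      intro n
      rw [hΛ]; dsimp only
      rw [Finset.mul_sum]
      exact Finset.sum_congr rfl fun i _ => by ring
    rw [h2]
    push_cast
    rw [Finset.sum_mul]
    exact Finset.sum_congr rfl fun i _ => by ring
  rw [hFeq, Finset.sum_mul]
  refine (norm_sum_le _ _).trans (Finset.sum_le_sum fun s _ => ?_)
  rw [norm_mul, Complex.norm_real, Real.norm_eq_abs, mul_comm]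
  apply mul_le_mul_of_nonneg_left _ (norm_nonneg _)
  refine (htail s).trans ?_
  have h5 : (1 / 2 : ℝ) ^ T * ∑' n, |Λ s n| ≤ (1 / 2) ^ T * (((N + 1) ^ 2 : ℕ) * X * A0) :=
    mul_le_mul_of_nonneg_left (hΛsum s) (by positivity)
  linarith

end Run7.h498.GZ
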