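import Pool.Agent.Run7.h498.GZ.Aux2
import Pool.Agent.Run7.h498.Aux3

set_option autoImplicit false

/-!
# The auxiliary polynomial: the general form
-/

namespace Run7.h498.GZ

open Filter Topology Real ComplexConjugate Run7.h498

/-- The data of a surface over the complex numbers: the squares of the absolute values of the
coordinates, an algebraic relation between them, and an expression of the monomials. -/
structure SD (q : ℕ) where
  rr : ℂ → ℂ → Fin 5 → ℝ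
  Phi : (Fin 5 → ℝ) → ℝ
  Ds : ℂ → ℂ → Fin q → ℂ
  om : ℂ → ℂ → ℂ
  M : ℕ
  Q : ℝ
  hPhi : ∃ M' Q', Ex M' Q' Phi
  hrr : ∀ x y, Phi (rr x y) = 0
  hpow : ∀ N i j : ℕ, i ≤ N → j ≤ N → ∃ f : Fin q → ((Fin 5 → ℝ) → ℝ),
      (∀ s, Ex (M * N) (Q ^ N) (f s)) ∧ ∀ x y : ℂ, om x y ^ N * (x ^ i * y ^ j) =
        ∑ s, (f s (rr x y) : ℂ) * Ds x y s

/-- the covering for a curve given by a polynomial -/
theorem cover_Ex (Ph : (Fin 5 → ℝ) → ℝ) (hPh : ∃ M' Q', Ex M' Q' Ph)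
    (𝒜 : Set (Fin 5 → ℝ × ℝ)) (h𝒜 : IsCompact 𝒜) (γ : Fin 5 → ℝ)
    (hne : ∀ A ∈ 𝒜, ∃ w, Ph (rw5 A γ w) ≠ 0) (R : ℝ) :
    ∃ (J : Type) (_ : Fintype J) (k0 : ℕ) (C1 : ℝ), 0 ≤ C1 ∧ ∀ A ∈ 𝒜,
      ∃ c : J → ℝ × ℝ → ℕ × ℕ → ℝ,
      (∀ j a, (Summable fun n => |c j a n|) ∧
        ∑' n, |c j a n| ≤ 2 * Real.exp (C1 * (|a.1| + |a.2|))) ∧
      (∀ j a n, k0 ≤ n.2 → c j a n = 0) ∧
      ∀ w : ℝ × ℝ, |w.1| ≤ R → |w.2| ≤ R → Ph (rw5 A γ w) = 0 →
        ∃ (j : J) (u v : ℝ), |u| ≤ 1 / 2 ∧ |v| ≤ 1 ∧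
          ∀ a, Real.exp (dt a w) = ∑' n, mon u v n * c j a n := by
  obtain ⟨M', Q', ι, _, c, m, -, -, he⟩ := hPh
  have hPhi : ∀ A w, Ph (rw5 A γ w) =
      Run7.h498.Phi (fun i => c i * gm γ (m i)) (fun i => am A (m i)) w := by
    intro A w
    rw [he, Run7.h498.Phi]
    apply Finset.sum_congr rfl
    intro i _
    rw [rw5_mono]; ring
  have hcont : Continuous fun (A : Fin 5 → ℝ × ℝ) (i : ι) => am A (m i) := by
    unfold am
    fun_prop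
  obtain ⟨J, hJ, k0, C1, hC1, h⟩ := cover 𝒜 h𝒜 (fun i => c i * gm γ (m i))
    (fun A i => am A (m i)) hcont (fun A hA => by
      obtain ⟨w, hw⟩ := hne A hA
      exact ⟨w, by rwa [← hPhi]⟩) R
  refine ⟨J, hJ, k0, C1, hC1, fun A hA => ?_⟩
  obtain ⟨c', h1, h2, h3⟩ := h A hA
  exact ⟨c', h1, h2, fun w hw1 hw2 hw => h3 w hw1 hw2 (by rwa [← hPhi])⟩

/-- the auxiliary polynomial -/
theorem auxM {q : ℕ} {G : Type} [Fintype G] (S : G → SD q) (γ : G → Fin 5 → ℝ)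
    (𝒜 : Set (Fin 5 → ℝ × ℝ))
    (h𝒜 : IsCompact 𝒜) (hne : ∀ g, ∀ A ∈ 𝒜, ∃ w, (S g).Phi (rw5 A (γ g) w) ≠ 0) (R κ : ℝ)
    (hκ : 0 ≤ κ) (K : G → Set (ℂ × ℂ)) (DE δ : ℝ) (hDE0 : 0 ≤ DE) (hδ : 0 < δ)
    (hK : ∀ g, ∀ z ∈ K g, ∑ s, ‖(S g).Ds z.1 z.2 s‖ ≤ DE ∧ δ ≤ ‖(S g).om z.1 z.2‖) :
    ∃ X : ℕ, ∀ᶠ N : ℕ in atTop, ∀ A ∈ 𝒜, ∃ a : Fin (N + 1) × Fin (N + 1) → ℤ, a ≠ 0 ∧
      (∀ i, |(a i : ℝ)| ≤ X) ∧ ∀ (g : G) (w : ℝ × ℝ) (x y : ℂ), |w.1| ≤ R → |w.2| ≤ R →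
        (x, y) ∈ K g → (S g).rr x y = rw5 A (γ g) w →
        ‖∑ i, (a i : ℂ) * (x ^ (i.1 : ℕ) * y ^ (i.2 : ℕ))‖ ≤ Real.exp (-κ * N) := by
  classical
  choose J hJ k0 C1 hC1 hcov using fun g => cover_Ex (S g).Phi (S g).hPhi 𝒜 h𝒜 (γ g) (hne g) R
  -- the constants
  obtain ⟨BA, hBA⟩ : ∃ BA : ℝ, ∀ A ∈ 𝒜, ∀ j, |(A j).1| + |(A j).2| ≤ BA := by
    have hc : Continuous fun A : Fin 5 → ℝ × ℝ => ∑ j, (|(A j).1| + |(A j).2|) := by fun_prop
    obtain ⟨B, hB⟩ := (h𝒜.image hc).bddAbove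
    refine ⟨B, fun A hA j => ?_⟩
    refine le_trans ?_ (hB ⟨A, hA, rfl⟩)
    exact Finset.single_le_sum (f := fun j => |(A j).1| + |(A j).2|)
      (fun j _ => by positivity) (Finset.mem_univ j)
  set BA' : ℝ := |BA| with hBA'
  have hBA2 : ∀ A ∈ 𝒜, ∀ j, |(A j).1| + |(A j).2| ≤ BA' := fun A hA j =>
    (hBA A hA j).trans (le_abs_self _)
  have hBA0 : 0 ≤ BA' := abs_nonneg _
  set GA : ℝ := ∑ g, ∑ j, |γ g j| with hGA
  have hGA1 : ∀ g j, |γ g j| ≤ GA := fun g j =>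
    (Finset.single_le_sum (f := fun j => |γ g j|) (fun _ _ => abs_nonneg _)
      (Finset.mem_univ j)).trans (Finset.single_le_sum (f := fun g => ∑ j, |γ g j|)
      (fun _ _ => Finset.sum_nonneg fun _ _ => abs_nonneg _) (Finset.mem_univ g))
  have hGA0 : 0 ≤ GA := Finset.sum_nonneg fun _ _ => Finset.sum_nonneg fun _ _ => abs_nonneg _
  set K0 : ℕ := ∑ g, k0 g with hK0
  have hK0' : ∀ g, k0 g ≤ K0 := fun g =>
    Finset.single_le_sum (f := k0) (fun _ _ => Nat.zero_le _) (Finset.mem_univ g)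
  set C : ℝ := ∑ g, C1 g with hC
  have hC' : ∀ g, C1 g ≤ C := fun g =>
    Finset.single_le_sum (f := C1) (fun g _ => hC1 g) (Finset.mem_univ g)
  have hC0 : 0 ≤ C := Finset.sum_nonneg fun g _ => hC1 g
  set M0 : ℕ := ∑ g, (S g).M with hM0
  have hM0' : ∀ g, (S g).M ≤ M0 := fun g =>
    Finset.single_le_sum (f := fun g => (S g).M) (fun _ _ => Nat.zero_le _) (Finset.mem_univ g)
  set Q0 : ℝ := 1 + ∑ g, |(S g).Q| with hQ0
  have hQ01 : 1 ≤ Q0 := by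
    have : 0 ≤ ∑ g, |(S g).Q| := Finset.sum_nonneg fun _ _ => abs_nonneg _
    linarith
  have hQ0' : ∀ g, |(S g).Q| ≤ Q0 := fun g => by
    have := Finset.single_le_sum (f := fun g => |(S g).Q|) (fun _ _ => abs_nonneg _)
      (Finset.mem_univ g)
    linarith
  set C3 : ℝ := Real.log Q0 + 2 * M0 * GA + 2 * C * M0 * BA' with hC3
  have hlogQ : 0 ≤ Real.log Q0 := Real.log_nonneg hQ01
  have hC30 : 0 ≤ C3 := by positivity
  set ω : ℝ := κ + 3 + |Real.log δ| with hω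
  have hω0 : 0 ≤ ω := by positivity
  set τ : ℕ := ⌈2 * (C3 + ω)⌉₊ with hτ
  have hτ' : 2 * (C3 + ω) ≤ τ := Nat.le_ceil _
  set n1 : ℕ := Fintype.card (Σ g, J g) with hn1
  set m1 : ℕ := 1 + n1 * (q * (τ * K0)) with hm1
  set C4 : ℝ := ω + C3 + 1 with hC4
  have hC40 : 0 ≤ C4 := by positivity
  set X : ℕ := ⌈Real.exp (4 * C4 * m1)⌉₊ with hX
  refine ⟨X, ?_⟩
  filter_upwards [ev_exp 5, ev_exp (DE * X * 2 * (τ * K0 + 1)), eventually_ge_atTop (4 * m1)]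
    with N hN1 hN2 hN3 A hA
  have hN3' : (4 * m1 : ℝ) ≤ N := by exact_mod_cast hN3
  have hNr : (0 : ℝ) ≤ N := Nat.cast_nonneg N
  set A0 : ℝ := 2 * Real.exp (C3 * N) with hA0
  have hA0eq : Q0 ^ N * Real.exp (2 * (M0 * N : ℕ) * GA) *
      (2 * Real.exp (C * (2 * (M0 * N : ℕ) * BA'))) ≤ A0 := by
    have h1 : Q0 ^ N = Real.exp (N * Real.log Q0) := by
      rw [Real.exp_nat_mul, Real.exp_log (by linarith)]
    rw [h1, hA0, mul_left_comm, ← Real.exp_add, ← Real.exp_add]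
    apply le_of_eq
    congr 2
    push_cast
    rw [hC3]
    ring
  set T : ℕ := τ * N with hT
  set T' : ℕ := ⌈Real.exp (ω * N)⌉₊ with hT'
  have hT'pos : 0 < T' := Nat.ceil_pos.mpr (Real.exp_pos _)
  have hT'ge : Real.exp (ω * N) ≤ T' := Nat.le_ceil _
  have hT'le : (T' : ℝ) ≤ 2 * Real.exp (ω * N) := by
    have h1 : (T' : ℝ) < Real.exp (ω * N) + 1 := Nat.ceil_lt_add_one (Real.exp_pos _).le
    have h2 : 1 ≤ Real.exp (ω * N) := Real.one_le_exp (by positivity)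
    linarith
  have hrow : 1 + n1 * (q * (T * K0)) ≤ m1 * (N + 1) := by
    have e : m1 * (N + 1) = 1 + n1 * (q * (T * K0)) + (N + n1 * (q * (τ * K0))) := by
      rw [hm1, hT]; ring
    omega
  have hcard : 4 * (1 + n1 * (q * (T * K0))) ≤ (N + 1) ^ 2 := by
    calc 4 * (1 + n1 * (q * (T * K0))) ≤ 4 * (m1 * (N + 1)) := Nat.mul_le_mul_left 4 hrow
      _ = (4 * m1) * (N + 1) := by ring
      _ ≤ (N + 1) * (N + 1) := Nat.mul_le_mul_right _ (by omega)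
      _ = _ := by ring
  have hXle : (((N + 1) ^ 2 : ℕ) * (T' * A0 + 1)) ^
      (4 * ((1 + n1 * (q * (T * K0)) : ℕ) : ℝ) / ((N + 1) ^ 2 : ℕ)) ≤ (X : ℝ) := by
    have hbase : (((N + 1) ^ 2 : ℕ) : ℝ) * (T' * A0 + 1) ≤ Real.exp (C4 * N) := by
      have h1 : (T' : ℝ) * A0 ≤ 4 * Real.exp ((ω + C3) * N) := by
        calc (T' : ℝ) * A0 ≤ 2 * Real.exp (ω * N) * (2 * Real.exp (C3 * N)) :=
              mul_le_mul_of_nonneg_right hT'le (by positivity)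
          _ = 4 * (Real.exp (ω * N) * Real.exp (C3 * N)) := by ring
          _ = 4 * Real.exp ((ω + C3) * N) := by
              rw [← Real.exp_add]
              congr 2
              ring
      have h2 : 1 ≤ Real.exp ((ω + C3) * N) := Real.one_le_exp (by positivity)
      have h3 : (((N + 1) ^ 2 : ℕ) : ℝ) * 5 ≤ Real.exp N := by
        refine le_trans ?_ hN1
        push_cast
        have : ((N : ℝ) + 1) ^ 2 ≤ ((N : ℝ) + 1) ^ 3 :=
          pow_le_pow_right₀ (by linarith) (by norm_num)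
        linarith
      calc (((N + 1) ^ 2 : ℕ) : ℝ) * (T' * A0 + 1)
          ≤ ((N + 1) ^ 2 : ℕ) * (5 * Real.exp ((ω + C3) * N)) := by
            apply mul_le_mul_of_nonneg_left _ (Nat.cast_nonneg _)
            linarith
        _ = (((N + 1) ^ 2 : ℕ) * 5) * Real.exp ((ω + C3) * N) := by ring
        _ ≤ Real.exp N * Real.exp ((ω + C3) * N) :=
            mul_le_mul_of_nonneg_right h3 (Real.exp_pos _).le
        _ = Real.exp (C4 * N) := by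
            rw [← Real.exp_add, hC4]; congr 1; ring
    have hbase1 : (0 : ℝ) ≤ ((N + 1) ^ 2 : ℕ) * (T' * A0 + 1) := by positivity
    have hexp : 4 * ((1 + n1 * (q * (T * K0)) : ℕ) : ℝ) / ((N + 1) ^ 2 : ℕ) ≤
        4 * m1 / ((N : ℝ) + 1) := by
      have h1 : ((1 + n1 * (q * (T * K0)) : ℕ) : ℝ) ≤ m1 * ((N : ℝ) + 1) := by
        exact_mod_cast hrow
      have h2 : (((N + 1) ^ 2 : ℕ) : ℝ) = ((N : ℝ) + 1) ^ 2 := by push_cast; ring
      rw [h2, div_le_div_iff₀ (by positivity) (by positivity)]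
      have h3 : (0 : ℝ) ≤ (N : ℝ) + 1 := by positivity
      nlinarith [mul_le_mul_of_nonneg_right h1 h3]
    have hexp0 : 0 ≤ 4 * ((1 + n1 * (q * (T * K0)) : ℕ) : ℝ) / ((N + 1) ^ 2 : ℕ) := by positivity
    calc (((N + 1) ^ 2 : ℕ) * (T' * A0 + 1)) ^
          (4 * ((1 + n1 * (q * (T * K0)) : ℕ) : ℝ) / ((N + 1) ^ 2 : ℕ))
        ≤ (Real.exp (C4 * N)) ^
          (4 * ((1 + n1 * (q * (T * K0)) : ℕ) : ℝ) / ((N + 1) ^ 2 : ℕ)) :=
          Real.rpow_le_rpow hbase1 hbase hexp0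
      _ = Real.exp (C4 * N * (4 * ((1 + n1 * (q * (T * K0)) : ℕ) : ℝ) / ((N + 1) ^ 2 : ℕ))) := by
          rw [← Real.exp_mul]
      _ ≤ Real.exp (4 * C4 * m1) := by
          apply Real.exp_le_exp.mpr
          calc C4 * N * (4 * ((1 + n1 * (q * (T * K0)) : ℕ) : ℝ) / ((N + 1) ^ 2 : ℕ))
              ≤ C4 * N * (4 * m1 / ((N : ℝ) + 1)) :=
                mul_le_mul_of_nonneg_left hexp (by positivity)
            _ = 4 * C4 * m1 * (N / ((N : ℝ) + 1)) := by ring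
            _ ≤ 4 * C4 * m1 * 1 := by
                apply mul_le_mul_of_nonneg_left _ (by positivity)
                rw [div_le_one (by positivity)]
                linarith
            _ = _ := mul_one _
      _ ≤ X := Nat.le_ceil _
  -- the coefficients
  choose c hc1 hc2 hc3 using fun g => hcov g A hA
  obtain ⟨a, ha0, haX, ha⟩ := aux_fixed γ GA hGA1 A BA' (hBA2 A hA) J K0 C hC0 c
    (fun g j b => ⟨(hc1 g j b).1, (hc1 g j b).2.trans (by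
      apply mul_le_mul_of_nonneg_left _ (by norm_num)
      apply Real.exp_le_exp.mpr
      exact mul_le_mul_of_nonneg_right (hC' g) (by positivity))⟩)
    (fun g j b n hn => hc2 g j b n ((hK0' g).trans hn)) N T T' X n1 hT'pos
    q (fun g => (S g).rr) (fun g => (S g).Ds) (fun g x y => (S g).om x y ^ N) (M0 * N) (Q0 ^ N)
    (fun g i => by
      obtain ⟨f, hf, hxy⟩ := (S g).hpow N i.1 i.2 (Nat.lt_succ_iff.mp i.1.2)
        (Nat.lt_succ_iff.mp i.2.2)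
      refine ⟨f, fun s => (hf s).mono (Nat.mul_le_mul_right N (hM0' g)) ?_, hxy⟩
      calc (S g).Q ^ N ≤ |(S g).Q ^ N| := le_abs_self _
        _ = |(S g).Q| ^ N := abs_pow _ _
        _ ≤ Q0 ^ N := pow_le_pow_left₀ (abs_nonneg _) (hQ0' g) N)
    A0 hA0eq (by positivity) le_rfl
    hcard hXle
  refine ⟨a, ha0, haX, fun g w x y hw1 hw2 hxy hr => ?_⟩
  have hCM : (S g).Phi (rw5 A (γ g) w) = 0 := by rw [← hr]; exact (S g).hrr x y
  have h1 := ha g w x y hr (hc3 g w hw1 hw2 hCM)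
  obtain ⟨hDs, hom⟩ := hK g (x, y) hxy
  dsimp only at hDs hom
  have hom' : Real.exp (-(|Real.log δ| * N)) ≤ ‖(S g).om x y ^ N‖ := by
    rw [norm_pow]
    calc Real.exp (-(|Real.log δ| * N)) ≤ Real.exp (N * Real.log δ) := by
          apply Real.exp_le_exp.mpr
          have := neg_abs_le (Real.log δ)
          nlinarith
      _ = δ ^ N := by rw [Real.exp_nat_mul, Real.exp_log hδ]
      _ ≤ _ := pow_le_pow_left₀ hδ.le hom N
  have hpow : (1 / 2 : ℝ) ^ T ≤ Real.exp (-((C3 + ω) * N)) := by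
    have h2 : (1 / 2 : ℝ) ^ T = Real.exp (-(T * Real.log 2)) := by
      rw [one_div, inv_pow, Real.exp_neg, Real.exp_nat_mul, Real.exp_log (by norm_num)]
    rw [h2]
    apply Real.exp_le_exp.mpr
    apply neg_le_neg
    have h3 : (1 / 2 : ℝ) ≤ Real.log 2 := by
      have := Real.log_two_gt_d9
      linarith
    have h4 : (2 * (C3 + ω)) * N ≤ (T : ℝ) := by
      rw [hT]; push_cast
      exact mul_le_mul_of_nonneg_right hτ' hNr
    have h5 : (0 : ℝ) ≤ T := Nat.cast_nonneg T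
    nlinarith
  have hb1 : (T : ℝ) * K0 * (2 * ((N + 1) ^ 2 : ℕ) * X / T') ≤
      τ * N * K0 * (2 * ((N : ℝ) + 1) ^ 2 * X) * Real.exp (-(ω * N)) := by
    have h2 : (2 * (((N + 1) ^ 2 : ℕ) : ℝ) * X / T') ≤
        2 * ((N : ℝ) + 1) ^ 2 * X * Real.exp (-(ω * N)) := by
      rw [Real.exp_neg, ← div_eq_mul_inv]
      push_cast
      exact div_le_div_of_nonneg_left (by positivity) (Real.exp_pos _) hT'ge
    have h3 : (T : ℝ) = τ * N := by rw [hT]; push_cast; ring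
    rw [h3]
    calc (τ * N * K0 : ℝ) * (2 * ((N + 1) ^ 2 : ℕ) * X / T')
        ≤ τ * N * K0 * (2 * ((N : ℝ) + 1) ^ 2 * X * Real.exp (-(ω * N))) :=
          mul_le_mul_of_nonneg_left h2 (by positivity)
      _ = _ := by ring
  have hb2 : (1 / 2 : ℝ) ^ T * (((N + 1) ^ 2 : ℕ) * X * A0) ≤
      2 * ((N : ℝ) + 1) ^ 2 * X * Real.exp (-(ω * N)) := by
    calc (1 / 2 : ℝ) ^ T * (((N + 1) ^ 2 : ℕ) * X * A0)
        ≤ Real.exp (-((C3 + ω) * N)) * (((N + 1) ^ 2 : ℕ) * X * A0) :=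
          mul_le_mul_of_nonneg_right hpow (by positivity)
      _ = 2 * ((N : ℝ) + 1) ^ 2 * X * (Real.exp (-((C3 + ω) * N)) * Real.exp (C3 * N)) := by
          rw [hA0]; push_cast; ring
      _ = _ := by
          rw [← Real.exp_add]; congr 2; ring
  have hsum : (T : ℝ) * K0 * (2 * ((N + 1) ^ 2 : ℕ) * X / T') +
      (1 / 2 : ℝ) ^ T * (((N + 1) ^ 2 : ℕ) * X * A0) ≤
      X * 2 * (τ * K0 + 1) * ((N : ℝ) + 1) ^ 3 * Real.exp (-(ω * N)) := by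
    refine (add_le_add hb1 hb2).trans ?_
    rw [← add_mul]
    apply mul_le_mul_of_nonneg_right _ (Real.exp_pos _).le
    have e : (τ : ℝ) * N * K0 * (2 * ((N : ℝ) + 1) ^ 2 * X) + 2 * ((N : ℝ) + 1) ^ 2 * X =
        X * 2 * (τ * K0 * N + 1) * ((N : ℝ) + 1) ^ 2 := by ring
    have e' : X * 2 * ((τ : ℝ) * K0 + 1) * ((N : ℝ) + 1) ^ 3 =
        X * 2 * ((τ * K0 + 1) * (N + 1)) * ((N : ℝ) + 1) ^ 2 := by ring
    rw [e, e']
    apply mul_le_mul_of_nonneg_right _ (by positivity)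
    apply mul_le_mul_of_nonneg_left _ (by positivity)
    have : (0 : ℝ) ≤ τ * K0 := by positivity
    nlinarith
  have hfin : ‖(S g).om x y ^ N * ∑ i, (a i : ℂ) * (x ^ (i.1 : ℕ) * y ^ (i.2 : ℕ))‖ ≤
      Real.exp N * Real.exp (-(ω * N)) := by
    refine h1.trans ?_
    calc (∑ s, ‖(S g).Ds x y s‖) * (T * K0 * (2 * ((N + 1) ^ 2 : ℕ) * X / T') +
          (1 / 2) ^ T * (((N + 1) ^ 2 : ℕ) * X * A0))
        ≤ DE * (X * 2 * (τ * K0 + 1) * ((N : ℝ) + 1) ^ 3 * Real.exp (-(ω * N))) := by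
          apply mul_le_mul hDs hsum (by positivity) hDE0
      _ = (DE * X * 2 * (τ * K0 + 1)) * ((N : ℝ) + 1) ^ 3 * Real.exp (-(ω * N)) := by ring
      _ ≤ Real.exp N * Real.exp (-(ω * N)) :=
          mul_le_mul_of_nonneg_right hN2 (Real.exp_pos _).le
  rw [norm_mul, ← Real.exp_add] at hfin
  have h6 : Real.exp (-(|Real.log δ| * N)) *
      ‖∑ i, (a i : ℂ) * (x ^ (i.1 : ℕ) * y ^ (i.2 : ℕ))‖ ≤ Real.exp (N + -(ω * N)) :=
    (mul_le_mul_of_nonneg_right hom' (norm_nonneg _)).trans hfin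
  rw [Real.exp_neg, inv_mul_le_iff₀ (Real.exp_pos _), ← Real.exp_add] at h6
  refine h6.trans ?_
  apply Real.exp_le_exp.mpr
  rw [hω]
  nlinarith

end Run7.h498.GZ
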