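import Pool.Agent.Run7.h498.BH
import Pool.Agent.Y740.Liouville

set_option autoImplicit false

/-!
# Points of small height: the congruence
-/

namespace Run7.h498.GZ

open NumberField Height Real Module Pool.Agent.Y740 Run7.h498

lemma le_exp_max {x : ℝ} (hx : 0 < x) {d N : ℕ} (hd : d ≤ N) :
    x ^ d ≤ Real.exp (N * max 0 (log x)) := by
  have h1 : x ^ d = Real.exp (d * log x) := by
    rw [Real.exp_nat_mul, Real.exp_log hx]
  rw [h1]
  apply Real.exp_le_exp.mpr
  have h2 : (d : ℝ) * log x ≤ d * max 0 (log x) :=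
    mul_le_mul_of_nonneg_left (le_max_right _ _) (Nat.cast_nonneg _)
  have h3 : (d : ℝ) * max 0 (log x) ≤ N * max 0 (log x) := by
    apply mul_le_mul_of_nonneg_right _ (le_max_left _ _)
    exact_mod_cast hd
  linarith

/-- the value of an integral polynomial -/
noncomputable def iv {L : Type} [Field L] (T : Fin 3 → L) (F : MvPolynomial (Fin 3) ℤ) : L :=
  MvPolynomial.eval₂ (Int.castRingHom L) T F

lemma aeval_eq_iv {L : Type} [Field L] [Algebra ℤ L] (T : Fin 3 → L) (F : MvPolynomial (Fin 3) ℤ) :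
    MvPolynomial.aeval T F = iv T F := by
  rw [iv, MvPolynomial.aeval_def]
  congr 1
  exact Subsingleton.elim _ _

lemma map_iv {L L' : Type} [Field L] [Field L'] (ψ : L →+* L') (T : Fin 3 → L)
    (F : MvPolynomial (Fin 3) ℤ) : ψ (iv T F) = iv (fun k => ψ (T k)) F := by
  rw [iv, iv, MvPolynomial.hom_eval₂]
  congr 1
  exact Subsingleton.elim _ _

/-- If three numbers of small height satisfy an equation, then so do their `p`-th powers. -/
theorem bog_nf0 (F : MvPolynomial (Fin 3) ℤ) (p : ℕ) (hp : p.Prime)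
    (hL : ∑ m ∈ F.support, |((F.coeff m : ℤ) : ℝ)| + 1 ≤ p) :
    ∃ ε : ℝ, 0 < ε ∧ ∀ (K : Type) [Field K] [NumberField K] (T : Fin 3 → K), (∀ k, T k ≠ 0) →
      MvPolynomial.aeval T F = 0 → (∀ k, logHeight₁ (T k) ≤ ε * finrank ℚ K) →
      MvPolynomial.aeval (fun k => T k ^ p) F = 0 := by
  classical
  set L : ℝ := ∑ m ∈ F.support, |((F.coeff m : ℤ) : ℝ)| + 1 / 2 with hLdef
  have hs0 : 0 ≤ ∑ m ∈ F.support, |((F.coeff m : ℤ) : ℝ)| :=
    Finset.sum_nonneg fun _ _ => abs_nonneg _
  have hL0 : 0 < L := by positivity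
  have hLp : L < p := by linarith
  have : Fact p.Prime := ⟨hp⟩
  obtain ⟨H, hH⟩ : ∃ H, MvPolynomial.expand p F - F ^ p = MvPolynomial.C (p : ℤ) * H := by
    have h1 : MvPolynomial.C (p : ℤ) ∣ MvPolynomial.expand p F - F ^ p := by
      rw [MvPolynomial.C_dvd_iff_zmod, map_sub, MvPolynomial.map_expand,
        MvPolynomial.expand_zmod, map_pow, sub_self]
    exact h1
  obtain ⟨D, hDF, hDH⟩ : ∃ D : ℕ, (∀ m ∈ F.support, ∀ k, p * m k ≤ D) ∧
      ∀ m ∈ H.support, ∀ k, m k ≤ D := by
    refine ⟨p * F.totalDegree + H.totalDegree, fun m hm k => ?_, fun m hm k => ?_⟩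
    · have h1 := MvPolynomial.le_totalDegree hm
      have h2 : m k ≤ m.sum fun _ e => e := by
        rw [Finsupp.sum_fintype _ _ (fun _ => rfl)]
        exact Finset.single_le_sum (f := fun k => m k) (fun _ _ => Nat.zero_le _)
          (Finset.mem_univ k)
      have := Nat.mul_le_mul_left p (h2.trans h1)
      omega
    · have h1 := MvPolynomial.le_totalDegree hm
      have h2 : m k ≤ m.sum fun _ e => e := by
        rw [Finsupp.sum_fintype _ _ (fun _ => rfl)]
        exact Finset.single_le_sum (f := fun k => m k) (fun _ _ => Nat.zero_le _)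
          (Finset.mem_univ k)
      omega
  have hp0 : (0 : ℝ) < p := by exact_mod_cast hp.pos
  have hlog : log L < log p := Real.log_lt_log hL0 hLp
  refine ⟨(log p - log L) / (3 * D + 1) / 2, by
    have : 0 < log p - log L := by linarith
    positivity, fun K _ _ T hT hF hsm => ?_⟩
  set ε : ℝ := (log p - log L) / (3 * D + 1) / 2 with hε
  by_contra ht
  set t : K := MvPolynomial.aeval (fun k => T k ^ p) F with htdef
  have hpK : ((p : ℕ) : K) ≠ 0 := by exact_mod_cast hp.ne_zero
  have htH : t = (p : K) * MvPolynomial.aeval T H := by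
    have h1 := congrArg (MvPolynomial.aeval T) hH
    rw [map_sub, map_pow, hF, zero_pow hp.ne_zero, sub_zero, map_mul, MvPolynomial.aeval_expand] at h1
    have h2 : (fun k => T k ^ p) = T ^ p := rfl
    rw [htdef, h2, h1]
    simp
  have hH0 : MvPolynomial.aeval T H ≠ 0 := fun h => ht (by rw [htH, h, mul_zero])
  obtain ⟨S, hS⟩ := exists_SU [T 0, T 1, T 2, (p : K), t] (by
    intro z hz
    simp only [List.mem_cons, List.not_mem_nil, or_false] at hz
    rcases hz with rfl | rfl | rfl | rfl | rfl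
    · exact hT _
    · exact hT _
    · exact hT _
    · exact hpK
    · exact ht)
  have sT : ∀ k, SU S (T k) := by
    intro k; fin_cases k <;> exact hS _ (by simp)
  have sp : SU S (p : K) := hS _ (by simp)
  have st : SU S t := hS _ (by simp)
  set mx : Pl S → ℝ := fun v => ∑ k, max 0 (lg v (T k)) with hmx
  set e : Pl S → ℝ := fun v => match v with
    | Sum.inl _ => log L
    | Sum.inr w => log (w.1 (p : K)) with he
  have hd : (0 : ℝ) < finrank ℚ K := by exact_mod_cast (finrank_pos : 0 < finrank ℚ K)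
  have hb : ∀ v : Pl S, lg v t ≤ e v + D * mx v := by
    rintro (φ | w)
    · show log ‖φ t‖ ≤ log L + D * ∑ k, max 0 (log ‖φ (T k)‖)
      have h0 : 0 < ‖φ t‖ := norm_pos_iff.mpr ((map_ne_zero φ).mpr ht)
      rw [Real.log_le_iff_le_exp h0, Real.exp_add, Real.exp_log hL0, Finset.mul_sum, Real.exp_sum]
      have h1 : φ t = ∑ m ∈ F.support, ((F.coeff m : ℤ) : ℂ) * ∏ k, φ (T k) ^ (p * m k) := by
        rw [htdef, MvPolynomial.aeval_def, MvPolynomial.eval₂_eq', map_sum]
        apply Finset.sum_congr rfl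
        intro m _
        rw [map_mul, map_prod]
        congr 1
        · simp
        · apply Finset.prod_congr rfl
          intro k _
          rw [map_pow, map_pow, ← pow_mul]
      rw [h1]
      refine (norm_sum_le _ _).trans ?_
      have h2 : ∀ m ∈ F.support, ‖((F.coeff m : ℤ) : ℂ) * ∏ k, φ (T k) ^ (p * m k)‖ ≤
          |((F.coeff m : ℤ) : ℝ)| * ∏ k, Real.exp (D * max 0 (log ‖φ (T k)‖)) := by
        intro m hm
        rw [norm_mul, Complex.norm_intCast, norm_prod]
        apply mul_le_mul_of_nonneg_left _ (abs_nonneg _)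
        apply Finset.prod_le_prod (fun _ _ => norm_nonneg _)
        intro k _
        rw [norm_pow]
        exact le_exp_max (norm_pos_iff.mpr ((map_ne_zero φ).mpr (hT k))) (hDF m hm k)
      refine (Finset.sum_le_sum h2).trans ?_
      rw [← Finset.sum_mul]
      apply mul_le_mul_of_nonneg_right _ (Finset.prod_nonneg fun _ _ => (Real.exp_pos _).le)
      linarith
    · show log (w.1 t) ≤ log (w.1 (p : K)) + D * ∑ k, max 0 (log (w.1 (T k)))
      have h0 : 0 < w.1 (MvPolynomial.aeval T H) := FinitePlace.pos_iff.mpr hH0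
      have h1 : 0 < w.1 (p : K) := FinitePlace.pos_iff.mpr hpK
      rw [htH, map_mul, Real.log_mul h1.ne' h0.ne']
      apply add_le_add le_rfl
      rw [Real.log_le_iff_le_exp h0, Finset.mul_sum, Real.exp_sum]
      rw [MvPolynomial.aeval_def, MvPolynomial.eval₂_eq']
      apply fin_sum_le w.1 _ _ _ (Finset.prod_nonneg fun _ _ => (Real.exp_pos _).le)
      intro m hm
      rw [map_mul, map_prod]
      have h2 : w.1 (algebraMap ℤ K (H.coeff m)) ≤ 1 := by
        have := fin_int_le w.1 (H.coeff m)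
        simpa using this
      calc w.1 (algebraMap ℤ K (H.coeff m)) * ∏ k, w.1 (T k ^ m k)
          ≤ 1 * ∏ k, Real.exp (D * max 0 (log (w.1 (T k)))) := by
            apply mul_le_mul h2 _ (Finset.prod_nonneg fun _ _ => apply_nonneg _ _) zero_le_one
            apply Finset.prod_le_prod (fun _ _ => apply_nonneg _ _)
            intro k _
            rw [map_pow]
            exact le_exp_max (FinitePlace.pos_iff.mpr (hT k)) (hDH m hm k)
        _ = _ := one_mul _
  have hsum := Finset.sum_le_sum fun v (_ : v ∈ (Finset.univ : Finset (Pl S))) => hb v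
  rw [sum_lg st, Finset.sum_add_distrib, ← Finset.mul_sum] at hsum
  have hse : ∑ v, e v = finrank ℚ K * (log L - log p) := by
    have h1 := sum_lg sp
    rw [Fintype.sum_sum_type] at h1 ⊢
    have h2 : ∑ φ : K →+* ℂ, lg (S := S) (Sum.inl φ) (p : K) = finrank ℚ K * log p := by
      have : ∀ φ : K →+* ℂ, lg (S := S) (Sum.inl φ) (p : K) = log p := by
        intro φ
        show log ‖φ (p : K)‖ = log p
        rw [map_natCast, Complex.norm_natCast]
      simp only [this, Finset.sum_const, Finset.card_univ, NumberField.Embeddings.card,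
        nsmul_eq_mul]
    have h3 : ∑ φ : K →+* ℂ, e (Sum.inl φ) = finrank ℚ K * log L := by
      show ∑ _φ : K →+* ℂ, log L = _
      simp only [Finset.sum_const, Finset.card_univ, NumberField.Embeddings.card, nsmul_eq_mul]
    have h4 : ∑ w : {w : FinitePlace K // w ∈ S}, e (Sum.inr w) =
        ∑ w : {w : FinitePlace K // w ∈ S}, lg (S := S) (Sum.inr w) (p : K) := rfl
    rw [h3, h4]
    linarith
  have hsm2 : ∑ v, mx v ≤ 3 * (ε * finrank ℚ K) := by
    rw [hmx, Finset.sum_comm, Fin.sum_univ_three, sum_max_lg (sT 0), sum_max_lg (sT 1),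
      sum_max_lg (sT 2)]
    have := hsm 0; have := hsm 1; have := hsm 2
    linarith
  rw [hse] at hsum
  have hε0 : 0 < ε := by
    have : 0 < log p - log L := by linarith
    positivity
  have h5 : (D : ℝ) * ∑ v, mx v ≤ D * (3 * (ε * finrank ℚ K)) :=
    mul_le_mul_of_nonneg_left hsm2 (Nat.cast_nonneg _)
  have h6 : (3 * D + 1) * ε * 2 = log p - log L := by
    rw [hε]; field_simp
  have h7 : 0 ≤ finrank ℚ K * ((log L - log p) + 3 * D * ε) := by nlinarith
  have h8 : (log L - log p) + 3 * D * ε < 0 := by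
    have : 0 ≤ (D : ℝ) * ε := by positivity
    nlinarith
  nlinarith

theorem bog_nf (F : MvPolynomial (Fin 3) ℤ) (p : ℕ) (hp : p.Prime)
    (hL : ∑ m ∈ F.support, |((F.coeff m : ℤ) : ℝ)| + 1 ≤ p) :
    ∃ ε : ℝ, 0 < ε ∧ ∀ (K : Type) [Field K] [NumberField K] (T : Fin 3 → K), (∀ k, T k ≠ 0) →
      iv T F = 0 → (∀ k, logHeight₁ (T k) ≤ ε * finrank ℚ K) → iv (fun k => T k ^ p) F = 0 := by
  obtain ⟨ε, hε, h⟩ := bog_nf0 F p hp hL
  refine ⟨ε, hε, fun K _ _ T h1 h2 h3 => ?_⟩
  rw [← aeval_eq_iv] at h2 ⊢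
  exact h K T h1 h2 h3

end Run7.h498.GZ
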