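import Pool.Agent.Run7.h498.GZ.Bog1
import Pool.Agent.Run7.h498.Curve

set_option autoImplicit false

/-!
# Points of small height: the curve
-/

namespace Run7.h498.GZ

open NumberField Height Real Module Pool.Agent.Y740 Run7.h498 Pool.Agent.Y740.G
open Pool.Agent.Y740.Z (ev)

/-- the ring of polynomials in two variables -/
abbrev R2 : Type := Polynomial (Polynomial Qb)

lemma qb_alg (a : Qb) : IsAlgebraic ℤ a :=
  (IsFractionRing.isAlgebraic_iff ℤ ℚ Qb).mpr (Algebra.IsAlgebraic.isAlgebraic a)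

/-- three rational functions in two variables are dependent -/
theorem exists_F (T : Fin 3 → FractionRing R2) : ∃ F : MvPolynomial (Fin 3) ℤ, F ≠ 0 ∧
    iv T F = 0 := by
  classical
  suffices h : ∃ F : MvPolynomial (Fin 3) ℤ, F ≠ 0 ∧ MvPolynomial.aeval T F = 0 by
    obtain ⟨F, h1, h2⟩ := h
    exact ⟨F, h1, by rw [← h2, aeval_eq_iv]⟩
  by_contra hcon
  push Not at hcon
  have hind : AlgebraicIndependent ℤ T := by
    rw [algebraicIndependent_iff]
    intro F hF
    by_contra h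
    exact hcon F h hF
  have h3 := hind.cardinalMk_le_trdeg
  let s : Set (FractionRing R2) := {algebraMap R2 _ (Polynomial.C Polynomial.X), algebraMap R2 _ Polynomial.X}
  have halg0 : ∀ P : R2, IsAlgebraic (Algebra.adjoin ℤ s) (algebraMap R2 (FractionRing R2) P) := by
    have hconst : ∀ a : Qb, IsAlgebraic (Algebra.adjoin ℤ s)
        (algebraMap R2 (FractionRing R2) (Polynomial.C (Polynomial.C a))) := by
      intro a
      have h1 : IsAlgebraic ℤ (algebraMap R2 (FractionRing R2) (Polynomial.C (Polynomial.C a))) := by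
        have h2 := qb_alg a
        obtain ⟨q, hq0, hq⟩ := h2
        refine ⟨q, hq0, ?_⟩
        have h3 := congrArg (fun b : Qb => algebraMap R2 (FractionRing R2)
          (Polynomial.C (Polynomial.C b))) hq
        simp only [map_zero] at h3
        rw [← h3, Polynomial.aeval_def, Polynomial.aeval_def]
        have h4 := Polynomial.hom_eval₂ q (algebraMap ℤ Qb)
          ((algebraMap R2 (FractionRing R2)).comp ((Polynomial.C : Polynomial Qb →+* R2).comp
          (Polynomial.C : Qb →+* Polynomial Qb))) a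
        simp only [RingHom.comp_apply] at h4
        rw [h4]
        congr 1
      exact h1.extendScalars (FaithfulSMul.algebraMap_injective ℤ (Algebra.adjoin ℤ s))
    have hx : IsAlgebraic (Algebra.adjoin ℤ s)
        (algebraMap R2 (FractionRing R2) (Polynomial.C Polynomial.X)) :=
      isAlgebraic_algebraMap (⟨_, Algebra.subset_adjoin (Set.mem_insert _ _)⟩ : Algebra.adjoin ℤ s)
    have hy : IsAlgebraic (Algebra.adjoin ℤ s)
        (algebraMap R2 (FractionRing R2) Polynomial.X) :=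
      isAlgebraic_algebraMap (⟨_, Algebra.subset_adjoin (Set.mem_insert_of_mem _ rfl)⟩ :
        Algebra.adjoin ℤ s)
    have hC : ∀ P : Polynomial Qb, IsAlgebraic (Algebra.adjoin ℤ s)
        (algebraMap R2 (FractionRing R2) (Polynomial.C P)) := by
      intro P
      induction P using Polynomial.induction_on with
      | C a => exact hconst a
      | add P Q hP hQ =>
        rw [map_add, map_add]; exact hP.add hQ
      | monomial n a h =>
        rw [pow_succ, ← mul_assoc, Polynomial.C_mul, map_mul]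
        exact h.mul hx
    intro P
    induction P using Polynomial.induction_on with
    | C a => exact hC a
    | add P Q hP hQ =>
      rw [map_add]; exact hP.add hQ
    | monomial n a h =>
      rw [pow_succ, ← mul_assoc, map_mul]
      exact h.mul hy
  have halg : Algebra.IsAlgebraic (Algebra.adjoin ℤ s) (FractionRing R2) := by
    refine ⟨fun w => ?_⟩
    obtain ⟨p, q, hq, rfl⟩ := IsFractionRing.div_surjective (A := R2) w
    rw [div_eq_mul_inv]
    exact (halg0 p).mul (halg0 q).inv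
  have h4 := Algebra.IsAlgebraic.trdeg_le_cardinalMk ℤ s
  have h5 : Cardinal.mk s ≤ 2 := Cardinal.mk_insert_le.trans (by
    rw [Cardinal.mk_singleton]; norm_num)
  have h6 := (h3.trans h4).trans h5
  rw [Cardinal.mk_fin] at h6
  norm_num at h6

/-- the exponent of a monomial in the monomials -/
def em (u : Fin 3 → Fin 5 → ℤ) (m : Fin 3 →₀ ℕ) (l : Fin 5) : ℤ := ∑ k, (m k : ℤ) * u k l

/-- the shift of the exponents -/
noncomputable def Es (F : MvPolynomial (Fin 3) ℤ) (u : Fin 3 → Fin 5 → ℤ) (p : ℕ) (l : Fin 5) : ℕ :=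
  ∑ m ∈ F.support, (p * em u m l).natAbs

/-- the equation for the powers of the monomials -/
noncomputable def Gp (c : Fin 5 → R2) (F : MvPolynomial (Fin 3) ℤ) (u : Fin 3 → Fin 5 → ℤ) (p : ℕ) :
    R2 :=
  ∑ m ∈ F.support, ((F.coeff m : ℤ) : R2) * ∏ l, c l ^ (p * em u m l + Es F u p l).toNat

lemma Gp_eval {L : Type} [Field L] (θ : R2 →+* L) (c : Fin 5 → R2) (hc : ∀ l, θ (c l) ≠ 0)
    (F : MvPolynomial (Fin 3) ℤ) (u : Fin 3 → Fin 5 → ℤ) (p : ℕ) :
    θ (Gp c F u p) = (∏ l, θ (c l) ^ Es F u p l) *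
      iv (fun k => (∏ l, θ (c l) ^ u k l) ^ p) F := by
  rw [Gp, map_sum, iv, MvPolynomial.eval₂_eq', Finset.mul_sum]
  apply Finset.sum_congr rfl
  intro m hm
  rw [map_mul, map_intCast, map_prod, mul_left_comm, eq_intCast]
  congr 1
  · have h1 : ∀ k, ((∏ l, θ (c l) ^ u k l) ^ p) ^ m k = ∏ l, θ (c l) ^ (p * ((m k : ℤ) * u k l)) := by
      intro k
      rw [← Finset.prod_pow, ← Finset.prod_pow]
      apply Finset.prod_congr rfl
      intro l _
      rw [← zpow_natCast, ← zpow_natCast, ← zpow_mul, ← zpow_mul]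
      congr 1; ring
    simp only [h1]
    rw [Finset.prod_comm, ← Finset.prod_mul_distrib]
    apply Finset.prod_congr rfl
    intro l _
    rw [map_pow]
    have h2 : ∏ k, θ (c l) ^ ((p : ℤ) * ((m k : ℤ) * u k l)) = θ (c l) ^ ((p : ℤ) * em u m l) := by
      rw [em, Finset.mul_sum]
      have : ∀ (s : Finset (Fin 3)) (a : Fin 3 → ℤ), ∏ j ∈ s, θ (c l) ^ a j = θ (c l) ^ (∑ j ∈ s, a j) := by
        intro s a
        induction s using Finset.induction_on with
        | empty => simp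
        | insert j s hj ih => rw [Finset.prod_insert hj, Finset.sum_insert hj, ih, zpow_add₀ (hc l)]
      exact this _ _
    rw [h2, ← zpow_natCast, ← zpow_natCast, ← zpow_add₀ (hc l)]
    congr 1
    have h3 : (p * em u m l).natAbs ≤ Es F u p l :=
      Finset.single_le_sum (f := fun m => (p * em u m l).natAbs) (fun _ _ => Nat.zero_le _) hm
    omega

/-- the general point of a surface in a torus -/
def GenPt (c : Fin 5 → R2) : Prop :=
  ∀ E : Finset (Fin 5 → ℤ), (∀ e ∈ E, e ≠ 0) → ∃ θ : R2 →+* ℂ, (∀ l, θ (c l) ≠ 0) ∧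
    ∀ e ∈ E, ‖∏ l, θ (c l) ^ e l‖ ≠ 1

lemma Gp_ne (c : Fin 5 → R2) (hg : GenPt c) (F : MvPolynomial (Fin 3) ℤ) (hF : F ≠ 0)
    (u : Fin 3 → Fin 5 → ℤ) (hu : LinearIndependent ℤ u) :
    ∃ p0 : ℕ, ∀ p, p0 ≤ p → Gp c F u p ≠ 0 := by
  classical
  obtain ⟨θ, hθ, hE⟩ := hg (((F.support ×ˢ F.support).filter fun x => x.1 ≠ x.2).image
    fun x => fun l => em u x.1 l - em u x.2 l) (by
    intro e he h0
    obtain ⟨x, hx, rfl⟩ := Finset.mem_image.mp he
    have hne := (Finset.mem_filter.mp hx).2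
    apply hne
    rw [Fintype.linearIndependent_iff] at hu
    have h1 := hu (fun k => (x.1 k : ℤ) - x.2 k) (by
      funext l
      have h2 := congrFun h0 l
      simp only [em, Pi.zero_apply] at h2
      rw [Finset.sum_apply]
      simp only [Pi.smul_apply, smul_eq_mul, Pi.zero_apply, sub_mul, Finset.sum_sub_distrib]
      exact h2)
    ext k
    have := h1 k
    omega)
  set τ : (Fin 3 →₀ ℕ) → ℂ := fun m => ∏ l, θ (c l) ^ em u m l with hτ
  have hτ0 : ∀ m, τ m ≠ 0 := fun m => Finset.prod_ne_zero_iff.mpr fun l _ => zpow_ne_zero _ (hθ l)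
  have hdist : ∀ m ∈ F.support, ∀ m' ∈ F.support, m ≠ m' → ‖τ m‖ ≠ ‖τ m'‖ := by
    intro m hm m' hm' hne heq
    apply hE (fun l => em u m l - em u m' l) (Finset.mem_image.mpr ⟨(m, m'),
      Finset.mem_filter.mpr ⟨Finset.mem_product.mpr ⟨hm, hm'⟩, hne⟩, rfl⟩)
    have h1 : ∏ l, θ (c l) ^ (em u m l - em u m' l) = τ m / τ m' := by
      rw [hτ]; dsimp only
      rw [← Finset.prod_div_distrib]
      exact Finset.prod_congr rfl fun l _ => zpow_sub₀ (hθ l) _ _
    rw [h1, norm_div, heq, div_self (norm_ne_zero_iff.mpr (hτ0 m'))]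
  have hsupp : F.support.Nonempty := MvPolynomial.support_nonempty.mpr hF
  obtain ⟨m0, hm0, hmax⟩ := F.support.exists_max_image (fun m => ‖τ m‖) hsupp
  have hval : ∀ p : ℕ, iv (fun k => (∏ l, θ (c l) ^ u k l) ^ p) F =
      ∑ m ∈ F.support, ((F.coeff m : ℤ) : ℂ) * τ m ^ p := by
    intro p
    rw [iv, MvPolynomial.eval₂_eq']
    apply Finset.sum_congr rfl
    intro m _
    rw [eq_intCast]
    congr 1
    have h1 : ∀ k, ((∏ l, θ (c l) ^ u k l) ^ p) ^ m k = ∏ l, θ (c l) ^ (p * ((m k : ℤ) * u k l)) := by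
      intro k
      rw [← Finset.prod_pow, ← Finset.prod_pow]
      apply Finset.prod_congr rfl
      intro l _
      rw [← zpow_natCast, ← zpow_natCast, ← zpow_mul, ← zpow_mul]
      congr 1; ring
    simp only [h1]
    rw [Finset.prod_comm, hτ]
    dsimp only
    rw [← Finset.prod_pow]
    apply Finset.prod_congr rfl
    intro l _
    rw [em, ← zpow_natCast, ← zpow_mul]
    have : ∀ (s : Finset (Fin 3)) (a : Fin 3 → ℤ), ∏ j ∈ s, θ (c l) ^ a j = θ (c l) ^ (∑ j ∈ s, a j) := by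
      intro s a
      induction s using Finset.induction_on with
      | empty => simp
      | insert j s hj ih => rw [Finset.prod_insert hj, Finset.sum_insert hj, ih, zpow_add₀ (hθ l)]
    rw [this]
    congr 1
    rw [Finset.sum_mul]
    apply Finset.sum_congr rfl
    intro k _
    ring
  have hlim : Filter.Tendsto (fun p : ℕ => ∑ m ∈ F.support.erase m0,
      |((F.coeff m : ℤ) : ℝ)| * (‖τ m‖ / ‖τ m0‖) ^ p) Filter.atTop (nhds 0) := by
    have h0 : (0 : ℝ) = ∑ m ∈ F.support.erase m0, |((F.coeff m : ℤ) : ℝ)| * 0 := by simp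
    rw [h0]
    apply tendsto_finsetSum
    intro m hm
    apply Filter.Tendsto.const_mul
    apply tendsto_pow_atTop_nhds_zero_of_lt_one
    · positivity
    · rw [div_lt_one (norm_pos_iff.mpr (hτ0 m0))]
      have hm' := Finset.mem_erase.mp hm
      exact lt_of_le_of_ne (hmax m hm'.2) (hdist m hm'.2 m0 hm0 hm'.1)
  have hc0 : 0 < |((F.coeff m0 : ℤ) : ℝ)| := by
    rw [abs_pos]
    exact_mod_cast MvPolynomial.mem_support_iff.mp hm0
  obtain ⟨p0, hp0⟩ := (hlim.eventually (gt_mem_nhds hc0)).exists_forall_of_atTop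
  refine ⟨p0, fun p hp h => ?_⟩
  have h1 := Gp_eval θ c hθ F u p
  rw [h, map_zero, hval] at h1
  have h2 : ∑ m ∈ F.support, ((F.coeff m : ℤ) : ℂ) * τ m ^ p = 0 := by
    rcases mul_eq_zero.mp h1.symm with h3 | h3
    · exact absurd h3 (Finset.prod_ne_zero_iff.mpr fun l _ => pow_ne_zero _ (hθ l))
    · exact h3
  rw [← Finset.add_sum_erase _ _ hm0] at h2
  have h3 : ‖((F.coeff m0 : ℤ) : ℂ) * τ m0 ^ p‖ ≤
      ∑ m ∈ F.support.erase m0, |((F.coeff m : ℤ) : ℝ)| * ‖τ m‖ ^ p := by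
    rw [eq_neg_of_add_eq_zero_left h2, norm_neg]
    refine (norm_sum_le _ _).trans (le_of_eq ?_)
    apply Finset.sum_congr rfl
    intro m _
    rw [norm_mul, norm_pow, Complex.norm_intCast]
  rw [norm_mul, norm_pow, Complex.norm_intCast] at h3
  have h4 := hp0 p hp
  have h5 : 0 < ‖τ m0‖ ^ p := pow_pos (norm_pos_iff.mpr (hτ0 m0)) p
  have h6 : (∑ m ∈ F.support.erase m0, |((F.coeff m : ℤ) : ℝ)| * (‖τ m‖ / ‖τ m0‖) ^ p) * ‖τ m0‖ ^ p =
      ∑ m ∈ F.support.erase m0, |((F.coeff m : ℤ) : ℝ)| * ‖τ m‖ ^ p := by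
    rw [Finset.sum_mul]
    apply Finset.sum_congr rfl
    intro m _
    rw [div_pow, mul_assoc, div_mul_cancel₀ _ h5.ne']
  nlinarith

/-- evaluation at a point -/
noncomputable def evH (a b : Qb) : R2 →+* Qb :=
  Polynomial.eval₂RingHom (Polynomial.aeval a : Polynomial Qb →ₐ[Qb] Qb).toRingHom b

lemma evH_apply (a b : Qb) (P : R2) : evH a b P = ev P a b := rfl

/-- The points with three monomials of small height lie on a curve. -/
theorem bog (c : Fin 5 → R2) (hg : GenPt c) (u : Fin 3 → Fin 5 → ℤ) (hu : LinearIndependent ℤ u) :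
    ∃ (ε : ℝ) (P : R2), 0 < ε ∧ P ≠ 0 ∧ ∀ (K : Type) [Field K] [NumberField K] (ψ : K →+* Qb)
      (x y : K) (z : Fin 5 → K), (∀ l, z l ≠ 0) → (∀ l, ψ (z l) = ev (c l) (ψ x) (ψ y)) →
      (∀ k, logHeight₁ (∏ l, z l ^ u k l) ≤ ε * finrank ℚ K) → ev P (ψ x) (ψ y) = 0 := by
  classical
  have hc0 : ∀ l, c l ≠ 0 := by
    intro l h
    obtain ⟨θ, hθ, -⟩ := hg ∅ (by simp)
    exact hθ l (by rw [h, map_zero])
  have hcF : ∀ l, algebraMap R2 (FractionRing R2) (c l) ≠ 0 := fun l h =>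
    hc0 l (IsFractionRing.injective R2 (FractionRing R2) (by rw [h, map_zero]))
  obtain ⟨F, hF, hT⟩ := exists_F fun k => ∏ l, algebraMap R2 (FractionRing R2) (c l) ^ u k l
  have hG1 : Gp c F u 1 = 0 := by
    apply IsFractionRing.injective R2 (FractionRing R2)
    rw [Gp_eval (algebraMap R2 (FractionRing R2)) c hcF F u 1]
    simp only [pow_one]
    rw [hT, mul_zero, map_zero]
  obtain ⟨p0, hp0⟩ := Gp_ne c hg F hF u hu
  obtain ⟨p, hpge, hp⟩ := Nat.exists_infinite_primes
    (p0 + ⌈∑ m ∈ F.support, |((F.coeff m : ℤ) : ℝ)| + 1⌉₊)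
  have hL : ∑ m ∈ F.support, |((F.coeff m : ℤ) : ℝ)| + 1 ≤ p := by
    refine (Nat.le_ceil _).trans ?_
    exact_mod_cast (by omega : ⌈∑ m ∈ F.support, |((F.coeff m : ℤ) : ℝ)| + 1⌉₊ ≤ p)
  obtain ⟨ε, hε, hbog⟩ := bog_nf F p hp hL
  refine ⟨ε, Gp c F u p, hε, hp0 p (by omega), fun K _ _ ψ x y z hz hzc hsm => ?_⟩
  have hθ : ∀ l, evH (ψ x) (ψ y) (c l) = ψ (z l) := fun l => (hzc l).symm
  have hθ0 : ∀ l, evH (ψ x) (ψ y) (c l) ≠ 0 := fun l => by
    rw [hθ]; exact (map_ne_zero ψ).mpr (hz l)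
  have hmap : ∀ q : ℕ, ψ (iv (fun k => (∏ l, z l ^ u k l) ^ q) F) =
      iv (fun k => (∏ l, evH (ψ x) (ψ y) (c l) ^ u k l) ^ q) F := by
    intro q
    rw [map_iv]
    congr 1
    funext k
    simp only [map_pow, map_prod, map_zpow₀, hθ]
  have h1 : iv (fun k => ∏ l, z l ^ u k l) F = 0 := by
    have h2 := Gp_eval (evH (ψ x) (ψ y)) c hθ0 F u 1
    rw [hG1, map_zero, ← hmap] at h2
    simp only [pow_one] at h2
    rcases mul_eq_zero.mp h2.symm with h3 | h3
    · exact absurd h3 (Finset.prod_ne_zero_iff.mpr fun l _ => pow_ne_zero _ (hθ0 l))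
    · exact (map_eq_zero ψ).mp h3
  have h2 := hbog K (fun k => ∏ l, z l ^ u k l)
    (fun k => Finset.prod_ne_zero_iff.mpr fun l _ => zpow_ne_zero _ (hz l)) h1 hsm
  rw [← evH_apply, Gp_eval (evH (ψ x) (ψ y)) c hθ0 F u p, ← hmap, h2, map_zero, mul_zero]

end Run7.h498.GZ
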