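import Pool.Agent.Run7.h498.GZ.Bog2

set_option autoImplicit false

/-!
# The points on one curve: the general form
-/

namespace Run7.h498.GZ

open Polynomial Real NumberField Height Module Pool.Agent.Y740 Pool.Agent.Y740.G Run7.h498
open Pool.Agent.Y740.Z (ev)

/-- clear the denominators -/
lemma clear_den (f : (FractionRing Qb[X])[X]) : ∃ (b : Qb[X]) (f' : Qb[X][X]), b ≠ 0 ∧
    f'.map (algebraMap Qb[X] (FractionRing Qb[X])) = C (algebraMap _ _ b) * f := by
  obtain ⟨b, hbm, hb⟩ := IsLocalization.integerNormalization_spec (nonZeroDivisors Qb[X]) f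
  refine ⟨b, IsLocalization.integerNormalization (nonZeroDivisors Qb[X]) f,
    nonZeroDivisors.ne_zero hbm, ?_⟩
  rw [hb, Algebra.smul_def]
  rfl

/-- On a curve, a polynomial satisfies an equation over the first coordinate. -/
theorem elim_curve (P : Qb[X][X]) (hP : P ≠ 0) (c : Qb[X][X]) : ∃ R : Qb[X][X], R ≠ 0 ∧
    ∀ (L : Type) [Field L] [Algebra Qb L] (s y : L), ev P s y = 0 → ev R s (ev c s y) = 0 := by
  classical
  set k := FractionRing Qb[X] with hk
  set a : Qb[X] →+* k := algebraMap _ _ with ha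
  have hainj : Function.Injective a := IsFractionRing.injective _ _
  set P' : k[X] := P.map a with hP'
  have hP0 : P' ≠ 0 := (Polynomial.map_ne_zero_iff hainj).mpr hP
  have : Module.Finite k (AdjoinRoot P') := (AdjoinRoot.powerBasis hP0).finite
  obtain ⟨χ, hχ, hχ0⟩ := IsIntegral.of_finite k (AdjoinRoot.mk P' (c.map a))
  have hχ1 : P' ∣ χ.comp (c.map a) := by
    rw [← AdjoinRoot.mk_eq_zero, ← hχ0]
    have h1 : (AdjoinRoot.mk P') (χ.comp (c.map a)) =
        χ.eval₂ ((AdjoinRoot.mk P').comp C) (AdjoinRoot.mk P' (c.map a)) := by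
      rw [Polynomial.comp, Polynomial.hom_eval₂]
    rw [h1]
    rfl
  obtain ⟨H, hH⟩ := hχ1
  obtain ⟨b1, χ', hb1, hχ'⟩ := clear_den χ
  obtain ⟨b2, H', hb2, hH'⟩ := clear_den H
  have hχ'0 : χ' ≠ 0 := by
    intro h
    rw [h, Polynomial.map_zero] at hχ'
    have h1 : C (a b1) * χ ≠ 0 := mul_ne_zero (by
      rw [Ne, C_eq_zero]
      intro h2
      exact hb1 (hainj (by rw [h2, map_zero]))) hχ.ne_zero
    exact h1 hχ'.symm
  have hkey : C b2 * χ'.comp c = C b1 * P * H' := by
    apply Polynomial.map_injective a hainj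
    rw [Polynomial.map_mul, Polynomial.map_mul, Polynomial.map_mul, Polynomial.map_C,
      Polynomial.map_C, Polynomial.map_comp, hχ', hH', mul_comp, C_comp, hH]
    ring
  refine ⟨C b2 * χ', mul_ne_zero (by rwa [Ne, C_eq_zero]) hχ'0, fun L _ _ s y h => ?_⟩
  have h1 := congrArg (fun Q => ev Q s y) hkey
  simp only [ev_mul, ev_C, ev_comp] at h1
  rw [h, mul_zero, zero_mul] at h1
  rw [ev_mul, ev_C, h1]

/-- the restriction to a vertical line -/
noncomputable def spec (s : Qb) (c : Qb[X][X]) : Qb[X] := c.map (evalRingHom s)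

lemma spec_eval (s y : Qb) (c : Qb[X][X]) : (spec s c).eval y = ev c s y := by
  rw [spec, eval_map, ev]
  congr 1

/-- the points on one curve -/
theorem per_curve (c : Fin 5 → Qb[X][X]) (P : Qb[X][X]) (hP : P ≠ 0) (B : ℝ) :
    ∃ U : Finset (Fin 5 → ℤ), (∀ u ∈ U, u ≠ 0) ∧ ∀ x y : Qb, (∀ l, ev (c l) x y ≠ 0) →
      ev P x y = 0 → HasRelations (fun l => ev (c l) x y) 3 →
      NumberField.absLogHeight₁ x ≤ B → NumberField.absLogHeight₁ y ≤ B →
      (∀ l, NumberField.absLogHeight₁ (ev (c l) x y) ≤ B) →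
      ∃ u ∈ U, ∏ l, ev (c l) x y ^ u l = 1 := by
  classical
  -- the curve
  have hA : ∀ l, ∃ Q : Qb[X][X], Q.coeff 0 ≠ 0 ∧ ∀ x y : Qb, ev P x y = 0 → ev (c l) x y ≠ 0 →
      ev Q x (ev (c l) x y) = 0 := by
    intro l
    obtain ⟨R, hR, hR'⟩ := elim_curve P hP (c l)
    obtain ⟨Q, hQ, hQ'⟩ := split_root R hR 0
    refine ⟨Q, by rw [coeff_zero_eq_eval_zero]; exact hQ, fun x y h h0 => ?_⟩
    exact hQ' Qb x _ (hR' Qb x y h) (by simpa using h0)
  choose A hA0 hA1 using hA
  obtain ⟨U1, S1, hU1, h1⟩ := curve_case A hA0 B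
  -- the vertical lines
  have hline : ∀ s0 : Qb, ∃ (U : Finset (Fin 5 → ℤ)) (S' : Finset Qb), (∀ u ∈ U, u ≠ 0) ∧
      (∀ y ∉ S', (∀ l, ev (c l) s0 y ≠ 0) → HasRelations (fun l => ev (c l) s0 y) 3 →
        NumberField.absLogHeight₁ y ≤ B →
        (∀ l, NumberField.absLogHeight₁ (ev (c l) s0 y) ≤ B) →
        ∃ u ∈ U, ∏ l, ev (c l) s0 y ^ u l = 1) := by
    intro s0
    by_cases hs0 : ∃ l, spec s0 (c l) = 0
    · obtain ⟨l, hl⟩ := hs0
      refine ⟨∅, ∅, by simp, fun y _ hy => ?_⟩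
      exfalso
      apply hy l
      rw [← spec_eval, hl, eval_zero]
    · push Not at hs0
      obtain ⟨U2, S2, hU2, h2⟩ := curve_case (fun l => X - C (spec s0 (c l)))
        (fun l => lin_coeff _ (hs0 l)) B
      refine ⟨U2, S2, hU2, fun y hy hy0 hrel hh hh' => ?_⟩
      refine h2 y hy (fun l => ev (c l) s0 y) (fun l => ?_) hrel hh hh'
      apply lin_ev
      rw [← spec_eval]
      simp [Polynomial.aeval_def, Polynomial.eval₂_eq_eval_map]
  choose U2 S2 hU2 h2 using hline
  -- the remaining points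
  set W : Qb → Qb → (Fin 5 → ℤ) := fun s0 y =>
    if h : ∃ u : Fin 5 → ℤ, u ≠ 0 ∧ ∏ l, ev (c l) s0 y ^ u l = 1 then h.choose else fun _ => 1
    with hW
  have hW0 : ∀ s0 y, W s0 y ≠ 0 := by
    intro s0 y
    rw [hW]
    dsimp only
    split_ifs with h
    · exact h.choose_spec.1
    · intro h0
      have := congrFun h0 0
      simp at this
  refine ⟨U1 ∪ (S1.biUnion U2 ∪ S1.biUnion fun s0 => (S2 s0).image (W s0)), ?_, ?_⟩
  · intro u hu
    rw [Finset.mem_union, Finset.mem_union, Finset.mem_biUnion, Finset.mem_biUnion] at hu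
    rcases hu with hu | ⟨s0, -, hu⟩ | ⟨s0, -, hu⟩
    · exact hU1 u hu
    · exact hU2 s0 u hu
    · obtain ⟨y, -, rfl⟩ := Finset.mem_image.mp hu
      exact hW0 s0 y
  · intro x y hz hPxy hrel hhx hhy hh
    by_cases hxS : x ∈ S1
    · by_cases hyS : y ∈ S2 x
      · refine ⟨W x y, ?_, ?_⟩
        · rw [Finset.mem_union, Finset.mem_union, Finset.mem_biUnion, Finset.mem_biUnion]
          exact Or.inr (Or.inr ⟨x, hxS, Finset.mem_image_of_mem _ hyS⟩)
        · have hex : ∃ u : Fin 5 → ℤ, u ≠ 0 ∧ ∏ l, ev (c l) x y ^ u l = 1 := by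
            obtain ⟨u, hu, hr⟩ := hrel
            exact ⟨u 0, hu.ne_zero 0, hr 0⟩
          rw [hW]
          dsimp only
          rw [dif_pos hex]
          exact hex.choose_spec.2
      · obtain ⟨u, hu, h⟩ := h2 x y hyS hz hrel hhy hh
        refine ⟨u, ?_, h⟩
        rw [Finset.mem_union, Finset.mem_union, Finset.mem_biUnion, Finset.mem_biUnion]
        exact Or.inr (Or.inl ⟨x, hxS, hu⟩)
    · obtain ⟨u, hu, h⟩ := h1 x hxS (fun l => ev (c l) x y) (fun l => hA1 l x y hPxy (hz l))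
        hrel hhx hh
      exact ⟨u, Finset.mem_union_left _ hu, h⟩

/-- the height of the value of a polynomial in two variables -/
lemma ht_ev (P : Qb[X][X]) : ∃ D : ℝ, 0 ≤ D ∧ ∀ x y : Qb, NumberField.absLogHeight₁ (ev P x y) ≤
    D * (1 + NumberField.absLogHeight₁ x + NumberField.absLogHeight₁ y) := by
  have hl2 : log 2 ≤ 1 := by
    have := Real.log_two_lt_d9
    linarith
  have hone : NumberField.absLogHeight₁ (1 : Qb) = 0 := by
    have := ht_zpow (1 : Qb) 0
    simpa using this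
  have hneg : ∀ x : Qb, NumberField.absLogHeight₁ (-x) ≤ 1 + NumberField.absLogHeight₁ x := by
    intro x
    have h0 : NumberField.absLogHeight₁ (0 : Qb) = 0 := by
      have h1 := ht_zpow (0 : Qb) 2
      have h2 : (0 : Qb) ^ (2 : ℤ) = 0 := by norm_num
      have h3 : (((2 : ℤ).natAbs : ℕ) : ℝ) = 2 := by norm_num
      rw [h2, h3] at h1
      linarith
    have := ht_sub 0 x
    rw [zero_sub, h0] at this
    linarith
  have hadd : ∀ x y : Qb, NumberField.absLogHeight₁ (x + y) ≤
      2 + NumberField.absLogHeight₁ x + NumberField.absLogHeight₁ y := by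
    intro x y
    have h1 := ht_sub x (-y)
    rw [sub_neg_eq_add] at h1
    have := hneg y
    linarith
  have hC : ∀ Q : Qb[X], ∃ D : ℝ, 0 ≤ D ∧ ∀ x y : Qb,
      NumberField.absLogHeight₁ (ev (C Q) x y) ≤
      D * (1 + NumberField.absLogHeight₁ x + NumberField.absLogHeight₁ y) := by
    intro Q
    induction Q using Polynomial.induction_on with
    | C a =>
      refine ⟨NumberField.absLogHeight₁ a, ht_nonneg a, fun x y => ?_⟩
      have h1 : ev (C (C a) : Qb[X][X]) x y = a := by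
        rw [ev_C, aeval_C]; rfl
      rw [h1]
      have := ht_nonneg a; have := ht_nonneg x; have := ht_nonneg y
      nlinarith [mul_nonneg (ht_nonneg a) (ht_nonneg x), mul_nonneg (ht_nonneg a) (ht_nonneg y)]
    | add p q hp hq =>
      obtain ⟨D, hD, h1⟩ := hp
      obtain ⟨D', hD', h2⟩ := hq
      refine ⟨D + D' + 2, by positivity, fun x y => ?_⟩
      rw [C_add, ev_add]
      have := hadd (ev (C p) x y) (ev (C q) x y)
      have := h1 x y; have := h2 x y
      have := ht_nonneg x; have := ht_nonneg y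
      nlinarith
    | monomial n a h =>
      obtain ⟨D, hD, h1⟩ := h
      refine ⟨D + 1, by positivity, fun x y => ?_⟩
      have e : (C (C a * X ^ (n + 1)) : Qb[X][X]) = C (C a * X ^ n) * C X := by
        rw [← C_mul, pow_succ, mul_assoc]
      rw [e, ev_mul]
      have h2 := ht_mul (ev (C (C a * X ^ n) : Qb[X][X]) x y) (ev (C X : Qb[X][X]) x y)
      have h3 : ev (C X : Qb[X][X]) x y = x := by rw [ev_C, aeval_X]
      rw [h3] at h2 ⊢
      have := h1 x y
      have := ht_nonneg x; have := ht_nonneg y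
      nlinarith
  induction P using Polynomial.induction_on with
  | C Q => exact hC Q
  | add p q hp hq =>
    obtain ⟨D, hD, h1⟩ := hp
    obtain ⟨D', hD', h2⟩ := hq
    refine ⟨D + D' + 2, by positivity, fun x y => ?_⟩
    rw [ev_add]
    have := hadd (ev p x y) (ev q x y)
    have := h1 x y; have := h2 x y
    have := ht_nonneg x; have := ht_nonneg y
    nlinarith
  | monomial n a h =>
    obtain ⟨D, hD, h1⟩ := h
    refine ⟨D + 1, by positivity, fun x y => ?_⟩
    have e : (C a * X ^ (n + 1) : Qb[X][X]) = C a * X ^ n * X := by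
      rw [pow_succ, mul_assoc]
    rw [e, ev_mul, ev_X]
    have h2 := ht_mul (ev (C a * X ^ n : Qb[X][X]) x y) y
    have := h1 x y
    have := ht_nonneg x; have := ht_nonneg y
    nlinarith

end Run7.h498.GZ
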