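import Pool.Agent.Run7.h498.GZ.P5
import Pool.Agent.Run7.h498.GZ.Aux3

set_option autoImplicit false

/-!
# The data of the surface: real algebraic relations between the absolute values
-/

namespace Run7.h498.GZ

open ComplexConjugate Run7.h498

/-- polynomials in five variables -/
def EX (h : (Fin 5 → ℝ) → ℝ) : Prop := ∃ M Q, Ex M Q h

lemma EX.const (a : ℝ) : EX (fun _ => a) := ⟨_, _, Ex.const a⟩
lemma EX.var (j : Fin 5) : EX (fun r => r j) := ⟨_, _, Ex.var j⟩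
lemma EX.add {h h' : (Fin 5 → ℝ) → ℝ} (hh : EX h) (hh' : EX h') : EX (fun r => h r + h' r) := by
  obtain ⟨M, Q, h1⟩ := hh
  obtain ⟨M', Q', h2⟩ := hh'
  exact ⟨_, _, (h1.mono (le_max_left M M') le_rfl).add (h2.mono (le_max_right M M') le_rfl)⟩
lemma EX.mul {h h' : (Fin 5 → ℝ) → ℝ} (hh : EX h) (hh' : EX h') : EX (fun r => h r * h' r) := by
  obtain ⟨M, Q, h1⟩ := hh
  obtain ⟨M', Q', h2⟩ := hh'
  exact ⟨_, _, h1.mul h2⟩
lemma EX.smul {h : (Fin 5 → ℝ) → ℝ} (a : ℝ) (hh : EX h) : EX (fun r => a * h r) :=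
  (EX.const a).mul hh
lemma EX.sub {h h' : (Fin 5 → ℝ) → ℝ} (hh : EX h) (hh' : EX h') : EX (fun r => h r - h' r) := by
  have := hh.add (hh'.smul (-1))
  convert this using 2
  ring
lemma EX.congr {h h' : (Fin 5 → ℝ) → ℝ} (hh : EX h) (he : ∀ r, h' r = h r) : EX h' := by
  rwa [funext he]

/-- `Re x` in terms of the coordinates `u` and `w` -/
noncomputable def Rp (u w : Fin 5) (r : Fin 5 → ℝ) : ℝ := (1 + r u - r w) / 2

/-- `(Im x) ^ 2` in terms of the coordinates `u` and `w` -/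
noncomputable def Sp (u w : Fin 5) (r : Fin 5 → ℝ) : ℝ := r u - Rp u w r ^ 2

lemma Ex_Rp (u w : Fin 5) : Ex 1 2 (Rp u w) := by
  have h := ((((Ex.const 1).mono (Nat.zero_le 1) le_rfl).add (Ex.var u)).add
    ((Ex.var w).smul (-1))).smul (1 / 2)
  have e : Rp u w = fun r => 1 / 2 * (1 + r u + -1 * r w) := by
    funext r
    rw [Rp]; ring
  rw [e]
  exact h.mono le_rfl (by norm_num)

lemma Ex_Sp (u w : Fin 5) : Ex 2 5 (Sp u w) := by
  have h := ((Ex.var u).mono (by norm_num : 1 ≤ 2) le_rfl).add (((Ex_Rp u w).mul (Ex_Rp u w)).smul (-1))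
  have e : Sp u w = fun r => r u + -1 * (Rp u w r * Rp u w r) := by
    funext r
    rw [Sp]; ring
  rw [e]
  exact h.mono le_rfl (by norm_num)

lemma EX_Rp (u w : Fin 5) : EX (Rp u w) := ⟨_, _, Ex_Rp u w⟩
lemma EX_Sp (u w : Fin 5) : EX (Sp u w) := ⟨_, _, Ex_Sp u w⟩

/-- the powers of `R + d`, where `d ^ 2 = -S` -/
lemma pw (u w : Fin 5) (i : ℕ) : ∃ f f' : (Fin 5 → ℝ) → ℝ, Ex (2 * i) (7 ^ i) f ∧
    Ex (2 * i) (7 ^ i) f' ∧ ∀ (r : Fin 5 → ℝ) (d : ℂ), d ^ 2 = -(Sp u w r : ℂ) →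
      ((Rp u w r : ℂ) + d) ^ i = f r + f' r * d := by
  induction i with
  | zero =>
    refine ⟨fun _ => 1, fun _ => 0, (Ex.const 1).mono (by simp) (by simp),
      (Ex.const 0).mono (by simp) (by simp), fun r d _ => by simp⟩
  | succ i ih =>
    obtain ⟨f, f', h, h', he⟩ := ih
    refine ⟨fun r => Rp u w r * f r + -1 * (Sp u w r * f' r), fun r => f r + Rp u w r * f' r,
      ?_, ?_, fun r d hd => ?_⟩
    · have h1 := ((Ex_Rp u w).mul h).mono (by omega : 1 + 2 * i ≤ 2 * (i + 1)) le_rfl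
      have h2 := (((Ex_Sp u w).mul h').mono (by omega : 2 + 2 * i ≤ 2 * (i + 1)) le_rfl).smul (-1)
      refine (h1.add h2).mono le_rfl ?_
      rw [pow_succ, abs_neg, abs_one]
      have : (0 : ℝ) < 7 ^ i := by positivity
      nlinarith
    · have h1 := h.mono (by omega : 2 * i ≤ 2 * (i + 1)) le_rfl
      have h2 := ((Ex_Rp u w).mul h').mono (by omega : 1 + 2 * i ≤ 2 * (i + 1)) le_rfl
      refine (h1.add h2).mono le_rfl ?_
      rw [pow_succ]
      have : (0 : ℝ) < 7 ^ i := by positivity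
      nlinarith
    · rw [pow_succ, he r d hd]
      push_cast
      linear_combination (f' r : ℂ) * hd

/-! ## Functions of the form `u₀ + u₁ σ + u₂ τ + u₃ σ τ` -/

/-- the value of a quadruple -/
def qv (u : Fin 4 → (Fin 5 → ℝ) → ℝ) (r : Fin 5 → ℝ) (s t : ℂ) : ℂ :=
  u 0 r + u 1 r * s + u 2 r * t + u 3 r * (s * t)

/-- the product of two quadruples -/
noncomputable def qm (u v : Fin 4 → (Fin 5 → ℝ) → ℝ) : Fin 4 → (Fin 5 → ℝ) → ℝ :=
  ![fun r => u 0 r * v 0 r + Sp 0 1 r * (u 1 r * v 1 r) + Sp 2 3 r * (u 2 r * v 2 r) +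
      Sp 0 1 r * Sp 2 3 r * (u 3 r * v 3 r),
    fun r => u 0 r * v 1 r + u 1 r * v 0 r + Sp 2 3 r * (u 2 r * v 3 r + u 3 r * v 2 r),
    fun r => u 0 r * v 2 r + u 2 r * v 0 r + Sp 0 1 r * (u 1 r * v 3 r + u 3 r * v 1 r),
    fun r => u 0 r * v 3 r + u 3 r * v 0 r + (u 1 r * v 2 r + u 2 r * v 1 r)]

lemma qm_EX {u v : Fin 4 → (Fin 5 → ℝ) → ℝ} (hu : ∀ k, EX (u k)) (hv : ∀ k, EX (v k)) (k : Fin 4) :
    EX (qm u v k) := by
  fin_cases k
  · exact ((((hu 0).mul (hv 0)).add ((EX_Sp 0 1).mul ((hu 1).mul (hv 1)))).add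
      ((EX_Sp 2 3).mul ((hu 2).mul (hv 2)))).add (((EX_Sp 0 1).mul (EX_Sp 2 3)).mul
      ((hu 3).mul (hv 3)))
  · exact (((hu 0).mul (hv 1)).add ((hu 1).mul (hv 0))).add ((EX_Sp 2 3).mul
      (((hu 2).mul (hv 3)).add ((hu 3).mul (hv 2))))
  · exact (((hu 0).mul (hv 2)).add ((hu 2).mul (hv 0))).add ((EX_Sp 0 1).mul
      (((hu 1).mul (hv 3)).add ((hu 3).mul (hv 1))))
  · exact (((hu 0).mul (hv 3)).add ((hu 3).mul (hv 0))).add
      (((hu 1).mul (hv 2)).add ((hu 2).mul (hv 1)))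

lemma qm_qv (u v : Fin 4 → (Fin 5 → ℝ) → ℝ) (r : Fin 5 → ℝ) (s t : ℂ) (hs : s ^ 2 = Sp 0 1 r)
    (ht : t ^ 2 = Sp 2 3 r) : qv (qm u v) r s t = qv u r s t * qv v r s t := by
  unfold qv qm
  simp only [Matrix.cons_val_zero, Matrix.cons_val_one, Matrix.cons_val]
  push_cast
  rw [← hs, ← ht]
  ring

/-- the values of a polynomial and of its conjugate -/
def Good (F G : (Fin 5 → ℝ) → ℂ → ℂ → ℂ) : Prop :=
  ∃ u v : Fin 4 → (Fin 5 → ℝ) → ℝ, (∀ k, EX (u k)) ∧ (∀ k, EX (v k)) ∧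
    ∀ (r : Fin 5 → ℝ) (s t : ℂ), s ^ 2 = Sp 0 1 r → t ^ 2 = Sp 2 3 r →
      F r s t = qv u r s t + Complex.I * qv v r s t ∧
      G r s t = qv u r s t - Complex.I * qv v r s t

lemma qv_add (u v : Fin 4 → (Fin 5 → ℝ) → ℝ) (r : Fin 5 → ℝ) (s t : ℂ) :
    qv (fun k r => u k r + v k r) r s t = qv u r s t + qv v r s t := by
  unfold qv; push_cast; ring

lemma qv_sub (u v : Fin 4 → (Fin 5 → ℝ) → ℝ) (r : Fin 5 → ℝ) (s t : ℂ) :
    qv (fun k r => u k r - v k r) r s t = qv u r s t - qv v r s t := by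
  unfold qv; push_cast; ring

lemma Good.add {F G F' G' : (Fin 5 → ℝ) → ℂ → ℂ → ℂ} (h : Good F G) (h' : Good F' G') :
    Good (fun r s t => F r s t + F' r s t) (fun r s t => G r s t + G' r s t) := by
  obtain ⟨u, v, hu, hv, he⟩ := h
  obtain ⟨u', v', hu', hv', he'⟩ := h'
  refine ⟨fun k r => u k r + u' k r, fun k r => v k r + v' k r, fun k => (hu k).add (hu' k),
    fun k => (hv k).add (hv' k), fun r s t hs ht => ?_⟩
  obtain ⟨e1, e2⟩ := he r s t hs ht
  obtain ⟨e3, e4⟩ := he' r s t hs ht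
  simp only
  rw [qv_add, qv_add, e1, e2, e3, e4]
  constructor <;> ring

lemma Good.mul {F G F' G' : (Fin 5 → ℝ) → ℂ → ℂ → ℂ} (h : Good F G) (h' : Good F' G') :
    Good (fun r s t => F r s t * F' r s t) (fun r s t => G r s t * G' r s t) := by
  obtain ⟨u, v, hu, hv, he⟩ := h
  obtain ⟨u', v', hu', hv', he'⟩ := h'
  refine ⟨fun k r => qm u u' k r - qm v v' k r, fun k r => qm u v' k r + qm v u' k r,
    fun k => (qm_EX hu hu' k).sub (qm_EX hv hv' k), fun k => (qm_EX hu hv' k).add (qm_EX hv hu' k),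
    fun r s t hs ht => ?_⟩
  obtain ⟨e1, e2⟩ := he r s t hs ht
  obtain ⟨e3, e4⟩ := he' r s t hs ht
  simp only
  rw [qv_add, qv_sub, qm_qv _ _ r s t hs ht, qm_qv _ _ r s t hs ht, qm_qv _ _ r s t hs ht,
    qm_qv _ _ r s t hs ht, e1, e2, e3, e4]
  have hI := Complex.I_sq
  constructor
  · linear_combination (qv v r s t * qv v' r s t) * hI
  · linear_combination (qv v r s t * qv v' r s t) * hI

lemma Good.const (c : ℂ) : Good (fun _ _ _ => c) (fun _ _ _ => conj c) := by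
  refine ⟨![fun _ => c.re, 0, 0, 0], ![fun _ => c.im, 0, 0, 0], ?_, ?_, ?_⟩
  · intro k
    fin_cases k
    · exact EX.const _
    · exact EX.const 0
    · exact EX.const 0
    · exact EX.const 0
  · intro k
    fin_cases k
    · exact EX.const _
    · exact EX.const 0
    · exact EX.const 0
    · exact EX.const 0
  · intro r s t _ _
    simp only [qv, Matrix.cons_val_zero, Matrix.cons_val_one, Matrix.cons_val, Pi.zero_apply,
      Complex.ofReal_zero, zero_mul, add_zero]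
    constructor
    · rw [mul_comm]; exact (Complex.re_add_im c).symm
    · rw [mul_comm]
      apply Complex.ext <;> simp

lemma Good.x : Good (fun r s _ => (Rp 0 1 r : ℂ) + Complex.I * s)
    (fun r s _ => (Rp 0 1 r : ℂ) - Complex.I * s) := by
  refine ⟨![Rp 0 1, 0, 0, 0], ![0, fun _ => 1, 0, 0], ?_, ?_, ?_⟩
  · intro k
    fin_cases k
    · exact EX_Rp _ _
    · exact EX.const 0
    · exact EX.const 0
    · exact EX.const 0
  · intro k
    fin_cases k
    · exact EX.const 0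
    · exact EX.const 1
    · exact EX.const 0
    · exact EX.const 0
  · intro r s t _ _
    simp [qv]

lemma Good.y : Good (fun r _ t => (Rp 2 3 r : ℂ) + Complex.I * t)
    (fun r _ t => (Rp 2 3 r : ℂ) - Complex.I * t) := by
  refine ⟨![Rp 2 3, 0, 0, 0], ![0, 0, fun _ => 1, 0], ?_, ?_, ?_⟩
  · intro k
    fin_cases k
    · exact EX_Rp _ _
    · exact EX.const 0
    · exact EX.const 0
    · exact EX.const 0
  · intro k
    fin_cases k
    · exact EX.const 0
    · exact EX.const 0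
    · exact EX.const 1
    · exact EX.const 0
  · intro r s t _ _
    simp [qv]

lemma Good.pow {F G : (Fin 5 → ℝ) → ℂ → ℂ → ℂ} (h : Good F G) (n : ℕ) :
    Good (fun r s t => F r s t ^ n) (fun r s t => G r s t ^ n) := by
  induction n with
  | zero =>
    have := Good.const 1
    simpa using this
  | succ n ih =>
    simp only [pow_succ]
    exact ih.mul h

lemma Good.sum {κ : Type} (S : Finset κ) {F G : κ → (Fin 5 → ℝ) → ℂ → ℂ → ℂ}
    (h : ∀ k ∈ S, Good (F k) (G k)) :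
    Good (fun r s t => ∑ k ∈ S, F k r s t) (fun r s t => ∑ k ∈ S, G k r s t) := by
  classical
  induction S using Finset.induction_on with
  | empty =>
    have := Good.const 0
    simpa using this
  | insert a S ha ih =>
    simp only [Finset.sum_insert ha]
    exact (h a (Finset.mem_insert_self _ _)).add (ih fun k hk => h k (Finset.mem_insert_of_mem hk))

/-- the polynomial with conjugate coefficients -/
noncomputable def cjm {m n : ℕ} (a : Fin (m + 1) → Fin (n + 1) → ℂ) :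
    Fin (m + 1) → Fin (n + 1) → ℂ := fun i j => conj (a i j)

lemma Good_fval {m n : ℕ} (a : Fin (m + 1) → Fin (n + 1) → ℂ) :
    Good (fun r s t => fval a (Rp 0 1 r + Complex.I * s) (Rp 2 3 r + Complex.I * t))
      (fun r s t => fval (cjm a) (Rp 0 1 r - Complex.I * s) (Rp 2 3 r - Complex.I * t)) := by
  unfold fval cjm
  exact Good.sum _ fun i _ => Good.sum _ fun j _ =>
    ((Good.const (a i j)).mul (Good.x.pow i)).mul (Good.y.pow j)

/-- the square of the absolute value of the polynomial -/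
lemma exists_h {m n : ℕ} (a : Fin (m + 1) → Fin (n + 1) → ℂ) :
    ∃ h : Fin 4 → (Fin 5 → ℝ) → ℝ, (∀ k, EX (h k)) ∧
      ∀ (r : Fin 5 → ℝ) (s t : ℂ), s ^ 2 = Sp 0 1 r → t ^ 2 = Sp 2 3 r →
      fval a (Rp 0 1 r + Complex.I * s) (Rp 2 3 r + Complex.I * t) *
        fval (cjm a) (Rp 0 1 r - Complex.I * s) (Rp 2 3 r - Complex.I * t) = qv h r s t := by
  obtain ⟨u, v, hu, hv, he⟩ := Good_fval a
  refine ⟨fun k r => qm u u k r + qm v v k r, fun k => (qm_EX hu hu k).add (qm_EX hv hv k),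
    fun r s t hs ht => ?_⟩
  obtain ⟨e1, e2⟩ := he r s t hs ht
  rw [qv_add, qm_qv _ _ r s t hs ht, qm_qv _ _ r s t hs ht]
  have hI := Complex.I_sq
  simp only at e1 e2
  rw [e1, e2]
  linear_combination -(qv v r s t * qv v r s t) * hI

/-- the relation between the five absolute values -/
noncomputable def PhiH (h : Fin 4 → (Fin 5 → ℝ) → ℝ) (r : Fin 5 → ℝ) : ℝ :=
  ((r 4 - h 0 r) ^ 2 + h 1 r ^ 2 * Sp 0 1 r - Sp 2 3 r * (h 2 r ^ 2 + h 3 r ^ 2 * Sp 0 1 r)) ^ 2 -
    Sp 0 1 r * (2 * (r 4 - h 0 r) * h 1 r + 2 * Sp 2 3 r * (h 2 r * h 3 r)) ^ 2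

lemma PhiH_EX {h : Fin 4 → (Fin 5 → ℝ) → ℝ} (hh : ∀ k, EX (h k)) : EX (PhiH h) := by
  have hu : EX fun r => r 4 - h 0 r := (EX.var 4).sub (hh 0)
  have h1 := ((hu.mul hu).add (((hh 1).mul (hh 1)).mul (EX_Sp 0 1))).sub
    ((EX_Sp 2 3).mul (((hh 2).mul (hh 2)).add (((hh 3).mul (hh 3)).mul (EX_Sp 0 1))))
  have h2 := ((hu.mul (hh 1)).smul 2).add (((EX_Sp 2 3).mul ((hh 2).mul (hh 3))).smul 2)
  refine ((h1.mul h1).sub ((EX_Sp 0 1).mul (h2.mul h2))).congr fun r => ?_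
  rw [PhiH]
  ring

lemma PhiH_fac (h : Fin 4 → (Fin 5 → ℝ) → ℝ) (r : Fin 5 → ℝ) (s t : ℂ) (hs : s ^ 2 = Sp 0 1 r)
    (ht : t ^ 2 = Sp 2 3 r) : (PhiH h r : ℂ) = (r 4 - qv h r s t) * (r 4 - qv h r (-s) t) *
      (r 4 - qv h r s (-t)) * (r 4 - qv h r (-s) (-t)) := by
  rw [PhiH]
  push_cast
  rw [← hs, ← ht]
  unfold qv
  ring

/-- the relation, for arbitrary pairs of complex numbers -/
lemma PhiH_root {m n : ℕ} (a : Fin (m + 1) → Fin (n + 1) → ℂ) (h : Fin 4 → (Fin 5 → ℝ) → ℝ)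
    (hh : ∀ (r : Fin 5 → ℝ) (s t : ℂ), s ^ 2 = Sp 0 1 r → t ^ 2 = Sp 2 3 r →
      fval a (Rp 0 1 r + Complex.I * s) (Rp 2 3 r + Complex.I * t) *
        fval (cjm a) (Rp 0 1 r - Complex.I * s) (Rp 2 3 r - Complex.I * t) = qv h r s t)
    (r : Fin 5 → ℝ) (X X' Y Y' : ℂ) (h0 : X * X' = r 0) (h1 : (1 - X) * (1 - X') = r 1)
    (h2 : Y * Y' = r 2) (h3 : (1 - Y) * (1 - Y') = r 3) :
    (PhiH h r : ℂ) = (r 4 - fval a X Y * fval (cjm a) X' Y') *
      (r 4 - fval a X' Y * fval (cjm a) X Y') * (r 4 - fval a X Y' * fval (cjm a) X' Y) *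
      (r 4 - fval a X' Y' * fval (cjm a) X Y) := by
  set s : ℂ := -Complex.I * (X - X') / 2 with hs
  set t : ℂ := -Complex.I * (Y - Y') / 2 with ht
  have hI := Complex.I_sq
  have eR : (Rp 0 1 r : ℂ) = (X + X') / 2 := by
    rw [Rp]; push_cast; rw [← h0, ← h1]; ring
  have eT : (Rp 2 3 r : ℂ) = (Y + Y') / 2 := by
    rw [Rp]; push_cast; rw [← h2, ← h3]; ring
  have es : s ^ 2 = Sp 0 1 r := by
    rw [Sp]; push_cast; rw [eR, ← h0, hs]
    linear_combination (X - X') ^ 2 / 4 * hI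
  have et : t ^ 2 = Sp 2 3 r := by
    rw [Sp]; push_cast; rw [eT, ← h2, ht]
    linear_combination (Y - Y') ^ 2 / 4 * hI
  have a1 : (Rp 0 1 r : ℂ) + Complex.I * s = X := by
    rw [eR, hs]; linear_combination (X' - X) / 2 * hI
  have a2 : (Rp 0 1 r : ℂ) - Complex.I * s = X' := by
    rw [eR, hs]; linear_combination (X - X') / 2 * hI
  have b1 : (Rp 2 3 r : ℂ) + Complex.I * t = Y := by
    rw [eT, ht]; linear_combination (Y' - Y) / 2 * hI
  have b2 : (Rp 2 3 r : ℂ) - Complex.I * t = Y' := by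
    rw [eT, ht]; linear_combination (Y - Y') / 2 * hI
  have a3 : (Rp 0 1 r : ℂ) + Complex.I * -s = X' := by rw [← a2]; ring
  have a4 : (Rp 0 1 r : ℂ) - Complex.I * -s = X := by rw [← a1]; ring
  have b3 : (Rp 2 3 r : ℂ) + Complex.I * -t = Y' := by rw [← b2]; ring
  have b4 : (Rp 2 3 r : ℂ) - Complex.I * -t = Y := by rw [← b1]; ring
  have es' : (-s) ^ 2 = Sp 0 1 r := by rw [neg_sq]; exact es
  have et' : (-t) ^ 2 = Sp 2 3 r := by rw [neg_sq]; exact et
  have q1 := hh r s t es et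
  have q2 := hh r (-s) t es' et
  have q3 := hh r s (-t) es et'
  have q4 := hh r (-s) (-t) es' et'
  rw [a1, a2, b1, b2] at q1
  rw [a3, a4, b1, b2] at q2
  rw [a1, a2, b3, b4] at q3
  rw [a3, a4, b3, b4] at q4
  rw [PhiH_fac h r s t es et, ← q1, ← q2, ← q3, ← q4]

/-- the squares of the absolute values -/
noncomputable def rr1 {m n : ℕ} (a : Fin (m + 1) → Fin (n + 1) → ℂ) (x y : ℂ) : Fin 5 → ℝ :=
  ![Complex.normSq x, Complex.normSq (1 - x), Complex.normSq y, Complex.normSq (1 - y),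
    Complex.normSq (fval a x y)]

lemma conj_fval {m n : ℕ} (a : Fin (m + 1) → Fin (n + 1) → ℂ) (x y : ℂ) :
    conj (fval a x y) = fval (cjm a) (conj x) (conj y) := by
  simp only [fval, cjm, map_sum, map_mul, map_pow]

lemma PhiH_rr {m n : ℕ} (a : Fin (m + 1) → Fin (n + 1) → ℂ) (h : Fin 4 → (Fin 5 → ℝ) → ℝ)
    (hh : ∀ (r : Fin 5 → ℝ) (s t : ℂ), s ^ 2 = Sp 0 1 r → t ^ 2 = Sp 2 3 r →
      fval a (Rp 0 1 r + Complex.I * s) (Rp 2 3 r + Complex.I * t) *
        fval (cjm a) (Rp 0 1 r - Complex.I * s) (Rp 2 3 r - Complex.I * t) = qv h r s t)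
    (x y : ℂ) : PhiH h (rr1 a x y) = 0 := by
  have h0 : x * conj x = (rr1 a x y 0 : ℝ) := Complex.mul_conj x
  have h1 : (1 - x) * (1 - conj x) = (rr1 a x y 1 : ℝ) := by
    have := Complex.mul_conj (1 - x)
    rwa [map_sub, map_one] at this
  have h2 : y * conj y = (rr1 a x y 2 : ℝ) := Complex.mul_conj y
  have h3 : (1 - y) * (1 - conj y) = (rr1 a x y 3 : ℝ) := by
    have := Complex.mul_conj (1 - y)
    rwa [map_sub, map_one] at this
  have h4 : fval a x y * fval (cjm a) (conj x) (conj y) = (rr1 a x y 4 : ℝ) := by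
    rw [← conj_fval]
    exact Complex.mul_conj _
  have := PhiH_root a h hh (rr1 a x y) x (conj x) y (conj y) h0 h1 h2 h3
  rw [h4, sub_self, zero_mul, zero_mul, zero_mul] at this
  exact_mod_cast this

/-- the data -/
theorem exists_SD {m n : ℕ} (a : Fin (m + 1) → Fin (n + 1) → ℂ) : ∃ (S : SD 4)
    (h : Fin 4 → (Fin 5 → ℝ) → ℝ), S.rr = rr1 a ∧ S.Phi = PhiH h ∧ (∀ x y, S.om x y = 1) ∧
    (Continuous fun z : ℂ × ℂ => S.Ds z.1 z.2) ∧
    (∀ (r : Fin 5 → ℝ) (X X' Y Y' : ℂ), X * X' = r 0 → (1 - X) * (1 - X') = r 1 →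
      Y * Y' = r 2 → (1 - Y) * (1 - Y') = r 3 →
      (PhiH h r : ℂ) = (r 4 - fval a X Y * fval (cjm a) X' Y') *
      (r 4 - fval a X' Y * fval (cjm a) X Y') * (r 4 - fval a X Y' * fval (cjm a) X' Y) *
      (r 4 - fval a X' Y' * fval (cjm a) X Y)) := by
  obtain ⟨h, hEX, hh⟩ := exists_h a
  let S : SD 4 :=
    { rr := rr1 a
      Phi := PhiH h
      Ds := fun x y => ![1, (x - conj x) / 2, (y - conj y) / 2,
        (x - conj x) / 2 * ((y - conj y) / 2)]
      om := fun _ _ => 1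
      M := 4
      Q := 49
      hPhi := PhiH_EX hEX
      hrr := fun x y => PhiH_rr a h hh x y
      hpow := by
        intro N i j hi hj
        obtain ⟨f, f', h1, h2, h3⟩ := pw 0 1 i
        obtain ⟨k, k', h4, h5, h6⟩ := pw 2 3 j
        have hb : ∀ {f k : (Fin 5 → ℝ) → ℝ}, Ex (2 * i) (7 ^ i) f → Ex (2 * j) (7 ^ j) k →
            Ex (4 * N) (49 ^ N) (fun r => f r * k r) := by
          intro f k hf hk
          refine (hf.mul hk).mono (by omega) ?_
          have e1 : (7 : ℝ) ^ i ≤ 7 ^ N := pow_le_pow_right₀ (by norm_num) hi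
          have e2 : (7 : ℝ) ^ j ≤ 7 ^ N := pow_le_pow_right₀ (by norm_num) hj
          calc (7 : ℝ) ^ i * 7 ^ j ≤ 7 ^ N * 7 ^ N := mul_le_mul e1 e2 (by positivity) (by positivity)
            _ = 49 ^ N := by rw [← mul_pow]; norm_num
        refine ⟨![fun r => f r * k r, fun r => f' r * k r, fun r => f r * k' r,
          fun r => f' r * k' r], ?_, ?_⟩
        · intro s
          fin_cases s
          · exact hb h1 h4
          · exact hb h2 h4
          · exact hb h1 h5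
          · exact hb h2 h5
        · intro x y
          have g0 : x * conj x = (rr1 a x y 0 : ℝ) := Complex.mul_conj x
          have g1 : (1 - x) * (1 - conj x) = (rr1 a x y 1 : ℝ) := by
            have := Complex.mul_conj (1 - x)
            rwa [map_sub, map_one] at this
          have g2 : y * conj y = (rr1 a x y 2 : ℝ) := Complex.mul_conj y
          have g3 : (1 - y) * (1 - conj y) = (rr1 a x y 3 : ℝ) := by
            have := Complex.mul_conj (1 - y)
            rwa [map_sub, map_one] at this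
          have eR : (Rp 0 1 (rr1 a x y) : ℂ) = (x + conj x) / 2 := by
            rw [Rp]; push_cast; rw [← g0, ← g1]; ring
          have eT : (Rp 2 3 (rr1 a x y) : ℂ) = (y + conj y) / 2 := by
            rw [Rp]; push_cast; rw [← g2, ← g3]; ring
          have es : ((x - conj x) / 2) ^ 2 = -(Sp 0 1 (rr1 a x y) : ℂ) := by
            rw [Sp]; push_cast; rw [eR, ← g0]; ring
          have et : ((y - conj y) / 2) ^ 2 = -(Sp 2 3 (rr1 a x y) : ℂ) := by
            rw [Sp]; push_cast; rw [eT, ← g2]; ring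
          have k1 := h3 (rr1 a x y) _ es
          have k2 := h6 (rr1 a x y) _ et
          have e1 : (Rp 0 1 (rr1 a x y) : ℂ) + (x - conj x) / 2 = x := by rw [eR]; ring
          have e2 : (Rp 2 3 (rr1 a x y) : ℂ) + (y - conj y) / 2 = y := by rw [eT]; ring
          rw [e1] at k1
          rw [e2] at k2
          rw [one_pow, one_mul, k1, k2, Fin.sum_univ_four]
          simp only [Matrix.cons_val_zero, Matrix.cons_val_one, Matrix.cons_val]
          push_cast
          ring }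
  refine ⟨S, h, rfl, rfl, fun _ _ => rfl, ?_, PhiH_root a h hh⟩
  show Continuous fun z : ℂ × ℂ => ![1, (z.1 - conj z.1) / 2, (z.2 - conj z.2) / 2,
        (z.1 - conj z.1) / 2 * ((z.2 - conj z.2) / 2)]
  refine continuous_pi fun s => ?_
  fin_cases s
  · exact continuous_const
  · show Continuous fun z : ℂ × ℂ => (z.1 - conj z.1) / 2
    fun_prop
  · show Continuous fun z : ℂ × ℂ => (z.2 - conj z.2) / 2
    fun_prop
  · show Continuous fun z : ℂ × ℂ => (z.1 - conj z.1) / 2 * ((z.2 - conj z.2) / 2)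
    fun_prop

end Run7.h498.GZ
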