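import Pool.Agent.Run7.h498.GZ.P5

set_option autoImplicit false

/-!
# Bounded height over the algebraic numbers: the exceptional curves
-/

namespace Run7.h498.GZ

open Polynomial NumberField Height Real Module Pool.Agent.Y740 Pool.Agent.Y740.G Run7.h498
open Pool.Agent.Y740.Z (ev)

/-- the curves on which the second coordinate is constant -/
theorem fixed_curve (g : Fin 5 → Qb) (hg : ∀ l, g l ≠ 0) (P : Qb[X]) :
    ∃ (C : ℝ) (U : Finset (Fin 5 → ℤ)), (∀ u ∈ U, u ≠ 0) ∧ ∀ x : Qb, x ≠ 0 → 1 - x ≠ 0 →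
      P.eval x ≠ 0 → HasRelations (fun l => g l * ![x, 1 - x, 1, 1, P.eval x] l) 3 →
      NumberField.absLogHeight₁ x ≤ C ∨
        ∃ u ∈ U, ∏ l, (g l * ![x, 1 - x, 1, 1, P.eval x] l) ^ u l = 1 := by
  classical
  by_cases hP : P = 0
  · refine ⟨0, ∅, by simp, fun x _ _ h => ?_⟩
    rw [hP, eval_zero] at h
    exact absurd rfl h
  obtain ⟨P1, hP1, hnd1⟩ := exists_eq_pow_rootMultiplicity_mul_and_not_dvd P hP 0
  have hP10 : P1 ≠ 0 := by
    rintro rfl
    exact hnd1 (dvd_zero _)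
  obtain ⟨P2, hP2, hnd2⟩ := exists_eq_pow_rootMultiplicity_mul_and_not_dvd P1 hP10 1
  set α := P.rootMultiplicity 0 with hα
  set β := P1.rootMultiplicity 1 with hβ
  have hP20 : P2 ≠ 0 := by
    rintro rfl
    exact hnd2 (dvd_zero _)
  have v1 : P2.eval 1 ≠ 0 := fun h => hnd2 (dvd_iff_isRoot.mpr h)
  have v0 : P2.eval 0 ≠ 0 := by
    intro h
    apply hnd1
    rw [dvd_iff_isRoot, IsRoot.def, hP2, eval_mul, h, mul_zero]
  set P3 : Qb[X] := C ((-1) ^ β) * P2 with hP3
  have hs : ((-1 : Qb) ^ β) ≠ 0 := pow_ne_zero _ (neg_ne_zero.mpr one_ne_zero)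
  have w1 : P3.eval 1 ≠ 0 := by rw [hP3, eval_mul, eval_C]; exact mul_ne_zero hs v1
  have w0 : P3.eval 0 ≠ 0 := by rw [hP3, eval_mul, eval_C]; exact mul_ne_zero hs v0
  have hP30 : P3 ≠ 0 := by
    intro h
    rw [h, eval_zero] at w0
    exact w0 rfl
  have hev : ∀ x, P.eval x = x ^ α * (1 - x) ^ β * P3.eval x := by
    intro x
    rw [hP1, hP2, hP3]
    simp only [eval_mul, eval_pow, eval_sub, eval_X, eval_C, sub_zero]
    have : (x - 1) ^ β = (-1) ^ β * (1 - x) ^ β := by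
      rw [← mul_pow]; congr 1; ring
    rw [this]
    ring
  rcases Nat.eq_zero_or_pos P3.natDegree with hd | hd
  · -- a coset
    obtain ⟨c, hc⟩ := natDegree_eq_zero.mp hd
    have hc0 : c ≠ 0 := by
      rintro rfl
      exact hP30 (by rw [← hc, C_0])
    have hev2 : ∀ x, P.eval x = x ^ α * (1 - x) ^ β * c := by
      intro x
      rw [hev, ← hc, eval_C]
    let f : (Fin 5 → ℤ) →ₗ[ℤ] (Fin 2 → ℤ) := LinearMap.pi
      ![LinearMap.proj 0 + (α : ℤ) • LinearMap.proj 4, LinearMap.proj 1 + (β : ℤ) • LinearMap.proj 4]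
    have hf : ∀ u, f u = 0 → u 0 = -(α * u 4) ∧ u 1 = -(β * u 4) := by
      intro u hu
      have h1 := congrFun hu 0
      have h2 := congrFun hu 1
      simp [f] at h1 h2
      constructor <;> linarith
    have hprod : ∀ x : Qb, x ≠ 0 → 1 - x ≠ 0 → ∀ u, f u = 0 →
        ∏ l, (g l * ![x, 1 - x, 1, 1, P.eval x] l) ^ u l =
          g 0 ^ u 0 * g 1 ^ u 1 * g 2 ^ u 2 * g 3 ^ u 3 * (g 4 * c) ^ u 4 := by
      intro x hx0 hx1 u hu
      obtain ⟨h1, h2⟩ := hf u hu
      rw [Fin.prod_univ_five]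
      simp only [Matrix.cons_val_zero, Matrix.cons_val_one, Matrix.cons_val]
      rw [hev2, mul_one, mul_one, mul_zpow, mul_zpow (g 1), mul_zpow (g 4), mul_zpow (x ^ α * _),
        mul_zpow (x ^ α), mul_zpow (g 4)]
      have e1 : x ^ u 0 * (x ^ α) ^ u 4 = 1 := by
        rw [← zpow_natCast, ← zpow_mul, ← zpow_add₀ hx0, h1, neg_add_cancel, zpow_zero]
      have e2 : (1 - x) ^ u 1 * ((1 - x) ^ β) ^ u 4 = 1 := by
        rw [← zpow_natCast, ← zpow_mul, ← zpow_add₀ hx1, h2, neg_add_cancel, zpow_zero]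
      calc _ = (x ^ u 0 * (x ^ α) ^ u 4) * ((1 - x) ^ u 1 * ((1 - x) ^ β) ^ u 4) *
            (g 0 ^ u 0 * g 1 ^ u 1 * g 2 ^ u 2 * g 3 ^ u 3 * (g 4 ^ u 4 * c ^ u 4)) := by ring
        _ = _ := by rw [e1, e2, one_mul, one_mul]
    by_cases hex : ∃ u : Fin 5 → ℤ, u ≠ 0 ∧ f u = 0 ∧
        g 0 ^ u 0 * g 1 ^ u 1 * g 2 ^ u 2 * g 3 ^ u 3 * (g 4 * c) ^ u 4 = 1
    · obtain ⟨u, hu0, hu, h⟩ := hex
      refine ⟨0, {u}, by simpa using hu0, fun x hx0 hx1 _ _ => Or.inr ⟨u, by simp, ?_⟩⟩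
      rw [hprod x hx0 hx1 u hu, h]
    · refine ⟨0, ∅, by simp, fun x hx0 hx1 hPx hrel => ?_⟩
      exfalso
      apply hex
      obtain ⟨u, hu0, hu, h⟩ := rel_kernel (fun l => by
        refine mul_ne_zero (hg l) ?_
        fin_cases l
        · exact hx0
        · exact hx1
        · exact one_ne_zero
        · exact one_ne_zero
        · exact hPx) hrel f
      exact ⟨u, hu0, hu, by rw [← hprod x hx0 hx1 u hu]; exact h⟩
  · -- bounded height
    set d := P3.natDegree with hddef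
    set B : Fin (d + 1) → Qb := fun i => P3.coeff i with hB
    have hBx : ∀ x, fval1 B x = P3.eval x := by
      intro x
      rw [fval1, eval_eq_sum_range, Finset.sum_range]
    have hc0 : cval1 B 0 = P3.eval 0 := by
      rw [cval1, Finset.sum_eq_single (0 : Fin (d + 1))]
      · simp [eps, hB, coeff_zero_eq_eval_zero]
      · intro i _ hi
        have : (i : ℕ) ≠ 0 := fun h => hi (Fin.ext h)
        simp [eps, this]
      · intro h; exact absurd (Finset.mem_univ _) h
    have hc1 : cval1 B 1 = P3.eval 1 := by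
      rw [← hBx, cval1, fval1]
      simp [eps]
    have hc2 : cval1 B 2 = P3.leadingCoeff := by
      rw [cval1, Finset.sum_eq_single (Fin.last d)]
      · simp [eps, hB, hddef]
      · intro i _ hi
        have : (i : ℕ) ≠ d := fun h => hi (Fin.ext h)
        simp [eps, this]
      · intro h; exact absurd (Finset.mem_univ _) h
    have hcor : ∀ σ, cval1 B σ ≠ 0 := by
      intro σ
      fin_cases σ
      · exact fun h => w0 (by rw [← hc0]; exact h)
      · exact fun h => w1 (by rw [← hc1]; exact h)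
      · exact fun h => leadingCoeff_ne_zero.mpr hP30 (by rw [← hc2]; exact h)
    obtain ⟨C, hC, hb⟩ := pass2Q α β d hd
    refine ⟨_, ∅, by simp, fun x hx0 hx1 hPx hrel => Or.inl (hb B x g hx0 hx1 ?_ hcor hg ?_)⟩
    · rw [hBx]
      rw [hev] at hPx
      exact right_ne_zero_of_mul hPx
    · rw [hBx, ← hev]
      exact hrel

/-- the polynomials in the second coordinate -/
noncomputable def colP {m n : ℕ} (A : Fin (m + 1) → Fin (n + 1) → Qb) (i : Fin (m + 1)) : Qb[X] :=
  ∑ j, C (A i j) * X ^ (j : ℕ)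

lemma colP_eval {m n : ℕ} (A : Fin (m + 1) → Fin (n + 1) → Qb) (i : Fin (m + 1)) (y : Qb) :
    (colP A i).eval y = ∑ j, A i j * y ^ (j : ℕ) := by
  rw [colP, eval_finsetSum]
  exact Finset.sum_congr rfl fun j _ => by simp

/-- the restriction to a line through a corner -/
noncomputable def corP {m n : ℕ} (A : Fin (m + 1) → Fin (n + 1) → Qb) (σ : Fin 3) : Qb[X] :=
  ∑ i, C (eps Qb σ m i) * colP A i

lemma corP_eval {m n : ℕ} (A : Fin (m + 1) → Fin (n + 1) → Qb) (σ : Fin 3) (y : Qb) :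
    (corP A σ).eval y = cval1 (fun i => ∑ j, A i j * y ^ (j : ℕ)) σ := by
  rw [corP, eval_finsetSum, cval1]
  exact Finset.sum_congr rfl fun i _ => by rw [eval_mul, eval_C, colP_eval, mul_comm]

lemma corP_ne {m n : ℕ} (A : Fin (m + 1) → Fin (n + 1) → Qb) (hcor : ∀ σ τ, cval A σ τ ≠ 0)
    (σ : Fin 3) : corP A σ ≠ 0 := by
  intro h
  apply hcor σ 0
  have h1 := corP_eval A σ 0
  rw [h, eval_zero, cval1] at h1
  rw [cval, h1]
  apply Finset.sum_congr rfl
  intro i _
  rw [Finset.sum_mul]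
  apply Finset.sum_congr rfl
  intro j _
  by_cases hj : (j : ℕ) = 0
  · simp [eps, hj]
  · simp [eps, hj]

lemma ht_eval (P : Qb[X]) : ∃ D : ℝ, 0 ≤ D ∧ ∀ y : Qb, NumberField.absLogHeight₁ (P.eval y) ≤
    D * (1 + NumberField.absLogHeight₁ y) := by
  obtain ⟨D, hD, h⟩ := ht_ev (C P)
  refine ⟨2 * D, by positivity, fun y => ?_⟩
  have h1 := h y y
  rw [ev_C, aeval_def, eval₂_eq_eval_map] at h1
  have e1 : (P.map (algebraMap Qb Qb)).eval y = P.eval y := by
    congr 1
    exact Polynomial.map_id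
  rw [e1] at h1
  have := ht_nonneg y
  nlinarith

/-- if the height of the second coordinate is bounded, then also the height of the first -/
theorem pass3Q (m n : ℕ) (hm : 1 ≤ m) (A : Fin (m + 1) → Fin (n + 1) → Qb)
    (hcor : ∀ σ τ, cval A σ τ ≠ 0) (g : Fin 5 → Qb) (hg : ∀ l, g l ≠ 0) (C1 : ℝ) :
    ∃ (C : ℝ) (U : Finset (Fin 5 → ℤ)), (∀ u ∈ U, u ≠ 0) ∧
    ∀ x y : Qb, x ≠ 0 → 1 - x ≠ 0 → y ≠ 0 → 1 - y ≠ 0 → fval A x y ≠ 0 →
      HasRelations (fun l => g l * ![x, 1 - x, y, 1 - y, fval A x y] l) 3 →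
      NumberField.absLogHeight₁ y ≤ C1 → NumberField.absLogHeight₁ x ≤ C ∨
        ∃ u ∈ U, ∏ l, (g l * ![x, 1 - x, y, 1 - y, fval A x y] l) ^ u l = 1 := by
  classical
  obtain ⟨C, hC, hb⟩ := pass2Q 0 0 m hm
  -- the heights of the coefficients
  choose D1 hD1 hD1' using fun i => ht_eval (colP A i)
  choose D2 hD2 hD2' using fun σ => ht_eval (corP A σ)
  obtain ⟨D3, hD3, hD3'⟩ := ht_eval (Polynomial.C (g 2) * X)
  obtain ⟨D4, hD4, hD4'⟩ := ht_eval (Polynomial.C (g 3) * (1 - X))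
  set G : ℝ := NumberField.absLogHeight₁ (g 0) + NumberField.absLogHeight₁ (g 1) +
    NumberField.absLogHeight₁ (g 4) with hG
  -- the exceptional values
  set R : Finset Qb := Finset.univ.biUnion fun σ => (corP A σ).roots.toFinset with hR
  have hR' : ∀ y, y ∉ R → ∀ σ, (corP A σ).eval y ≠ 0 := by
    intro y hy σ h
    apply hy
    rw [hR, Finset.mem_biUnion]
    exact ⟨σ, Finset.mem_univ _, by
      rw [Multiset.mem_toFinset, mem_roots (corP_ne A hcor σ)]
      exact h⟩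
  have hfix : ∀ y : Qb, ∃ (C : ℝ) (U : Finset (Fin 5 → ℤ)), (∀ u ∈ U, u ≠ 0) ∧
      ∀ x : Qb, x ≠ 0 → 1 - x ≠ 0 → y ≠ 0 → 1 - y ≠ 0 → fval A x y ≠ 0 →
      HasRelations (fun l => g l * ![x, 1 - x, y, 1 - y, fval A x y] l) 3 →
      NumberField.absLogHeight₁ x ≤ C ∨
        ∃ u ∈ U, ∏ l, (g l * ![x, 1 - x, y, 1 - y, fval A x y] l) ^ u l = 1 := by
    intro y
    by_cases hy : y = 0 ∨ 1 - y = 0
    · exact ⟨0, ∅, by simp, fun x _ _ h0 h1 => absurd hy (by simp [h0, h1])⟩
    push Not at hy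
    obtain ⟨C, U, hU, h⟩ := fixed_curve ![g 0, g 1, g 2 * y, g 3 * (1 - y), g 4] (by
      intro l
      fin_cases l
      · exact hg 0
      · exact hg 1
      · exact mul_ne_zero (hg 2) hy.1
      · exact mul_ne_zero (hg 3) hy.2
      · exact hg 4) (∑ i, Polynomial.C ((colP A i).eval y) * X ^ (i : ℕ))
    have hval : ∀ x, (∑ i, Polynomial.C ((colP A i).eval y) * X ^ (i : ℕ) : Qb[X]).eval x =
        fval A x y := by
      intro x
      rw [eval_finsetSum, fval]
      apply Finset.sum_congr rfl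
      intro i _
      rw [eval_mul, eval_C, eval_pow, eval_X, colP_eval, Finset.sum_mul]
      exact Finset.sum_congr rfl fun j _ => by ring
    refine ⟨C, U, hU, fun x hx0 hx1 _ _ hf hrel => ?_⟩
    have hvec : (fun l => ![g 0, g 1, g 2 * y, g 3 * (1 - y), g 4] l *
        ![x, 1 - x, 1, 1, (∑ i, Polynomial.C ((colP A i).eval y) * X ^ (i : ℕ) : Qb[X]).eval x] l) =
        fun l => g l * ![x, 1 - x, y, 1 - y, fval A x y] l := by
      funext l
      rw [hval]
      fin_cases l <;> simp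
    have h1 := h x hx0 hx1 (by rw [hval]; exact hf) (by rw [hvec]; exact hrel)
    simpa only [congrFun hvec] using h1
  choose Cy Uy hUy hy using hfix
  refine ⟨|C * (1 + (∑ i, D1 i * (1 + C1) + ∑ σ, D2 σ * (1 + C1) +
      (G + D3 * (1 + C1) + D4 * (1 + C1))))| + ∑ y ∈ R, |Cy y|, R.biUnion Uy, ?_, ?_⟩
  · intro u hu
    obtain ⟨y, -, h⟩ := Finset.mem_biUnion.mp hu
    exact hUy y u h
  intro x y hx0 hx1 hy0 hy1 hf hrel hhy
  by_cases hyR : y ∈ R
  · rcases hy y x hx0 hx1 hy0 hy1 hf hrel with h | ⟨u, hu, h⟩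
    · left
      have h1 : |Cy y| ≤ ∑ y ∈ R, |Cy y| :=
        Finset.single_le_sum (f := fun y => |Cy y|) (fun _ _ => abs_nonneg _) hyR
      have := le_abs_self (Cy y)
      have := abs_nonneg (C * (1 + (∑ i, D1 i * (1 + C1) + ∑ σ, D2 σ * (1 + C1) +
        (G + D3 * (1 + C1) + D4 * (1 + C1)))))
      linarith
    · exact Or.inr ⟨u, Finset.mem_biUnion.mpr ⟨y, hyR, hu⟩, h⟩
  · left
    have hcy := hR' y hyR
    set B : Fin (m + 1) → Qb := fun i => ∑ j, A i j * y ^ (j : ℕ) with hB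
    have hBx : x ^ 0 * (1 - x) ^ 0 * fval1 B x = fval A x y := by
      rw [pow_zero, pow_zero, one_mul, one_mul, fval1, fval]
      apply Finset.sum_congr rfl
      intro i _
      rw [hB, Finset.sum_mul]
      exact Finset.sum_congr rfl fun j _ => by ring
    have hBx' : fval1 B x = fval A x y := by rw [← hBx, pow_zero, pow_zero, one_mul, one_mul]
    have h1 := hb B x ![g 0, g 1, g 2 * y, g 3 * (1 - y), g 4] hx0 hx1 (by rw [hBx']; exact hf)
      (fun σ => by rw [hB, ← corP_eval]; exact hcy σ) (by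
      intro l
      fin_cases l
      · exact hg 0
      · exact hg 1
      · exact mul_ne_zero (hg 2) hy0
      · exact mul_ne_zero (hg 3) hy1
      · exact hg 4) (by
      have hvec : (fun l => ![g 0, g 1, g 2 * y, g 3 * (1 - y), g 4] l *
          ![x, 1 - x, 1, 1, x ^ 0 * (1 - x) ^ 0 * fval1 B x] l) =
          fun l => g l * ![x, 1 - x, y, 1 - y, fval A x y] l := by
        funext l
        rw [hBx]
        fin_cases l <;> simp
      rw [hvec]; exact hrel)
    have h2 : ∑ i, NumberField.absLogHeight₁ (B i) ≤ ∑ i, D1 i * (1 + C1) := by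
      apply Finset.sum_le_sum
      intro i _
      rw [hB]
      dsimp only
      rw [← colP_eval]
      exact (hD1' i y).trans (mul_le_mul_of_nonneg_left (by linarith) (hD1 i))
    have h3 : ∑ σ, NumberField.absLogHeight₁ (cval1 B σ) ≤ ∑ σ, D2 σ * (1 + C1) := by
      apply Finset.sum_le_sum
      intro σ _
      rw [hB, ← corP_eval]
      exact (hD2' σ y).trans (mul_le_mul_of_nonneg_left (by linarith) (hD2 σ))
    have h4 : ∑ l, NumberField.absLogHeight₁ (![g 0, g 1, g 2 * y, g 3 * (1 - y), g 4] l) ≤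
        G + D3 * (1 + C1) + D4 * (1 + C1) := by
      rw [Fin.sum_univ_five]
      simp only [Matrix.cons_val_zero, Matrix.cons_val_one, Matrix.cons_val]
      have e3 := hD3' y
      have e4 := hD4' y
      simp only [eval_mul, eval_C, eval_X, eval_sub, eval_one] at e3 e4
      have e5 := mul_le_mul_of_nonneg_left (show 1 + NumberField.absLogHeight₁ y ≤ 1 + C1 by
        linarith) hD3
      have e6 := mul_le_mul_of_nonneg_left (show 1 + NumberField.absLogHeight₁ y ≤ 1 + C1 by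
        linarith) hD4
      rw [hG]
      linarith
    have h5 : 0 ≤ ∑ y ∈ R, |Cy y| := Finset.sum_nonneg fun _ _ => abs_nonneg _
    have h6 := le_abs_self (C * (1 + (∑ i, D1 i * (1 + C1) + ∑ σ, D2 σ * (1 + C1) +
        (G + D3 * (1 + C1) + D4 * (1 + C1)))))
    have h7 := mul_le_mul_of_nonneg_left (show (1 + (∑ i, NumberField.absLogHeight₁ (B i) +
        ∑ σ, NumberField.absLogHeight₁ (cval1 B σ) +
        ∑ l, NumberField.absLogHeight₁ (![g 0, g 1, g 2 * y, g 3 * (1 - y), g 4] l))) ≤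
        (1 + (∑ i, D1 i * (1 + C1) + ∑ σ, D2 σ * (1 + C1) +
        (G + D3 * (1 + C1) + D4 * (1 + C1)))) by linarith) hC.le
    linarith

lemma fval_swap {F : Type} [Field F] {m n : ℕ} (A : Fin (m + 1) → Fin (n + 1) → F) (x y : F) :
    fval (fun j i => A i j) y x = fval A x y := by
  rw [fval, fval, Finset.sum_comm]
  exact Finset.sum_congr rfl fun i _ => Finset.sum_congr rfl fun j _ => by ring

lemma cval_swap {F : Type} [Field F] {m n : ℕ} (A : Fin (m + 1) → Fin (n + 1) → F)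
    (σ τ : Fin 3) : cval (fun j i => A i j) τ σ = cval A σ τ := by
  rw [cval, cval, Finset.sum_comm]
  exact Finset.sum_congr rfl fun i _ => Finset.sum_congr rfl fun j _ => by ring

/-- the exchange of the two coordinates -/
def swp : Fin 5 ≃ Fin 5 := ⟨![2, 3, 0, 1, 4], ![2, 3, 0, 1, 4], by decide, by decide⟩

lemma swp_vec {F : Type} [Field F] {m n : ℕ} (A : Fin (m + 1) → Fin (n + 1) → F) (x y : F)
    (g : Fin 5 → F) (l : Fin 5) :
    g (swp l) * ![y, 1 - y, x, 1 - x, fval (fun j i => A i j) y x] l =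
      g (swp l) * ![x, 1 - x, y, 1 - y, fval A x y] (swp l) := by
  rw [fval_swap]
  congr 1
  fin_cases l <;> rfl

/-- bounded height -/
theorem hbh1 (m n : ℕ) (hm : 1 ≤ m) (hn : 1 ≤ n) (A : Fin (m + 1) → Fin (n + 1) → Qb)
    (hcor : ∀ σ τ, cval A σ τ ≠ 0) (g : Fin 5 → Qb) (hg : ∀ l, g l ≠ 0) :
    ∃ (C : ℝ) (U : Finset (Fin 5 → ℤ)), (∀ u ∈ U, u ≠ 0) ∧
    ∀ x y : Qb, x ≠ 0 → 1 - x ≠ 0 → y ≠ 0 → 1 - y ≠ 0 → fval A x y ≠ 0 →
      HasRelations (fun l => g l * ![x, 1 - x, y, 1 - y, fval A x y] l) 3 →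
      (NumberField.absLogHeight₁ x ≤ C ∧ NumberField.absLogHeight₁ y ≤ C) ∨
        ∃ u ∈ U, ∏ l, (g l * ![x, 1 - x, y, 1 - y, fval A x y] l) ^ u l = 1 := by
  classical
  obtain ⟨C1, h1⟩ := pass1Q m n hm hn A hcor g hg
  obtain ⟨C2, U2, hU2, h2⟩ := pass3Q m n hm A hcor g hg C1
  obtain ⟨C3, U3, hU3, h3⟩ := pass3Q n m hn (fun j i => A i j)
    (fun τ σ => by rw [cval_swap]; exact hcor σ τ) (fun l => g (swp l)) (fun l => hg _) C1
  refine ⟨|C1| + |C2| + |C3|, U2 ∪ U3.image fun u l => u (swp l), ?_, ?_⟩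
  · intro u hu
    rcases Finset.mem_union.mp hu with h | h
    · exact hU2 u h
    · obtain ⟨w, hw, rfl⟩ := Finset.mem_image.mp h
      intro h0
      apply hU3 w hw
      funext l
      have := congrFun h0 (swp.symm l)
      simpa using this
  intro x y hx0 hx1 hy0 hy1 hf hrel
  have a1 := abs_nonneg C1
  have a2 := abs_nonneg C2
  have a3 := abs_nonneg C3
  have b1 := le_abs_self C1
  have b2 := le_abs_self C2
  have b3 := le_abs_self C3
  rcases h1 x y hx0 hx1 hy0 hy1 hf hrel with h | h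
  · have hrel' : HasRelations (fun l => g (swp l) *
        ![y, 1 - y, x, 1 - x, fval (fun j i => A i j) y x] l) 3 := by
      obtain ⟨u, hu, hr⟩ := hrel
      refine ⟨fun k l => u k (swp l), ?_, fun k => ?_⟩
      · exact hu.map' (LinearMap.funLeft ℤ ℤ swp) (by
          rw [LinearMap.ker_eq_bot]
          exact LinearMap.funLeft_injective_of_surjective ℤ ℤ swp swp.surjective)
      · refine Eq.trans ?_ (hr k)
        rw [← Equiv.prod_comp swp (fun l =>
          (g l * ![x, 1 - x, y, 1 - y, fval A x y] l) ^ u k l)]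
        apply Finset.prod_congr rfl
        intro l _
        show (g (swp l) * ![y, 1 - y, x, 1 - x, fval (fun j i => A i j) y x] l) ^ u k (swp l) = _
        rw [swp_vec]
    rcases h3 y x hy0 hy1 hx0 hx1 (by rw [fval_swap]; exact hf) hrel' h with h' | ⟨u, hu, h'⟩
    · left; constructor <;> linarith
    · right
      refine ⟨fun l => u (swp l), Finset.mem_union_right _ (Finset.mem_image_of_mem _ hu), ?_⟩
      refine Eq.trans ?_ h'
      rw [← Equiv.prod_comp swp]
      apply Finset.prod_congr rfl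
      intro l _
      have hsw : swp (swp l) = l := by fin_cases l <;> rfl
      rw [swp_vec]
      dsimp only
      rw [hsw]
  · rcases h2 x y hx0 hx1 hy0 hy1 hf hrel h with h' | ⟨u, hu, h'⟩
    · left; constructor <;> linarith
    · exact Or.inr ⟨u, Finset.mem_union_left _ hu, h'⟩

end Run7.h498.GZ
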