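import Pool.Agent.Run7.h498.GZ.D1

set_option autoImplicit false

/-!
# The relation does not vanish on translates: asymptotics
-/

namespace Run7.h498.GZ

open Filter Topology ComplexConjugate Run7.h498

/-- the asymptotic position of a point on the line -/
structure Pos (m : ℕ) (X p : ℝ → ℂ) (ε : Fin (m + 1) → ℂ) : Prop where
  hp : ∀ᶠ t in atTop, p t ≠ 0
  lim : ∀ i : Fin (m + 1), Tendsto (fun t => X t ^ (i : ℕ) / p t ^ m) atTop (𝓝 (ε i))

lemma Pos.const (m : ℕ) (z : ℂ) : Pos m (fun _ => z) (fun _ => 1) (fun i => z ^ (i : ℕ)) := by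
  refine ⟨Eventually.of_forall fun _ => one_ne_zero, fun i => ?_⟩
  simp

lemma Pos.zero (m : ℕ) {X : ℝ → ℂ} (hX : Tendsto X atTop (𝓝 0)) :
    Pos m X (fun _ => 1) (eps ℂ 0 m) := by
  refine ⟨Eventually.of_forall fun _ => one_ne_zero, fun i => ?_⟩
  have h := hX.pow (i : ℕ)
  simp only [one_pow, div_one]
  convert h using 2
  by_cases h0 : (i : ℕ) = 0
  · simp [eps, h0]
  · simp [eps, h0]

lemma Pos.one (m : ℕ) {X : ℝ → ℂ} (hX : Tendsto X atTop (𝓝 1)) :
    Pos m X (fun _ => 1) (eps ℂ 1 m) := by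
  refine ⟨Eventually.of_forall fun _ => one_ne_zero, fun i => ?_⟩
  have h := hX.pow (i : ℕ)
  simp only [one_pow, div_one]
  convert h using 2
  simp [eps]

lemma Pos.infty (m : ℕ) {X : ℝ → ℂ} (hX : Tendsto (fun t => (X t)⁻¹) atTop (𝓝 0))
    (hX0 : ∀ᶠ t in atTop, X t ≠ 0) : Pos m X X (eps ℂ 2 m) := by
  refine ⟨hX0, fun i => ?_⟩
  have hi : (i : ℕ) ≤ m := Nat.lt_succ_iff.mp i.2
  have h := hX.pow (m - i)
  have h2 : Tendsto (fun t => X t ^ (i : ℕ) / X t ^ m) atTop (𝓝 ((0 : ℂ) ^ (m - (i : ℕ)))) := by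
    refine h.congr' ?_
    filter_upwards [hX0] with t ht
    rw [inv_pow, eq_div_iff (pow_ne_zero _ ht), inv_mul_eq_div, div_eq_iff (pow_ne_zero _ ht),
      ← pow_add]
    congr 1
    omega
  convert h2 using 2
  by_cases h0 : (i : ℕ) = m
  · simp [eps, h0]
  · have : m - (i : ℕ) ≠ 0 := by omega
    simp [eps, h0, this]

/-- the value of the polynomial at a limit position -/
def lval {m n : ℕ} (a : Fin (m + 1) → Fin (n + 1) → ℂ) (ε : Fin (m + 1) → ℂ)
    (η : Fin (n + 1) → ℂ) : ℂ := ∑ i, ∑ j, a i j * ε i * η j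

lemma Pos.fval {m n : ℕ} {X Y p q : ℝ → ℂ} {ε : Fin (m + 1) → ℂ} {η : Fin (n + 1) → ℂ}
    (hX : Pos m X p ε) (hY : Pos n Y q η) (a : Fin (m + 1) → Fin (n + 1) → ℂ) :
    Tendsto (fun t => fval a (X t) (Y t) / (p t ^ m * q t ^ n)) atTop (𝓝 (lval a ε η)) := by
  have h : Tendsto (fun t => ∑ i, ∑ j, a i j * (X t ^ (i : ℕ) / p t ^ m) *
      (Y t ^ (j : ℕ) / q t ^ n)) atTop (𝓝 (lval a ε η)) := by
    unfold lval
    refine tendsto_finsetSum _ fun i _ => tendsto_finsetSum _ fun j _ => ?_
    exact ((hX.lim i).const_mul _).mul (hY.lim j)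
  refine h.congr fun t => ?_
  rw [GZ.fval, Finset.sum_div]
  apply Finset.sum_congr rfl
  intro i _
  rw [Finset.sum_div]
  apply Finset.sum_congr rfl
  intro j _
  rw [← div_div, mul_div_assoc, mul_div_assoc]
  ring

/-- the positions of two points with given products -/
def TwoPos (m : ℕ) (r0 r1 w0 w1 c : ℝ) (ε ε' : Fin (m + 1) → ℂ) : Prop :=
  ∃ (X X' p p' : ℝ → ℂ) (L : ℝ), 0 < L ∧ Pos m X p ε ∧ Pos m X' p' ε' ∧
    (∀ᶠ t in atTop, X t * X' t = (r0 * Real.exp (t * w0) : ℝ) ∧
      (1 - X t) * (1 - X' t) = (r1 * Real.exp (t * w1) : ℝ)) ∧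
    Tendsto (fun t => ‖p t * p' t‖ * Real.exp (-(t * c))) atTop (𝓝 L)

lemma TwoPos.const (m : ℕ) (x : ℂ) : TwoPos m (Complex.normSq x) (Complex.normSq (1 - x)) 0 0 0
    (fun i => x ^ (i : ℕ)) (fun i => (conj x) ^ (i : ℕ)) := by
  refine ⟨fun _ => x, fun _ => conj x, fun _ => 1, fun _ => 1, 1, one_pos, Pos.const m x,
    Pos.const m (conj x), Eventually.of_forall fun t => ⟨?_, ?_⟩, ?_⟩
  · simp [Complex.mul_conj]
  · have := Complex.mul_conj (1 - x)
    rw [map_sub, map_one] at this
    simp [this]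
  · simp

lemma exp_zero {w : ℝ} (hw : w < 0) : Tendsto (fun t : ℝ => Real.exp (t * w)) atTop (𝓝 0) := by
  apply Real.tendsto_exp_atBot.comp
  exact tendsto_id.atTop_mul_const_of_neg hw

lemma roots_eq {R r0 r1 X : ℝ} (hR : 2 * R = 1 + r0 - r1) (hX : X ^ 2 - 2 * R * X + r0 = 0)
    (hX0 : X ≠ 0) : X * (r0 / X) = r0 ∧ (1 - X) * (1 - r0 / X) = r1 := by
  have h1 : X * (r0 / X) = r0 := by field_simp
  refine ⟨h1, ?_⟩
  have h2 : X + r0 / X = 2 * R := by
    field_simp
    linarith
  linarith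

/-- the large root of a quadratic equation -/
lemma root_exists (A R s : ℝ → ℝ) (δ : ℝ) (hδ : δ = 1 ∨ δ = -1) (hs : ∀ t, 0 < s t)
    (hR : Tendsto (fun t => R t / s t) atTop (𝓝 (δ / 2)))
    (hA : Tendsto (fun t => A t / s t ^ 2) atTop (𝓝 0)) :
    ∃ X : ℝ → ℝ, Tendsto (fun t => X t / s t) atTop (𝓝 δ) ∧
      ∀ᶠ t in atTop, X t ^ 2 - 2 * R t * X t + A t = 0 ∧ X t ≠ 0 := by
  have hδ2 : δ * δ = 1 := by rcases hδ with rfl | rfl <;> norm_num
  have hδ0 : δ ≠ 0 := by rcases hδ with rfl | rfl <;> norm_num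
  have eD : Tendsto (fun t => (R t / s t) ^ 2 - A t / s t ^ 2) atTop (𝓝 (1 / 4)) := by
    have := (hR.pow 2).sub hA
    convert this using 2
    rw [sub_zero, div_pow, pow_two, hδ2]; norm_num
  have e : Real.sqrt (1 / 4) = 1 / 2 := by
    rw [Real.sqrt_eq_iff_mul_self_eq (by norm_num) (by norm_num)]; norm_num
  have eS : Tendsto (fun t => Real.sqrt ((R t / s t) ^ 2 - A t / s t ^ 2)) atTop
      (𝓝 (1 / 2)) := by
    have := (Real.continuous_sqrt.tendsto _).comp eD
    rw [e] at this
    exact this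
  refine ⟨fun t => s t * (R t / s t + δ * Real.sqrt ((R t / s t) ^ 2 - A t / s t ^ 2)), ?_, ?_⟩
  · have := hR.add (eS.const_mul δ)
    have h2 : δ / 2 + δ * (1 / 2) = δ := by ring
    rw [h2] at this
    refine this.congr fun t => ?_
    rw [mul_div_cancel_left₀ _ (hs t).ne']
  · have h3 := hR.add (eS.const_mul δ)
    have h2 : δ / 2 + δ * (1 / 2) = δ := by ring
    rw [h2] at h3
    filter_upwards [h3.eventually_ne hδ0, eD.eventually_const_le (by norm_num : (0 : ℝ) < 1 / 4)]
      with t ht hD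
    constructor
    · have h4 := Real.sq_sqrt hD
      set q := Real.sqrt ((R t / s t) ^ 2 - A t / s t ^ 2)
      have hs' := (hs t).ne'
      have h5 : (s t * (R t / s t + δ * q)) ^ 2 - 2 * R t * (s t * (R t / s t + δ * q)) + A t =
          s t ^ 2 * (δ * δ * q ^ 2 - (R t / s t) ^ 2 + A t / s t ^ 2) := by
        field_simp
        ring
      rw [h5, hδ2, h4]
      ring
    · exact mul_ne_zero (hs t).ne' ht

/-- the positions of two points with generic products -/
lemma TwoPos.generic (m : ℕ) {r0 r1 w0 w1 : ℝ} (h0 : 0 < r0) (h1 : 0 < r1) (hw0 : w0 ≠ 0)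
    (hw1 : w1 ≠ 0) (hw : w0 ≠ w1) : ∃ σ σ' : Fin 3,
    TwoPos m r0 r1 w0 w1 (max 0 (max w0 w1)) (eps ℂ σ m) (eps ℂ σ' m) := by
  have key : ∀ {f : ℝ → ℝ} {a : ℝ}, Tendsto f atTop (𝓝 a) →
      Tendsto (fun t => ((f t : ℝ) : ℂ)) atTop (𝓝 (a : ℂ)) := fun h =>
    (Complex.continuous_ofReal.tendsto _).comp h
  set A : ℝ → ℝ := fun t => r0 * Real.exp (t * w0) with hA
  set B : ℝ → ℝ := fun t => r1 * Real.exp (t * w1) with hB
  set R : ℝ → ℝ := fun t => (1 + A t - B t) / 2 with hR
  have hA0 : ∀ t, 0 < A t := fun t => mul_pos h0 (Real.exp_pos _)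
  have hB0 : ∀ t, 0 < B t := fun t => mul_pos h1 (Real.exp_pos _)
  have heq : ∀ X : ℝ → ℝ, (∀ᶠ t in atTop, X t ^ 2 - 2 * R t * X t + A t = 0 ∧ X t ≠ 0) →
      ∀ᶠ t in atTop, (X t : ℂ) * ((A t / X t : ℝ) : ℂ) = (A t : ℝ) ∧
      (1 - (X t : ℂ)) * (1 - ((A t / X t : ℝ) : ℂ)) = (B t : ℝ) := by
    intro X hX
    filter_upwards [hX] with t ht
    obtain ⟨k1, k2⟩ := roots_eq (R := R t) (r0 := A t) (r1 := B t) (by rw [hR]; ring) ht.1 ht.2
    constructor
    · exact_mod_cast k1
    · exact_mod_cast k2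
  by_cases hc0 : w0 < 0 ∧ w1 < 0
  · -- both small
    obtain ⟨hn0, hn1⟩ := hc0
    have e0 : Tendsto A atTop (𝓝 0) := by
      simpa using (exp_zero hn0).const_mul r0
    have e1 : Tendsto B atTop (𝓝 0) := by
      simpa using (exp_zero hn1).const_mul r1
    have eR : Tendsto (fun t => R t / 1) atTop (𝓝 (1 / 2)) := by
      have := ((tendsto_const_nhds (x := (1 : ℝ))).add e0).sub e1
      simpa using this.div_const 2
    obtain ⟨X, hX, hXe⟩ := root_exists A R (fun _ => 1) 1 (Or.inl rfl) (fun _ => one_pos) eR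
      (by simpa using e0)
    simp only [div_one] at hX
    have eX' : Tendsto (fun t => A t / X t) atTop (𝓝 0) := by
      have := e0.div hX one_ne_zero
      rwa [zero_div] at this
    refine ⟨1, 0, fun t => X t, fun t => ((A t / X t : ℝ) : ℂ), fun _ => 1,
      fun _ => 1, 1, one_pos, Pos.one m (by exact_mod_cast key hX),
      Pos.zero m (by exact_mod_cast key eX'), heq X hXe, ?_⟩
    have : max 0 (max w0 w1) = 0 := max_eq_left (max_le hn0.le hn1.le)
    rw [this]
    simp
  have hinv : ∀ {f : ℝ → ℝ} {w r : ℝ}, 0 < r → 0 < w → (∀ t, f t = r * Real.exp (t * w)) →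
      Tendsto (fun t => 1 / f t) atTop (𝓝 0) := by
    intro f w r hr hw hf
    have h := (exp_zero (neg_lt_zero.mpr hw)).const_mul (1 / r)
    rw [mul_zero] at h
    refine h.congr fun t => ?_
    rw [hf, mul_neg, Real.exp_neg]
    field_simp
  by_cases hc1 : w1 < w0
  · -- the first is larger
    have hp0 : 0 < w0 := by
      rcases lt_or_gt_of_ne hw0 with h | h
      · exact absurd ⟨h, hc1.trans h⟩ hc0
      · exact h
    have e1 : Tendsto (fun t => 1 / A t) atTop (𝓝 0) := hinv h0 hp0 fun t => rfl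
    have e2 : Tendsto (fun t => B t / A t) atTop (𝓝 0) := by
      have h := (exp_zero (sub_neg.mpr hc1)).const_mul (r1 / r0)
      rw [mul_zero] at h
      refine h.congr fun t => ?_
      rw [hA, hB]
      dsimp only
      rw [mul_sub, Real.exp_sub]
      field_simp
    have eR : Tendsto (fun t => R t / A t) atTop (𝓝 (1 / 2)) := by
      have := ((e1.add (tendsto_const_nhds (x := (1 : ℝ)))).sub e2).div_const 2
      rw [zero_add, sub_zero] at this
      refine this.congr fun t => ?_
      have := (hA0 t).ne'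
      rw [hR]
      field_simp
    obtain ⟨X, hX, hXe⟩ := root_exists A R A 1 (Or.inl rfl) hA0 eR (by
      refine e1.congr fun t => ?_
      have := (hA0 t).ne'
      field_simp)
    have eX' : Tendsto (fun t => A t / X t) atTop (𝓝 1) := by
      have := hX.inv₀ one_ne_zero
      rw [inv_one] at this
      refine this.congr fun t => ?_
      rw [inv_div]
    have eX0 : Tendsto (fun t => (X t)⁻¹) atTop (𝓝 0) := by
      have := eX'.mul e1
      rw [mul_zero] at this
      refine this.congr fun t => ?_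
      have := (hA0 t).ne'
      field_simp
    refine ⟨2, 1, fun t => X t, fun t => ((A t / X t : ℝ) : ℂ), fun t => X t,
      fun _ => 1, r0, h0, Pos.infty m ?_ ?_,
      Pos.one m (by exact_mod_cast key eX'), heq X hXe, ?_⟩
    · have := key eX0
      rw [Complex.ofReal_zero] at this
      refine this.congr fun t => ?_
      push_cast; rfl
    · filter_upwards [hXe] with t ht
      exact_mod_cast ht.2
    · have hm : max 0 (max w0 w1) = w0 := by
        rw [max_eq_left hc1.le, max_eq_right hp0.le]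
      rw [hm]
      have h2 := (hX.norm).const_mul r0
      rw [norm_one, mul_one] at h2
      refine h2.congr fun t => ?_
      rw [mul_one, Complex.norm_real, norm_div, Real.norm_eq_abs (A t), abs_of_pos (hA0 t), hA,
        Real.exp_neg]
      field_simp
  · -- the second is larger
    have hc1' : w0 < w1 := lt_of_le_of_ne (not_lt.mp hc1) hw
    have hp1 : 0 < w1 := by
      rcases lt_or_gt_of_ne hw1 with h | h
      · exact absurd ⟨hc1'.trans h, h⟩ hc0
      · exact h
    have e1 : Tendsto (fun t => 1 / B t) atTop (𝓝 0) := hinv h1 hp1 fun t => rfl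
    have e2 : Tendsto (fun t => A t / B t) atTop (𝓝 0) := by
      have h := (exp_zero (sub_neg.mpr hc1')).const_mul (r0 / r1)
      rw [mul_zero] at h
      refine h.congr fun t => ?_
      rw [hA, hB]
      dsimp only
      rw [mul_sub, Real.exp_sub]
      field_simp
    have eR : Tendsto (fun t => R t / B t) atTop (𝓝 (-1 / 2)) := by
      have := ((e1.add e2).sub (tendsto_const_nhds (x := (1 : ℝ)))).div_const 2
      rw [zero_add, zero_sub] at this
      refine this.congr fun t => ?_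
      have := (hB0 t).ne'
      rw [hR]
      field_simp
    obtain ⟨X, hX, hXe⟩ := root_exists A R B (-1) (Or.inr rfl) hB0 eR (by
      have := e2.mul e1
      rw [mul_zero] at this
      refine this.congr fun t => ?_
      have := (hB0 t).ne'
      field_simp)
    have hXi : Tendsto (fun t => B t / X t) atTop (𝓝 (-1)) := by
      have := hX.inv₀ (by norm_num : (-1 : ℝ) ≠ 0)
      rw [inv_neg, inv_one] at this
      refine this.congr fun t => ?_
      rw [inv_div]
    have eX' : Tendsto (fun t => A t / X t) atTop (𝓝 0) := by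
      have := e2.mul hXi
      rw [zero_mul] at this
      refine this.congr fun t => ?_
      have := (hB0 t).ne'
      field_simp
    have eX0 : Tendsto (fun t => (X t)⁻¹) atTop (𝓝 0) := by
      have := hXi.mul e1
      rw [mul_zero] at this
      refine this.congr fun t => ?_
      have := (hB0 t).ne'
      field_simp
    refine ⟨2, 0, fun t => X t, fun t => ((A t / X t : ℝ) : ℂ), fun t => X t,
      fun _ => 1, r1, h1, Pos.infty m ?_ ?_,
      Pos.zero m (by exact_mod_cast key eX'), heq X hXe, ?_⟩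
    · have := key eX0
      rw [Complex.ofReal_zero] at this
      refine this.congr fun t => ?_
      push_cast; rfl
    · filter_upwards [hXe] with t ht
      exact_mod_cast ht.2
    · have hm : max 0 (max w0 w1) = w1 := by
        rw [max_eq_right hc1'.le, max_eq_right hp1.le]
      rw [hm]
      have h2 := (hX.norm).const_mul r1
      rw [norm_neg, norm_one, mul_one] at h2
      refine h2.congr fun t => ?_
      rw [mul_one, Complex.norm_real, norm_div, Real.norm_eq_abs (B t), abs_of_pos (hB0 t), hB,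
        Real.exp_neg]
      field_simp

end Run7.h498.GZ
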