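import Pool.Agent.Run7.h498.GZ.TP

set_option autoImplicit false

/-!
# Bounded height for one of the coordinates
-/

namespace Run7.h498.GZ

open NumberField Height Real Module Pool.Agent.Y740 Run7.h498

/-- the direction and the depth of a point of the tropical line -/
def Dr (τ : Fin 3) (k p q δ : ℝ) : Prop :=
  ![|p + k| ≤ δ ∧ |q| ≤ δ, |p| ≤ δ ∧ |q + k| ≤ δ, |p - k| ≤ δ ∧ |q - k| ≤ δ] τ

lemma exists_Dr {p q δ : ℝ} (hδ : 0 ≤ δ) (h : Tri p q 0 δ) :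
    ∃ τ k, 0 ≤ k ∧ Dr τ k p q (2 * δ) := by
  unfold Tri at h
  simp only [abs_le] at h
  rcases h with ⟨⟨x1, x2⟩, x3, x4⟩ | ⟨⟨x1, x2⟩, x3, x4⟩ | ⟨⟨x1, x2⟩, x3, x4⟩
  · refine ⟨2, max p 0, le_max_right _ _, ?_⟩
    show |p - max p 0| ≤ 2 * δ ∧ |q - max p 0| ≤ 2 * δ
    rcases le_total p 0 with h | h
    · rw [max_eq_right h]
      constructor <;> rw [abs_le] <;> constructor <;> linarith
    · rw [max_eq_left h]
      constructor <;> rw [abs_le] <;> constructor <;> linarith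
  · refine ⟨1, max (-q) 0, le_max_right _ _, ?_⟩
    show |p| ≤ 2 * δ ∧ |q + max (-q) 0| ≤ 2 * δ
    rcases le_total (-q) 0 with h | h
    · rw [max_eq_right h]
      constructor <;> rw [abs_le] <;> constructor <;> linarith
    · rw [max_eq_left h]
      constructor <;> rw [abs_le] <;> constructor <;> linarith
  · refine ⟨0, max (-p) 0, le_max_right _ _, ?_⟩
    show |p + max (-p) 0| ≤ 2 * δ ∧ |q| ≤ 2 * δ
    rcases le_total (-p) 0 with h | h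
    · rw [max_eq_right h]
      constructor <;> rw [abs_le] <;> constructor <;> linarith
    · rw [max_eq_left h]
      constructor <;> rw [abs_le] <;> constructor <;> linarith

lemma Dr.bound {τ : Fin 3} {k p q δ : ℝ} (hk : 0 ≤ k) (h : Dr τ k p q δ) :
    |p| ≤ k + δ ∧ |q| ≤ k + δ := by
  fin_cases τ
  · obtain ⟨h1, h2⟩ := (h : |p + k| ≤ δ ∧ |q| ≤ δ)
    simp only [abs_le] at *
    constructor <;> constructor <;> linarith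
  · obtain ⟨h1, h2⟩ := (h : |p| ≤ δ ∧ |q + k| ≤ δ)
    simp only [abs_le] at *
    constructor <;> constructor <;> linarith
  · obtain ⟨h1, h2⟩ := (h : |p - k| ≤ δ ∧ |q - k| ≤ δ)
    simp only [abs_le] at *
    constructor <;> constructor <;> linarith

/-- three balanced directions -/
lemma dir3 {p0 q0 p1 q1 p2 q2 k0 k1 k2 δ θ : ℝ} {τ0 τ1 τ2 : Fin 3}
    (hk0 : 0 ≤ k0) (hk1 : 0 ≤ k1) (hk2 : 0 ≤ k2)
    (d0 : Dr τ0 k0 p0 q0 δ) (d1 : Dr τ1 k1 p1 q1 δ) (d2 : Dr τ2 k2 p2 q2 δ)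
    (bp : |p0 + p1 + p2| ≤ θ) (bq : |q0 + q1 + q2| ≤ θ) :
    k0 + k1 + k2 ≤ 3 * (θ + 3 * δ) ∨ (|k0 - k1| ≤ 2 * (θ + 3 * δ) ∧ |k0 - k2| ≤ 2 * (θ + 3 * δ) ∧
      |k1 - k2| ≤ 2 * (θ + 3 * δ) ∧
      ((pol τ0 = 1 ∧ pol τ1 = 0 ∧ pol τ2 = 0) ∨ (pol τ0 = 0 ∧ pol τ1 = 1 ∧ pol τ2 = 0) ∨
        (pol τ0 = 0 ∧ pol τ1 = 0 ∧ pol τ2 = 1))) := by
  rw [abs_le] at bp bq
  obtain ⟨b1, b2⟩ := bp
  obtain ⟨b3, b4⟩ := bq
  fin_cases τ0 <;> fin_cases τ1 <;> fin_cases τ2 <;>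
    simp only [Dr, Fin.zero_eta, Fin.mk_one, Fin.reduceFinMk, Matrix.cons_val_zero,
      Matrix.cons_val_one, Matrix.cons_val, abs_le] at d0 d1 d2 ⊢ <;>
    obtain ⟨⟨d01, d02⟩, d03, d04⟩ := d0 <;>
    obtain ⟨⟨d11, d12⟩, d13, d14⟩ := d1 <;>
    obtain ⟨⟨d21, d22⟩, d23, d24⟩ := d2 <;>
    first
    | (left; linarith)
    | (right
       refine ⟨⟨by linarith, by linarith⟩, ⟨by linarith, by linarith⟩,
         ⟨by linarith, by linarith⟩, by simp [pol]⟩)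

/-- The arithmetic of the three places. -/
lemma core1 {p0 q0 s0 p1 q1 s1 p2 q2 s2 k0 k1 k2 ε m n C : ℝ} {τ0 τ1 τ2 : Fin 3}
    (hε : 0 < ε) (hε1 : ε ≤ 1 / 1000) (hm : 1 ≤ m) (hn : 1 ≤ n) (hC : 1 ≤ C)
    (hεn : ε * n ≤ 1 / 1000) (hεC : ε * C ≤ 1 / 1000)
    (hk0 : 0 ≤ k0) (hk1 : 0 ≤ k1) (hk2 : 0 ≤ k2)
    (d0 : Dr τ0 k0 p0 q0 (2 * ε)) (d1 : Dr τ1 k1 p1 q1 (2 * ε)) (d2 : Dr τ2 k2 p2 q2 (2 * ε))
    (c0 : C * ε ≤ k0 → |s0 - pol τ0 * (n * k0)| ≤ C * ε)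
    (c1 : C * ε ≤ k1 → |s1 - pol τ1 * (n * k1)| ≤ C * ε)
    (c2 : C * ε ≤ k2 → |s2 - m - pol τ2 * (n * k2)| ≤ C * ε)
    (bp : |p0 + p1 + p2| ≤ 3 * ε * (|p0| + |p1|)) (bq : |q0 + q1 + q2| ≤ 3 * ε * (|q0| + |q1|))
    (bs : |s0 + s1 + s2| ≤ 3 * ε * (|s0| + |s1|)) :
    k0 ≤ (2 * C + 50) * ε ∧ k1 ≤ (2 * C + 50) * ε := by
  obtain ⟨e0, e0'⟩ := d0.bound hk0
  obtain ⟨e1, e1'⟩ := d1.bound hk1
  have f1 : 3 * ε * (|p0| + |p1|) ≤ (k0 + k1) / 100 + ε / 10 := by nlinarith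
  have f2 : 3 * ε * (|q0| + |q1|) ≤ (k0 + k1) / 100 + ε / 10 := by nlinarith
  have hCε0 : 0 ≤ C * ε := by positivity
  rcases dir3 hk0 hk1 hk2 d0 d1 d2 (bp.trans f1) (bq.trans f2) with h | ⟨h1, h2, h3, h4⟩
  · constructor <;> linarith
  rw [abs_le] at h1 h2 h3
  obtain ⟨h1, h1'⟩ := h1
  obtain ⟨h2, h2'⟩ := h2
  obtain ⟨h3, h3'⟩ := h3
  by_cases hk : C * ε ≤ k0 ∧ C * ε ≤ k1 ∧ C * ε ≤ k2
  · exfalso
    obtain ⟨l0, l1, l2⟩ := hk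
    have c0 := abs_le.mp (c0 l0)
    have c1 := abs_le.mp (c1 l1)
    have c2 := abs_le.mp (c2 l2)
    have hnk0 : k0 ≤ n * k0 := le_mul_of_one_le_left hk0 hn
    have hnk1 : k1 ≤ n * k1 := le_mul_of_one_le_left hk1 hn
    have hnk2 : k2 ≤ n * k2 := le_mul_of_one_le_left hk2 hn
    have hCε : C * ε ≤ 1 / 1000 := by linarith [mul_comm C ε]
    have hs01 : |s0| ≤ n * k0 + C * ε ∧ |s1| ≤ n * k1 + C * ε := by
      rcases h4 with ⟨h4, h5, h6⟩ | ⟨h4, h5, h6⟩ | ⟨h4, h5, h6⟩ <;>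
      rw [h4] at c0 <;> rw [h5] at c1 <;>
      simp only [Nat.cast_zero, Nat.cast_one, zero_mul, one_mul] at c0 c1 <;>
      rw [abs_le, abs_le] <;> refine ⟨⟨?_, ?_⟩, ?_, ?_⟩ <;> linarith
    obtain ⟨hs0, hs1⟩ := hs01
    have f3 : 3 * ε * (|s0| + |s1|) ≤ (k0 + k1) / 100 + ε / 10 := by
      have h1 : 3 * ε * (|s0| + |s1|) ≤ 3 * ε * ((n * k0 + C * ε) + (n * k1 + C * ε)) :=
        mul_le_mul_of_nonneg_left (add_le_add hs0 hs1) (by positivity)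
      have h2 : 3 * ε * ((n * k0 + C * ε) + (n * k1 + C * ε)) =
        3 * (ε * n) * (k0 + k1) + 6 * (ε * C) * ε := by ring
      have h3 : (ε * n) * (k0 + k1) ≤ 1 / 1000 * (k0 + k1) :=
        mul_le_mul_of_nonneg_right hεn (by linarith)
      have h4 : (ε * C) * ε ≤ 1 / 1000 * ε := mul_le_mul_of_nonneg_right hεC hε.le
      linarith
    obtain ⟨g3, g3'⟩ := abs_le.mp (bs.trans f3)
    rcases h4 with ⟨h4, h5, h6⟩ | ⟨h4, h5, h6⟩ | ⟨h4, h5, h6⟩ <;>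
    rw [h4] at c0 <;> rw [h5] at c1 <;> rw [h6] at c2 <;>
    simp only [Nat.cast_zero, Nat.cast_one, zero_mul, one_mul] at c0 c1 c2 <;>
    linarith [c0.1, c0.2, c1.1, c1.2, c2.1, c2.2]
  · -- one of the depths is small
    have hsm : k0 < C * ε ∨ k1 < C * ε ∨ k2 < C * ε := by
      by_contra hcon
      push Not at hcon
      exact hk ⟨hcon.1, hcon.2.1, hcon.2.2⟩
    rcases hsm with hsm | hsm | hsm <;>
    constructor <;> linarith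

end Run7.h498.GZ
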