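import Pool.Agent.Run7.h498.GZ.P1

set_option autoImplicit false

/-!
# Bounded height for one of the coordinates, in number fields
-/

namespace Run7.h498.GZ

open NumberField Height Real Module Pool.Agent.Y740 Run7.h498

/-- the values of the polynomial at the nine corners -/
def cval {F : Type} [Field F] {m n : ℕ} (A : Fin (m + 1) → Fin (n + 1) → F) (σ τ : Fin 3) : F :=
  ∑ i, ∑ j, A i j * eps F σ m i * eps F τ n j

/-- the value of the polynomial -/
def fval {F : Type} [Field F] {m n : ℕ} (A : Fin (m + 1) → Fin (n + 1) → F) (x y : F) : F :=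
  ∑ i, ∑ j, A i j * x ^ (i : ℕ) * y ^ (j : ℕ)

section
variable {K : Type} [Field K] [NumberField K] {S : Finset (FinitePlace K)} {v : Pl S}

lemma sval {m n : ℕ} (A : Fin (m + 1) → Fin (n + 1) → K) {x y : K} (σ τ : Fin 3) {e0 : ℝ}
    (he0 : kp v + ∑ i, ∑ j, |lg v (A i j)| + ∑ σ, ∑ τ, |lg v (cval A σ τ)| ≤ e0)
    (hL : cval A σ τ ≠ 0) (hx0 : x ≠ 0) (hy0 : y ≠ 0) (hlx : loc σ x ≠ 0) (hly : loc τ y ≠ 0)
    (h1 : lg v (loc σ x) < -((5 * m + 5 * n + 11) * e0))
    (h2 : lg v (loc τ y) < -((5 * m + 5 * n + 11) * e0)) :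
    |lg v (fval A x y) - pol σ * (m * lg v x) - pol τ * (n * lg v y)| ≤ 3 * e0 := by
  have hk := kp_nonneg v
  have hA0 : 0 ≤ ∑ i, ∑ j, |lg v (A i j)| :=
    Finset.sum_nonneg fun _ _ => Finset.sum_nonneg fun _ _ => abs_nonneg _
  have hL0 : |lg v (cval A σ τ)| ≤ ∑ σ, ∑ τ, |lg v (cval A σ τ)| :=
    (Finset.single_le_sum (f := fun τ => |lg v (cval A σ τ)|) (fun _ _ => abs_nonneg _)
      (Finset.mem_univ τ)).trans (Finset.single_le_sum (f := fun σ => ∑ τ, |lg v (cval A σ τ)|)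
      (fun _ _ => Finset.sum_nonneg fun _ _ => abs_nonneg _) (Finset.mem_univ σ))
  have hL1 := abs_le.mp (le_refl |lg v (cval A σ τ)|)
  have hL2 := abs_nonneg (lg v (cval A σ τ))
  set M := ∑ i, ∑ j, |lg v (A i j)| with hM
  have hAM : ∀ i j, Bd v M (A i j) := by
    intro i j
    right
    refine (le_abs_self _).trans ?_
    exact (Finset.single_le_sum (f := fun j => |lg v (A i j)|) (fun _ _ => abs_nonneg _)
      (Finset.mem_univ j)).trans (Finset.single_le_sum (f := fun i => ∑ j, |lg v (A i j)|)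
      (fun _ _ => Finset.sum_nonneg fun _ _ => abs_nonneg _) (Finset.mem_univ i))
  have hm0 : (0 : ℝ) ≤ m := Nat.cast_nonneg _
  have hn0 : (0 : ℝ) ≤ n := Nat.cast_nonneg _
  have he : 0 ≤ e0 := by linarith
  have hc : (5 * m + 5 * n + 11) * e0 ≥ (5 * m + 5 * n + 10) * kp v + e0 := by
    have : (5 * (m : ℝ) + 5 * n + 10) * kp v ≤ (5 * m + 5 * n + 10) * e0 :=
      mul_le_mul_of_nonneg_left (by linarith) (by positivity)
    linarith
  obtain ⟨k1, k2⟩ := corner2 σ τ m n A x y hAM hlx hly hL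
    (by have : (0 : ℝ) ≤ (5 * m + 5 * n + 11) * e0 := by positivity
        linarith)
    (by have : (0 : ℝ) ≤ (5 * m + 5 * n + 11) * e0 := by positivity
        linarith)
    (by
      show _ < lg v (cval A σ τ)
      linarith)
    (by
      show _ < lg v (cval A σ τ)
      linarith)
  have e1 : fval A x y = x ^ (pol σ * m) * y ^ (pol τ * n) *
      ∑ i, ∑ j, A i j * zet σ m x i * zet τ n y j := by
    rw [fval, Finset.mul_sum]
    apply Finset.sum_congr rfl
    intro i _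
    rw [Finset.mul_sum]
    apply Finset.sum_congr rfl
    intro j _
    rw [pow_eq_zet σ m hx0 i, pow_eq_zet τ n hy0 j]
    ring
  rw [e1, lg_mul v (mul_ne_zero (pow_ne_zero _ hx0) (pow_ne_zero _ hy0)) k1,
    lg_mul v (pow_ne_zero _ hx0) (pow_ne_zero _ hy0), lg_pow, lg_pow]
  have k3 : |lg v (∑ i, ∑ j, A i j * zet σ m x i * zet τ n y j) - lg v (cval A σ τ)| ≤
      2 * kp v := k2
  have k4 := abs_le.mp k3
  push_cast
  rw [abs_le]
  constructor <;> linarith

lemma place_s {m n : ℕ} (A : Fin (m + 1) → Fin (n + 1) → K) {x y : K} (σ τ : Fin 3) {e0 : ℝ}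
    (he0 : kp v + ∑ i, ∑ j, |lg v (A i j)| + ∑ σ, ∑ τ, |lg v (cval A σ τ)| ≤ e0)
    (hL : cval A σ τ ≠ 0) (hx0 : x ≠ 0) (hy0 : y ≠ 0) (hlx : loc σ x ≠ 0) (hly : loc τ y ≠ 0)
    {N ε k γ2 γ3 γ4 C : ℝ} (hN : 0 < N) (hε : 0 < ε) (heN : 2 * e0 ≤ ε * N)
    (hC : 10 * ((m : ℝ) + n) + 30 ≤ C) (hεC : ε * C ≤ 1 / 1000)
    (hγ2 : |γ2| ≤ e0) (hγ3 : |γ3| ≤ e0) (hγ4 : |γ4| ≤ e0)
    (hdx : lg v (loc σ x) ≤ -N + e0) (hk : C * ε ≤ k)
    (hD : Dr τ k ((lg v y + γ2) / N) ((lg v (1 - y) + γ3) / N) (2 * ε)) :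
    |(lg v (fval A x y) + γ4) / N - pol σ * (m * (lg v x / N)) - pol τ * (n * k)| ≤
      (3 * n + 3) * ε := by
  have hm0 : (0 : ℝ) ≤ m := Nat.cast_nonneg _
  have hn0 : (0 : ℝ) ≤ n := Nat.cast_nonneg _
  have hkp := kp_nonneg v
  have he : 0 ≤ e0 := (abs_nonneg _).trans hγ2
  have hεN : 0 < ε * N := mul_pos hε hN
  have hc1 : (5 * (m : ℝ) + 5 * n + 11) * e0 ≤ (5 * m + 5 * n + 11) * (ε * N / 2) :=
    mul_le_mul_of_nonneg_left (by linarith) (by positivity)
  have hCε : (10 * ((m : ℝ) + n) + 30) * (ε * N) ≤ C * (ε * N) :=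
    mul_le_mul_of_nonneg_right hC hεN.le
  have hCN : C * (ε * N) ≤ 1 / 1000 * N := by
    have : C * (ε * N) = (ε * C) * N := by ring
    rw [this]
    exact mul_le_mul_of_nonneg_right hεC hN.le
  have hm1 : 0 ≤ (m : ℝ) * (ε * N) := by positivity
  have hn1 : 0 ≤ (n : ℝ) * (ε * N) := by positivity
  -- the depth of `y`
  have hkN : C * (ε * N) ≤ k * N := by
    have := mul_le_mul_of_nonneg_right hk hN.le
    linarith
  have hdiv : ∀ z w : ℝ, |z / N + w| ≤ 2 * ε → |z + w * N| ≤ 2 * ε * N := by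
    intro z w h
    have h1 : z + w * N = (z / N + w) * N := by field_simp
    rw [h1, abs_mul, abs_of_pos hN]
    exact mul_le_mul_of_nonneg_right h hN.le
  have g2 := abs_le.mp hγ2
  have g3 := abs_le.mp hγ3
  have g4 := abs_le.mp hγ4
  have hdy : lg v (loc τ y) ≤ -(k * N) + 2 * ε * N + e0 := by
    fin_cases τ
    · have h1 := hdiv _ _ (show |(lg v y + γ2) / N + k| ≤ 2 * ε from hD.1)
      rw [abs_le] at h1
      show lg v y ≤ _
      linarith
    · have h1 := hdiv _ _ (show |(lg v (1 - y) + γ3) / N + k| ≤ 2 * ε from hD.2)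
      rw [abs_le] at h1
      show lg v (1 - y) ≤ _
      linarith
    · have h0 : |(lg v y + γ2) / N - k| ≤ 2 * ε := hD.1
      rw [sub_eq_add_neg] at h0
      have h1 := hdiv _ _ h0
      rw [abs_le] at h1
      show lg v y⁻¹ ≤ _
      rw [lg_inv]
      linarith
  have h1 : lg v (loc σ x) < -((5 * m + 5 * n + 11) * e0) := by
    refine lt_of_le_of_lt hdx ?_
    linarith
  have h2 : lg v (loc τ y) < -((5 * m + 5 * n + 11) * e0) := by
    refine lt_of_le_of_lt hdy ?_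
    linarith
  have h3 := sval A σ τ he0 hL hx0 hy0 hlx hly h1 h2
  -- the pole of `y`
  have h4 : |(pol τ : ℝ) * (n * lg v y) - pol τ * (n * (k * N))| ≤ n * (2 * ε * N + e0) := by
    fin_cases τ
    · simp [pol]; positivity
    · simp [pol]; positivity
    · have h0 : |(lg v y + γ2) / N - k| ≤ 2 * ε := hD.1
      rw [sub_eq_add_neg] at h0
      have h1 := hdiv _ _ h0
      have e1 : ((pol (2 : Fin 3) : ℕ) : ℝ) * (n * lg v y) - (pol (2 : Fin 3) : ℕ) * (n * (k * N)) =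
          n * (lg v y - k * N) := by
        simp [pol]; ring
      show |((pol (2 : Fin 3) : ℕ) : ℝ) * (n * lg v y) - (pol (2 : Fin 3) : ℕ) * (n * (k * N))| ≤ _
      rw [e1, abs_mul, abs_of_nonneg hn0]
      apply mul_le_mul_of_nonneg_left _ hn0
      rw [abs_le] at *
      constructor <;> linarith
  have e2 : (lg v (fval A x y) + γ4) / N - pol σ * (m * (lg v x / N)) - pol τ * (n * k) =
      (lg v (fval A x y) + γ4 - pol σ * (m * lg v x) - pol τ * (n * (k * N))) / N := by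
    field_simp
  rw [e2, abs_div, abs_of_pos hN, div_le_iff₀ hN]
  have hn2 : (n : ℝ) * (2 * ε * N + e0) ≤ n * (3 * (ε * N)) :=
    mul_le_mul_of_nonneg_left (by linarith) hn0
  have h5 := abs_le.mp h3
  have h6 := abs_le.mp h4
  rw [abs_le]
  constructor <;> linarith

end

end Run7.h498.GZ
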