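import Pool.Agent.Run7.h498.GZ.P2

set_option autoImplicit false

/-!
# Bounded height for one of the coordinates, in number fields
-/

namespace Run7.h498.GZ

open NumberField Height Real Module Pool.Agent.Y740 Run7.h498

section
variable {K : Type} [Field K] [NumberField K]

/-- the functions of a point with three relations -/
lemma det_of_rel {S : Finset (FinitePlace K)} (g c : Fin 5 → K) (hg : ∀ l, g l ≠ 0)
    (hc : ∀ l, c l ≠ 0) (hrel : HasRelations (fun l => g l * c l) 3) (i j k : Fin 5)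
    (v w x : Pl S) :
    Det0 (lg v (c i) + lg v (g i)) (lg v (c j) + lg v (g j)) (lg v (c k) + lg v (g k))
      (lg w (c i) + lg w (g i)) (lg w (c j) + lg w (g j)) (lg w (c k) + lg w (g k))
      (lg x (c i) + lg x (g i)) (lg x (c j) + lg x (g j)) (lg x (c k) + lg x (g k)) := by
  obtain ⟨U, hU, hrel⟩ := hrel
  have hm : ∀ k (v : Pl S), ∑ l, (U k l : ℝ) * lg v (g l * c l) = 0 := by
    intro k v
    have h := congrArg (lg v) (hrel k)
    rw [lg_one, lg_prod v _ _ fun l => zpow_ne_zero _ (mul_ne_zero (hg l) (hc l))] at h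
    rw [← h]
    exact Finset.sum_congr rfl fun l _ => (lg_zpow v _ _).symm
  have hlg : ∀ (v : Pl S) l, lg v (g l * c l) = lg v (c l) + lg v (g l) := by
    intro v l
    rw [lg_mul v (hg l) (hc l), add_comm]
  have dd := dep_det0 U hU (fun (v : Pl S) l => lg v (g l * c l)) hm
  simp only [hlg] at dd
  exact dd i j k v w x

lemma log_two_le : log 2 ≤ 1 := by
  have := Real.log_two_lt_d9
  linarith

/-- the error function -/
theorem exists_err {κ : Type} [Fintype κ] (t : κ → K) (l : List K) (hl : ∀ z ∈ l, z ≠ 0) :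
    ∃ S : Finset (FinitePlace K), (∀ z ∈ l, SU S z) ∧
      ∑ v : Pl S, (kp v + ∑ k, |lg v (t k)|) ≤ finrank ℚ K + 2 * ∑ k, logHeight₁ (t k) := by
  classical
  obtain ⟨S, hS⟩ := exists_SU (l ++ ((Finset.univ : Finset κ).toList.map t).filter
        (fun z => z ≠ 0)) (by
    intro z hz
    simp only [List.mem_append, List.mem_map,
      List.mem_filter, Finset.mem_toList, Finset.mem_univ, true_and, decide_eq_true_eq] at hz
    rcases hz with h | h
    · exact hl z h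
    · exact h.2)
  refine ⟨S, fun z hz => hS z (List.mem_append_left _ hz), ?_⟩
  have st : ∀ k, t k ≠ 0 → SU S (t k) := by
    intro k h
    apply hS
    simp only [List.mem_append, List.mem_map, List.mem_filter, Finset.mem_toList, Finset.mem_univ,
      true_and, decide_eq_true_eq]
    exact Or.inr ⟨⟨k, rfl⟩, h⟩
  rw [Finset.sum_add_distrib]
  have h1 : ∑ v : Pl S, ∑ k, |lg v (t k)| ≤ 2 * ∑ k, logHeight₁ (t k) := by
    rw [Finset.sum_comm, Finset.mul_sum]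
    exact Finset.sum_le_sum fun i _ => sum_abs_lg' (st i)
  have h4 : ∑ v : Pl S, kp v ≤ finrank ℚ K := by
    rw [sum_kp]
    exact mul_le_of_le_one_right (Nat.cast_nonneg _) log_two_le
  linarith

/-- the error function for a polynomial in two variables -/
theorem err1 {m n : ℕ} (A : Fin (m + 1) → Fin (n + 1) → K) (g : Fin 5 → K) (l : List K)
    (hl : ∀ z ∈ l, z ≠ 0) :
    ∃ (S : Finset (FinitePlace K)) (e0 : Pl S → ℝ), (∀ z ∈ l, SU S z) ∧
      (∀ v, kp v + ∑ i, ∑ j, |lg v (A i j)| + ∑ σ, ∑ τ, |lg v (cval A σ τ)| ≤ e0 v) ∧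
      (∀ v l, |lg v (g l)| ≤ e0 v) ∧
      (∀ v, kp v + 2 * |lg v (g 0)| + 2 * |lg v (g 1)| ≤ 2 * e0 v) ∧
      (∀ v, kp v + 2 * |lg v (g 2)| + 2 * |lg v (g 3)| ≤ 2 * e0 v) ∧
      ∑ v, e0 v ≤ 2 * (finrank ℚ K + (∑ i, ∑ j, logHeight₁ (A i j) +
        ∑ σ, ∑ τ, logHeight₁ (cval A σ τ) + ∑ l, logHeight₁ (g l))) := by
  obtain ⟨S, hS, hsum⟩ := exists_err (κ := (Fin (m + 1) × Fin (n + 1)) ⊕ ((Fin 3 × Fin 3) ⊕ Fin 5))
    (Sum.elim (fun i => A i.1 i.2) (Sum.elim (fun i => cval A i.1 i.2) g)) l hl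
  have hv : ∀ v : Pl S, kp v + ∑ k, |lg v ((Sum.elim (fun i => A i.1 i.2)
      (Sum.elim (fun i => cval A i.1 i.2) g) : (Fin (m + 1) × Fin (n + 1)) ⊕ ((Fin 3 × Fin 3) ⊕
      Fin 5) → K) k)| = kp v + (∑ i, ∑ j, |lg v (A i j)| + (∑ σ, ∑ τ, |lg v (cval A σ τ)| +
        ∑ l, |lg v (g l)|)) := by
    intro v
    rw [Fintype.sum_sum_type, Fintype.sum_sum_type, Fintype.sum_prod_type, Fintype.sum_prod_type]
    rfl
  simp only [hv] at hsum
  rw [Fintype.sum_sum_type (f := fun k => logHeight₁ _), Fintype.sum_sum_type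
    (f := fun k => logHeight₁ _), Fintype.sum_prod_type, Fintype.sum_prod_type] at hsum
  refine ⟨S, fun v => kp v + (∑ i, ∑ j, |lg v (A i j)| + (∑ σ, ∑ τ, |lg v (cval A σ τ)| +
        ∑ l, |lg v (g l)|)), hS, ?_, ?_, ?_, ?_, hsum.trans ?_⟩
  · intro v
    have : 0 ≤ ∑ l, |lg v (g l)| := Finset.sum_nonneg fun _ _ => abs_nonneg _
    linarith
  · intro v l
    have h1 : |lg v (g l)| ≤ ∑ l, |lg v (g l)| :=
      Finset.single_le_sum (f := fun l => |lg v (g l)|) (fun _ _ => abs_nonneg _)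
        (Finset.mem_univ l)
    have h2 : 0 ≤ ∑ i, ∑ j, |lg v (A i j)| :=
      Finset.sum_nonneg fun _ _ => Finset.sum_nonneg fun _ _ => abs_nonneg _
    have h3 : 0 ≤ ∑ i, ∑ j, |lg v (cval A i j)| :=
      Finset.sum_nonneg fun _ _ => Finset.sum_nonneg fun _ _ => abs_nonneg _
    have := kp_nonneg v
    linarith
  · intro v
    have h2 : 0 ≤ ∑ i, ∑ j, |lg v (A i j)| :=
      Finset.sum_nonneg fun _ _ => Finset.sum_nonneg fun _ _ => abs_nonneg _
    have h3 : 0 ≤ ∑ i, ∑ j, |lg v (cval A i j)| :=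
      Finset.sum_nonneg fun _ _ => Finset.sum_nonneg fun _ _ => abs_nonneg _
    have := kp_nonneg v
    have h5 := Fin.sum_univ_five (f := fun l => |lg v (g l)|)
    have := abs_nonneg (lg v (g 2)); have := abs_nonneg (lg v (g 3))
    have := abs_nonneg (lg v (g 4))
    linarith
  · intro v
    have h2 : 0 ≤ ∑ i, ∑ j, |lg v (A i j)| :=
      Finset.sum_nonneg fun _ _ => Finset.sum_nonneg fun _ _ => abs_nonneg _
    have h3 : 0 ≤ ∑ i, ∑ j, |lg v (cval A i j)| :=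
      Finset.sum_nonneg fun _ _ => Finset.sum_nonneg fun _ _ => abs_nonneg _
    have := kp_nonneg v
    have h5 := Fin.sum_univ_five (f := fun l => |lg v (g l)|)
    have := abs_nonneg (lg v (g 0)); have := abs_nonneg (lg v (g 1))
    have := abs_nonneg (lg v (g 4))
    linarith
  · have : (0 : ℝ) ≤ finrank ℚ K := Nat.cast_nonneg _
    simp only [Sum.elim_inl, Sum.elim_inr]
    linarith

/-- the depths at the three places are small -/
theorem plane1 {S : Finset (FinitePlace K)} {m n : ℕ} (hm : 1 ≤ m) (hn : 1 ≤ n)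
    (A : Fin (m + 1) → Fin (n + 1) → K) (x y : K) (g : Fin 5 → K)
    (hx0 : x ≠ 0) (hx1 : 1 - x ≠ 0) (hy0 : y ≠ 0) (hy1 : 1 - y ≠ 0)
    (hcor : ∀ σ τ, cval A σ τ ≠ 0) (e0 : Pl S → ℝ)
    (he0 : ∀ v, kp v + ∑ i, ∑ j, |lg v (A i j)| + ∑ σ, ∑ τ, |lg v (cval A σ τ)| ≤ e0 v)
    (hγ : ∀ v l, |lg v (g l)| ≤ e0 v)
    (hγ23 : ∀ v, kp v + 2 * |lg v (g 2)| + 2 * |lg v (g 3)| ≤ 2 * e0 v)
    (c : ℝ) (hc : c = 10 * ((m : ℝ) + n) + 30) (ε : ℝ) (hεpos : 0 < ε) (hεc : ε * c ≤ 1 / 1000)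
    (v0 v1 v2 : Pl S) (a b p q s : Pl S → ℝ) (ha : ∀ v, a v = lg v x + lg v (g 0))
    (hb : ∀ v, b v = lg v (1 - x) + lg v (g 1)) (hp : ∀ v, p v = lg v y + lg v (g 2))
    (hq : ∀ v, q v = lg v (1 - y) + lg v (g 3)) (hs : ∀ v, s v = lg v (fval A x y) + lg v (g 4))
    (hTP : TP a b (fun v => 2 * e0 v) ε v0 v1 v2)
    (dp : ∀ v w x, Det0 (a v) (b v) (p v) (a w) (b w) (p w) (a x) (b x) (p x))
    (dq : ∀ v w x, Det0 (a v) (b v) (q v) (a w) (b w) (q w) (a x) (b x) (q x))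
    (ds : ∀ v w x, Det0 (a v) (b v) (s v) (a w) (b w) (s w) (a x) (b x) (s x)) :
    |p v0 / -a v0| ≤ (2 * c + 52) * ε ∧ |p v1 / -b v1| ≤ (2 * c + 52) * ε := by
  have hm' : (1 : ℝ) ≤ m := by exact_mod_cast hm
  have hn' : (1 : ℝ) ≤ n := by exact_mod_cast hn
  have hc10 : 10 ≤ c := by rw [hc]; linarith
  have hε1 : ε ≤ 1 / 1000 := by nlinarith
  have t2 : ∀ v, Tri (p v) (q v) 0 (2 * e0 v) := fun v => by
    have h := lg_tri v hy0 hy1 one_ne_zero (by ring : y + (1 - y) = 1)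
    rw [lg_one] at h
    have h3 := abs_nonneg (lg v (g 2))
    have h4 := abs_nonneg (lg v (g 3))
    refine h.pert (δ := |lg v (g 2)| + |lg v (g 3)|) ?_ ?_ (by simp; linarith) ?_
    · rw [hp, add_sub_cancel_left]; linarith
    · rw [hq, add_sub_cancel_left]; linarith
    · have := hγ23 v; linarith
  -- the directions
  have hdir : ∀ (v : Pl S) (N : ℝ), 0 < N → 2 * e0 v ≤ ε * N →
      ∃ τ k, 0 ≤ k ∧ Dr τ k (p v / N) (q v / N) (2 * ε) := by
    intro v N hN heN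
    refine exists_Dr hεpos.le ?_
    have h1 := (t2 v).scale hN
    rw [zero_div] at h1
    exact h1.pert (δ := 0) (by simp) (by simp) (by simp) (by
      rw [mul_zero, add_zero, div_le_iff₀ hN]; exact heN)
  have N0 := hTP.h0
  have N1 := hTP.h1
  have N2 := hTP.h2
  obtain ⟨τ0, k0, hk0, D0⟩ := hdir v0 _ N0 hTP.h0'
  obtain ⟨τ1, k1, hk1, D1⟩ := hdir v1 _ N1 hTP.h1'
  obtain ⟨τ2, k2, hk2, D2⟩ := hdir v2 _ N2 hTP.h2'
  have hloc : ∀ (τ : Fin 3), loc τ y ≠ 0 := by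
    intro τ
    fin_cases τ
    · exact hy0
    · exact hy1
    · exact inv_ne_zero hy0
  have hcε : c * ε ≤ 1 / 1000 := by rw [mul_comm]; exact hεc
  have hnc : 10 * (n : ℝ) ≤ c := by rw [hc]; linarith
  have hmnc : 10 * (m : ℝ) + 10 * n + 30 ≤ c := by rw [hc]; linarith
  have hmnε : (10 * (m : ℝ) + 10 * n + 30) * ε ≤ c * ε :=
    mul_le_mul_of_nonneg_right hmnc hεpos.le
  have hnε : 0 ≤ (n : ℝ) * ε := mul_nonneg (by linarith) hεpos.le
  have hmε : 0 ≤ (m : ℝ) * ε := mul_nonneg (by linarith) hεpos.le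
  have C0 : c * ε ≤ k0 → |s v0 / -a v0 - pol τ0 * (n * k0)| ≤ c * ε := by
    intro hk
    rw [hp, hq] at D0
    have h1 := place_s (v := v0) A (0 : Fin 3) τ0 (he0 v0) (hcor _ _) hx0 hy0 hx0 (hloc τ0)
      (C := c) (γ4 := lg v0 (g 4)) N0 hεpos hTP.h0' hc.ge hεc (hγ v0 2) (hγ v0 3) (hγ v0 4) (by
        have := abs_le.mp (hγ v0 0)
        show lg v0 x ≤ _
        rw [ha v0]
        linarith) hk D0
    have e1 : ((pol (0 : Fin 3) : ℕ) : ℝ) = 0 := by simp [pol]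
    rw [e1, zero_mul, sub_zero, ← hs] at h1
    refine h1.trans ?_
    linarith
  have C1 : c * ε ≤ k1 → |s v1 / -b v1 - pol τ1 * (n * k1)| ≤ c * ε := by
    intro hk
    rw [hp, hq] at D1
    have h1 := place_s (v := v1) A (1 : Fin 3) τ1 (he0 v1) (hcor _ _) hx0 hy0 hx1 (hloc τ1)
      (C := c) (γ4 := lg v1 (g 4)) N1 hεpos hTP.h1' hc.ge hεc (hγ v1 2) (hγ v1 3) (hγ v1 4) (by
        have := abs_le.mp (hγ v1 1)
        show lg v1 (1 - x) ≤ _
        rw [hb v1]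
        linarith) hk D1
    have e1 : ((pol (1 : Fin 3) : ℕ) : ℝ) = 0 := by simp [pol]
    rw [e1, zero_mul, sub_zero, ← hs] at h1
    refine h1.trans ?_
    linarith
  have C2 : c * ε ≤ k2 → |s v2 / a v2 - m - pol τ2 * (n * k2)| ≤ c * ε := by
    intro hk
    rw [hp, hq] at D2
    have h1 := place_s (v := v2) A (2 : Fin 3) τ2 (he0 v2) (hcor _ _) hx0 hy0
      (inv_ne_zero hx0) (hloc τ2)
      (C := c) (γ4 := lg v2 (g 4)) N2 hεpos hTP.h2' hc.ge hεc (hγ v2 2) (hγ v2 3) (hγ v2 4) (by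
        have := abs_le.mp (hγ v2 0)
        show lg v2 x⁻¹ ≤ _
        rw [lg_inv, ha v2]
        linarith) hk D2
    have e1 : ((pol (2 : Fin 3) : ℕ) : ℝ) = 1 := by simp [pol]
    rw [e1, one_mul, ← hs] at h1
    have h2 : |(m : ℝ) * (lg v2 x / a v2) - m| ≤ m * ε := by
      have h3 : (m : ℝ) * (lg v2 x / a v2) - m = m * ((lg v2 x - a v2) / a v2) := by
        field_simp
      rw [h3, abs_mul, abs_of_nonneg (by linarith : (0 : ℝ) ≤ m)]
      apply mul_le_mul_of_nonneg_left _ (by linarith)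
      rw [abs_div, abs_of_pos N2, div_le_iff₀ N2]
      have h4 : |lg v2 x - a v2| ≤ e0 v2 := by
        have : lg v2 x - a v2 = -lg v2 (g 0) := by rw [ha]; ring
        rw [this, abs_neg]; exact hγ v2 0
      have h5 := hTP.h2'
      have h6 : 0 ≤ e0 v2 := (abs_nonneg _).trans h4
      linarith
    have h3 := abs_le.mp h1
    have h4 := abs_le.mp h2
    rw [abs_le]
    constructor <;> linarith
  obtain ⟨m0, m1⟩ := core1 (s0 := s v0 / -a v0) (s1 := s v1 / -b v1) (s2 := s v2 / a v2)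
    (m := (m : ℝ)) (n := (n : ℝ)) (C := c) hεpos hε1 hm' hn' (by linarith) (by
      have : ε * n ≤ ε * c := mul_le_mul_of_nonneg_left (by linarith) hεpos.le
      linarith) hεc hk0 hk1 hk2 D0 D1 D2 C0 C1 C2
    (hTP.bal dp le_rfl le_rfl) (hTP.bal dq le_rfl le_rfl) (hTP.bal ds le_rfl le_rfl)
  have b0 := (D0.bound hk0).1
  have b1 := (D1.bound hk1).1
  constructor <;> linarith

/-- the height of `y`, from the plane -/
theorem plane2 {S : Finset (FinitePlace K)} {x y : K} (sx : SU S x) (sx' : SU S (1 - x))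
    (sy : SU S y) (g : Fin 5 → K) (e0 : Pl S → ℝ)
    (hγ : ∀ v l, |lg v (g l)| ≤ e0 v) (H c ε h : ℝ) (hH : finrank ℚ K ≤ H)
    (hsum : ∑ v, e0 v ≤ 2 * H) (hεpos : 0 < ε) (hc : 0 ≤ c)
    (hh : h = logHeight₁ x) (hεh : ε * h = 16 * H) (hhH : 10 * H ≤ h)
    (a b p : Pl S → ℝ) (ha : ∀ v, a v = lg v x + lg v (g 0))
    (hb : ∀ v, b v = lg v (1 - x) + lg v (g 1)) (hp : ∀ v, p v = lg v y + lg v (g 2))
    (hthird : ∀ v, |p v| ≤ c * ε * (|a v| + |b v|) * 2) :
    logHeight₁ y ≤ (96 * c + 1) * H := by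
  have hab : ∑ v, (|a v| + |b v|) ≤ 6 * h := by
    have h3 : ∀ v, |a v| + |b v| ≤ |lg v x| + |lg v (1 - x)| + 2 * e0 v := by
      intro v
      have h1 := abs_add_le (lg v x) (lg v (g 0))
      have h2 := abs_add_le (lg v (1 - x)) (lg v (g 1))
      have := hγ v 0
      have := hγ v 1
      rw [ha, hb]
      linarith
    have h4 := Finset.sum_le_sum fun v (_ : v ∈ (Finset.univ : Finset (Pl S))) => h3 v
    simp only [Finset.sum_add_distrib] at h4
    rw [sum_abs_lg sx, sum_abs_lg sx', ← Finset.mul_sum] at h4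
    rw [Finset.sum_add_distrib]
    have h5 := ht_sub' 1 x
    rw [logHeight₁_one] at h5
    have h6 : (finrank ℚ K : ℝ) * log 2 ≤ H :=
      (mul_le_of_le_one_right (Nat.cast_nonneg _) log_two_le).trans hH
    linarith
  have hfin : 2 * logHeight₁ y ≤ c * ε * (6 * h) * 2 + 2 * H := by
    rw [← sum_abs_lg sy]
    have h1 : ∀ v, |lg v y| ≤ c * ε * (|a v| + |b v|) * 2 + e0 v := by
      intro v
      have h2 := hthird v
      have h3 : lg v y = p v - lg v (g 2) := by rw [hp]; ring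
      rw [h3]
      have := abs_sub (p v) (lg v (g 2))
      have := hγ v 2
      linarith
    refine (Finset.sum_le_sum fun v _ => h1 v).trans ?_
    rw [Finset.sum_add_distrib, ← Finset.sum_mul, ← Finset.mul_sum]
    have h2 : c * ε * ∑ v, (|a v| + |b v|) ≤ c * ε * (6 * h) :=
      mul_le_mul_of_nonneg_left hab (by positivity)
    linarith
  have h8 : c * ε * (6 * h) * 2 = c * 192 * H := by
    have : c * ε * (6 * h) * 2 = c * 12 * (ε * h) := by ring
    rw [this, hεh]; ring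
  rw [h8] at hfin
  linarith

end

/-- One of the two coordinates has bounded height. -/
theorem pass1 (m n : ℕ) (hm : 1 ≤ m) (hn : 1 ≤ n) : ∃ C : ℝ, 0 < C ∧
    ∀ (K : Type) [Field K] [NumberField K] (A : Fin (m + 1) → Fin (n + 1) → K) (x y : K)
      (g : Fin 5 → K), x ≠ 0 → 1 - x ≠ 0 → y ≠ 0 → 1 - y ≠ 0 → fval A x y ≠ 0 →
      (∀ σ τ, cval A σ τ ≠ 0) → (∀ l, g l ≠ 0) →
      HasRelations (fun l => g l * ![x, 1 - x, y, 1 - y, fval A x y] l) 3 →
      logHeight₁ x ≤ C * (finrank ℚ K + (∑ i, ∑ j, logHeight₁ (A i j) +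
        ∑ σ, ∑ τ, logHeight₁ (cval A σ τ) + ∑ l, logHeight₁ (g l))) ∨
      logHeight₁ y ≤ C * (finrank ℚ K + (∑ i, ∑ j, logHeight₁ (A i j) +
        ∑ σ, ∑ τ, logHeight₁ (cval A σ τ) + ∑ l, logHeight₁ (g l))) := by
  obtain ⟨c, hc⟩ : ∃ c : ℝ, c = 10 * ((m : ℝ) + n) + 30 := ⟨_, rfl⟩
  have hc0 : 30 ≤ c := by
    have : (0 : ℝ) ≤ 10 * ((m : ℝ) + n) := by positivity
    rw [hc]; linarith
  refine ⟨100000 * c, by linarith, ?_⟩
  intro K _ _ A x y g hx0 hx1 hy0 hy1 hf hcor hg hrel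
  have hHA0 : 0 ≤ ∑ i, ∑ j, logHeight₁ (A i j) :=
    Finset.sum_nonneg fun _ _ => Finset.sum_nonneg fun _ _ => ht_nonneg' _
  have hHL0 : 0 ≤ ∑ σ, ∑ τ, logHeight₁ (cval A σ τ) :=
    Finset.sum_nonneg fun _ _ => Finset.sum_nonneg fun _ _ => ht_nonneg' _
  have hHg0 : 0 ≤ ∑ l, logHeight₁ (g l) := Finset.sum_nonneg fun _ _ => ht_nonneg' _
  obtain ⟨S, e0, hS, he0, hγ, hγ01, hγ23, hsum⟩ := err1 A g [x, 1 - x, y, 1 - y, fval A x y] (by
    intro z hz
    simp only [List.mem_cons, List.not_mem_nil, or_false] at hz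
    rcases hz with rfl | rfl | rfl | rfl | rfl <;> assumption)
  obtain ⟨H, hH⟩ : ∃ H : ℝ, H = finrank ℚ K + (∑ i, ∑ j, logHeight₁ (A i j) +
        ∑ σ, ∑ τ, logHeight₁ (cval A σ τ) + ∑ l, logHeight₁ (g l)) := ⟨_, rfl⟩
  rw [← hH] at hsum ⊢
  have hd : (1 : ℝ) ≤ finrank ℚ K := by
    have : 0 < finrank ℚ K := finrank_pos
    exact_mod_cast this
  have hHd : (finrank ℚ K : ℝ) ≤ H := by rw [hH]; linarith
  clear hH hHA0 hHL0 hHg0
  have sx : SU S x := hS _ (by simp)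
  have sx' : SU S (1 - x) := hS _ (by simp)
  have sy : SU S y := hS _ (by simp)
  clear hS
  have hHpos : 0 < H := by linarith
  by_contra hcon
  push Not at hcon
  obtain ⟨hconx, hcony⟩ := hcon
  obtain ⟨h, hhdef⟩ : ∃ h, h = logHeight₁ x := ⟨_, rfl⟩
  rw [← hhdef] at hconx
  have hhpos : 0 < h := lt_trans (by positivity) hconx
  obtain ⟨ε, hε⟩ : ∃ ε, ε = 16 * H / h := ⟨_, rfl⟩
  have hεpos : 0 < ε := by rw [hε]; positivity
  have hεh : ε * h = 16 * H := by rw [hε]; field_simp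
  have hεc : ε * c ≤ 1 / 1000 := by
    rw [hε, div_mul_eq_mul_div, div_le_iff₀ hhpos]
    linarith
  have hε1 : ε ≤ 1 / 1000 := by nlinarith
  have hcrd : ∀ l, ![x, 1 - x, y, 1 - y, fval A x y] l ≠ 0 := by
    intro l
    fin_cases l <;> assumption
  obtain ⟨v0, v1, v2, hTP⟩ := exists_TP hx0 hx1 sx sx' (fun v => lg v (g 0)) (fun v => lg v (g 1))
    (fun v => 2 * e0 v) hγ01 (4 * H) (by rw [← Finset.mul_sum]; linarith) (by positivity) ε hεpos
    hε1 (by rw [← hhdef, hεh]; linarith)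
  have dd := det_of_rel (S := S) g ![x, 1 - x, y, 1 - y, fval A x y] hg hcrd hrel
  have dp := dd 0 1 2
  have dq := dd 0 1 3
  have ds := dd 0 1 4
  obtain ⟨P0, P1⟩ := plane1 hm hn A x y g hx0 hx1 hy0 hy1 hcor e0 he0 hγ hγ23 c hc ε hεpos hεc
    v0 v1 v2 _ _ (fun v => lg v y + lg v (g 2)) (fun v => lg v (1 - y) + lg v (g 3))
    (fun v => lg v (fval A x y) + lg v (g 4)) (fun v => rfl) (fun v => rfl) (fun v => rfl)
    (fun v => rfl) (fun v => rfl) hTP dp dq ds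
  have hthird := hTP.third (u := fun v => lg v y + lg v (g 2)) dp (C := 2 * c + 52) (z := 0)
    (z' := 0) (by simp) (by simp) (by nlinarith) (by rw [sub_zero]; exact P0)
    (by rw [sub_zero]; exact P1)
  have := plane2 sx sx' sy g e0 hγ H (2 * c + 52 + 10) ε h hHd hsum hεpos (by linarith) hhdef hεh
    (by nlinarith) _ _ _ (fun v => rfl) (fun v => rfl) (fun v => rfl) (fun v => by
      have := hthird v
      rw [zero_mul, zero_mul, zero_add, zero_add] at this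
      exact this)
  nlinarith

end Run7.h498.GZ
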