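import Pool.Agent.Run7.h498.GZ.P3

set_option autoImplicit false

/-!
# Bounded height for the second coordinate
-/

namespace Run7.h498.GZ

open NumberField Height Real Module Pool.Agent.Y740 Run7.h498

/-- the values of a polynomial in one variable at the corners -/
def cval1 {F : Type} [Field F] {d : ℕ} (B : Fin (d + 1) → F) (σ : Fin 3) : F :=
  ∑ i, B i * eps F σ d i

/-- the value of a polynomial in one variable -/
def fval1 {F : Type} [Field F] {d : ℕ} (B : Fin (d + 1) → F) (x : F) : F :=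
  ∑ i, B i * x ^ (i : ℕ)

section
variable {K : Type} [Field K] [NumberField K]

lemma sval1 {S : Finset (FinitePlace K)} {v : Pl S} {d : ℕ} (B : Fin (d + 1) → K) {x : K}
    (σ : Fin 3) {e0 : ℝ}
    (he0 : kp v + ∑ i, |lg v (B i)| + ∑ σ, |lg v (cval1 B σ)| ≤ e0)
    (hL : cval1 B σ ≠ 0) (hx0 : x ≠ 0) (hlx : loc σ x ≠ 0)
    (h1 : lg v (loc σ x) < -((3 * d + 3) * e0)) :
    |lg v (fval1 B x) - pol σ * (d * lg v x)| ≤ 2 * e0 := by
  have hk := kp_nonneg v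
  have hA0 : 0 ≤ ∑ i, |lg v (B i)| := Finset.sum_nonneg fun _ _ => abs_nonneg _
  have hL0 : |lg v (cval1 B σ)| ≤ ∑ σ, |lg v (cval1 B σ)| :=
    Finset.single_le_sum (f := fun τ => |lg v (cval1 B τ)|) (fun _ _ => abs_nonneg _)
      (Finset.mem_univ σ)
  have hL1 := abs_le.mp (le_refl |lg v (cval1 B σ)|)
  have hL2 := abs_nonneg (lg v (cval1 B σ))
  set M := ∑ i, |lg v (B i)| with hM
  have hAM : ∀ i, Bd v M (B i) := by
    intro i
    right
    refine (le_abs_self _).trans ?_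
    exact Finset.single_le_sum (f := fun j => |lg v (B j)|) (fun _ _ => abs_nonneg _)
      (Finset.mem_univ i)
  have hm0 : (0 : ℝ) ≤ d := Nat.cast_nonneg _
  have he : 0 ≤ e0 := by linarith
  have hc : (3 * d + 3) * e0 ≥ (3 * d + 2) * kp v + e0 := by
    have : (3 * (d : ℝ) + 2) * kp v ≤ (3 * d + 2) * e0 :=
      mul_le_mul_of_nonneg_left (by linarith) (by positivity)
    linarith
  obtain ⟨k1, k2⟩ := corner1 σ d B hAM hlx
    (by have : (0 : ℝ) ≤ (3 * d + 3) * e0 := by positivity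
        linarith) hL
    (by
      show _ < lg v (cval1 B σ)
      linarith)
  have e1 : fval1 B x = x ^ (pol σ * d) * ∑ i, B i * zet σ d x i := by
    rw [fval1, Finset.mul_sum]
    apply Finset.sum_congr rfl
    intro i _
    rw [pow_eq_zet σ d hx0 i]
    ring
  rw [e1, lg_mul v (pow_ne_zero _ hx0) k1, lg_pow]
  have k3 : |lg v (∑ i, B i * zet σ d x i) - lg v (cval1 B σ)| ≤ kp v := k2
  have k4 := abs_le.mp k3
  push_cast
  rw [abs_le]
  constructor <;> linarith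

/-- the last coordinate at one of the three places -/
lemma place_s1 {S : Finset (FinitePlace K)} {v : Pl S} {α β d : ℕ} (B : Fin (d + 1) → K) {x : K}
    (σ : Fin 3) {e0 : ℝ}
    (he0 : kp v + ∑ i, |lg v (B i)| + ∑ σ, |lg v (cval1 B σ)| ≤ e0)
    (hL : cval1 B σ ≠ 0) (hx0 : x ≠ 0) (hx1 : 1 - x ≠ 0) (hF : fval1 B x ≠ 0)
    {N ε γ0 γ1 γ4 C X Y : ℝ} (hN : 0 < N) (hε : 0 < ε) (heN : 2 * e0 ≤ ε * N)
    (hC : 10 * ((α : ℝ) + β + d) + 30 ≤ C) (hεC : ε * C ≤ 1 / 1000)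
    (hγ0 : |γ0| ≤ e0) (hγ1 : |γ1| ≤ e0) (hγ4 : |γ4| ≤ e0)
    (hXY : (σ = 0 ∧ X = -1 ∧ Y = 0) ∨ (σ = 1 ∧ X = 0 ∧ Y = -1) ∨ (σ = 2 ∧ X = 1 ∧ Y = 1))
    (hX : |(lg v x + γ0) / N - X| ≤ ε) (hY : |(lg v (1 - x) + γ1) / N - Y| ≤ ε) :
    |(lg v (x ^ α * (1 - x) ^ β * fval1 B x) + γ4) / N - (α * X + β * Y + pol σ * (d * X))| ≤
      C * ε := by
  have hα : (0 : ℝ) ≤ α := Nat.cast_nonneg _
  have hβ : (0 : ℝ) ≤ β := Nat.cast_nonneg _
  have hd : (0 : ℝ) ≤ d := Nat.cast_nonneg _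
  have hkp := kp_nonneg v
  have he : 0 ≤ e0 := (abs_nonneg _).trans hγ0
  have hεN : 0 < ε * N := mul_pos hε hN
  have hdiv : ∀ z w : ℝ, |z / N - w| ≤ ε → |z - w * N| ≤ ε * N := by
    intro z w h
    have h1 : z - w * N = (z / N - w) * N := by field_simp
    rw [h1, abs_mul, abs_of_pos hN]
    exact mul_le_mul_of_nonneg_right h hN.le
  have g0 := abs_le.mp hγ0
  have g1 := abs_le.mp hγ1
  have g4 := abs_le.mp hγ4
  have hX' := abs_le.mp (hdiv _ _ hX)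
  have hY' := abs_le.mp (hdiv _ _ hY)
  have hCε : (10 * ((α : ℝ) + β + d) + 30) * (ε * N) ≤ C * (ε * N) :=
    mul_le_mul_of_nonneg_right hC hεN.le
  have hCN : C * (ε * N) ≤ 1 / 1000 * N := by
    have : C * (ε * N) = (ε * C) * N := by ring
    rw [this]
    exact mul_le_mul_of_nonneg_right hεC hN.le
  have hα1 : 0 ≤ (α : ℝ) * (ε * N) := by positivity
  have hβ1 : 0 ≤ (β : ℝ) * (ε * N) := by positivity
  have hd1 : 0 ≤ (d : ℝ) * (ε * N) := by positivity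
  have hc1 : (3 * (d : ℝ) + 3) * e0 ≤ (3 * d + 3) * (ε * N / 2) :=
    mul_le_mul_of_nonneg_left (by linarith) (by positivity)
  -- near the corner
  have hloc : loc σ x ≠ 0 := by
    fin_cases σ
    · exact hx0
    · exact hx1
    · exact inv_ne_zero hx0
  have hdx : lg v (loc σ x) ≤ -N + ε * N + e0 := by
    rcases hXY with ⟨rfl, rfl, rfl⟩ | ⟨rfl, rfl, rfl⟩ | ⟨rfl, rfl, rfl⟩
    · show lg v x ≤ _
      linarith
    · show lg v (1 - x) ≤ _
      linarith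
    · show lg v x⁻¹ ≤ _
      rw [lg_inv]
      linarith
  have h1 : lg v (loc σ x) < -((3 * d + 3) * e0) := by
    refine lt_of_le_of_lt hdx ?_
    linarith
  have h3 := abs_le.mp (sval1 B σ he0 hL hx0 hloc h1)
  have e2 : (lg v (x ^ α * (1 - x) ^ β * fval1 B x) + γ4) / N -
      (α * X + β * Y + pol σ * (d * X)) =
      ((lg v (fval1 B x) - pol σ * (d * lg v x)) + γ4 + α * (lg v x - X * N) +
        β * (lg v (1 - x) - Y * N) + pol σ * (d * (lg v x - X * N))) / N := by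
    rw [lg_mul v (mul_ne_zero (pow_ne_zero _ hx0) (pow_ne_zero _ hx1)) hF,
      lg_mul v (pow_ne_zero _ hx0) (pow_ne_zero _ hx1), lg_pow, lg_pow]
    field_simp
    ring
  rw [e2, abs_div, abs_of_pos hN, div_le_iff₀ hN]
  have hp : ((pol σ : ℕ) : ℝ) = 0 ∨ ((pol σ : ℕ) : ℝ) = 1 := by
    fin_cases σ <;> simp [pol]
  have k1 : |(α : ℝ) * (lg v x - X * N)| ≤ α * (2 * (ε * N)) := by
    rw [abs_mul, abs_of_nonneg hα]
    apply mul_le_mul_of_nonneg_left _ hα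
    rw [abs_le]; constructor <;> linarith
  have k2 : |(β : ℝ) * (lg v (1 - x) - Y * N)| ≤ β * (2 * (ε * N)) := by
    rw [abs_mul, abs_of_nonneg hβ]
    apply mul_le_mul_of_nonneg_left _ hβ
    rw [abs_le]; constructor <;> linarith
  have k3 : |((pol σ : ℕ) : ℝ) * (d * (lg v x - X * N))| ≤ d * (2 * (ε * N)) := by
    rcases hp with hp | hp
    · rw [hp, zero_mul, abs_zero]; positivity
    · rw [hp, one_mul, abs_mul, abs_of_nonneg hd]
      apply mul_le_mul_of_nonneg_left _ hd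
      rw [abs_le]; constructor <;> linarith
  have k1 := abs_le.mp k1
  have k2 := abs_le.mp k2
  have k3 := abs_le.mp k3
  rw [abs_le]
  constructor <;> linarith

end

/-- The height of `x` is bounded, for a polynomial which is not a monomial in `x` and `1 - x`. -/
theorem pass2 (α β d : ℕ) (hd : 1 ≤ d) : ∃ C : ℝ, 0 < C ∧
    ∀ (K : Type) [Field K] [NumberField K] (B : Fin (d + 1) → K) (x : K)
      (g : Fin 5 → K), x ≠ 0 → 1 - x ≠ 0 → fval1 B x ≠ 0 →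
      (∀ σ, cval1 B σ ≠ 0) → (∀ l, g l ≠ 0) →
      HasRelations (fun l => g l * ![x, 1 - x, 1, 1, x ^ α * (1 - x) ^ β * fval1 B x] l) 3 →
      logHeight₁ x ≤ C * (finrank ℚ K + (∑ i, logHeight₁ (B i) +
        ∑ σ, logHeight₁ (cval1 B σ) + ∑ l, logHeight₁ (g l))) := by
  obtain ⟨c, hc⟩ : ∃ c : ℝ, c = 10 * ((α : ℝ) + β + d) + 30 := ⟨_, rfl⟩
  have hd' : (1 : ℝ) ≤ d := by exact_mod_cast hd
  have hα : (0 : ℝ) ≤ α := Nat.cast_nonneg _
  have hβ : (0 : ℝ) ≤ β := Nat.cast_nonneg _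
  have hc0 : 30 ≤ c := by rw [hc]; linarith
  refine ⟨100000 * c, by linarith, ?_⟩
  intro K _ _ B x g hx0 hx1 hF hcor hg hrel
  have hHA0 : 0 ≤ ∑ i, logHeight₁ (B i) := Finset.sum_nonneg fun _ _ => ht_nonneg' _
  have hHL0 : 0 ≤ ∑ σ, logHeight₁ (cval1 B σ) := Finset.sum_nonneg fun _ _ => ht_nonneg' _
  have hHg0 : 0 ≤ ∑ l, logHeight₁ (g l) := Finset.sum_nonneg fun _ _ => ht_nonneg' _
  obtain ⟨S, hS, hsum⟩ := exists_err (κ := Fin (d + 1) ⊕ (Fin 3 ⊕ Fin 5))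
    (Sum.elim B (Sum.elim (fun i => cval1 B i) g)) [x, 1 - x] (by
    intro z hz
    simp only [List.mem_cons, List.not_mem_nil, or_false] at hz
    rcases hz with rfl | rfl <;> assumption)
  have hv : ∀ v : Pl S, kp v + ∑ k, |lg v ((Sum.elim B
      (Sum.elim (fun i => cval1 B i) g) : Fin (d + 1) ⊕ (Fin 3 ⊕
      Fin 5) → K) k)| = kp v + (∑ i, |lg v (B i)| + (∑ σ, |lg v (cval1 B σ)| +
        ∑ l, |lg v (g l)|)) := by
    intro v
    rw [Fintype.sum_sum_type, Fintype.sum_sum_type]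
    rfl
  simp only [hv] at hsum
  rw [Fintype.sum_sum_type (f := fun k => logHeight₁ _), Fintype.sum_sum_type
    (f := fun k => logHeight₁ _)] at hsum
  simp only [Sum.elim_inl, Sum.elim_inr] at hsum
  obtain ⟨e0, he0def⟩ : ∃ e0 : Pl S → ℝ, e0 = fun v => kp v + (∑ i, |lg v (B i)| +
    (∑ σ, |lg v (cval1 B σ)| + ∑ l, |lg v (g l)|)) := ⟨_, rfl⟩
  have he0 : ∀ v, kp v + ∑ i, |lg v (B i)| + ∑ σ, |lg v (cval1 B σ)| ≤ e0 v := by
    intro v
    have : 0 ≤ ∑ l, |lg v (g l)| := Finset.sum_nonneg fun _ _ => abs_nonneg _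
    rw [he0def]
    dsimp only
    linarith
  have hγ : ∀ v l, |lg v (g l)| ≤ e0 v := by
    intro v l
    have h1 : |lg v (g l)| ≤ ∑ l, |lg v (g l)| :=
      Finset.single_le_sum (f := fun l => |lg v (g l)|) (fun _ _ => abs_nonneg _)
        (Finset.mem_univ l)
    have h2 : 0 ≤ ∑ i, |lg v (B i)| := Finset.sum_nonneg fun _ _ => abs_nonneg _
    have h3 : 0 ≤ ∑ i, |lg v (cval1 B i)| := Finset.sum_nonneg fun _ _ => abs_nonneg _
    have := kp_nonneg v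
    rw [he0def]
    dsimp only
    linarith
  have hγ01 : ∀ v, kp v + 2 * |lg v (g 0)| + 2 * |lg v (g 1)| ≤ 2 * e0 v := by
    intro v
    have h2 : 0 ≤ ∑ i, |lg v (B i)| := Finset.sum_nonneg fun _ _ => abs_nonneg _
    have h3 : 0 ≤ ∑ i, |lg v (cval1 B i)| := Finset.sum_nonneg fun _ _ => abs_nonneg _
    have := kp_nonneg v
    have h5 := Fin.sum_univ_five (f := fun l => |lg v (g l)|)
    have := abs_nonneg (lg v (g 2)); have := abs_nonneg (lg v (g 3))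
    have := abs_nonneg (lg v (g 4))
    rw [he0def]
    dsimp only
    linarith
  rw [← he0def] at hsum
  clear hv he0def
  obtain ⟨H, hH⟩ : ∃ H : ℝ, H = finrank ℚ K + (∑ i, logHeight₁ (B i) +
        ∑ σ, logHeight₁ (cval1 B σ) + ∑ l, logHeight₁ (g l)) := ⟨_, rfl⟩
  rw [← hH]
  have hd0 : (1 : ℝ) ≤ finrank ℚ K := by
    have : 0 < finrank ℚ K := finrank_pos
    exact_mod_cast this
  have hsum2 : ∑ v, e0 v ≤ 2 * H := by rw [hH]; linarith
  have hHd : (finrank ℚ K : ℝ) ≤ H := by rw [hH]; linarith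
  clear hH hHA0 hHL0 hHg0 hsum
  have sx : SU S x := hS _ (by simp)
  have sx' : SU S (1 - x) := hS _ (by simp)
  clear hS
  have hHpos : 0 < H := by linarith
  by_contra hcon
  rw [not_le] at hcon
  obtain ⟨h, hhdef⟩ : ∃ h, h = logHeight₁ x := ⟨_, rfl⟩
  rw [← hhdef] at hcon
  have hhpos : 0 < h := lt_trans (by positivity) hcon
  obtain ⟨ε, hε⟩ : ∃ ε, ε = 16 * H / h := ⟨_, rfl⟩
  have hεpos : 0 < ε := by rw [hε]; positivity
  have hεh : ε * h = 16 * H := by rw [hε]; field_simp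
  have hεc : ε * c ≤ 1 / 1000 := by
    rw [hε, div_mul_eq_mul_div, div_le_iff₀ hhpos]
    linarith
  have hε1 : ε ≤ 1 / 1000 := by nlinarith
  have hcrd : ∀ l, ![x, 1 - x, 1, 1, x ^ α * (1 - x) ^ β * fval1 B x] l ≠ 0 := by
    intro l
    fin_cases l
    · exact hx0
    · exact hx1
    · exact one_ne_zero
    · exact one_ne_zero
    · exact mul_ne_zero (mul_ne_zero (pow_ne_zero _ hx0) (pow_ne_zero _ hx1)) hF
  obtain ⟨v0, v1, v2, hTP⟩ := exists_TP hx0 hx1 sx sx' (fun v => lg v (g 0)) (fun v => lg v (g 1))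
    (fun v => 2 * e0 v) hγ01 (4 * H) (by rw [← Finset.mul_sum]; linarith) (by positivity) ε hεpos
    hε1 (by rw [← hhdef, hεh]; linarith)
  have ds := det_of_rel (S := S) g ![x, 1 - x, 1, 1, x ^ α * (1 - x) ^ β * fval1 B x] hg hcrd hrel
    0 1 4
  have N0 := hTP.h0
  have N1 := hTP.h1
  have N2 := hTP.h2
  have s0 := place_s1 (α := α) (β := β) (v := v0) B 0 (he0 v0) (hcor 0) hx0 hx1 hF (X := -1)
    (Y := 0) (γ0 := lg v0 (g 0)) (γ1 := lg v0 (g 1)) N0 hεpos hTP.h0' hc.ge hεc (hγ v0 0) (hγ v0 1)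
    (hγ v0 4) (Or.inl ⟨rfl, rfl, rfl⟩) (by
      rw [div_neg, div_self (by linarith : (lg v0 x + lg v0 (g 0)) ≠ 0)]
      simpa using hεpos.le) (by rw [sub_zero]; exact hTP.hb0)
  have s1 := place_s1 (α := α) (β := β) (v := v1) B 1 (he0 v1) (hcor 1) hx0 hx1 hF (X := 0)
    (Y := -1) (γ0 := lg v1 (g 0)) (γ1 := lg v1 (g 1)) N1 hεpos hTP.h1' hc.ge hεc (hγ v1 0) (hγ v1 1)
    (hγ v1 4) (Or.inr (Or.inl ⟨rfl, rfl, rfl⟩)) (by rw [sub_zero]; exact hTP.ha1) (by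
      rw [div_neg, div_self (by linarith : (lg v1 (1 - x) + lg v1 (g 1)) ≠ 0)]
      simpa using hεpos.le)
  have s2 := place_s1 (α := α) (β := β) (v := v2) B 2 (he0 v2) (hcor 2) hx0 hx1 hF (X := 1)
    (Y := 1) (γ0 := lg v2 (g 0)) (γ1 := lg v2 (g 1)) N2 hεpos hTP.h2' hc.ge hεc (hγ v2 0) (hγ v2 1)
    (hγ v2 4) (Or.inr (Or.inr ⟨rfl, rfl, rfl⟩)) (by
      rw [div_self (by linarith : (lg v2 x + lg v2 (g 0)) ≠ 0)]
      simpa using hεpos.le) hTP.hb2
  have hbal := hTP.bal ds le_rfl le_rfl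
  have p0 : ((pol (0 : Fin 3) : ℕ) : ℝ) = 0 := by simp [pol]
  have p1 : ((pol (1 : Fin 3) : ℕ) : ℝ) = 0 := by simp [pol]
  have p2 : ((pol (2 : Fin 3) : ℕ) : ℝ) = 1 := by simp [pol]
  rw [p0] at s0
  rw [p1] at s1
  rw [p2] at s2
  change |(lg v0 (x ^ α * (1 - x) ^ β * fval1 B x) + lg v0 (g 4)) / -(lg v0 x + lg v0 (g 0)) +
    (lg v1 (x ^ α * (1 - x) ^ β * fval1 B x) + lg v1 (g 4)) / -(lg v1 (1 - x) + lg v1 (g 1)) +
    (lg v2 (x ^ α * (1 - x) ^ β * fval1 B x) + lg v2 (g 4)) / (lg v2 x + lg v2 (g 0))| ≤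
    3 * ε * (|(lg v0 (x ^ α * (1 - x) ^ β * fval1 B x) + lg v0 (g 4)) /
      -(lg v0 x + lg v0 (g 0))| + |(lg v1 (x ^ α * (1 - x) ^ β * fval1 B x) + lg v1 (g 4)) /
      -(lg v1 (1 - x) + lg v1 (g 1))|) at hbal
  generalize (lg v0 (x ^ α * (1 - x) ^ β * fval1 B x) + lg v0 (g 4)) /
    -(lg v0 x + lg v0 (g 0)) = S0 at *
  generalize (lg v1 (x ^ α * (1 - x) ^ β * fval1 B x) + lg v1 (g 4)) /
    -(lg v1 (1 - x) + lg v1 (g 1)) = S1 at *
  generalize (lg v2 (x ^ α * (1 - x) ^ β * fval1 B x) + lg v2 (g 4)) /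
    (lg v2 x + lg v2 (g 0)) = S2 at *
  clear ds hTP N0 N1 N2 he0 hγ hγ01 hsum2
  have hcε : c * ε ≤ 1 / 1000 := by rw [mul_comm]; exact hεc
  have t0 := abs_le.mp s0
  have t1 := abs_le.mp s1
  have t2 := abs_le.mp s2
  have b0 : |S0| ≤ α + 1 := by rw [abs_le]; constructor <;> linarith
  have b1 : |S1| ≤ β + 1 := by rw [abs_le]; constructor <;> linarith
  have b3 : 3 * ε * (|S0| + |S1|) ≤ 3 * ε * c := by
    apply mul_le_mul_of_nonneg_left _ (by positivity)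
    rw [hc]
    linarith
  have b4 := abs_le.mp (hbal.trans b3)
  have b5 : 3 * ε * c ≤ 3 / 1000 := by linarith
  linarith [b4.2]

end Run7.h498.GZ
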