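import Pool.Agent.Run7.h498.GZ.P4
import Pool.Agent.Run7.h498.GZ.Crv
import Pool.Agent.Y740.G.HeightMain

set_option autoImplicit false

/-!
# Bounded height over the algebraic numbers
-/

namespace Run7.h498.GZ

open Polynomial NumberField Height Real Module Pool.Agent.Y740 Pool.Agent.Y740.G Run7.h498
open Pool.Agent.Y740.Z (ev)

section maps
variable {F F' : Type} [Field F] [Field F'] (φ : F →+* F')

lemma map_eps (σ : Fin 3) (m : ℕ) (i : Fin (m + 1)) : φ (eps F σ m i) = eps F' σ m i := by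
  fin_cases σ
  · simp only [eps]
    by_cases h : (i : ℕ) = 0 <;> simp [h]
  · simp [eps]
  · simp only [eps]
    by_cases h : (i : ℕ) = m <;> simp [h]

lemma map_cval {m n : ℕ} (A : Fin (m + 1) → Fin (n + 1) → F) (σ τ : Fin 3) :
    φ (cval A σ τ) = cval (fun i j => φ (A i j)) σ τ := by
  simp only [cval, map_sum, map_mul, map_eps]

lemma map_fval {m n : ℕ} (A : Fin (m + 1) → Fin (n + 1) → F) (x y : F) :
    φ (fval A x y) = fval (fun i j => φ (A i j)) (φ x) (φ y) := by
  simp only [fval, map_sum, map_mul, map_pow]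

lemma map_cval1 {d : ℕ} (B : Fin (d + 1) → F) (σ : Fin 3) :
    φ (cval1 B σ) = cval1 (fun i => φ (B i)) σ := by
  simp only [cval1, map_sum, map_mul, map_eps]

lemma map_fval1 {d : ℕ} (B : Fin (d + 1) → F) (x : F) :
    φ (fval1 B x) = fval1 (fun i => φ (B i)) (φ x) := by
  simp only [fval1, map_sum, map_mul, map_pow]

end maps

lemma rel_descend {F F' : Type} [Field F] [Field F'] (φ : F →+* F') (zK : Fin 5 → F)
    (z : Fin 5 → F') (h : ∀ l, φ (zK l) = z l) (hrel : HasRelations z 3) : HasRelations zK 3 := by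
  obtain ⟨u, hu, hr⟩ := hrel
  refine ⟨u, hu, fun k => ?_⟩
  apply φ.injective
  rw [map_one, ← hr k, map_prod]
  apply Finset.prod_congr rfl
  intro l _
  rw [map_zpow₀, h]

/-- One of the two coordinates has bounded height. -/
theorem pass1Q (m n : ℕ) (hm : 1 ≤ m) (hn : 1 ≤ n) (A : Fin (m + 1) → Fin (n + 1) → Qb)
    (hcor : ∀ σ τ, cval A σ τ ≠ 0) (g : Fin 5 → Qb) (hg : ∀ l, g l ≠ 0) : ∃ C : ℝ, 
    ∀ x y : Qb, x ≠ 0 → 1 - x ≠ 0 → y ≠ 0 → 1 - y ≠ 0 → fval A x y ≠ 0 →
      HasRelations (fun l => g l * ![x, 1 - x, y, 1 - y, fval A x y] l) 3 →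
      NumberField.absLogHeight₁ x ≤ C ∨ NumberField.absLogHeight₁ y ≤ C := by
  obtain ⟨C, hC, hb⟩ := pass1 m n hm hn
  refine ⟨C * (1 + (∑ i, ∑ j, NumberField.absLogHeight₁ (A i j) +
    ∑ σ, ∑ τ, NumberField.absLogHeight₁ (cval A σ τ) + ∑ l, NumberField.absLogHeight₁ (g l))), ?_⟩
  intro x y hx0 hx1 hy0 hy1 hf hrel
  obtain ⟨K, hK, hG, hmem⟩ := exists_galois ({x, y} ∪ Set.range g ∪
    Set.range fun i : Fin (m + 1) × Fin (n + 1) => A i.1 i.2)
    (((by simp : ({x, y} : Set _).Finite).union (Set.finite_range g)).union (Set.finite_range _))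
  have hn' := finrank_pos' K
  let xK : K := ⟨x, hmem _ (by simp)⟩
  let yK : K := ⟨y, hmem _ (by simp)⟩
  let gK : Fin 5 → K := fun j => ⟨g j, hmem _ (by simp)⟩
  let AK : Fin (m + 1) → Fin (n + 1) → K := fun i j => ⟨A i j, hmem _ (Or.inr ⟨(i, j), rfl⟩)⟩
  have e1 : NumberField.absLogHeight₁ x = logHeight₁ xK / finrank ℚ K := ht_eq (algebraMap K Qb) xK
  have e2 : NumberField.absLogHeight₁ y = logHeight₁ yK / finrank ℚ K := ht_eq (algebraMap K Qb) yK
  have e3 : ∀ j, NumberField.absLogHeight₁ (g j) = logHeight₁ (gK j) / finrank ℚ K := fun j =>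
    ht_eq (algebraMap K Qb) (gK j)
  have e4 : ∀ i j, NumberField.absLogHeight₁ (A i j) = logHeight₁ (AK i j) / finrank ℚ K :=
    fun i j => ht_eq (algebraMap K Qb) (AK i j)
  have c1 : ∀ σ τ, algebraMap K Qb (cval AK σ τ) = cval A σ τ := fun σ τ => map_cval _ _ _ _
  have e5 : ∀ σ τ, NumberField.absLogHeight₁ (cval A σ τ) =
      logHeight₁ (cval AK σ τ) / finrank ℚ K := fun σ τ => by
    rw [← c1]; exact ht_eq (algebraMap K Qb) _
  have c2 : algebraMap K Qb (fval AK xK yK) = fval A x y := map_fval _ _ _ _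
  have h := hb K AK xK yK gK (fun h => hx0 (congrArg (algebraMap K Qb) h))
    (fun h => hx1 (congrArg (algebraMap K Qb) h)) (fun h => hy0 (congrArg (algebraMap K Qb) h))
    (fun h => hy1 (congrArg (algebraMap K Qb) h))
    (fun h => hf (by rw [← c2, h, map_zero]))
    (fun σ τ h => hcor σ τ (by rw [← c1, h, map_zero]))
    (fun l h => hg l (congrArg (algebraMap K Qb) h))
    (rel_descend (algebraMap K Qb) _ _ (fun l => by
      rw [map_mul]
      congr 1
      fin_cases l
      · rfl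
      · rfl
      · rfl
      · rfl
      · exact c2) hrel)
  simp only [e1, e2, e3, e4, e5]
  simp only [← Finset.sum_div, ← add_div]
  rw [div_le_iff₀ hn', div_le_iff₀ hn']
  have e6 : ∀ T : ℝ, C * (1 + T / finrank ℚ K) * finrank ℚ K = C * (finrank ℚ K + T) := by
    intro T
    field_simp
  rw [e6]
  exact h

/-- The height of `x` is bounded, for a polynomial which is not a monomial in `x` and `1 - x`. -/
theorem pass2Q (α β d : ℕ) (hd : 1 ≤ d) : ∃ C : ℝ, 0 < C ∧
    ∀ (B : Fin (d + 1) → Qb) (x : Qb)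
      (g : Fin 5 → Qb), x ≠ 0 → 1 - x ≠ 0 → fval1 B x ≠ 0 →
      (∀ σ, cval1 B σ ≠ 0) → (∀ l, g l ≠ 0) →
      HasRelations (fun l => g l * ![x, 1 - x, 1, 1, x ^ α * (1 - x) ^ β * fval1 B x] l) 3 →
      NumberField.absLogHeight₁ x ≤ C * (1 + (∑ i, NumberField.absLogHeight₁ (B i) +
        ∑ σ, NumberField.absLogHeight₁ (cval1 B σ) + ∑ l, NumberField.absLogHeight₁ (g l))) := by
  obtain ⟨C, hC, hb⟩ := pass2 α β d hd
  refine ⟨C, hC, ?_⟩
  intro B x g hx0 hx1 hf hcor hg hrel
  obtain ⟨K, hK, hG, hmem⟩ := exists_galois ({x} ∪ Set.range g ∪ Set.range B)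
    (((by simp : ({x} : Set _).Finite).union (Set.finite_range g)).union (Set.finite_range _))
  have hn' := finrank_pos' K
  let xK : K := ⟨x, hmem _ (by simp)⟩
  let gK : Fin 5 → K := fun j => ⟨g j, hmem _ (by simp)⟩
  let BK : Fin (d + 1) → K := fun i => ⟨B i, hmem _ (by simp)⟩
  have e1 : NumberField.absLogHeight₁ x = logHeight₁ xK / finrank ℚ K := ht_eq (algebraMap K Qb) xK
  have e3 : ∀ j, NumberField.absLogHeight₁ (g j) = logHeight₁ (gK j) / finrank ℚ K := fun j =>
    ht_eq (algebraMap K Qb) (gK j)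
  have e4 : ∀ i, NumberField.absLogHeight₁ (B i) = logHeight₁ (BK i) / finrank ℚ K :=
    fun i => ht_eq (algebraMap K Qb) (BK i)
  have c1 : ∀ σ, algebraMap K Qb (cval1 BK σ) = cval1 B σ := fun σ => map_cval1 _ _ _
  have e5 : ∀ σ, NumberField.absLogHeight₁ (cval1 B σ) =
      logHeight₁ (cval1 BK σ) / finrank ℚ K := fun σ => by
    rw [← c1]; exact ht_eq (algebraMap K Qb) _
  have c2 : algebraMap K Qb (fval1 BK xK) = fval1 B x := map_fval1 _ _ _
  have h := hb K BK xK gK (fun h => hx0 (congrArg (algebraMap K Qb) h))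
    (fun h => hx1 (congrArg (algebraMap K Qb) h))
    (fun h => hf (by rw [← c2, h, map_zero]))
    (fun σ h => hcor σ (by rw [← c1, h, map_zero]))
    (fun l h => hg l (congrArg (algebraMap K Qb) h))
    (rel_descend (algebraMap K Qb) _ _ (fun l => by
      rw [map_mul]
      congr 1
      fin_cases l
      · rfl
      · rfl
      · exact map_one _
      · exact map_one _
      · show algebraMap K Qb (xK ^ α * (1 - xK) ^ β * fval1 BK xK) =
          x ^ α * (1 - x) ^ β * fval1 B x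
        rw [map_mul, map_mul, map_pow, map_pow, c2]
        rfl) hrel)
  simp only [e1, e3, e4, e5]
  simp only [← Finset.sum_div, ← add_div]
  rw [div_le_iff₀ hn']
  have e6 : ∀ T : ℝ, C * (1 + T / finrank ℚ K) * finrank ℚ K = C * (finrank ℚ K + T) := by
    intro T
    field_simp
  rw [e6]
  exact h

lemma prod_zpow_sum' {F ι : Type} [Field F] {z : F} (hz : z ≠ 0) (s : Finset ι) (a : ι → ℤ) :
    ∏ j ∈ s, z ^ a j = z ^ (∑ j ∈ s, a j) := by
  classical
  induction s using Finset.induction_on with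
  | empty => simp
  | insert j s hj ih => rw [Finset.prod_insert hj, Finset.sum_insert hj, ih, zpow_add₀ hz]

/-- three relations contain one which is in the kernel of two linear forms -/
lemma rel_kernel {z : Fin 5 → Qb} (hz : ∀ l, z l ≠ 0) (hrel : HasRelations z 3)
    (f : (Fin 5 → ℤ) →ₗ[ℤ] (Fin 2 → ℤ)) :
    ∃ u : Fin 5 → ℤ, u ≠ 0 ∧ f u = 0 ∧ ∏ l, z l ^ u l = 1 := by
  obtain ⟨u, hu, hr⟩ := hrel
  let T : (Fin 3 → ℤ) →ₗ[ℤ] (Fin 5 → ℤ) := Fintype.linearCombination ℤ u
  have hT : ∀ c, T c = 0 → c = 0 := by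
    intro c hc
    funext k
    exact Fintype.linearIndependent_iff.mp hu c hc k
  have hni : ¬ Function.Injective (f.comp T) := by
    intro h
    have := le_of_fin_injective ℤ (f.comp T) h
    omega
  rw [← LinearMap.ker_eq_bot, Submodule.eq_bot_iff] at hni
  push Not at hni
  obtain ⟨c, hc, hc0⟩ := hni
  refine ⟨T c, fun h => hc0 (hT c h), hc, ?_⟩
  have h1 : ∀ l, (T c) l = ∑ k, c k * u k l := by
    intro l
    show (Fintype.linearCombination ℤ u c) l = _
    rw [Fintype.linearCombination_apply, Finset.sum_apply]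
    rfl
  have h2 : ∀ l, z l ^ (T c) l = ∏ k, (z l ^ u k l) ^ c k := by
    intro l
    rw [h1, ← prod_zpow_sum' (hz l)]
    exact Finset.prod_congr rfl fun k _ => by rw [← zpow_mul, mul_comm]
  rw [Finset.prod_congr rfl fun l _ => h2 l, Finset.prod_comm]
  apply Finset.prod_eq_one
  intro k _
  rw [Finset.prod_zpow, hr k, one_zpow]

end Run7.h498.GZ
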