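import Pool.Agent.Run7.h498.GZ.H1

set_option autoImplicit false

/-!
# Products of linear forms along one-parameter groups
-/

namespace Run7.h498.GZ

open Filter Topology ComplexConjugate Run7.h498

/-- Pairs of points on the line `Z₀ + Z₁ + Z₂ = 0` whose product moves along a one-parameter group,
on which a product of linear forms has the same property. -/
def NA3 {n : ℕ} (a : Fin n → Fin 3 → ℂ) (r w : Fin 3 → ℝ) (ρ ω : ℝ) : Prop :=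
  ∀ t : ℝ, ∃ Z Z' : Fin 3 → ℂ, ∑ k, Z k = 0 ∧ ∑ k, Z' k = 0 ∧
    (∀ k, Z k * Z' k = ((r k * Real.exp (t * w k) : ℝ) : ℂ)) ∧
    ρ * Real.exp (t * ω) = ∏ i, ‖(∑ k, a i k * Z k) * ∑ k, conj (a i k) * Z' k‖

lemma NA3.perm {n : ℕ} {a : Fin n → Fin 3 → ℂ} {r w : Fin 3 → ℝ} {ρ ω : ℝ} (h : NA3 a r w ρ ω)
    (e : Equiv.Perm (Fin 3)) : NA3 (fun i k => a i (e k)) (fun k => r (e k)) (fun k => w (e k)) ρ ω := by
  intro t
  obtain ⟨Z, Z', h1, h2, h3, h4⟩ := h t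
  refine ⟨fun k => Z (e k), fun k => Z' (e k), ?_, ?_, fun k => h3 (e k), ?_⟩
  · rw [Equiv.sum_comp e Z]; exact h1
  · rw [Equiv.sum_comp e Z']; exact h2
  · rw [h4]
    apply Finset.prod_congr rfl
    intro i _
    rw [Equiv.sum_comp e (fun k => a i k * Z k), Equiv.sum_comp e (fun k => conj (a i k) * Z' k)]

lemma NA3.neg {n : ℕ} {a : Fin n → Fin 3 → ℂ} {r w : Fin 3 → ℝ} {ρ ω : ℝ} (h : NA3 a r w ρ ω) :
    NA3 a r (fun k => -w k) ρ (-ω) := by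
  intro t
  obtain ⟨Z, Z', h1, h2, h3, h4⟩ := h (-t)
  refine ⟨Z, Z', h1, h2, fun k => ?_, ?_⟩
  · rw [h3 k]; congr 2; ring_nf
  · rw [← h4]; congr 1; ring_nf

/-- the value of a product of two conjugate forms -/
lemma form_eq {a Z Z' : Fin 3 → ℂ} {p : Fin 3 → ℝ} (h1 : ∑ k, Z k = 0) (h2 : ∑ k, Z' k = 0)
    (h3 : ∀ k, Z k * Z' k = (p k : ℂ)) :
    ((∑ k, a k * Z k) * ∑ k, conj (a k) * Z' k =
      (‖a 0 - a 2‖ ^ 2 * p 0 + ‖a 1 - a 2‖ ^ 2 * p 1 : ℝ) +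
      (a 0 - a 2) * conj (a 1 - a 2) * (Z 0 * Z' 1) +
      conj (a 0 - a 2) * (a 1 - a 2) * (Z 1 * Z' 0)) ∧
    Z 0 * Z' 1 + Z 1 * Z' 0 = ((p 2 - p 0 - p 1 : ℝ) : ℂ) ∧
    (Z 0 * Z' 1) * (Z 1 * Z' 0) = ((p 0 * p 1 : ℝ) : ℂ) := by
  rw [Fin.sum_univ_three] at h1 h2
  have e2 : Z 2 = -(Z 0 + Z 1) := by linear_combination h1
  have e2' : Z' 2 = -(Z' 0 + Z' 1) := by linear_combination h2
  have k0 := h3 0
  have k1 := h3 1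
  have k2 := h3 2
  rw [e2, e2'] at k2
  have n0 : ((‖a 0 - a 2‖ ^ 2 : ℝ) : ℂ) = (a 0 - a 2) * conj (a 0 - a 2) := by
    rw [Complex.mul_conj, Complex.normSq_eq_norm_sq]
  have n1 : ((‖a 1 - a 2‖ ^ 2 : ℝ) : ℂ) = (a 1 - a 2) * conj (a 1 - a 2) := by
    rw [Complex.mul_conj, Complex.normSq_eq_norm_sq]
  refine ⟨?_, ?_, ?_⟩
  · rw [Fin.sum_univ_three, Fin.sum_univ_three, e2, e2']
    push_cast
    push_cast at n0 n1
    rw [n0, n1, ← k0, ← k1]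
    simp only [map_sub]
    ring
  · push_cast
    rw [← k0, ← k1, ← k2]
    ring
  · push_cast
    rw [← k0, ← k1]
    ring

/-- one of two numbers with given product is small -/
lemma small_of_mul {u v : ℂ} {δ : ℝ} (hδ : 0 ≤ δ) (h : ‖u‖ * ‖v‖ ≤ δ ^ 2) : ‖u‖ ≤ δ ∨ ‖v‖ ≤ δ := by
  by_contra hcon
  push Not at hcon
  have : δ ^ 2 < ‖u‖ * ‖v‖ := by
    rw [pow_two]
    exact mul_lt_mul'' hcon.1 hcon.2 hδ hδ
  linarith

/-- the form, if the third coordinate is large -/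
lemma form_large {A B u v : ℂ} {p0 p1 D : ℝ} (hp0 : 0 ≤ p0) (hp1 : 0 ≤ p1)
    (h1 : u + v = (D : ℂ)) (h2 : u * v = ((p0 * p1 : ℝ) : ℂ)) :
    abs (‖((‖A‖ ^ 2 * p0 + ‖B‖ ^ 2 * p1 : ℝ) : ℂ) + A * conj B * u + conj A * B * v‖ -
      ‖A‖ * ‖B‖ * abs D) ≤ 2 * (‖A‖ ^ 2 * p0 + ‖B‖ ^ 2 * p1) := by
  set s0 := Real.sqrt p0 with hs0
  set s1 := Real.sqrt p1 with hs1
  have q0 : s0 ^ 2 = p0 := Real.sq_sqrt hp0
  have q1 : s1 ^ 2 = p1 := Real.sq_sqrt hp1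
  have g0 : 0 ≤ s0 := Real.sqrt_nonneg _
  have g1 : 0 ≤ s1 := Real.sqrt_nonneg _
  have hA := norm_nonneg A
  have hB := norm_nonneg B
  have hn : ‖u‖ * ‖v‖ ≤ (s0 * s1) ^ 2 := by
    rw [← norm_mul, h2, Complex.norm_real, Real.norm_eq_abs, abs_of_nonneg (mul_nonneg hp0 hp1),
      mul_pow, q0, q1]
  have hD : ‖(D : ℂ)‖ = |D| := by rw [Complex.norm_real, Real.norm_eq_abs]
  have hre : ‖((‖A‖ ^ 2 * p0 + ‖B‖ ^ 2 * p1 : ℝ) : ℂ)‖ = ‖A‖ ^ 2 * p0 + ‖B‖ ^ 2 * p1 := by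
    rw [Complex.norm_real, Real.norm_eq_abs, abs_of_nonneg (by positivity)]
  have key : ∀ x y : ℂ, ‖x‖ ≤ s0 * s1 → x + y = (D : ℂ) → ∀ P Q : ℂ, ‖P‖ = ‖A‖ * ‖B‖ →
      ‖Q‖ = ‖A‖ * ‖B‖ → abs (‖((‖A‖ ^ 2 * p0 + ‖B‖ ^ 2 * p1 : ℝ) : ℂ) + P * x + Q * y‖ -
      ‖A‖ * ‖B‖ * abs D) ≤ 2 * (‖A‖ ^ 2 * p0 + ‖B‖ ^ 2 * p1) := by
    intro x y hx hxy P Q hP hQ
    have e1 : ((‖A‖ ^ 2 * p0 + ‖B‖ ^ 2 * p1 : ℝ) : ℂ) + P * x + Q * y =
        Q * (D : ℂ) + (((‖A‖ ^ 2 * p0 + ‖B‖ ^ 2 * p1 : ℝ) : ℂ) + (P - Q) * x) := by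
      rw [← hxy]; ring
    rw [e1]
    have e2 : ‖Q * (D : ℂ)‖ = ‖A‖ * ‖B‖ * |D| := by rw [norm_mul, hQ, hD]
    rw [← e2]
    have h3 := abs_norm_sub_norm_le (Q * (D : ℂ) +
      (((‖A‖ ^ 2 * p0 + ‖B‖ ^ 2 * p1 : ℝ) : ℂ) + (P - Q) * x)) (Q * (D : ℂ))
    rw [add_sub_cancel_left] at h3
    refine h3.trans ((norm_add_le _ _).trans ?_)
    rw [hre, norm_mul]
    have h4 : ‖P - Q‖ ≤ 2 * (‖A‖ * ‖B‖) := by
      have := norm_sub_le P Q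
      rw [hP, hQ] at this
      linarith
    have h5 : ‖P - Q‖ * ‖x‖ ≤ 2 * (‖A‖ * ‖B‖) * (s0 * s1) :=
      mul_le_mul h4 hx (norm_nonneg _) (by positivity)
    have h6 : 2 * (‖A‖ * ‖B‖) * (s0 * s1) ≤ ‖A‖ ^ 2 * p0 + ‖B‖ ^ 2 * p1 := by
      rw [← q0, ← q1]
      nlinarith [sq_nonneg (‖A‖ * s0 - ‖B‖ * s1)]
    linarith
  have nP : ‖A * conj B‖ = ‖A‖ * ‖B‖ := by rw [norm_mul, Complex.norm_conj]
  have nQ : ‖conj A * B‖ = ‖A‖ * ‖B‖ := by rw [norm_mul, Complex.norm_conj]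
  rcases small_of_mul (by positivity) hn with h | h
  · exact key u v h h1 _ _ nP nQ
  · have := key v u h (by rw [add_comm]; exact h1) _ _ nQ nP
    have e : ((‖A‖ ^ 2 * p0 + ‖B‖ ^ 2 * p1 : ℝ) : ℂ) + A * conj B * u + conj A * B * v =
        ((‖A‖ ^ 2 * p0 + ‖B‖ ^ 2 * p1 : ℝ) : ℂ) + conj A * B * v + A * conj B * u := by ring
    rw [e]
    exact this

/-- the form, if the third coordinate is small -/
lemma form_small {A B u v : ℂ} {p0 p1 p2 : ℝ} (hp0 : 0 ≤ p0) (hp2 : 0 ≤ p2)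
    (h1 : u + v = ((p2 - p0 - p1 : ℝ) : ℂ)) (h2 : u * v = ((p0 * p1 : ℝ) : ℂ)) :
    |‖((‖A‖ ^ 2 * p0 + ‖B‖ ^ 2 * p1 : ℝ) : ℂ) + A * conj B * u + conj A * B * v‖ -
      ‖A - B‖ * ‖A * p0 - B * p1‖| ≤ ‖A‖ * ‖B‖ * (2 * (Real.sqrt p0 * Real.sqrt p2) + p2) := by
  set s0 := Real.sqrt p0 with hs0
  set s2 := Real.sqrt p2 with hs2
  have q0 : s0 ^ 2 = p0 := Real.sq_sqrt hp0
  have q2 : s2 ^ 2 = p2 := Real.sq_sqrt hp2
  have g0 : 0 ≤ s0 := Real.sqrt_nonneg _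
  have g2 : 0 ≤ s2 := Real.sqrt_nonneg _
  have hA := norm_nonneg A
  have hB := norm_nonneg B
  have hm : (u + p0) * (v + p0) = ((p0 * p2 : ℝ) : ℂ) := by
    have : (u + p0) * (v + p0) = u * v + p0 * (u + v) + p0 ^ 2 := by ring
    rw [this, h1, h2]
    push_cast; ring
  have hn : ‖u + p0‖ * ‖v + p0‖ ≤ (s0 * s2) ^ 2 := by
    rw [← norm_mul, hm, Complex.norm_real, Real.norm_eq_abs, abs_of_nonneg (mul_nonneg hp0 hp2),
      mul_pow, q0, q2]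
  have nA : ((‖A‖ ^ 2 : ℝ) : ℂ) = A * conj A := by
    rw [Complex.mul_conj, Complex.normSq_eq_norm_sq]
  have nB : ((‖B‖ ^ 2 : ℝ) : ℂ) = B * conj B := by
    rw [Complex.mul_conj, Complex.normSq_eq_norm_sq]
  have hre : ((‖A‖ ^ 2 * p0 + ‖B‖ ^ 2 * p1 : ℝ) : ℂ) = A * conj A * p0 + B * conj B * p1 := by
    rw [← nA, ← nB]; push_cast; ring
  have key : ∀ x y : ℂ, ‖x + p0‖ ≤ s0 * s2 → x + y = ((p2 - p0 - p1 : ℝ) : ℂ) → ∀ P Q M : ℂ,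
      ‖P‖ = ‖A‖ * ‖B‖ → ‖Q‖ = ‖A‖ * ‖B‖ → ‖M - P * p0 - Q * p1‖ = ‖A - B‖ * ‖A * p0 - B * p1‖ →
      |‖M + P * x + Q * y‖ - ‖A - B‖ * ‖A * p0 - B * p1‖| ≤
        ‖A‖ * ‖B‖ * (2 * (s0 * s2) + p2) := by
    intro x y hx hxy P Q M hP hQ hM
    have e1 : M + P * x + Q * y = (M - P * p0 - Q * p1) + (P * (x + p0) + Q * (p2 - (x + p0))) := by
      have : y = ((p2 - p0 - p1 : ℝ) : ℂ) - x := by rw [← hxy]; ring
      rw [this]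
      push_cast; ring
    rw [e1, ← hM]
    have h3 := abs_norm_sub_norm_le ((M - P * p0 - Q * p1) + (P * (x + p0) + Q * (p2 - (x + p0))))
      (M - P * p0 - Q * p1)
    rw [add_sub_cancel_left] at h3
    refine h3.trans ((norm_add_le _ _).trans ?_)
    rw [norm_mul, norm_mul, hP, hQ]
    have h4 : ‖(p2 : ℂ) - (x + p0)‖ ≤ p2 + s0 * s2 := by
      refine (norm_sub_le _ _).trans ?_
      rw [Complex.norm_real, Real.norm_eq_abs, abs_of_nonneg hp2]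
      linarith
    have h5 : 0 ≤ ‖A‖ * ‖B‖ := by positivity
    nlinarith
  have nP : ‖A * conj B‖ = ‖A‖ * ‖B‖ := by rw [norm_mul, Complex.norm_conj]
  have nQ : ‖conj A * B‖ = ‖A‖ * ‖B‖ := by rw [norm_mul, Complex.norm_conj]
  rcases small_of_mul (by positivity) hn with h | h
  · apply key u v h h1 _ _ _ nP nQ
    rw [hre]
    have e : A * conj A * p0 + B * conj B * p1 - A * conj B * p0 - conj A * B * p1 =
        conj (A - B) * (A * p0 - B * p1) := by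
      rw [map_sub]; ring
    rw [e, norm_mul, Complex.norm_conj]
  · have := key v u h (by rw [add_comm]; exact h1) (conj A * B) (A * conj B)
      (((‖A‖ ^ 2 * p0 + ‖B‖ ^ 2 * p1 : ℝ) : ℂ)) nQ nP (by
        rw [hre]
        have e : A * conj A * p0 + B * conj B * p1 - conj A * B * p0 - A * conj B * p1 =
            (A - B) * conj (A * p0 - B * p1) := by
          rw [map_sub, map_mul, map_mul, Complex.conj_ofReal, Complex.conj_ofReal]; ring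
        rw [e, norm_mul, Complex.norm_conj])
    have e : ((‖A‖ ^ 2 * p0 + ‖B‖ ^ 2 * p1 : ℝ) : ℂ) + A * conj B * u + conj A * B * v =
        ((‖A‖ ^ 2 * p0 + ‖B‖ ^ 2 * p1 : ℝ) : ℂ) + conj A * B * v + A * conj B * u := by ring
    rw [e]
    exact this

end Run7.h498.GZ
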