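import Pool.Agent.Run7.h498.GZ.Q1

set_option autoImplicit false

/-!
# Products of linear forms along one-parameter groups: the exponents
-/

namespace Run7.h498.GZ

open Filter Topology ComplexConjugate Run7.h498

/-- an exponential with a positive limit is constant -/
lemma exp_lim {ρ c L : ℝ} (hρ : 0 < ρ) (hL : 0 < L)
    (h : Tendsto (fun t : ℝ => ρ * Real.exp (t * c)) atTop (𝓝 L)) : c = 0 := by
  rcases lt_trichotomy c 0 with hc | hc | hc
  · exfalso
    have h1 := (exp_zero hc).const_mul ρ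
    rw [mul_zero] at h1
    exact hL.ne' (tendsto_nhds_unique h h1)
  · exact hc
  · exfalso
    have h1 : Tendsto (fun t : ℝ => ρ * Real.exp (t * c)) atTop atTop :=
      (Real.tendsto_exp_atTop.comp (tendsto_id.atTop_mul_const hc)).const_mul_atTop hρ
    exact not_tendsto_nhds_of_tendsto_atTop h1 L h

/-- the norm of the product of a form and its conjugate -/
noncomputable def fm (a Z Z' : Fin 3 → ℂ) : ℝ := ‖(∑ k, a k * Z k) * ∑ k, conj (a k) * Z' k‖

lemma prod_tendsto {n : ℕ} {F : Fin n → ℝ → ℝ} {m L : Fin n → ℝ} {ρ ω : ℝ} (hρ : 0 < ρ)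
    (hL : ∀ i, 0 < L i)
    (h : ∀ t, ρ * Real.exp (t * ω) = ∏ i, F i t)
    (hF : ∀ i, Tendsto (fun t => F i t * Real.exp (-(t * m i))) atTop (𝓝 (L i))) :
    ω = ∑ i, m i := by
  have h1 : Tendsto (fun t : ℝ => ρ * Real.exp (t * (ω - ∑ i, m i))) atTop (𝓝 (∏ i, L i)) := by
    have h2 := tendsto_finsetProd Finset.univ fun i (_ : i ∈ Finset.univ) => hF i
    refine h2.congr fun t => ?_
    rw [Finset.prod_mul_distrib, ← h t, mul_assoc, ← Real.exp_sum, ← Real.exp_add]
    congr 2
    rw [Finset.sum_neg_distrib, ← Finset.mul_sum]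
    ring
  have := exp_lim hρ (Finset.prod_pos fun i _ => hL i) h1
  linarith

/-- the exponent, if the third coordinate dominates -/
theorem NA3.dom {n : ℕ} {a : Fin n → Fin 3 → ℂ} {r w : Fin 3 → ℝ} {ρ ω : ℝ} (h : NA3 a r w ρ ω)
    (hr : ∀ k, 0 < r k) (hρ : 0 < ρ) (ha0 : ∀ i, a i 0 ≠ a i 2) (ha1 : ∀ i, a i 1 ≠ a i 2)
    (h0 : w 0 < w 2) (h1 : w 1 < w 2) : ω = n * w 2 := by
  choose Z Z' e1 e2 e3 e4 using h
  set p : ℝ → Fin 3 → ℝ := fun t k => r k * Real.exp (t * w k) with hp
  have hp0 : ∀ t k, 0 < p t k := fun t k => mul_pos (hr k) (Real.exp_pos _)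
  have hlim : ∀ k, w k < w 2 → Tendsto (fun t => p t k * Real.exp (-(t * w 2))) atTop (𝓝 0) := by
    intro k hk
    have h2 := (exp_zero (sub_neg.mpr hk)).const_mul (r k)
    rw [mul_zero] at h2
    refine h2.congr fun t => ?_
    simp only [hp]
    rw [mul_assoc, ← Real.exp_add]
    congr 2
    ring
  have hlim2 : ∀ t, p t 2 * Real.exp (-(t * w 2)) = r 2 := by
    intro t
    simp only [hp]
    rw [mul_assoc, ← Real.exp_add, add_neg_cancel, Real.exp_zero, mul_one]
  have key : ω = ∑ _i : Fin n, w 2 := by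
    refine prod_tendsto (F := fun i t => fm (a i) (Z t) (Z' t)) (m := fun _ => w 2)
      (L := fun i => ‖a i 0 - a i 2‖ * ‖a i 1 - a i 2‖ * r 2) hρ ?_ (fun t => e4 t) ?_
    · intro i
      have g0 := norm_pos_iff.mpr (sub_ne_zero.mpr (ha0 i))
      have g1 := norm_pos_iff.mpr (sub_ne_zero.mpr (ha1 i))
      have := hr 2
      positivity
    · intro i
      set A := a i 0 - a i 2 with hA
      set B := a i 1 - a i 2 with hB
      have hb : ∀ t, abs (fm (a i) (Z t) (Z' t) * Real.exp (-(t * w 2)) -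
          ‖A‖ * ‖B‖ * abs (r 2 - p t 0 * Real.exp (-(t * w 2)) - p t 1 * Real.exp (-(t * w 2)))) ≤
          2 * (‖A‖ ^ 2 * (p t 0 * Real.exp (-(t * w 2))) +
            ‖B‖ ^ 2 * (p t 1 * Real.exp (-(t * w 2)))) := by
        intro t
        obtain ⟨f1, f2, f3⟩ := form_eq (a := a i) (p := p t) (e1 t) (e2 t) (fun k => e3 t k)
        have f4 := form_large (A := A) (B := B) (hp0 t 0).le (hp0 t 1).le f2 f3
        rw [← f1] at f4
        have hE := Real.exp_pos (-(t * w 2))
        have f5 : |r 2 - p t 0 * Real.exp (-(t * w 2)) - p t 1 * Real.exp (-(t * w 2))| =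
            |p t 2 - p t 0 - p t 1| * Real.exp (-(t * w 2)) := by
          rw [← abs_of_pos hE, ← abs_mul, abs_of_pos hE, ← hlim2 t]
          congr 1; ring
        rw [f5]
        have f6 : fm (a i) (Z t) (Z' t) * Real.exp (-(t * w 2)) -
            ‖A‖ * ‖B‖ * (|p t 2 - p t 0 - p t 1| * Real.exp (-(t * w 2))) =
            (fm (a i) (Z t) (Z' t) - ‖A‖ * ‖B‖ * |p t 2 - p t 0 - p t 1|) *
              Real.exp (-(t * w 2)) := by ring
        rw [f6, abs_mul, abs_of_pos hE]
        have f7 := mul_le_mul_of_nonneg_right f4 hE.le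
        refine f7.trans (le_of_eq ?_)
        ring
      have l0 := hlim 0 h0
      have l1 := hlim 1 h1
      have l2 : Tendsto (fun t => 2 * (‖A‖ ^ 2 * (p t 0 * Real.exp (-(t * w 2))) +
            ‖B‖ ^ 2 * (p t 1 * Real.exp (-(t * w 2))))) atTop (𝓝 0) := by
        have := ((l0.const_mul (‖A‖ ^ 2)).add (l1.const_mul (‖B‖ ^ 2))).const_mul 2
        simpa using this
      have l3 : Tendsto (fun t => ‖A‖ * ‖B‖ * |r 2 - p t 0 * Real.exp (-(t * w 2)) -
          p t 1 * Real.exp (-(t * w 2))|) atTop (𝓝 (‖A‖ * ‖B‖ * r 2)) := by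
        have := (((tendsto_const_nhds (x := r 2)).sub l0).sub l1).abs.const_mul (‖A‖ * ‖B‖)
        rwa [sub_zero, sub_zero, abs_of_pos (hr 2)] at this
      have l4 : Tendsto (fun t => fm (a i) (Z t) (Z' t) * Real.exp (-(t * w 2)) -
          ‖A‖ * ‖B‖ * |r 2 - p t 0 * Real.exp (-(t * w 2)) - p t 1 * Real.exp (-(t * w 2))|)
          atTop (𝓝 0) :=
        squeeze_zero_norm (fun t => by rw [Real.norm_eq_abs]; exact hb t) l2
      have l5 := l4.add l3
      rw [zero_add] at l5
      refine l5.congr fun t => ?_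
      ring
  rw [key, Finset.sum_const, Finset.card_univ, Fintype.card_fin, nsmul_eq_mul]

/-- the exponent, if the third coordinate is small and the others are equal -/
theorem NA3.small {n : ℕ} {a : Fin n → Fin 3 → ℂ} {r w : Fin 3 → ℝ} {ρ ω : ℝ} (h : NA3 a r w ρ ω)
    (hr : ∀ k, 0 < r k) (hρ : 0 < ρ) (ha0 : ∀ i, a i 0 ≠ a i 2) (ha1 : ∀ i, a i 0 ≠ a i 1)
    (h0 : w 1 = w 0) (h1 : w 2 < w 0) :
    ω = ∑ i, if (a i 0 - a i 2) * r 0 = (a i 1 - a i 2) * r 1 then w 2 else w 0 := by
  choose Z Z' e1 e2 e3 e4 using h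
  set p : ℝ → Fin 3 → ℝ := fun t k => r k * Real.exp (t * w k) with hp
  have hp0 : ∀ t k, 0 < p t k := fun t k => mul_pos (hr k) (Real.exp_pos _)
  have hpe : ∀ t k, w k = w 0 → p t k * Real.exp (-(t * w 0)) = r k := by
    intro t k hk
    simp only [hp]
    rw [mul_assoc, hk, ← Real.exp_add, add_neg_cancel, Real.exp_zero, mul_one]
  refine prod_tendsto (F := fun i t => fm (a i) (Z t) (Z' t))
    (L := fun i => if (a i 0 - a i 2) * r 0 = (a i 1 - a i 2) * r 1 then
      ‖a i 0 - a i 2‖ ^ 2 * (r 0 / r 1) * r 2 else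
      ‖a i 0 - a i 1‖ * ‖(a i 0 - a i 2) * r 0 - (a i 1 - a i 2) * r 1‖) hρ ?_ (fun t => e4 t) ?_
  · intro i
    have g0 := norm_pos_iff.mpr (sub_ne_zero.mpr (ha0 i))
    have g1 := norm_pos_iff.mpr (sub_ne_zero.mpr (ha1 i))
    have := hr 0
    have := hr 1
    have := hr 2
    by_cases hi : (a i 0 - a i 2) * r 0 = (a i 1 - a i 2) * r 1
    · rw [if_pos hi]
      positivity
    · rw [if_neg hi]
      have := norm_pos_iff.mpr (sub_ne_zero.mpr hi)
      positivity
  · intro i
    set A := a i 0 - a i 2 with hA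
    set B := a i 1 - a i 2 with hB
    by_cases hi : A * r 0 = B * r 1
    · rw [if_pos hi, if_pos hi]
      refine tendsto_const_nhds.congr fun t => ?_
      obtain ⟨f1, f2, f3⟩ := form_eq (a := a i) (p := p t) (e1 t) (e2 t) (fun k => e3 t k)
      have hr1 : (r 1 : ℂ) ≠ 0 := by exact_mod_cast (hr 1).ne'
      have hBA : B = A * (r 0 / r 1 : ℝ) := by
        push_cast
        field_simp
        rw [hi]
      have e5 : p t 0 * r 1 = p t 1 * r 0 := by
        simp only [hp]
        rw [h0]; ring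
      have e6 : p t 0 = p t 1 * (r 0 / r 1) := by
        have := (hr 1).ne'
        field_simp
        exact e5
      have nB : ‖B‖ = ‖A‖ * (r 0 / r 1) := by
        rw [hBA, norm_mul, Complex.norm_real, Real.norm_eq_abs,
          abs_of_pos (div_pos (hr 0) (hr 1))]
      set κ := r 0 / r 1 with hκ
      have hκ0 : 0 < κ := div_pos (hr 0) (hr 1)
      have nA : ((‖A‖ ^ 2 : ℝ) : ℂ) = A * conj A := by
        rw [Complex.mul_conj, Complex.normSq_eq_norm_sq]
      have e7 : (∑ k, a i k * Z t k) * ∑ k, conj (a i k) * Z' t k =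
          ((‖A‖ ^ 2 * κ * p t 2 : ℝ) : ℂ) := by
        rw [f1, nB, e6]
        have e8 : (A * conj B * (Z t 0 * Z' t 1) + conj A * B * (Z t 1 * Z' t 0)) =
            A * conj A * κ * (Z t 0 * Z' t 1 + Z t 1 * Z' t 0) := by
          rw [hBA, map_mul, Complex.conj_ofReal]; ring
        rw [add_assoc, e8, f2, ← nA, e6]
        push_cast
        ring
      show ‖A‖ ^ 2 * κ * r 2 = fm (a i) (Z t) (Z' t) * Real.exp (-(t * w 2))
      rw [fm, e7, Complex.norm_real, Real.norm_eq_abs, abs_of_pos (by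
        have := norm_pos_iff.mpr (sub_ne_zero.mpr (ha0 i))
        have := hp0 t 2
        positivity)]
      simp only [hp]
      have : ‖A‖ ^ 2 * κ * (r 2 * Real.exp (t * w 2)) * Real.exp (-(t * w 2)) =
          ‖A‖ ^ 2 * κ * r 2 * (Real.exp (t * w 2) * Real.exp (-(t * w 2))) := by ring
      rw [this, ← Real.exp_add, add_neg_cancel, Real.exp_zero, mul_one]
    · rw [if_neg hi, if_neg hi]
      have hb : ∀ t, |fm (a i) (Z t) (Z' t) * Real.exp (-(t * w 0)) -
          ‖A - B‖ * ‖A * r 0 - B * r 1‖| ≤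
          ‖A‖ * ‖B‖ * (2 * Real.sqrt (r 0 * (p t 2 * Real.exp (-(t * w 0)))) +
            p t 2 * Real.exp (-(t * w 0))) := by
        intro t
        obtain ⟨f1, f2, f3⟩ := form_eq (a := a i) (p := p t) (e1 t) (e2 t) (fun k => e3 t k)
        have f4 := form_small (A := A) (B := B) (hp0 t 0).le (hp0 t 2).le f2 f3
        rw [← f1] at f4
        have hE := Real.exp_pos (-(t * w 0))
        have f5 : ‖A * r 0 - B * r 1‖ = ‖A * p t 0 - B * p t 1‖ * Real.exp (-(t * w 0)) := by
          rw [← hpe t 0 rfl, ← hpe t 1 h0]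
          have : A * ((p t 0 * Real.exp (-(t * w 0)) : ℝ) : ℂ) -
              B * ((p t 1 * Real.exp (-(t * w 0)) : ℝ) : ℂ) =
              (A * p t 0 - B * p t 1) * ((Real.exp (-(t * w 0)) : ℝ) : ℂ) := by
            push_cast; ring
          rw [this, norm_mul, Complex.norm_real, Real.norm_eq_abs, abs_of_pos hE]
        have f6 : Real.sqrt (r 0 * (p t 2 * Real.exp (-(t * w 0)))) =
            Real.sqrt (p t 0) * Real.sqrt (p t 2) * Real.exp (-(t * w 0)) := by
          rw [← hpe t 0 rfl, ← Real.sqrt_mul (hp0 t 0).le]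
          have : p t 0 * Real.exp (-(t * w 0)) * (p t 2 * Real.exp (-(t * w 0))) =
              (p t 0 * p t 2) * Real.exp (-(t * w 0)) ^ 2 := by ring
          rw [this, Real.sqrt_mul (mul_pos (hp0 t 0) (hp0 t 2)).le, Real.sqrt_sq hE.le]
        rw [f5, f6]
        have f7 : fm (a i) (Z t) (Z' t) * Real.exp (-(t * w 0)) -
            ‖A - B‖ * (‖A * p t 0 - B * p t 1‖ * Real.exp (-(t * w 0))) =
            (fm (a i) (Z t) (Z' t) - ‖A - B‖ * ‖A * p t 0 - B * p t 1‖) *
              Real.exp (-(t * w 0)) := by ring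
        rw [f7, abs_mul, abs_of_pos hE]
        have f8 := mul_le_mul_of_nonneg_right f4 hE.le
        refine f8.trans (le_of_eq ?_)
        ring
      have l0 : Tendsto (fun t => p t 2 * Real.exp (-(t * w 0))) atTop (𝓝 0) := by
        have h2 := (exp_zero (sub_neg.mpr h1)).const_mul (r 2)
        rw [mul_zero] at h2
        refine h2.congr fun t => ?_
        simp only [hp]
        rw [mul_assoc, ← Real.exp_add]
        congr 2
        ring
      have l1 : Tendsto (fun t => Real.sqrt (r 0 * (p t 2 * Real.exp (-(t * w 0))))) atTop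
          (𝓝 0) := by
        have := (Real.continuous_sqrt.tendsto _).comp (l0.const_mul (r 0))
        rwa [mul_zero, Real.sqrt_zero] at this
      have l2 : Tendsto (fun t => ‖A‖ * ‖B‖ * (2 * Real.sqrt (r 0 * (p t 2 *
          Real.exp (-(t * w 0)))) + p t 2 * Real.exp (-(t * w 0)))) atTop (𝓝 0) := by
        have := ((l1.const_mul 2).add l0).const_mul (‖A‖ * ‖B‖)
        simpa using this
      have l4 : Tendsto (fun t => fm (a i) (Z t) (Z' t) * Real.exp (-(t * w 0)) -
          ‖A - B‖ * ‖A * r 0 - B * r 1‖) atTop (𝓝 0) :=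
        squeeze_zero_norm (fun t => by rw [Real.norm_eq_abs]; exact hb t) l2
      have l5 := l4.add_const (‖A - B‖ * ‖A * r 0 - B * r 1‖)
      rw [zero_add] at l5
      have hAB : A - B = a i 0 - a i 1 := by rw [hA, hB]; ring
      rw [hAB] at l5
      refine l5.congr fun t => ?_
      ring

end Run7.h498.GZ
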