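import Pool.Agent.Run7.h498.GZ.Q2
import Pool.Agent.Run7.h498.GZ.P4

set_option autoImplicit false

/-!
# The relation of a product surface does not vanish on one-parameter groups
-/

namespace Run7.h498.GZ

open Filter Topology ComplexConjugate Run7.h498

/-- two equal exponents and a smaller one -/
lemma NA3.core {n : ℕ} {a : Fin n → Fin 3 → ℂ} {r w : Fin 3 → ℝ} {ρ ω : ℝ} (h : NA3 a r w ρ ω)
    (hr : ∀ k, 0 < r k) (hρ : 0 < ρ) (ha0 : ∀ i, a i 0 ≠ a i 2) (ha1 : ∀ i, a i 1 ≠ a i 2)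
    (ha2 : ∀ i, a i 0 ≠ a i 1) (h0 : w 1 = w 0) (h1 : w 2 < w 0) :
    ∃ m : Fin 3 → ℂ, m ≠ 0 ∧ ∑ k, m k = 0 ∧ ∀ i, ∑ k, a i k * m k = 0 := by
  have e1 := h.neg.dom hr hρ ha0 ha1 (by linarith) (by linarith)
  have e2 := h.small hr hρ ha0 ha2 h0 h1
  have e3 : ∀ i, (a i 0 - a i 2) * r 0 = (a i 1 - a i 2) * r 1 := by
    by_contra hcon
    push Not at hcon
    obtain ⟨j, hj⟩ := hcon
    have h3 : ∑ i : Fin n, w 2 < ∑ i, if (a i 0 - a i 2) * r 0 = (a i 1 - a i 2) * r 1
        then w 2 else w 0 := by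
      apply Finset.sum_lt_sum
      · intro i _
        split_ifs
        · exact le_refl _
        · exact h1.le
      · exact ⟨j, Finset.mem_univ j, by rw [if_neg hj]; exact h1⟩
    rw [← e2, Finset.sum_const, Finset.card_univ, Fintype.card_fin, nsmul_eq_mul] at h3
    linarith
  refine ⟨![(r 0 : ℂ), -(r 1 : ℂ), (r 1 : ℂ) - r 0], ?_, ?_, fun i => ?_⟩
  · intro h4
    have h5 : (r 0 : ℂ) = 0 := congrFun h4 0
    exact (hr 0).ne' (by exact_mod_cast h5)
  · rw [Fin.sum_univ_three]
    simp only [Matrix.cons_val_zero, Matrix.cons_val_one, Matrix.cons_val]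
    ring
  · rw [Fin.sum_univ_three]
    have := e3 i
    simp only [Matrix.cons_val_zero, Matrix.cons_val_one, Matrix.cons_val]
    linear_combination this

/-- the exponents are equal, or the forms have a common zero -/
theorem NA3.equal {n : ℕ} (hn : n ≠ 0) {a : Fin n → Fin 3 → ℂ} {r w : Fin 3 → ℝ} {ρ ω : ℝ}
    (h : NA3 a r w ρ ω) (hr : ∀ k, 0 < r k) (hρ : 0 < ρ) (ha : ∀ i k l, k ≠ l → a i k ≠ a i l)
    (hm : ¬ ∃ m : Fin 3 → ℂ, m ≠ 0 ∧ ∑ k, m k = 0 ∧ ∀ i, ∑ k, a i k * m k = 0) :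
    w 0 = w 2 ∧ w 1 = w 2 := by
  have hn' : (0 : ℝ) < n := by exact_mod_cast Nat.pos_of_ne_zero hn
  -- a common zero after a permutation
  have hperm : ∀ e : Equiv.Perm (Fin 3), ¬ ∃ m : Fin 3 → ℂ, m ≠ 0 ∧ ∑ k, m k = 0 ∧
      ∀ i, ∑ k, a i (e k) * m k = 0 := by
    rintro e ⟨m, m0, m1, m2⟩
    apply hm
    refine ⟨fun k => m (e.symm k), ?_, ?_, fun i => ?_⟩
    · intro h0
      apply m0
      funext k
      have := congrFun h0 (e k)
      simpa using this
    · rw [Equiv.sum_comp e.symm m]; exact m1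
    · have := Equiv.sum_comp e (fun k => a i k * m (e.symm k))
      rw [← this]
      simpa using m2 i
  set e := Tuple.sort w with he
  have hs : Monotone (w ∘ e) := Tuple.monotone_sort w
  have s01 : w (e 0) ≤ w (e 1) := hs (by decide)
  have s12 : w (e 1) ≤ w (e 2) := hs (by decide)
  have hp := h.perm e
  have hrp : ∀ k, 0 < r (e k) := fun k => hr _
  have hap : ∀ (f : Equiv.Perm (Fin 3)) i (k l : Fin 3), k ≠ l → a i (f k) ≠ a i (f l) :=
    fun f i k l hkl => ha i _ _ fun h0 => hkl (f.injective h0)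
  have d02 : (0 : Fin 3) ≠ 2 := by decide
  have d12 : (1 : Fin 3) ≠ 2 := by decide
  have d01 : (0 : Fin 3) ≠ 1 := by decide
  set f : Equiv.Perm (Fin 3) := (Equiv.swap 0 2).trans e with hf
  have f0 : f 0 = e 2 := by simp [hf]
  have f1 : f 1 = e 1 := by
    rw [hf, Equiv.trans_apply, Equiv.swap_apply_of_ne_of_ne (by decide) (by decide)]
  have f2 : f 2 = e 0 := by simp [hf]
  have hpf := h.perm f
  have heq : w (e 0) = w (e 1) ∧ w (e 1) = w (e 2) := by
    rcases s01.lt_or_eq with h01 | h01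
    · rcases s12.lt_or_eq with h12 | h12
      · exfalso
        have e1 := hp.dom hrp hρ (fun i => hap e i _ _ d02) (fun i => hap e i _ _ d12)
          (h01.trans h12) h12
        have e2 := hpf.neg.dom (fun k => hr _) hρ (fun i => hap f i _ _ d02)
          (fun i => hap f i _ _ d12) (by
            show -w (f 0) < -w (f 2)
            rw [f0, f2]; linarith) (by
            show -w (f 1) < -w (f 2)
            rw [f1, f2]; linarith)
        rw [f2] at e2
        have e3 : (n : ℝ) * w (e 2) = n * w (e 0) := by linarith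
        have e4 := mul_left_cancel₀ hn'.ne' e3
        linarith
      · exfalso
        apply hperm f
        refine hpf.core (fun k => hr _) hρ (fun i => hap f i _ _ d02) (fun i => hap f i _ _ d12)
          (fun i => hap f i _ _ d01) ?_ ?_
        · show w (f 1) = w (f 0)
          rw [f0, f1, h12]
        · show w (f 2) < w (f 0)
          rw [f0, f2]; linarith
    · rcases s12.lt_or_eq with h12 | h12
      · exfalso
        apply hperm e
        refine hp.neg.core (fun k => hr _) hρ (fun i => hap e i _ _ d02) (fun i => hap e i _ _ d12)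
          (fun i => hap e i _ _ d01) ?_ ?_
        · show -w (e 1) = -w (e 0)
          rw [h01]
        · show -w (e 2) < -w (e 0)
          linarith
      · exact ⟨h01, h12⟩
  have hall : ∀ k, w (e k) = w (e 2) := by
    intro k
    fin_cases k
    · exact heq.1.trans heq.2
    · exact heq.2
    · rfl
  have hall' : ∀ k, w k = w (e 2) := by
    intro k
    have := hall (e.symm k)
    rwa [Equiv.apply_symm_apply] at this
  exact ⟨by rw [hall' 0, hall' 2], by rw [hall' 1, hall' 2]⟩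

/-- the case of exponents zero -/
theorem NA3.zero {n : ℕ} {a : Fin n → Fin 3 → ℂ} {r w : Fin 3 → ℝ} {ρ ω : ℝ}
    (h : NA3 a r w ρ ω) (hρ : 0 < ρ) (hw : ∀ k, w k = 0) : ω = 0 := by
  choose Z Z' e1 e2 e3 e4 using h
  have e3' : ∀ t k, Z t k * Z' t k = ((r k : ℝ) : ℂ) := by
    intro t k
    rw [e3 t k, hw k, mul_zero, Real.exp_zero, mul_one]
  set A := Z 0 0 * Z' 0 1 with hA
  set B := Z 0 1 * Z' 0 0 with hB
  set V : ℂ → ℂ → ℝ := fun u v => ∏ i, ‖((‖a i 0 - a i 2‖ ^ 2 * r 0 + ‖a i 1 - a i 2‖ ^ 2 * r 1 : ℝ) : ℂ) +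
      (a i 0 - a i 2) * conj (a i 1 - a i 2) * u + conj (a i 0 - a i 2) * (a i 1 - a i 2) * v‖ with hV
  have key : ∀ t, ρ * Real.exp (t * ω) = V A B ∨ ρ * Real.exp (t * ω) = V B A := by
    intro t
    have g0 := form_eq (a := fun _ => 0) (e1 0) (e2 0) (e3' 0)
    have gt := form_eq (a := fun _ => 0) (e1 t) (e2 t) (e3' t)
    have h1 : ρ * Real.exp (t * ω) = V (Z t 0 * Z' t 1) (Z t 1 * Z' t 0) := by
      rw [e4 t]
      apply Finset.prod_congr rfl
      intro i _
      rw [(form_eq (a := a i) (e1 t) (e2 t) (e3' t)).1]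
    have h2 : (Z t 0 * Z' t 1 - A) * (Z t 0 * Z' t 1 - B) = 0 := by
      have k1 := g0.2.1
      have k2 := g0.2.2
      have k3 := gt.2.1
      have k4 := gt.2.2
      rw [← hA, ← hB] at k1 k2
      have : (Z t 0 * Z' t 1 - A) * (Z t 0 * Z' t 1 - B) =
          (Z t 0 * Z' t 1) * (Z t 0 * Z' t 1) - (A + B) * (Z t 0 * Z' t 1) + A * B := by ring
      rw [this, k1, k2, ← k4, ← k3]
      ring
    rcases mul_eq_zero.mp h2 with h3 | h3
    · left
      rw [h1, sub_eq_zero.mp h3]
      congr 1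
      have k1 := g0.2.1
      have k3 := gt.2.1
      rw [sub_eq_zero.mp h3, ← k1] at k3
      exact add_left_cancel k3
    · right
      rw [h1, sub_eq_zero.mp h3]
      congr 1
      have k1 := g0.2.1
      have k3 := gt.2.1
      rw [sub_eq_zero.mp h3, ← k1, add_comm _ (Z 0 1 * Z' 0 0)] at k3
      exact add_left_cancel k3
  have inj : ∀ s t : ℝ, ρ * Real.exp (s * ω) = ρ * Real.exp (t * ω) → s ≠ t → ω = 0 := by
    intro s t h0 hst
    have h1 := Real.exp_injective (mul_left_cancel₀ hρ.ne' h0)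
    have h2 : (s - t) * ω = 0 := by linarith
    rcases mul_eq_zero.mp h2 with h3 | h3
    · exact absurd (sub_eq_zero.mp h3) hst
    · exact h3
  rcases key 0 with h0 | h0 <;> rcases key 1 with h1 | h1 <;> rcases key 2 with h2 | h2
  · exact inj 0 1 (h0.trans h1.symm) (by norm_num)
  · exact inj 0 1 (h0.trans h1.symm) (by norm_num)
  · exact inj 0 2 (h0.trans h2.symm) (by norm_num)
  · exact inj 1 2 (h1.trans h2.symm) (by norm_num)
  · exact inj 1 2 (h1.trans h2.symm) (by norm_num)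
  · exact inj 0 2 (h0.trans h2.symm) (by norm_num)
  · exact inj 0 1 (h0.trans h1.symm) (by norm_num)
  · exact inj 0 1 (h0.trans h1.symm) (by norm_num)

/-- the factorisation of a polynomial -/
lemma exists_roots (p : Polynomial ℂ) : ∃ (k : ℕ) (β : Fin k → ℂ),
    p = Polynomial.C p.leadingCoeff * ∏ i, (Polynomial.X - Polynomial.C (β i)) := by
  refine ⟨p.roots.toList.length, fun i => p.roots.toList.get i, ?_⟩
  have h := (IsAlgClosed.splits p).eq_prod_roots
  nth_rewrite 1 [h]
  congr 1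
  rw [← Multiset.coe_toList p.roots, Multiset.map_coe, Multiset.prod_coe]
  have h2 := List.prod_ofFn (f := fun i : Fin p.roots.toList.length =>
    (Polynomial.X - Polynomial.C (p.roots.toList.get i)))
  rw [Multiset.coe_toList, ← h2]
  congr 1
  conv_lhs => rw [← List.ofFn_get p.roots.toList]
  rw [List.map_ofFn]
  rfl

/-- two numbers with given products -/
lemma exists_pair (p q : ℂ) : ∃ X X' : ℂ, X * X' = p ∧ (1 - X) * (1 - X') = q := by
  obtain ⟨δ, hδ⟩ := IsAlgClosed.exists_pow_nat_eq ((1 + p - q) ^ 2 - 4 * p) (n := 2) (by norm_num)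
  refine ⟨((1 + p - q) + δ) / 2, ((1 + p - q) - δ) / 2, ?_, ?_⟩
  · linear_combination (-1 / 4 : ℂ) * hδ
  · linear_combination (-1 / 4 : ℂ) * hδ

end Run7.h498.GZ
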