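import Pool.Agent.Run7.h498.GZ.R4
import Pool.Agent.Run7.h498.GZ.P6

set_option autoImplicit false

/-!
# Ruled surfaces: bounded height of the first coordinate, over the algebraic numbers
-/

namespace Run7.h498.GZ

open Polynomial NumberField Height Real Module Pool.Agent.Y740 Pool.Agent.Y740.G Run7.h498
open Pool.Agent.Y740.Z (ev)

/-- a polynomial as a product of powers of `x` and `1 - x` and of a polynomial which is not zero at
the corners -/
lemma factor (P : Qb[X]) (hP : P ≠ 0) : ∃ (α β d : ℕ) (B : Fin (d + 1) → Qb),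
    (∀ σ, cval1 B σ ≠ 0) ∧ ∀ x, P.eval x = x ^ α * (1 - x) ^ β * fval1 B x := by
  obtain ⟨P1, hP1, hnd1⟩ := exists_eq_pow_rootMultiplicity_mul_and_not_dvd P hP 0
  have hP10 : P1 ≠ 0 := by
    rintro rfl
    exact hnd1 (dvd_zero _)
  obtain ⟨P2, hP2, hnd2⟩ := exists_eq_pow_rootMultiplicity_mul_and_not_dvd P1 hP10 1
  set α := P.rootMultiplicity 0 with hα
  set β := P1.rootMultiplicity 1 with hβ
  have hP20 : P2 ≠ 0 := by
    rintro rfl
    exact hnd2 (dvd_zero _)
  have v1 : P2.eval 1 ≠ 0 := fun h => hnd2 (dvd_iff_isRoot.mpr h)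
  have v0 : P2.eval 0 ≠ 0 := by
    intro h
    apply hnd1
    rw [dvd_iff_isRoot, IsRoot.def, hP2, eval_mul, h, mul_zero]
  set P3 : Qb[X] := C ((-1) ^ β) * P2 with hP3
  have hs : ((-1 : Qb) ^ β) ≠ 0 := pow_ne_zero _ (neg_ne_zero.mpr one_ne_zero)
  have w1 : P3.eval 1 ≠ 0 := by rw [hP3, eval_mul, eval_C]; exact mul_ne_zero hs v1
  have w0 : P3.eval 0 ≠ 0 := by rw [hP3, eval_mul, eval_C]; exact mul_ne_zero hs v0
  have hP30 : P3 ≠ 0 := by
    intro h
    rw [h, eval_zero] at w0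
    exact w0 rfl
  have hev : ∀ x, P.eval x = x ^ α * (1 - x) ^ β * P3.eval x := by
    intro x
    rw [hP1, hP2, hP3]
    simp only [eval_mul, eval_pow, eval_sub, eval_X, eval_C, sub_zero]
    have : (x - 1) ^ β = (-1) ^ β * (1 - x) ^ β := by
      rw [← mul_pow]; congr 1; ring
    rw [this]
    ring
  set d := P3.natDegree with hddef
  set B : Fin (d + 1) → Qb := fun i => P3.coeff i with hB
  have hBx : ∀ x, fval1 B x = P3.eval x := by
    intro x
    rw [fval1, eval_eq_sum_range, Finset.sum_range]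
  have hc0 : cval1 B 0 = P3.eval 0 := by
    rw [cval1, Finset.sum_eq_single (0 : Fin (d + 1))]
    · simp [eps, hB, coeff_zero_eq_eval_zero]
    · intro i _ hi
      have : (i : ℕ) ≠ 0 := fun h => hi (Fin.ext h)
      simp [eps, this]
    · intro h; exact absurd (Finset.mem_univ _) h
  have hc1 : cval1 B 1 = P3.eval 1 := by
    rw [← hBx, cval1, fval1]
    simp [eps]
  have hc2 : cval1 B 2 = P3.leadingCoeff := by
    rw [cval1, Finset.sum_eq_single (Fin.last d)]
    · simp [eps, hB, hddef]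
    · intro i _ hi
      have : (i : ℕ) ≠ d := fun h => hi (Fin.ext h)
      simp [eps, this]
    · intro h; exact absurd (Finset.mem_univ _) h
  refine ⟨α, β, d, B, ?_, fun x => by rw [hev, hBx]⟩
  intro σ
  fin_cases σ
  · exact fun h => w0 (by rw [← hc0]; exact h)
  · exact fun h => w1 (by rw [← hc1]; exact h)
  · exact fun h => leadingCoeff_ne_zero.mpr hP30 (by rw [← hc2]; exact h)

/-- the curves given by three fixed polynomials -/
theorem fixed_curve3 (g : Fin 5 → Qb) (hg : ∀ l, g l ≠ 0) (P : Fin 3 → Qb[X]) :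
    ∃ (C : ℝ) (U : Finset (Fin 5 → ℤ)), (∀ u ∈ U, u ≠ 0) ∧ ∀ x : Qb, x ≠ 0 → 1 - x ≠ 0 →
      (∀ k, (P k).eval x ≠ 0) → HasRelations (fun l => g l *
        ![x, 1 - x, (P 0).eval x, (P 1).eval x, (P 2).eval x] l) 3 →
      NumberField.absLogHeight₁ x ≤ C ∨
        ∃ u ∈ U, ∏ l, (g l * ![x, 1 - x, (P 0).eval x, (P 1).eval x, (P 2).eval x] l) ^ u l = 1 := by
  classical
  by_cases hP : ∃ k, P k = 0
  · obtain ⟨k, hk⟩ := hP
    refine ⟨0, ∅, by simp, fun x _ _ h => ?_⟩
    exact absurd (by rw [hk, eval_zero]) (h k)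
  push Not at hP
  choose α β d B hB hPx using fun k => factor (P k) (hP k)
  by_cases hd : ∃ k, 1 ≤ d k
  · obtain ⟨k, hk⟩ := hd
    obtain ⟨C, hC, hb⟩ := pass2kQ (α k) (β k) (d k) hk
    obtain ⟨k', hk'⟩ : ∃ k' : Fin 5, ∀ x : Qb, ![x, 1 - x, (P 0).eval x, (P 1).eval x,
        (P 2).eval x] k' = (P k).eval x := by
      fin_cases k
      · exact ⟨2, fun x => rfl⟩
      · exact ⟨3, fun x => rfl⟩
      · exact ⟨4, fun x => rfl⟩
    refine ⟨_, ∅, by simp, fun x hx0 hx1 hPx' hrel => Or.inl (hb (B k) x _ ![g 0, g 1, g k'] k' ?_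
      hx0 hx1 ?_ (hB k) ?_ ?_ ?_ ?_ hrel)⟩
    · intro l
      refine mul_ne_zero (hg l) ?_
      fin_cases l
      · exact hx0
      · exact hx1
      · exact hPx' 0
      · exact hPx' 1
      · exact hPx' 2
    · have := hPx' k
      rw [hPx] at this
      exact right_ne_zero_of_mul this
    · intro l
      fin_cases l
      · exact hg 0
      · exact hg 1
      · exact hg k'
    · exact mul_comm _ _
    · exact mul_comm _ _
    · rw [hk', hPx, zpow_natCast, zpow_natCast]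
      exact mul_comm _ _
  · push Not at hd
    -- a coset
    have hd0 : ∀ k, d k = 0 := fun k => by have := hd k; omega
    have hex : ∀ k, ∃ c : Qb, c ≠ 0 ∧ ∀ x, (P k).eval x = x ^ α k * (1 - x) ^ β k * c := by
      intro k
      refine ⟨fval1 (B k) 1, ?_, fun x => ?_⟩
      · have h1 := hB k 1
        intro h
        apply h1
        rw [cval1]
        rw [fval1] at h
        rw [← h]
        apply Finset.sum_congr rfl
        intro i _
        simp [eps]
      · rw [hPx]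
        congr 1
        rw [fval1, fval1]
        apply Finset.sum_congr rfl
        intro i _
        have hi : (i : ℕ) = 0 := by
          have := i.2
          have := hd0 k
          omega
        rw [hi, pow_zero, pow_zero]
    choose c hc0 hc using hex
    let f : (Fin 5 → ℤ) →ₗ[ℤ] (Fin 2 → ℤ) := LinearMap.pi
      ![LinearMap.proj 0 + (α 0 : ℤ) • LinearMap.proj 2 + (α 1 : ℤ) • LinearMap.proj 3 +
          (α 2 : ℤ) • LinearMap.proj 4,
        LinearMap.proj 1 + (β 0 : ℤ) • LinearMap.proj 2 + (β 1 : ℤ) • LinearMap.proj 3 +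
          (β 2 : ℤ) • LinearMap.proj 4]
    have hf : ∀ u, f u = 0 → u 0 + α 0 * u 2 + α 1 * u 3 + α 2 * u 4 = 0 ∧
        u 1 + β 0 * u 2 + β 1 * u 3 + β 2 * u 4 = 0 := by
      intro u hu
      have h1 := congrFun hu 0
      have h2 := congrFun hu 1
      simp [f] at h1 h2
      exact ⟨h1, h2⟩
    have hprod : ∀ x : Qb, x ≠ 0 → 1 - x ≠ 0 → ∀ u, f u = 0 →
        ∏ l, (g l * ![x, 1 - x, (P 0).eval x, (P 1).eval x, (P 2).eval x] l) ^ u l =
          g 0 ^ u 0 * g 1 ^ u 1 * (g 2 * c 0) ^ u 2 * (g 3 * c 1) ^ u 3 * (g 4 * c 2) ^ u 4 := by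
      intro x hx0 hx1 u hu
      obtain ⟨h1, h2⟩ := hf u hu
      rw [Fin.prod_univ_five]
      simp only [Matrix.cons_val_zero, Matrix.cons_val_one, Matrix.cons_val]
      rw [hc 0, hc 1, hc 2]
      simp only [mul_zpow]
      have e1 : x ^ u 0 * (x ^ α 0) ^ u 2 * (x ^ α 1) ^ u 3 * (x ^ α 2) ^ u 4 = 1 := by
        rw [← zpow_natCast, ← zpow_natCast, ← zpow_natCast, ← zpow_mul, ← zpow_mul, ← zpow_mul,
          ← zpow_add₀ hx0, ← zpow_add₀ hx0, ← zpow_add₀ hx0, h1, zpow_zero]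
      have e2 : (1 - x) ^ u 1 * ((1 - x) ^ β 0) ^ u 2 * ((1 - x) ^ β 1) ^ u 3 *
          ((1 - x) ^ β 2) ^ u 4 = 1 := by
        rw [← zpow_natCast, ← zpow_natCast, ← zpow_natCast, ← zpow_mul, ← zpow_mul, ← zpow_mul,
          ← zpow_add₀ hx1, ← zpow_add₀ hx1, ← zpow_add₀ hx1, h2, zpow_zero]
      calc _ = (x ^ u 0 * (x ^ α 0) ^ u 2 * (x ^ α 1) ^ u 3 * (x ^ α 2) ^ u 4) *
            ((1 - x) ^ u 1 * ((1 - x) ^ β 0) ^ u 2 * ((1 - x) ^ β 1) ^ u 3 *
              ((1 - x) ^ β 2) ^ u 4) *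
            (g 0 ^ u 0 * g 1 ^ u 1 * (g 2 ^ u 2 * c 0 ^ u 2) * (g 3 ^ u 3 * c 1 ^ u 3) *
              (g 4 ^ u 4 * c 2 ^ u 4)) := by ring
        _ = _ := by rw [e1, e2, one_mul, one_mul]
    by_cases hex : ∃ u : Fin 5 → ℤ, u ≠ 0 ∧ f u = 0 ∧
        g 0 ^ u 0 * g 1 ^ u 1 * (g 2 * c 0) ^ u 2 * (g 3 * c 1) ^ u 3 * (g 4 * c 2) ^ u 4 = 1
    · obtain ⟨u, hu0, hu, h⟩ := hex
      refine ⟨0, {u}, by simpa using hu0, fun x hx0 hx1 _ _ => Or.inr ⟨u, by simp, ?_⟩⟩
      rw [hprod x hx0 hx1 u hu, h]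
    · refine ⟨0, ∅, by simp, fun x hx0 hx1 hPx hrel => ?_⟩
      exfalso
      apply hex
      obtain ⟨u, hu0, hu, h⟩ := rel_kernel (fun l => by
        refine mul_ne_zero (hg l) ?_
        fin_cases l
        · exact hx0
        · exact hx1
        · exact hPx 0
        · exact hPx 1
        · exact hPx 2) hrel f
      exact ⟨u, hu0, hu, by rw [← hprod x hx0 hx1 u hu]; exact h⟩

lemma fval1_lin {F : Type} [Field F] {d : ℕ} (η : F) (m D : Fin (d + 1) → F) (x : F) :
    fval1 (fun i => η * m i - D i) x = η * fval1 m x - fval1 D x := by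
  simp only [fval1, sub_mul, Finset.sum_sub_distrib, Finset.mul_sum, mul_assoc]

lemma cval1_lin {F : Type} [Field F] {d : ℕ} (η : F) (m D : Fin (d + 1) → F) (σ : Fin 3) :
    cval1 (fun i => η * m i - D i) σ = η * cval1 m σ - cval1 D σ := by
  simp only [cval1, sub_mul, Finset.sum_sub_distrib, Finset.mul_sum, mul_assoc]

/-- the polynomial of a vector of coefficients -/
noncomputable def vP {F : Type} [Field F] {d : ℕ} (B : Fin (d + 1) → F) : F[X] :=
  ∑ i, C (B i) * X ^ (i : ℕ)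

lemma vP_eval {F : Type} [Field F] {d : ℕ} (B : Fin (d + 1) → F) (x : F) :
    (vP B).eval x = fval1 B x := by
  rw [vP, eval_finsetSum, fval1]
  exact Finset.sum_congr rfl fun i _ => by simp

/-- the coordinates of the surface -/
def cvec {F : Type} [Field F] {d : ℕ} (D E : Fin (d + 1) → F) (x y : F) : Fin 5 → F :=
  ![x, 1 - x, y, y - fval1 D x, y - fval1 E x]

/-- The second step: if the second coordinate is a multiple of bounded height of a fixed polynomial,
then the height of the first coordinate is bounded. -/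
theorem step2 {d : ℕ} (hd : 1 ≤ d) (D E m : Fin (d + 1) → Qb) (k : Fin 5) (D' : Fin (d + 1) → Qb)
    (hk : ∀ x y : Qb, cvec D E x y k = y - fval1 D' x)
    (hcor : ∀ σ, cval1 D' σ ≠ 0 ∨ cval1 m σ ≠ 0) (g : Fin 5 → Qb) (hg : ∀ l, g l ≠ 0) (C1 : ℝ) :
    ∃ (C : ℝ) (U : Finset (Fin 5 → ℤ)), (∀ u ∈ U, u ≠ 0) ∧
    ∀ x y η : Qb, (∀ l, cvec D E x y l ≠ 0) → HasRelations (fun l => g l * cvec D E x y l) 3 →
      y = η * fval1 m x → NumberField.absLogHeight₁ η ≤ C1 → NumberField.absLogHeight₁ x ≤ C ∨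
        ∃ u ∈ U, ∏ l, (g l * cvec D E x y l) ^ u l = 1 := by
  classical
  obtain ⟨C, hC, hb⟩ := pass2kQ 0 0 d hd
  -- the heights of the coefficients
  choose D1 hD1 hD1' using fun i : Fin (d + 1) => ht_eval (X * Polynomial.C (m i) -
    Polynomial.C (D' i))
  choose D2 hD2 hD2' using fun σ : Fin 3 => ht_eval (X * Polynomial.C (cval1 m σ) -
    Polynomial.C (cval1 D' σ))
  set G : ℝ := NumberField.absLogHeight₁ (g 0) + NumberField.absLogHeight₁ (g 1) +
    NumberField.absLogHeight₁ (g k) with hG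
  -- the exceptional values
  set R : Finset Qb := Finset.univ.image fun σ : Fin 3 => cval1 D' σ / cval1 m σ with hR
  have hR' : ∀ η, η ∉ R → ∀ σ, η * cval1 m σ - cval1 D' σ ≠ 0 := by
    intro η hη σ h
    by_cases hm : cval1 m σ = 0
    · rcases hcor σ with h1 | h1
      · apply h1
        rw [hm, mul_zero, zero_sub, neg_eq_zero] at h
        exact h
      · exact h1 hm
    · apply hη
      rw [hR, Finset.mem_image]
      refine ⟨σ, Finset.mem_univ _, ?_⟩
      rw [div_eq_iff hm]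
      linear_combination -h
  have hfix : ∀ η : Qb, ∃ (C : ℝ) (U : Finset (Fin 5 → ℤ)), (∀ u ∈ U, u ≠ 0) ∧
      ∀ x y : Qb, (∀ l, cvec D E x y l ≠ 0) → HasRelations (fun l => g l * cvec D E x y l) 3 →
      y = η * fval1 m x → NumberField.absLogHeight₁ x ≤ C ∨
        ∃ u ∈ U, ∏ l, (g l * cvec D E x y l) ^ u l = 1 := by
    intro η
    obtain ⟨P, hP0, hP1, hP2⟩ : ∃ P : Fin 3 → Qb[X], P 0 = vP (fun i => η * m i) ∧
        P 1 = vP (fun i => η * m i - D i) ∧ P 2 = vP (fun i => η * m i - E i) :=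
      ⟨![vP (fun i => η * m i), vP (fun i => η * m i - D i), vP (fun i => η * m i - E i)],
        rfl, rfl, rfl⟩
    obtain ⟨C, U, hU, h⟩ := fixed_curve3 g hg P
    refine ⟨C, U, hU, fun x y hz hrel hy => ?_⟩
    have e0 : (P 0).eval x = y := by
      rw [hP0, vP_eval, hy, fval1, fval1, Finset.mul_sum]
      exact Finset.sum_congr rfl fun i _ => by ring
    have e1 : (P 1).eval x = y - fval1 D x := by
      rw [hP1, vP_eval, fval1_lin, hy]
    have e2 : (P 2).eval x = y - fval1 E x := by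
      rw [hP2, vP_eval, fval1_lin, hy]
    have h' := h x (hz 0) (hz 1)
    rw [e0, e1, e2] at h'
    refine h' ?_ hrel
    intro k
    fin_cases k
    · show (P 0).eval x ≠ 0
      rw [e0]; exact hz 2
    · show (P 1).eval x ≠ 0
      rw [e1]; exact hz 3
    · show (P 2).eval x ≠ 0
      rw [e2]; exact hz 4
  choose Cy Uy hUy hy using hfix
  refine ⟨|C * (1 + (∑ i, D1 i * (1 + C1) + ∑ σ, D2 σ * (1 + C1) + G))| + ∑ y ∈ R, |Cy y|,
    R.biUnion Uy, ?_, ?_⟩
  · intro u hu
    obtain ⟨y, -, h⟩ := Finset.mem_biUnion.mp hu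
    exact hUy y u h
  intro x y η hz hrel hyη hη
  by_cases hyR : η ∈ R
  · rcases hy η x y hz hrel hyη with h | ⟨u, hu, h⟩
    · left
      have h1 : |Cy η| ≤ ∑ y ∈ R, |Cy y| :=
        Finset.single_le_sum (f := fun y => |Cy y|) (fun _ _ => abs_nonneg _) hyR
      have := le_abs_self (Cy η)
      have := abs_nonneg (C * (1 + (∑ i, D1 i * (1 + C1) + ∑ σ, D2 σ * (1 + C1) + G)))
      linarith
    · exact Or.inr ⟨u, Finset.mem_biUnion.mpr ⟨η, hyR, hu⟩, h⟩
  · left
    have hcy := hR' η hyR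
    have hBx : fval1 (fun i => η * m i - D' i) x = cvec D E x y k := by
      rw [fval1_lin, hk, hyη]
    have h1 := hb (fun i => η * m i - D' i) x _ ![g 0, g 1, g k] k
      (fun l => mul_ne_zero (hg l) (hz l)) (hz 0) (hz 1) (by rw [hBx]; exact hz k)
      (fun σ => by rw [cval1_lin]; exact hcy σ) (by
      intro l
      fin_cases l
      · exact hg 0
      · exact hg 1
      · exact hg k) (mul_comm _ _) (mul_comm _ _) (by
        rw [zpow_zero, zpow_zero, one_mul, one_mul, hBx]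
        exact mul_comm _ _) hrel
    have h2 : ∑ i, NumberField.absLogHeight₁ (η * m i - D' i) ≤ ∑ i, D1 i * (1 + C1) := by
      apply Finset.sum_le_sum
      intro i _
      have h3 := hD1' i η
      simp only [eval_sub, eval_mul, eval_X, eval_C] at h3
      exact h3.trans (mul_le_mul_of_nonneg_left (by linarith) (hD1 i))
    have h3 : ∑ σ, NumberField.absLogHeight₁ (cval1 (fun i => η * m i - D' i) σ) ≤
        ∑ σ, D2 σ * (1 + C1) := by
      apply Finset.sum_le_sum
      intro σ _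
      have h3 := hD2' σ η
      simp only [eval_sub, eval_mul, eval_X, eval_C] at h3
      rw [cval1_lin]
      exact h3.trans (mul_le_mul_of_nonneg_left (by linarith) (hD2 σ))
    have h4 : ∑ l, NumberField.absLogHeight₁ (![g 0, g 1, g k] l) = G := by
      rw [Fin.sum_univ_three]
      rfl
    rw [h4] at h1
    have h5 : 0 ≤ ∑ y ∈ R, |Cy y| := Finset.sum_nonneg fun _ _ => abs_nonneg _
    have h6 := le_abs_self (C * (1 + (∑ i, D1 i * (1 + C1) + ∑ σ, D2 σ * (1 + C1) + G)))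
    have h7 := mul_le_mul_of_nonneg_left (show (1 + (∑ i, NumberField.absLogHeight₁
        (η * m i - D' i) + ∑ σ, NumberField.absLogHeight₁ (cval1 (fun i => η * m i - D' i) σ) + G)) ≤
        (1 + (∑ i, D1 i * (1 + C1) + ∑ σ, D2 σ * (1 + C1) + G)) by linarith) hC.le
    linarith

end Run7.h498.GZ
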