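import Pool.Agent.Run7.h498.GZ.Q3
import Pool.Agent.Run7.h498.GZ.R5

set_option autoImplicit false

/-!
# The relation of a product surface does not vanish on one-parameter groups
-/

namespace Run7.h498.GZ

open Filter Topology ComplexConjugate Run7.h498

/-- a polynomial in the second variable -/
def cst {F : Type} {n : ℕ} (b : Fin (n + 1) → F) : Fin (0 + 1) → Fin (n + 1) → F := fun _ => b

lemma fval_cst {F : Type} [Field F] {n : ℕ} (b : Fin (n + 1) → F) (X Y : F) :
    fval (cst b) X Y = fval1 b Y := by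
  rw [fval, fval1]
  simp [cst]

lemma fval_cst_cjm {n : ℕ} (b : Fin (n + 1) → ℂ) (X Y : ℂ) :
    fval (cjm (cst b)) X Y = conj (fval1 b (conj Y)) := by
  rw [fval, fval1, map_sum]
  simp [cst, cjm]

lemma cval1_zero {F : Type} [Field F] {n : ℕ} (b : Fin (n + 1) → F) : cval1 b 0 = fval1 b 0 := by
  rw [cval1, fval1]
  apply Finset.sum_congr rfl
  intro i _
  by_cases h : (i : ℕ) = 0
  · simp [eps, h]
  · simp [eps, h]

lemma cval1_one {F : Type} [Field F] {n : ℕ} (b : Fin (n + 1) → F) : cval1 b 1 = fval1 b 1 := by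
  rw [cval1, fval1]
  apply Finset.sum_congr rfl
  intro i _
  simp [eps]

/-- the relation of the surface -/
def Hfac {n : ℕ} (b : Fin (n + 1) → ℂ) (Ph : (Fin 5 → ℝ) → ℝ) : Prop :=
  ∀ (r : Fin 5 → ℝ) (X X' Y Y' : ℂ), X * X' = r 0 → (1 - X) * (1 - X') = r 1 →
      Y * Y' = r 2 → (1 - Y) * (1 - Y') = r 3 →
      (Ph r : ℂ) = (r 4 - fval (cst b) X Y * fval (cjm (cst b)) X' Y') *
      (r 4 - fval (cst b) X' Y * fval (cjm (cst b)) X Y') *
      (r 4 - fval (cst b) X Y' * fval (cjm (cst b)) X' Y) *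
      (r 4 - fval (cst b) X' Y' * fval (cjm (cst b)) X Y)

/-- the relation does not vanish on one-parameter groups which move the second factor -/
theorem hnvQ {n : ℕ} (b : Fin (n + 1) → ℂ) (hb0 : fval1 b 0 ≠ 0) (hb1 : fval1 b 1 ≠ 0)
    (h2 : ∃ y₁ y₂ : ℂ, y₁ ≠ y₂ ∧ fval1 b y₁ = 0 ∧ fval1 b y₂ = 0)
    (Ph : (Fin 5 → ℝ) → ℝ) (hfac : Hfac b Ph) (r w : Fin 5 → ℝ) (hr : ∀ j, 0 < r j)
    (hw : w 2 ≠ 0 ∨ w 3 ≠ 0 ∨ w 4 ≠ 0) : ∃ t : ℝ, Ph (fun j => r j * Real.exp (t * w j)) ≠ 0 := by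
  by_contra hcon
  push Not at hcon
  obtain ⟨k, β, hβ⟩ := exists_roots (vP b)
  set c := (vP b).leadingCoeff with hc
  have hev : ∀ y, fval1 b y = c * ∏ i, (y - β i) := by
    intro y
    rw [← vP_eval, hβ]
    simp [Polynomial.eval_prod]
  have hc0 : c ≠ 0 := by
    intro h
    apply hb0
    rw [hev, h, zero_mul]
  have hβ0 : ∀ i, β i ≠ 0 := by
    intro i h
    apply hb0
    rw [hev, Finset.prod_eq_zero (Finset.mem_univ i) (by rw [h, sub_zero]), mul_zero]
  have hβ1 : ∀ i, β i ≠ 1 := by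
    intro i h
    apply hb1
    rw [hev, Finset.prod_eq_zero (Finset.mem_univ i) (by rw [h, sub_self]), mul_zero]
  obtain ⟨y1, y2, hy, f1, f2⟩ := h2
  have hroot : ∀ y, fval1 b y = 0 → ∃ i, β i = y := by
    intro y h
    rw [hev] at h
    rcases mul_eq_zero.mp h with h | h
    · exact absurd h hc0
    · obtain ⟨i, -, hi⟩ := Finset.prod_eq_zero_iff.mp h
      exact ⟨i, (sub_eq_zero.mp hi).symm⟩
  obtain ⟨i1, hi1⟩ := hroot y1 f1
  obtain ⟨i2, hi2⟩ := hroot y2 f2
  have hk : k ≠ 0 := by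
    rintro rfl
    exact i1.elim0
  -- the forms
  set a : Fin k → Fin 3 → ℂ := fun i => ![1, 0, β i] with ha
  have hcn : 0 < ‖c‖ ^ 2 := by
    have := norm_pos_iff.mpr hc0
    positivity
  have hna : NA3 a ![r 2, r 3, 1] ![w 2, w 3, 0] (r 4 / ‖c‖ ^ 2) (w 4) := by
    intro t
    obtain ⟨X, X', hX, hX'⟩ := exists_pair ((r 0 * Real.exp (t * w 0) : ℝ) : ℂ)
      ((r 1 * Real.exp (t * w 1) : ℝ) : ℂ)
    obtain ⟨Y, Y', hY, hY'⟩ := exists_pair ((r 2 * Real.exp (t * w 2) : ℝ) : ℂ)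
      ((r 3 * Real.exp (t * w 3) : ℝ) : ℂ)
    have h1 := hfac (fun j => r j * Real.exp (t * w j)) X X' Y Y' hX hX' hY hY'
    rw [hcon t, Complex.ofReal_zero] at h1
    simp only [fval_cst, fval_cst_cjm] at h1
    have hval : ∀ U U' : ℂ, ((r 4 * Real.exp (t * w 4) : ℝ) : ℂ) =
        fval1 b U * conj (fval1 b (conj U')) →
        r 4 / ‖c‖ ^ 2 * Real.exp (t * w 4) = ∏ i, ‖(∑ k, a i k * ![U, 1 - U, -1] k) *
          ∑ k, conj (a i k) * ![U', 1 - U', -1] k‖ := by
      intro U U' h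
      have h2 : r 4 * Real.exp (t * w 4) = ‖fval1 b U * conj (fval1 b (conj U'))‖ := by
        rw [← h, Complex.norm_real, Real.norm_eq_abs,
          abs_of_pos (mul_pos (hr 4) (Real.exp_pos _))]
      have e1 : ∀ i, ∑ k, a i k * ![U, 1 - U, -1] k = U - β i := by
        intro i
        rw [Fin.sum_univ_three]
        simp only [ha, Matrix.cons_val_zero, Matrix.cons_val_one, Matrix.cons_val]
        ring
      have e2 : ∀ i, ∑ k, conj (a i k) * ![U', 1 - U', -1] k = U' - conj (β i) := by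
        intro i
        rw [Fin.sum_univ_three]
        simp only [ha, Matrix.cons_val_zero, Matrix.cons_val_one, Matrix.cons_val, map_one,
          map_zero]
        ring
      have e3 : conj (fval1 b (conj U')) = conj c * ∏ i, (U' - conj (β i)) := by
        rw [hev, map_mul, map_prod]
        simp
      rw [e3, hev] at h2
      simp only [e1, e2]
      rw [div_mul_eq_mul_div, h2, div_eq_iff hcn.ne']
      simp only [norm_mul, norm_prod, Complex.norm_conj, Finset.prod_mul_distrib]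
      ring
    have hsum : ∀ U : ℂ, ∑ k, ![U, 1 - U, -1] k = 0 := by
      intro U
      rw [Fin.sum_univ_three]
      simp
    have hprod : ∀ U U' : ℂ, U * U' = ((r 2 * Real.exp (t * w 2) : ℝ) : ℂ) →
        (1 - U) * (1 - U') = ((r 3 * Real.exp (t * w 3) : ℝ) : ℂ) →
        ∀ k, ![U, 1 - U, -1] k * ![U', 1 - U', -1] k =
          ((![r 2, r 3, 1] k * Real.exp (t * ![w 2, w 3, 0] k) : ℝ) : ℂ) := by
      intro U U' h3 h4 k
      fin_cases k
      · exact h3
      · exact h4
      · simp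
    rcases mul_eq_zero.mp h1.symm with h2 | h2
    · rcases mul_eq_zero.mp h2 with h3 | h3
      · have h4 : ((r 4 * Real.exp (t * w 4) : ℝ) : ℂ) =
            fval1 b Y * conj (fval1 b (conj Y')) := by
          rcases mul_eq_zero.mp h3 with h5 | h5 <;> exact sub_eq_zero.mp h5
        exact ⟨_, _, hsum Y, hsum Y', hprod Y Y' hY hY', hval Y Y' h4⟩
      · refine ⟨_, _, hsum Y', hsum Y, hprod Y' Y (by rw [mul_comm]; exact hY)
          (by rw [mul_comm]; exact hY'), hval Y' Y (sub_eq_zero.mp h3)⟩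
    · exact ⟨_, _, hsum Y', hsum Y, hprod Y' Y (by rw [mul_comm]; exact hY)
          (by rw [mul_comm]; exact hY'), hval Y' Y (sub_eq_zero.mp h2)⟩
  have hρ : 0 < r 4 / ‖c‖ ^ 2 := div_pos (hr 4) hcn
  obtain ⟨k0, k1⟩ := hna.equal hk (by
    intro j
    fin_cases j
    · exact hr 2
    · exact hr 3
    · exact one_pos) hρ (by
    intro i j l hjl
    fin_cases j <;> fin_cases l
    · exact absurd rfl hjl
    · simp [ha]
    · simpa [ha] using (hβ1 i).symm
    · simp [ha]
    · exact absurd rfl hjl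
    · simpa [ha] using (hβ0 i).symm
    · simpa [ha] using hβ1 i
    · simpa [ha] using hβ0 i
    · exact absurd rfl hjl) (by
    rintro ⟨m, m0, m1, m2⟩
    apply m0
    have q1 := m2 i1
    have q2 := m2 i2
    rw [Fin.sum_univ_three] at q1 q2 m1
    simp only [ha, Matrix.cons_val_zero, Matrix.cons_val_one, Matrix.cons_val, one_mul,
      zero_mul, add_zero] at q1 q2
    rw [hi1] at q1
    rw [hi2] at q2
    have q3 : (y1 - y2) * m 2 = 0 := by linear_combination q1 - q2
    have z2 : m 2 = 0 := (mul_eq_zero.mp q3).resolve_left (sub_ne_zero.mpr hy)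
    rw [z2, mul_zero, add_zero] at q1
    rw [q1, z2, zero_add, add_zero] at m1
    funext j
    fin_cases j
    · exact q1
    · exact m1
    · exact z2)
  have w2 : w 2 = 0 := k0
  have w3 : w 3 = 0 := k1
  have w4 := hna.zero hρ (by
    intro j
    fin_cases j
    · exact w2
    · exact w3
    · rfl)
  rcases hw with h | h | h
  · exact h w2
  · exact h w3
  · exact h w4

end Run7.h498.GZ
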