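import Pool.Agent.Run7.h498.GZ.Q4

set_option autoImplicit false

/-!
# The points on the lines of the amoeba
-/

namespace Run7.h498.GZ

open Filter Topology ComplexConjugate Run7.h498

/-- the absolute values of the coordinates of the second factor -/
noncomputable def nv {n : ℕ} (b : Fin (n + 1) → ℂ) (G : Fin 3 → ℝ) (y : ℂ) : Fin 3 → ℝ :=
  ![G 0 * ‖y‖, G 1 * ‖1 - y‖, G 2 * ‖fval1 b y‖]

/-- the zeros of an analytic function on an interval -/
lemma zeros_fin (F : ℝ → ℝ) (hF : AnalyticOnNhd ℝ F Set.univ) (hne : ∃ t, F t ≠ 0) (R : ℝ) :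
    {s | s ∈ Set.Icc 0 R ∧ F s = 0}.Finite := by
  by_contra hinf
  have hinf' : {s | s ∈ Set.Icc 0 R ∧ F s = 0}.Infinite := hinf
  obtain ⟨x, -, hx⟩ := hinf'.exists_accPt_of_subset_isCompact isCompact_Icc
    (fun s hs => hs.1)
  have hfr : ∃ᶠ s in 𝓝[≠] x, F s = 0 := by
    rw [accPt_iff_frequently_nhdsNE] at hx
    exact hx.mono fun s hs => hs.2
  have h := hF.eqOn_zero_of_preconnected_of_frequently_eq_zero isPreconnected_univ
    (Set.mem_univ x) hfr
  obtain ⟨t, ht⟩ := hne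
  exact ht (h (Set.mem_univ t))

/-- the points with given absolute values -/
lemma two_points (A B : ℝ) : {y : ℂ | Complex.normSq y = A ∧ Complex.normSq (1 - y) = B}.Finite := by
  have h : {y : ℂ | Complex.normSq y = A ∧ Complex.normSq (1 - y) = B} ⊆
      (fun p : ℝ × ℝ => (⟨p.1, p.2⟩ : ℂ)) '' ({(1 + A - B) / 2} ×ˢ
        {Real.sqrt (A - ((1 + A - B) / 2) ^ 2), -Real.sqrt (A - ((1 + A - B) / 2) ^ 2)}) := by
    rintro y ⟨h1, h2⟩
    rw [Complex.normSq_apply] at h1 h2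
    simp only [Complex.sub_re, Complex.one_re, Complex.sub_im, Complex.one_im, zero_sub] at h2
    have e1 : y.re = (1 + A - B) / 2 := by nlinarith
    have e2 : y.im ^ 2 = A - ((1 + A - B) / 2) ^ 2 := by rw [← e1]; nlinarith
    refine ⟨(y.re, y.im), ⟨e1, ?_⟩, rfl⟩
    rcases le_total 0 y.im with h3 | h3
    · left
      show y.im = _
      rw [← e2, Real.sqrt_sq h3]
    · right
      show y.im = _
      rw [← e2, ← neg_sq, Real.sqrt_sq (neg_nonneg.mpr h3), neg_neg]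
  refine Set.Finite.subset (Set.Finite.image _ (Set.Finite.prod (Set.finite_singleton _) ?_)) h
  exact Set.toFinite _

/-- the points of the second factor over a segment are finite in number -/
theorem finE {n : ℕ} (b : Fin (n + 1) → ℂ) (hb0 : fval1 b 0 ≠ 0) (hb1 : fval1 b 1 ≠ 0)
    (h2 : ∃ y₁ y₂ : ℂ, y₁ ≠ y₂ ∧ fval1 b y₁ = 0 ∧ fval1 b y₂ = 0)
    (G : Fin 3 → ℝ) (hG : ∀ j, 0 < G j) (τ : Fin 3 → ℝ) (hτ : τ ≠ 0) (R : ℝ) :
    {y : ℂ | ∃ s ∈ Set.Icc (0 : ℝ) R, ∀ j, nv b G y j = Real.exp (s * τ j)}.Finite := by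
  obtain ⟨S, h, hS1, hS2, -, -, hS5⟩ := exists_SD (cst b)
  have hfac : Hfac b S.Phi := by
    intro r X X' Y Y' h0 h1 h3 h4
    rw [hS2]
    exact hS5 r X X' Y Y' h0 h1 h3 h4
  obtain ⟨M', Q', hEx⟩ := S.hPhi
  obtain ⟨ι, hι, c, m, -, -, he⟩ := hEx
  set r : Fin 5 → ℝ := ![1 / 4, 1 / 4, 1 / G 0 ^ 2, 1 / G 1 ^ 2, 1 / G 2 ^ 2] with hr
  set w : Fin 5 → ℝ := ![0, 0, 2 * τ 0, 2 * τ 1, 2 * τ 2] with hw
  have hr0 : ∀ j, 0 < r j := by
    intro j
    have g0 := hG 0
    have g1 := hG 1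
    have g2 := hG 2
    fin_cases j
    · show (0 : ℝ) < 1 / 4
      norm_num
    · show (0 : ℝ) < 1 / 4
      norm_num
    · show 0 < 1 / G 0 ^ 2
      positivity
    · show 0 < 1 / G 1 ^ 2
      positivity
    · show 0 < 1 / G 2 ^ 2
      positivity
  set F : ℝ → ℝ := fun s => S.Phi (fun j => r j * Real.exp (s * w j)) with hFdef
  have hFa : AnalyticOnNhd ℝ F Set.univ := by
    have e : F = fun s => ∑ i, c i * ∏ j, (r j * Real.exp (s * w j)) ^ m i j := by
      funext s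
      rw [hFdef]
      exact he _
    rw [e]
    intro s _
    fun_prop
  have hFne : ∃ t, F t ≠ 0 := by
    refine hnvQ b hb0 hb1 h2 S.Phi hfac r w hr0 ?_
    by_contra hcon
    push Not at hcon
    apply hτ
    funext j
    have k0 : 2 * τ 0 = 0 := hcon.1
    have k1 : 2 * τ 1 = 0 := hcon.2.1
    have k2 : 2 * τ 2 = 0 := hcon.2.2
    fin_cases j
    · show τ 0 = 0
      linarith
    · show τ 1 = 0
      linarith
    · show τ 2 = 0
      linarith
  have hfin := zeros_fin F hFa hFne R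
  refine Set.Finite.subset (Set.Finite.biUnion hfin fun s _ =>
    two_points (1 / G 0 ^ 2 * Real.exp (s * (2 * τ 0))) (1 / G 1 ^ 2 * Real.exp (s * (2 * τ 1)))) ?_
  rintro y ⟨s, hs, hy⟩
  have hsq : ∀ (g u v : ℝ), 0 < g → g * u = Real.exp (s * v) →
      u ^ 2 = 1 / g ^ 2 * Real.exp (s * (2 * v)) := by
    intro g u v hg h
    have h1 : Real.exp (s * (2 * v)) = (g * u) ^ 2 := by
      rw [h, ← Real.exp_nat_mul]
      congr 1
      push_cast; ring
    rw [h1]
    field_simp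
  have y0 : Complex.normSq y = 1 / G 0 ^ 2 * Real.exp (s * (2 * τ 0)) := by
    rw [Complex.normSq_eq_norm_sq]
    exact hsq _ _ _ (hG 0) (hy 0)
  have y1 : Complex.normSq (1 - y) = 1 / G 1 ^ 2 * Real.exp (s * (2 * τ 1)) := by
    rw [Complex.normSq_eq_norm_sq]
    exact hsq _ _ _ (hG 1) (hy 1)
  have y2 : Complex.normSq (fval1 b y) = 1 / G 2 ^ 2 * Real.exp (s * (2 * τ 2)) := by
    rw [Complex.normSq_eq_norm_sq]
    exact hsq _ _ _ (hG 2) (hy 2)
  have hFs : F s = 0 := by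
    have h1 := S.hrr (1 / 2) y
    rw [hS1] at h1
    rw [hFdef]
    dsimp only
    rw [← h1]
    congr 1
    funext j
    fin_cases j
    · show 1 / 4 * Real.exp (s * 0) = Complex.normSq (1 / 2)
      rw [mul_zero, Real.exp_zero]
      norm_num [Complex.normSq_apply]
    · show 1 / 4 * Real.exp (s * 0) = Complex.normSq (1 - 1 / 2)
      rw [mul_zero, Real.exp_zero]
      norm_num [Complex.normSq_apply]
    · exact y0.symm
    · exact y1.symm
    · show _ = Complex.normSq (fval (cst b) (1 / 2) y)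
      rw [fval_cst]
      exact y2.symm
  rw [Set.mem_iUnion₂]
  exact ⟨s, ⟨hs, hFs⟩, y0, y1⟩

end Run7.h498.GZ
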