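import Pool.Agent.Run7.h498.GZ.P5

set_option autoImplicit false

/-!
# Ruled surfaces: bounded height on curves
-/

namespace Run7.h498.GZ

open NumberField Height Real Module Pool.Agent.Y740 Pool.Agent.Y740.G Run7.h498

section
variable {K : Type} [Field K] [NumberField K]

lemma det_of_rel' {S : Finset (FinitePlace K)} (z : Fin 5 → K) (hz : ∀ l, z l ≠ 0)
    (hrel : HasRelations z 3) (i j k : Fin 5) (v w x : Pl S) :
    Det0 (lg v (z i)) (lg v (z j)) (lg v (z k)) (lg w (z i)) (lg w (z j)) (lg w (z k))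
      (lg x (z i)) (lg x (z j)) (lg x (z k)) := by
  obtain ⟨U, hU, hrel⟩ := hrel
  have hm : ∀ k (v : Pl S), ∑ l, (U k l : ℝ) * lg v (z l) = 0 := by
    intro k v
    have h := congrArg (lg v) (hrel k)
    rw [lg_one, lg_prod v _ _ fun l => zpow_ne_zero _ (hz l)] at h
    rw [← h]
    exact Finset.sum_congr rfl fun l _ => (lg_zpow v _ _).symm
  exact dep_det0 U hU (fun (v : Pl S) l => lg v (z l)) hm i j k v w x

/-- the last coordinate at one of the three places -/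
lemma place_s2 {S : Finset (FinitePlace K)} {v : Pl S} {α β : ℤ} {d : ℕ} (B : Fin (d + 1) → K)
    {x : K} (σ : Fin 3) {e0 : ℝ}
    (he0 : kp v + ∑ i, |lg v (B i)| + ∑ σ, |lg v (cval1 B σ)| ≤ e0)
    (hL : cval1 B σ ≠ 0) (hx0 : x ≠ 0) (hx1 : 1 - x ≠ 0) (hF : fval1 B x ≠ 0)
    {N ε γ0 γ1 γ4 C X Y : ℝ} (hN : 0 < N) (hε : 0 < ε) (heN : 2 * e0 ≤ ε * N)
    (hC : 10 * (|(α : ℝ)| + |(β : ℝ)| + d) + 30 ≤ C) (hεC : ε * C ≤ 1 / 1000)
    (hγ0 : |γ0| ≤ e0) (hγ1 : |γ1| ≤ e0) (hγ4 : |γ4| ≤ e0)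
    (hXY : (σ = 0 ∧ X = -1 ∧ Y = 0) ∨ (σ = 1 ∧ X = 0 ∧ Y = -1) ∨ (σ = 2 ∧ X = 1 ∧ Y = 1))
    (hX : |(lg v x + γ0) / N - X| ≤ ε) (hY : |(lg v (1 - x) + γ1) / N - Y| ≤ ε) :
    |(lg v (x ^ α * (1 - x) ^ β * fval1 B x) + γ4) / N - (α * X + β * Y + pol σ * (d * X))| ≤
      C * ε := by
  have hα : (0 : ℝ) ≤ |(α : ℝ)| := abs_nonneg _
  have hβ : (0 : ℝ) ≤ |(β : ℝ)| := abs_nonneg _
  have hd : (0 : ℝ) ≤ d := Nat.cast_nonneg _
  have hkp := kp_nonneg v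
  have he : 0 ≤ e0 := (abs_nonneg _).trans hγ0
  have hεN : 0 < ε * N := mul_pos hε hN
  have hdiv : ∀ z w : ℝ, |z / N - w| ≤ ε → |z - w * N| ≤ ε * N := by
    intro z w h
    have h1 : z - w * N = (z / N - w) * N := by field_simp
    rw [h1, abs_mul, abs_of_pos hN]
    exact mul_le_mul_of_nonneg_right h hN.le
  have g0 := abs_le.mp hγ0
  have g1 := abs_le.mp hγ1
  have g4 := abs_le.mp hγ4
  have hX' := abs_le.mp (hdiv _ _ hX)
  have hY' := abs_le.mp (hdiv _ _ hY)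
  have hCε : (10 * (|(α : ℝ)| + |(β : ℝ)| + d) + 30) * (ε * N) ≤ C * (ε * N) :=
    mul_le_mul_of_nonneg_right hC hεN.le
  have hCN : C * (ε * N) ≤ 1 / 1000 * N := by
    have : C * (ε * N) = (ε * C) * N := by ring
    rw [this]
    exact mul_le_mul_of_nonneg_right hεC hN.le
  have hα1 : 0 ≤ |(α : ℝ)| * (ε * N) := by positivity
  have hβ1 : 0 ≤ |(β : ℝ)| * (ε * N) := by positivity
  have hd1 : 0 ≤ (d : ℝ) * (ε * N) := by positivity
  have hc1 : (3 * (d : ℝ) + 3) * e0 ≤ (3 * d + 3) * (ε * N / 2) :=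
    mul_le_mul_of_nonneg_left (by linarith) (by positivity)
  -- near the corner
  have hloc : loc σ x ≠ 0 := by
    fin_cases σ
    · exact hx0
    · exact hx1
    · exact inv_ne_zero hx0
  have hdx : lg v (loc σ x) ≤ -N + ε * N + e0 := by
    rcases hXY with ⟨rfl, rfl, rfl⟩ | ⟨rfl, rfl, rfl⟩ | ⟨rfl, rfl, rfl⟩
    · show lg v x ≤ _
      linarith
    · show lg v (1 - x) ≤ _
      linarith
    · show lg v x⁻¹ ≤ _
      rw [lg_inv]
      linarith
  have h1 : lg v (loc σ x) < -((3 * d + 3) * e0) := by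
    refine lt_of_le_of_lt hdx ?_
    linarith
  have h3 := abs_le.mp (sval1 B σ he0 hL hx0 hloc h1)
  have e2 : (lg v (x ^ α * (1 - x) ^ β * fval1 B x) + γ4) / N -
      (α * X + β * Y + pol σ * (d * X)) =
      ((lg v (fval1 B x) - pol σ * (d * lg v x)) + γ4 + α * (lg v x - X * N) +
        β * (lg v (1 - x) - Y * N) + pol σ * (d * (lg v x - X * N))) / N := by
    rw [lg_mul v (mul_ne_zero (zpow_ne_zero _ hx0) (zpow_ne_zero _ hx1)) hF,
      lg_mul v (zpow_ne_zero _ hx0) (zpow_ne_zero _ hx1), lg_zpow, lg_zpow]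
    field_simp
    ring
  rw [e2, abs_div, abs_of_pos hN, div_le_iff₀ hN]
  have hp : ((pol σ : ℕ) : ℝ) = 0 ∨ ((pol σ : ℕ) : ℝ) = 1 := by
    fin_cases σ <;> simp [pol]
  have k1 : |(α : ℝ) * (lg v x - X * N)| ≤ |(α : ℝ)| * (2 * (ε * N)) := by
    rw [abs_mul]
    apply mul_le_mul_of_nonneg_left _ hα
    rw [abs_le]; constructor <;> linarith
  have k2 : |(β : ℝ) * (lg v (1 - x) - Y * N)| ≤ |(β : ℝ)| * (2 * (ε * N)) := by
    rw [abs_mul]
    apply mul_le_mul_of_nonneg_left _ hβ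
    rw [abs_le]; constructor <;> linarith
  have k3 : |((pol σ : ℕ) : ℝ) * (d * (lg v x - X * N))| ≤ d * (2 * (ε * N)) := by
    rcases hp with hp | hp
    · rw [hp, zero_mul, abs_zero]; positivity
    · rw [hp, one_mul, abs_mul, abs_of_nonneg hd]
      apply mul_le_mul_of_nonneg_left _ hd
      rw [abs_le]; constructor <;> linarith
  have k1 := abs_le.mp k1
  have k2 := abs_le.mp k2
  have k3 := abs_le.mp k3
  rw [abs_le]
  constructor <;> linarith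

/-- the error function for polynomials in one variable -/
theorem err2 {d : ℕ} {ι κ : Type} [Fintype ι] [Fintype κ] (B : ι → Fin (d + 1) → K) (g : κ → K)
    (l : List K) (hl : ∀ z ∈ l, z ≠ 0) :
    ∃ (S : Finset (FinitePlace K)) (e0 : Pl S → ℝ), (∀ z ∈ l, SU S z) ∧
      (∀ v a, kp v + ∑ i, |lg v (B a i)| + ∑ σ, |lg v (cval1 (B a) σ)| ≤ e0 v) ∧
      (∀ v l, |lg v (g l)| ≤ e0 v) ∧ (∀ v, kp v ≤ e0 v) ∧
      (∀ v l l', l ≠ l' → kp v + 2 * |lg v (g l)| + 2 * |lg v (g l')| ≤ 2 * e0 v) ∧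
      ∑ v, e0 v ≤ 2 * (finrank ℚ K + (∑ a, ∑ i, logHeight₁ (B a i) +
        ∑ a, ∑ σ, logHeight₁ (cval1 (B a) σ) + ∑ l, logHeight₁ (g l))) := by
  classical
  obtain ⟨S, hS, hsum⟩ := exists_err (κ := (ι × Fin (d + 1)) ⊕ ((ι × Fin 3) ⊕ κ))
    (Sum.elim (fun i => B i.1 i.2) (Sum.elim (fun i => cval1 (B i.1) i.2) g)) l hl
  have hv : ∀ v : Pl S, kp v + ∑ k, |lg v ((Sum.elim (fun i => B i.1 i.2)
      (Sum.elim (fun i => cval1 (B i.1) i.2) g) : (ι × Fin (d + 1)) ⊕ ((ι × Fin 3) ⊕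
      κ) → K) k)| = kp v + (∑ a, ∑ i, |lg v (B a i)| + (∑ a, ∑ σ, |lg v (cval1 (B a) σ)| +
        ∑ l, |lg v (g l)|)) := by
    intro v
    rw [Fintype.sum_sum_type, Fintype.sum_sum_type, Fintype.sum_prod_type, Fintype.sum_prod_type]
    rfl
  simp only [hv] at hsum
  rw [Fintype.sum_sum_type (f := fun k => logHeight₁ _), Fintype.sum_sum_type
    (f := fun k => logHeight₁ _), Fintype.sum_prod_type, Fintype.sum_prod_type] at hsum
  have p1 : ∀ v : Pl S, 0 ≤ ∑ a, ∑ i, |lg v (B a i)| := fun v =>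
    Finset.sum_nonneg fun _ _ => Finset.sum_nonneg fun _ _ => abs_nonneg _
  have p2 : ∀ v : Pl S, 0 ≤ ∑ a, ∑ σ, |lg v (cval1 (B a) σ)| := fun v =>
    Finset.sum_nonneg fun _ _ => Finset.sum_nonneg fun _ _ => abs_nonneg _
  have p3 : ∀ v : Pl S, 0 ≤ ∑ l, |lg v (g l)| := fun v => Finset.sum_nonneg fun _ _ => abs_nonneg _
  refine ⟨S, fun v => kp v + (∑ a, ∑ i, |lg v (B a i)| + (∑ a, ∑ σ, |lg v (cval1 (B a) σ)| +
        ∑ l, |lg v (g l)|)), hS, ?_, ?_, ?_, ?_, hsum.trans ?_⟩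
  · intro v a
    have h1 : ∑ i, |lg v (B a i)| ≤ ∑ a, ∑ i, |lg v (B a i)| :=
      Finset.single_le_sum (f := fun a => ∑ i, |lg v (B a i)|)
        (fun _ _ => Finset.sum_nonneg fun _ _ => abs_nonneg _) (Finset.mem_univ a)
    have h2 : ∑ σ, |lg v (cval1 (B a) σ)| ≤ ∑ a, ∑ σ, |lg v (cval1 (B a) σ)| :=
      Finset.single_le_sum (f := fun a => ∑ σ, |lg v (cval1 (B a) σ)|)
        (fun _ _ => Finset.sum_nonneg fun _ _ => abs_nonneg _) (Finset.mem_univ a)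
    have := p3 v
    linarith
  · intro v l
    have h1 : |lg v (g l)| ≤ ∑ l, |lg v (g l)| :=
      Finset.single_le_sum (f := fun l => |lg v (g l)|) (fun _ _ => abs_nonneg _)
        (Finset.mem_univ l)
    have := p1 v; have := p2 v; have := kp_nonneg v
    linarith
  · intro v
    have := p1 v; have := p2 v; have := p3 v
    linarith
  · intro v l l' hll
    have h1 : |lg v (g l)| + |lg v (g l')| ≤ ∑ l, |lg v (g l)| := by
      rw [← Finset.sum_pair hll (f := fun l => |lg v (g l)|)]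
      exact Finset.sum_le_sum_of_subset_of_nonneg (Finset.subset_univ _)
        fun _ _ _ => abs_nonneg _
    have := p1 v; have := p2 v; have := kp_nonneg v
    linarith
  · have : (0 : ℝ) ≤ finrank ℚ K := Nat.cast_nonneg _
    simp only [Sum.elim_inl, Sum.elim_inr]
    linarith

end

/-- The height of `x` is bounded, for a polynomial which is not a monomial in `x` and `1 - x`. -/
theorem pass2k (α β : ℤ) (d : ℕ) (hd : 1 ≤ d) : ∃ C : ℝ, 0 < C ∧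
    ∀ (K : Type) [Field K] [NumberField K] (B : Fin (d + 1) → K) (x : K)
      (z : Fin 5 → K) (g : Fin 3 → K) (k : Fin 5), (∀ l, z l ≠ 0) → x ≠ 0 → 1 - x ≠ 0 →
      fval1 B x ≠ 0 → (∀ σ, cval1 B σ ≠ 0) → (∀ l, g l ≠ 0) → z 0 = x * g 0 →
      z 1 = (1 - x) * g 1 → z k = (x ^ α * (1 - x) ^ β * fval1 B x) * g 2 → HasRelations z 3 →
      logHeight₁ x ≤ C * (finrank ℚ K + (∑ i, logHeight₁ (B i) +
        ∑ σ, logHeight₁ (cval1 B σ) + ∑ l, logHeight₁ (g l))) := by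
  obtain ⟨c, hc⟩ : ∃ c : ℝ, c = 10 * (|(α : ℝ)| + |(β : ℝ)| + d) + 30 := ⟨_, rfl⟩
  have hd' : (1 : ℝ) ≤ d := by exact_mod_cast hd
  have hα : (0 : ℝ) ≤ |(α : ℝ)| := abs_nonneg _
  have hβ : (0 : ℝ) ≤ |(β : ℝ)| := abs_nonneg _
  have hc0 : 30 ≤ c := by rw [hc]; linarith
  refine ⟨100000 * c, by linarith, ?_⟩
  intro K _ _ B x z g k hz hx0 hx1 hF hcor hg z0 z1 zk hrel
  obtain ⟨S, e0, hS, he0, hγ, -, hγ2, hsum⟩ := err2 (ι := Unit) (fun _ => B) g [x, 1 - x] (by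
    intro z hz
    simp only [List.mem_cons, List.not_mem_nil, or_false] at hz
    rcases hz with rfl | rfl <;> assumption)
  simp only [Finset.univ_unique, Finset.sum_singleton] at hsum
  have he0 : ∀ v, kp v + ∑ i, |lg v (B i)| + ∑ σ, |lg v (cval1 B σ)| ≤ e0 v := fun v => he0 v ()
  have hγ01 : ∀ v, kp v + 2 * |lg v (g 0)| + 2 * |lg v (g 1)| ≤ 2 * e0 v := fun v =>
    hγ2 v 0 1 (by decide)
  have hHA0 : 0 ≤ ∑ i, logHeight₁ (B i) := Finset.sum_nonneg fun _ _ => ht_nonneg' _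
  have hHL0 : 0 ≤ ∑ σ, logHeight₁ (cval1 B σ) := Finset.sum_nonneg fun _ _ => ht_nonneg' _
  have hHg0 : 0 ≤ ∑ l, logHeight₁ (g l) := Finset.sum_nonneg fun _ _ => ht_nonneg' _
  obtain ⟨H, hH⟩ : ∃ H : ℝ, H = finrank ℚ K + (∑ i, logHeight₁ (B i) +
        ∑ σ, logHeight₁ (cval1 B σ) + ∑ l, logHeight₁ (g l)) := ⟨_, rfl⟩
  rw [← hH] at hsum ⊢
  have hd0 : (1 : ℝ) ≤ finrank ℚ K := by
    have : 0 < finrank ℚ K := finrank_pos
    exact_mod_cast this
  have hHd : (finrank ℚ K : ℝ) ≤ H := by rw [hH]; linarith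
  clear hH hHA0 hHL0 hHg0
  have sx : SU S x := hS _ (by simp)
  have sx' : SU S (1 - x) := hS _ (by simp)
  clear hS
  have hHpos : 0 < H := by linarith
  by_contra hcon
  rw [not_le] at hcon
  obtain ⟨h, hhdef⟩ : ∃ h, h = logHeight₁ x := ⟨_, rfl⟩
  rw [← hhdef] at hcon
  have hhpos : 0 < h := lt_trans (by positivity) hcon
  obtain ⟨ε, hε⟩ : ∃ ε, ε = 16 * H / h := ⟨_, rfl⟩
  have hεpos : 0 < ε := by rw [hε]; positivity
  have hεh : ε * h = 16 * H := by rw [hε]; field_simp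
  have hεc : ε * c ≤ 1 / 1000 := by
    rw [hε, div_mul_eq_mul_div, div_le_iff₀ hhpos]
    linarith
  have hε1 : ε ≤ 1 / 1000 := by nlinarith
  obtain ⟨v0, v1, v2, hTP⟩ := exists_TP hx0 hx1 sx sx' (fun v => lg v (g 0)) (fun v => lg v (g 1))
    (fun v => 2 * e0 v) hγ01 (4 * H) (by rw [← Finset.mul_sum]; linarith) (by positivity) ε hεpos
    hε1 (by rw [← hhdef, hεh]; linarith)
  have ds := det_of_rel' (S := S) z hz hrel 0 1 k
  have l0 : ∀ v : Pl S, lg v (z 0) = lg v x + lg v (g 0) := fun v => by rw [z0, lg_mul v hx0 (hg 0)]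
  have l1 : ∀ v : Pl S, lg v (z 1) = lg v (1 - x) + lg v (g 1) := fun v => by
    rw [z1, lg_mul v hx1 (hg 1)]
  have lk : ∀ v : Pl S, lg v (z k) = lg v (x ^ α * (1 - x) ^ β * fval1 B x) + lg v (g 2) :=
    fun v => by
      rw [zk, lg_mul v (mul_ne_zero (mul_ne_zero (zpow_ne_zero _ hx0) (zpow_ne_zero _ hx1)) hF)
        (hg 2)]
  simp only [l0, l1, lk] at ds
  have N0 := hTP.h0
  have N1 := hTP.h1
  have N2 := hTP.h2
  have s0 := place_s2 (α := α) (β := β) (v := v0) B 0 (he0 v0) (hcor 0) hx0 hx1 hF (X := -1)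
    (Y := 0) (γ0 := lg v0 (g 0)) (γ1 := lg v0 (g 1)) N0 hεpos hTP.h0' hc.ge hεc (hγ v0 0) (hγ v0 1)
    (hγ v0 2) (Or.inl ⟨rfl, rfl, rfl⟩) (by
      rw [div_neg, div_self (by linarith : (lg v0 x + lg v0 (g 0)) ≠ 0)]
      simpa using hεpos.le) (by rw [sub_zero]; exact hTP.hb0)
  have s1 := place_s2 (α := α) (β := β) (v := v1) B 1 (he0 v1) (hcor 1) hx0 hx1 hF (X := 0)
    (Y := -1) (γ0 := lg v1 (g 0)) (γ1 := lg v1 (g 1)) N1 hεpos hTP.h1' hc.ge hεc (hγ v1 0) (hγ v1 1)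
    (hγ v1 2) (Or.inr (Or.inl ⟨rfl, rfl, rfl⟩)) (by rw [sub_zero]; exact hTP.ha1) (by
      rw [div_neg, div_self (by linarith : (lg v1 (1 - x) + lg v1 (g 1)) ≠ 0)]
      simpa using hεpos.le)
  have s2 := place_s2 (α := α) (β := β) (v := v2) B 2 (he0 v2) (hcor 2) hx0 hx1 hF (X := 1)
    (Y := 1) (γ0 := lg v2 (g 0)) (γ1 := lg v2 (g 1)) N2 hεpos hTP.h2' hc.ge hεc (hγ v2 0) (hγ v2 1)
    (hγ v2 2) (Or.inr (Or.inr ⟨rfl, rfl, rfl⟩)) (by
      rw [div_self (by linarith : (lg v2 x + lg v2 (g 0)) ≠ 0)]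
      simpa using hεpos.le) hTP.hb2
  have hbal := hTP.bal ds le_rfl le_rfl
  have p0 : ((pol (0 : Fin 3) : ℕ) : ℝ) = 0 := by simp [pol]
  have p1 : ((pol (1 : Fin 3) : ℕ) : ℝ) = 0 := by simp [pol]
  have p2 : ((pol (2 : Fin 3) : ℕ) : ℝ) = 1 := by simp [pol]
  rw [p0] at s0
  rw [p1] at s1
  rw [p2] at s2
  generalize (lg v0 (x ^ α * (1 - x) ^ β * fval1 B x) + lg v0 (g 2)) /
    -(lg v0 x + lg v0 (g 0)) = S0 at *
  generalize (lg v1 (x ^ α * (1 - x) ^ β * fval1 B x) + lg v1 (g 2)) /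
    -(lg v1 (1 - x) + lg v1 (g 1)) = S1 at *
  generalize (lg v2 (x ^ α * (1 - x) ^ β * fval1 B x) + lg v2 (g 2)) /
    (lg v2 x + lg v2 (g 0)) = S2 at *
  clear ds hTP N0 N1 N2 he0 hγ hγ01 l0 l1 lk
  have hcε : c * ε ≤ 1 / 1000 := by rw [mul_comm]; exact hεc
  have t0 := abs_le.mp s0
  have t1 := abs_le.mp s1
  have t2 := abs_le.mp s2
  have q1 := abs_le.mp (le_refl |(α : ℝ)|)
  have q2 := abs_le.mp (le_refl |(β : ℝ)|)
  have b0 : |S0| ≤ |(α : ℝ)| + 1 := by rw [abs_le]; constructor <;> linarith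
  have b1 : |S1| ≤ |(β : ℝ)| + 1 := by rw [abs_le]; constructor <;> linarith
  have b3 : 3 * ε * (|S0| + |S1|) ≤ 3 * ε * c := by
    apply mul_le_mul_of_nonneg_left _ (by positivity)
    rw [hc]
    linarith
  have b4 := abs_le.mp (hbal.trans b3)
  have b5 : 3 * ε * c ≤ 3 / 1000 := by linarith
  linarith [b4.2]

/-- The height of `x` is bounded, over the algebraic numbers. -/
theorem pass2kQ (α β : ℤ) (d : ℕ) (hd : 1 ≤ d) : ∃ C : ℝ, 0 < C ∧
    ∀ (B : Fin (d + 1) → Qb) (x : Qb)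
      (z : Fin 5 → Qb) (g : Fin 3 → Qb) (k : Fin 5), (∀ l, z l ≠ 0) → x ≠ 0 → 1 - x ≠ 0 →
      fval1 B x ≠ 0 → (∀ σ, cval1 B σ ≠ 0) → (∀ l, g l ≠ 0) → z 0 = x * g 0 →
      z 1 = (1 - x) * g 1 → z k = (x ^ α * (1 - x) ^ β * fval1 B x) * g 2 → HasRelations z 3 →
      NumberField.absLogHeight₁ x ≤ C * (1 + (∑ i, NumberField.absLogHeight₁ (B i) +
        ∑ σ, NumberField.absLogHeight₁ (cval1 B σ) + ∑ l, NumberField.absLogHeight₁ (g l))) := by
  obtain ⟨C, hC, hb⟩ := pass2k α β d hd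
  refine ⟨C, hC, ?_⟩
  intro B x z g k hz hx0 hx1 hf hcor hg z0 z1 zk hrel
  obtain ⟨K, hK, hG, hmem⟩ := exists_galois ({x} ∪ Set.range g ∪ Set.range B ∪ Set.range z)
    ((((by simp : ({x} : Set _).Finite).union (Set.finite_range g)).union (Set.finite_range _)).union
    (Set.finite_range _))
  have hn' := finrank_pos' K
  let xK : K := ⟨x, hmem _ (by simp)⟩
  let gK : Fin 3 → K := fun j => ⟨g j, hmem _ (by simp)⟩
  let BK : Fin (d + 1) → K := fun i => ⟨B i, hmem _ (by simp)⟩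
  let zK : Fin 5 → K := fun i => ⟨z i, hmem _ (by simp)⟩
  have inj := (algebraMap K Qb).injective
  have e1 : NumberField.absLogHeight₁ x = logHeight₁ xK / finrank ℚ K := ht_eq (algebraMap K Qb) xK
  have e3 : ∀ j, NumberField.absLogHeight₁ (g j) = logHeight₁ (gK j) / finrank ℚ K := fun j =>
    ht_eq (algebraMap K Qb) (gK j)
  have e4 : ∀ i, NumberField.absLogHeight₁ (B i) = logHeight₁ (BK i) / finrank ℚ K :=
    fun i => ht_eq (algebraMap K Qb) (BK i)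
  have c1 : ∀ σ, algebraMap K Qb (cval1 BK σ) = cval1 B σ := fun σ => map_cval1 _ _ _
  have e5 : ∀ σ, NumberField.absLogHeight₁ (cval1 B σ) =
      logHeight₁ (cval1 BK σ) / finrank ℚ K := fun σ => by
    rw [← c1]; exact ht_eq (algebraMap K Qb) _
  have c2 : algebraMap K Qb (fval1 BK xK) = fval1 B x := map_fval1 _ _ _
  have h := hb K BK xK zK gK k (fun l h => hz l (congrArg (algebraMap K Qb) h))
    (fun h => hx0 (congrArg (algebraMap K Qb) h))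
    (fun h => hx1 (congrArg (algebraMap K Qb) h))
    (fun h => hf (by rw [← c2, h, map_zero]))
    (fun σ h => hcor σ (by rw [← c1, h, map_zero]))
    (fun l h => hg l (congrArg (algebraMap K Qb) h))
    (inj (by rw [map_mul]; exact z0)) (inj (by rw [map_mul]; exact z1))
    (inj (by
      rw [map_mul, map_mul, map_mul, map_zpow₀, map_zpow₀, c2]
      exact zk))
    (rel_descend (algebraMap K Qb) zK z (fun l => rfl) hrel)
  simp only [e1, e3, e4, e5]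
  simp only [← Finset.sum_div, ← add_div]
  rw [div_le_iff₀ hn']
  have e6 : ∀ T : ℝ, C * (1 + T / finrank ℚ K) * finrank ℚ K = C * (finrank ℚ K + T) := by
    intro T
    field_simp
  rw [e6]
  exact h

end Run7.h498.GZ
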