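import Pool.Agent.Run7.h498.GZ.R1

set_option autoImplicit false

/-!
# Ruled surfaces: the combinatorics of the three places
-/

namespace Run7.h498.GZ

open Run7.h498

lemma Tri.shift {a b c k : ℝ} (t : ℝ) (h : Tri a b c k) : Tri (a - t) (b - t) (c - t) k := by
  unfold Tri at *
  simp only [abs_le] at *
  rcases h with ⟨⟨x1, x2⟩, x3, x4⟩ | ⟨⟨x1, x2⟩, x3, x4⟩ | ⟨⟨x1, x2⟩, x3, x4⟩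
  · exact Or.inl ⟨⟨by linarith, by linarith⟩, by linarith, by linarith⟩
  · exact Or.inr (Or.inl ⟨⟨by linarith, by linarith⟩, by linarith, by linarith⟩)
  · exact Or.inr (Or.inr ⟨⟨by linarith, by linarith⟩, by linarith, by linarith⟩)

/-- the position of the second point, when the three points are far apart -/
def TG (p q s d N : ℝ) : Prop :=
  (|q - p| ≤ d ∧ |s - p| ≤ d ∧ -d ≤ p ∧ N = p + 4 * d) ∨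
  (|q| ≤ d ∧ |s| ≤ d ∧ p ≤ d ∧ N = -p + 2 * d) ∨
  (|p| ≤ d ∧ |s| ≤ d ∧ q ≤ d ∧ N = -q + 2 * d) ∨
  (|p| ≤ d ∧ |q| ≤ d ∧ s ≤ d ∧ N = -s + 2 * d)

lemma treeG {p q s k : ℝ} (hk : 0 ≤ k) (h1 : Tri p q 0 k)
    (h2 : Tri p s 0 k) (h3 : Tri q s 0 k) : ∃ N, TG p q s (3 * k) N := by
  unfold Tri at h1 h2 h3
  simp only [abs_le] at h1 h2 h3
  rcases h1 with ⟨⟨h1, h1'⟩, h1'', g1⟩ | ⟨⟨h1, h1'⟩, h1'', g1⟩ | ⟨⟨h1, h1'⟩, h1'', g1⟩ <;>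
  rcases h2 with ⟨⟨h2, h2'⟩, h2'', g2⟩ | ⟨⟨h2, h2'⟩, h2'', g2⟩ | ⟨⟨h2, h2'⟩, h2'', g2⟩ <;>
  rcases h3 with ⟨⟨h3, h3'⟩, h3'', g3⟩ | ⟨⟨h3, h3'⟩, h3'', g3⟩ | ⟨⟨h3, h3'⟩, h3'', g3⟩ <;>
  unfold TG <;>
  simp only [abs_le] <;>
  first
  | (refine ⟨_, Or.inl ⟨⟨?_, ?_⟩, ⟨?_, ?_⟩, ?_, rfl⟩⟩ <;> linarith)
  | (refine ⟨_, Or.inr (Or.inl ⟨⟨?_, ?_⟩, ⟨?_, ?_⟩, ?_, rfl⟩)⟩ <;> linarith)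
  | (refine ⟨_, Or.inr (Or.inr (Or.inl ⟨⟨?_, ?_⟩, ⟨?_, ?_⟩, ?_, rfl⟩))⟩ <;> linarith)
  | (refine ⟨_, Or.inr (Or.inr (Or.inr ⟨⟨?_, ?_⟩, ⟨?_, ?_⟩, ?_, rfl⟩))⟩ <;> linarith)

/-- closeness of three numbers to three values -/
def Cl3 (p p' p'' e a b c : ℝ) : Prop :=
  (a - e ≤ p ∧ p ≤ a + e) ∧ (b - e ≤ p' ∧ p' ≤ b + e) ∧ (c - e ≤ p'' ∧ p'' ≤ c + e)

/-- the generic case -/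
lemma combG {p q s p' q' s' p'' q'' s'' d N N' N'' θ D : ℝ} (hd : 0 ≤ d) (hd1 : d ≤ 1 / 100)
    (hD : 1 ≤ D)
    (hθ : 0 ≤ θ) (hθ1 : θ ≤ (N + N' + N'') / 100)
    (h0 : TG p q s d N) (h1 : TG p' q' s' d N') (h2 : TG p'' q'' s'' d N'')
    (e1 : |p + p' + p'' + D| ≤ θ) (e2 : |q + q' + q'' + D| ≤ θ) (e3 : |s + s' + s'' + D| ≤ θ) :
    N + N' + N'' ≤ 10 * D ∧ (Cl3 p p' p'' (10 * (d + θ)) (-D) 0 0 ∨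
      Cl3 p p' p'' (10 * (d + θ)) 0 (-D) 0 ∨ Cl3 p p' p'' (10 * (d + θ)) 0 0 (-D)) := by
  unfold TG at h0 h1 h2
  simp only [abs_le] at h0 h1 h2 e1 e2 e3
  obtain ⟨e1, e1'⟩ := e1
  obtain ⟨e2, e2'⟩ := e2
  obtain ⟨e3, e3'⟩ := e3
  rcases h0 with ⟨⟨x1, x2⟩, ⟨x3, x4⟩, x5, x6⟩ | ⟨⟨x1, x2⟩, ⟨x3, x4⟩, x5, x6⟩ |
    ⟨⟨x1, x2⟩, ⟨x3, x4⟩, x5, x6⟩ | ⟨⟨x1, x2⟩, ⟨x3, x4⟩, x5, x6⟩ <;>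
  rcases h1 with ⟨⟨y1, y2⟩, ⟨y3, y4⟩, y5, y6⟩ | ⟨⟨y1, y2⟩, ⟨y3, y4⟩, y5, y6⟩ |
    ⟨⟨y1, y2⟩, ⟨y3, y4⟩, y5, y6⟩ | ⟨⟨y1, y2⟩, ⟨y3, y4⟩, y5, y6⟩ <;>
  rcases h2 with ⟨⟨z1, z2⟩, ⟨z3, z4⟩, z5, z6⟩ | ⟨⟨z1, z2⟩, ⟨z3, z4⟩, z5, z6⟩ |
    ⟨⟨z1, z2⟩, ⟨z3, z4⟩, z5, z6⟩ | ⟨⟨z1, z2⟩, ⟨z3, z4⟩, z5, z6⟩ <;>
  first
  | (exfalso; linarith)
  | (refine ⟨by linarith, ?_⟩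
     unfold Cl3
     first
     | (refine Or.inl ⟨⟨?_, ?_⟩, ⟨?_, ?_⟩, ⟨?_, ?_⟩⟩ <;> linarith)
     | (refine Or.inr (Or.inl ⟨⟨?_, ?_⟩, ⟨?_, ?_⟩, ⟨?_, ?_⟩⟩) <;> linarith)
     | (refine Or.inr (Or.inr ⟨⟨?_, ?_⟩, ⟨?_, ?_⟩, ⟨?_, ?_⟩⟩) <;> linarith))

/-- one special corner, at which the first and the third line meet -/
lemma comb1 {p q s p' q' s' p'' q'' s'' d N N' N'' θ : ℝ} (hd : 0 ≤ d) (hd1 : d ≤ 1 / 100)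
    (hθ : 0 ≤ θ) (hθ1 : θ ≤ (N + N' + N'') / 100)
    (h0 : T0 p q s d N) (h1 : TG p' q' s' d N') (h2 : TG p'' q'' s'' d N'')
    (e1 : |p + p' + p'' + 1| ≤ θ) (e2 : |q + q' + q'' + 1| ≤ θ) (e3 : |s + s' + s'' + 1| ≤ θ) :
    N + N' + N'' ≤ 20 ∧ (Cl3 p p' p'' (20 * (d + θ)) (-1) 0 0 ∨
      Cl3 p p' p'' (20 * (d + θ)) 0 (-1) 0 ∨ Cl3 p p' p'' (20 * (d + θ)) 0 0 (-1)) := by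
  unfold TG at h1 h2
  unfold T0 at h0
  simp only [abs_le] at h0 h1 h2 e1 e2 e3
  obtain ⟨e1, e1'⟩ := e1
  obtain ⟨e2, e2'⟩ := e2
  obtain ⟨e3, e3'⟩ := e3
  rcases h0 with ⟨⟨x1, x2⟩, ⟨x3, x4⟩, x5, x6⟩ | ⟨⟨x1, x2⟩, ⟨x3, x4⟩, x5, x6⟩ |
    ⟨⟨x1, x2⟩, ⟨x3, x4⟩, x5, x7, x6⟩ | ⟨⟨x1, x2⟩, ⟨x3, x4⟩, x5, x6⟩ |
    ⟨⟨x1, x2⟩, ⟨x3, x4⟩, x5, x6⟩ <;>
  rcases h1 with ⟨⟨y1, y2⟩, ⟨y3, y4⟩, y5, y6⟩ | ⟨⟨y1, y2⟩, ⟨y3, y4⟩, y5, y6⟩ |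
    ⟨⟨y1, y2⟩, ⟨y3, y4⟩, y5, y6⟩ | ⟨⟨y1, y2⟩, ⟨y3, y4⟩, y5, y6⟩ <;>
  rcases h2 with ⟨⟨z1, z2⟩, ⟨z3, z4⟩, z5, z6⟩ | ⟨⟨z1, z2⟩, ⟨z3, z4⟩, z5, z6⟩ |
    ⟨⟨z1, z2⟩, ⟨z3, z4⟩, z5, z6⟩ | ⟨⟨z1, z2⟩, ⟨z3, z4⟩, z5, z6⟩ <;>
  first
  | (exfalso; linarith)
  | (refine ⟨by linarith, ?_⟩
     unfold Cl3
     first
     | (refine Or.inl ⟨⟨?_, ?_⟩, ⟨?_, ?_⟩, ⟨?_, ?_⟩⟩ <;> linarith)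
     | (refine Or.inr (Or.inl ⟨⟨?_, ?_⟩, ⟨?_, ?_⟩, ⟨?_, ?_⟩⟩) <;> linarith)
     | (refine Or.inr (Or.inr ⟨⟨?_, ?_⟩, ⟨?_, ?_⟩, ⟨?_, ?_⟩⟩) <;> linarith))

/-- two special corners: the first and the third line meet at the first corner, and the first and
the second line at the second -/
lemma comb2 {p q s p' q' s' p'' q'' s'' d N N' N'' θ : ℝ} (hd : 0 ≤ d) (hd1 : d ≤ 1 / 100)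
    (hθ : 0 ≤ θ) (hθ1 : θ ≤ (N + N' + N'') / 100)
    (h0 : T0 p q s d N) (h1 : T0 p' s' q' d N') (h2 : TG p'' q'' s'' d N'')
    (e1 : |p + p' + p'' + 1| ≤ θ) (e2 : |q + q' + q'' + 1| ≤ θ) (e3 : |s + s' + s'' + 1| ≤ θ) :
    N + N' + N'' ≤ 20 ∧ (Cl3 p p' p'' (20 * (d + θ)) (-1) 0 0 ∨
      Cl3 p p' p'' (20 * (d + θ)) 0 (-1) 0 ∨ Cl3 p p' p'' (20 * (d + θ)) 0 0 (-1) ∨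
      Cl3 p p' p'' (20 * (d + θ)) (-1) (-1) 1) := by
  unfold TG at h2
  unfold T0 at h0 h1
  simp only [abs_le] at h0 h1 h2 e1 e2 e3
  obtain ⟨e1, e1'⟩ := e1
  obtain ⟨e2, e2'⟩ := e2
  obtain ⟨e3, e3'⟩ := e3
  rcases h0 with ⟨⟨x1, x2⟩, ⟨x3, x4⟩, x5, x6⟩ | ⟨⟨x1, x2⟩, ⟨x3, x4⟩, x5, x6⟩ |
    ⟨⟨x1, x2⟩, ⟨x3, x4⟩, x5, x7, x6⟩ | ⟨⟨x1, x2⟩, ⟨x3, x4⟩, x5, x6⟩ |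
    ⟨⟨x1, x2⟩, ⟨x3, x4⟩, x5, x6⟩ <;>
  rcases h1 with ⟨⟨y1, y2⟩, ⟨y3, y4⟩, y5, y6⟩ | ⟨⟨y1, y2⟩, ⟨y3, y4⟩, y5, y6⟩ |
    ⟨⟨y1, y2⟩, ⟨y3, y4⟩, y5, y7, y6⟩ | ⟨⟨y1, y2⟩, ⟨y3, y4⟩, y5, y6⟩ |
    ⟨⟨y1, y2⟩, ⟨y3, y4⟩, y5, y6⟩ <;>
  rcases h2 with ⟨⟨z1, z2⟩, ⟨z3, z4⟩, z5, z6⟩ | ⟨⟨z1, z2⟩, ⟨z3, z4⟩, z5, z6⟩ |
    ⟨⟨z1, z2⟩, ⟨z3, z4⟩, z5, z6⟩ | ⟨⟨z1, z2⟩, ⟨z3, z4⟩, z5, z6⟩ <;>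
  first
  | (exfalso; linarith)
  | (refine ⟨by linarith, ?_⟩
     unfold Cl3
     first
     | (refine Or.inl ⟨⟨?_, ?_⟩, ⟨?_, ?_⟩, ⟨?_, ?_⟩⟩ <;> linarith)
     | (refine Or.inr (Or.inl ⟨⟨?_, ?_⟩, ⟨?_, ?_⟩, ⟨?_, ?_⟩⟩) <;> linarith)
     | (refine Or.inr (Or.inr (Or.inl ⟨⟨?_, ?_⟩, ⟨?_, ?_⟩, ⟨?_, ?_⟩⟩)) <;> linarith)
     | (refine Or.inr (Or.inr (Or.inr ⟨⟨?_, ?_⟩, ⟨?_, ?_⟩, ⟨?_, ?_⟩⟩)) <;> linarith))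

end Run7.h498.GZ
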