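import Pool.Agent.Run7.h498.GZ.R2

set_option autoImplicit false

/-!
# Ruled surfaces: the first step, in number fields
-/

namespace Run7.h498.GZ

open NumberField Height Real Module Pool.Agent.Y740 Run7.h498

lemma TG.bound {p q s d N : ℝ} (hd : 0 ≤ d) (h : TG p q s d N) :
    |p| ≤ N ∧ |q| ≤ N ∧ |s| ≤ N := by
  unfold TG at h
  simp only [abs_le] at *
  rcases h with ⟨⟨x1, x2⟩, ⟨x3, x4⟩, x5, x6⟩ | ⟨⟨x1, x2⟩, ⟨x3, x4⟩, x5, x6⟩ |
    ⟨⟨x1, x2⟩, ⟨x3, x4⟩, x5, x6⟩ | ⟨⟨x1, x2⟩, ⟨x3, x4⟩, x5, x6⟩ <;>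
  refine ⟨⟨?_, ?_⟩, ⟨?_, ?_⟩, ⟨?_, ?_⟩⟩ <;> linarith

lemma Det0.comb {a b u a' b' u' A B U : ℝ} (α β : ℝ) (h : Det0 a b u a' b' u' A B U) :
    Det0 a b (u - α * a - β * b) a' b' (u' - α * a' - β * b') A B (U - α * A - β * B) := by
  unfold Det0 at *
  linear_combination h

/-- the third coordinate at any place, with arbitrary exponents -/
lemma TP.third' {ι : Type} {a b e : ι → ℝ} {ε : ℝ} {v0 v1 v2 : ι} (h : TP a b e ε v0 v1 v2)
    {u : ι → ℝ}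
    (hu : ∀ v w x, Det0 (a v) (b v) (u v) (a w) (b w) (u w) (a x) (b x) (u x)) {C α β : ℝ}
    (hCε : (C + |α| + |β|) * ε ≤ 1)
    (h1 : |u v0 / -a v0 + α| ≤ C * ε) (h2 : |u v1 / -b v1 + β| ≤ C * ε) (x : ι) :
    |u x - α * a x - β * b x| ≤ (C + |α| + |β| + 10) * ε * (|a x| + |b x|) * 2 := by
  have hb0 := h.hb0
  have ha1 := h.ha1
  have n0 := h.h0
  have n1 := h.h1
  have ea0 : a v0 / -a v0 = -1 := by rw [div_neg, div_self (by linarith : a v0 ≠ 0)]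
  have eb1 : b v1 / -b v1 = -1 := by rw [div_neg, div_self (by linarith : b v1 ≠ 0)]
  have k1 : |(u v0 - α * a v0 - β * b v0) / -a v0 - 0| ≤ (C + |α| + |β|) * ε := by
    have e : (u v0 - α * a v0 - β * b v0) / -a v0 - 0 = (u v0 / -a v0 + α) + -(β * (b v0 / -a v0)) := by
      rw [sub_zero, sub_div, sub_div, mul_div_assoc, mul_div_assoc, ea0]; ring
    rw [e]
    refine (abs_add_le _ _).trans ?_
    rw [abs_neg, abs_mul]
    have := mul_le_mul_of_nonneg_left hb0 (abs_nonneg β)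
    have := mul_nonneg (abs_nonneg α) h.hε.le
    linarith
  have k2 : |(u v1 - α * a v1 - β * b v1) / -b v1 - 0| ≤ (C + |α| + |β|) * ε := by
    have e : (u v1 - α * a v1 - β * b v1) / -b v1 - 0 = (u v1 / -b v1 + β) + -(α * (a v1 / -b v1)) := by
      rw [sub_zero, sub_div, sub_div, mul_div_assoc, mul_div_assoc, eb1]; ring
    rw [e]
    refine (abs_add_le _ _).trans ?_
    rw [abs_neg, abs_mul]
    have := mul_le_mul_of_nonneg_left ha1 (abs_nonneg α)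
    have := mul_nonneg (abs_nonneg β) h.hε.le
    linarith
  have := h.third (u := fun v => u v - α * a v - β * b v) (fun v w x => Det0.comb α β (hu v w x))
    (z := 0) (z' := 0) (by simp) (by simp) hCε k1 k2 x
  rwa [zero_mul, zero_mul, zero_add, zero_add] at this

section
variable {K : Type} [Field K] [NumberField K]

/-- the triangles at one of the three places -/
lemma tri_corner {S : Finset (FinitePlace K)} {v : Pl S} {P Y Y' : K} (hP : P ≠ 0) (hY : Y ≠ 0)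
    (hY' : Y' ≠ 0) (h : P + Y' = Y) {N ε C γ γ' e0 t w : ℝ} (hN : 0 < N) (hk : kp v ≤ e0)
    (heN : 2 * e0 ≤ ε * N) (hC : 0 ≤ C * ε) (hγ : |γ| ≤ e0) (hγ' : |γ'| ≤ e0)
    (hPt : |lg v P / N - t - w| ≤ C * ε) :
    Tri ((lg v Y + γ) / N - t) ((lg v Y' + γ') / N - t) w ((2 * C + 2) * ε) := by
  have he : 0 ≤ e0 := (abs_nonneg _).trans hγ
  have h1 := lg_tri v hP hY' hY h
  have h2 : Tri (lg v P) (lg v Y' + γ') (lg v Y + γ) (3 * e0) :=
    h1.pert (δ := e0) (by simpa using he) (by rw [add_sub_cancel_left]; exact hγ')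
      (by rw [add_sub_cancel_left]; exact hγ) (by linarith)
  have h3 := Tri.shift t (h2.scale hN)
  have h4 : 3 * e0 / N ≤ 2 * ε := by
    rw [div_le_iff₀ hN]
    linarith
  have hw : |w - (lg v P / N - t)| ≤ C * ε := by
    rw [abs_sub_comm]; exact hPt
  have h5 : Tri w ((lg v Y' + γ') / N - t) ((lg v Y + γ) / N - t) ((2 * C + 2) * ε) :=
    h3.pert (δ := C * ε) hw (by simpa using hC) (by simpa using hC) (by linarith)
  exact h5.swap.swap2.swap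

/-- the size of a polynomial near a corner -/
lemma size_corner {S : Finset (FinitePlace K)} {v : Pl S} {d : ℕ} (B : Fin (d + 1) → K) {x : K}
    (σ : Fin 3) {e0 : ℝ}
    (he0 : kp v + ∑ i, |lg v (B i)| + ∑ σ, |lg v (cval1 B σ)| ≤ e0)
    (hL : cval1 B σ ≠ 0) (hx0 : x ≠ 0) (hx1 : 1 - x ≠ 0) (hF : fval1 B x ≠ 0)
    {N ε γ0 γ1 c X Y : ℝ} (hN : 0 < N) (hε : 0 < ε) (heN : 2 * e0 ≤ ε * N)
    (hC : 10 * (d : ℝ) + 30 ≤ c) (hεC : ε * c ≤ 1 / 1000)
    (hγ0 : |γ0| ≤ e0) (hγ1 : |γ1| ≤ e0)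
    (hXY : (σ = 0 ∧ X = -1 ∧ Y = 0) ∨ (σ = 1 ∧ X = 0 ∧ Y = -1) ∨ (σ = 2 ∧ X = 1 ∧ Y = 1))
    (hX : |(lg v x + γ0) / N - X| ≤ ε) (hY : |(lg v (1 - x) + γ1) / N - Y| ≤ ε) :
    |lg v (fval1 B x) / N - pol σ * d - 0| ≤ c * ε := by
  have he : 0 ≤ e0 := (abs_nonneg _).trans hγ0
  have h := place_s2 (α := 0) (β := 0) (γ4 := 0) B σ he0 hL hx0 hx1 hF hN hε heN
    (by simpa using hC) hεC hγ0 hγ1 (by simpa using he) hXY hX hY
  rw [zpow_zero, zpow_zero, one_mul, one_mul, add_zero] at h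
  rw [sub_zero]
  refine le_of_eq_of_le ?_ h
  congr 1
  rcases hXY with ⟨rfl, rfl, rfl⟩ | ⟨rfl, rfl, rfl⟩ | ⟨rfl, rfl, rfl⟩ <;> simp [pol]

/-- the height of a number, from the plane -/
theorem plane3 {S : Finset (FinitePlace K)} {x η : K} (sx : SU S x) (sx' : SU S (1 - x))
    (sη : SU S η) (γ0 γ1 γ : Pl S → ℝ) (e0 : Pl S → ℝ)
    (hγ0 : ∀ v, |γ0 v| ≤ e0 v) (hγ1 : ∀ v, |γ1 v| ≤ e0 v) (k : ℝ) (hγ : ∀ v, |γ v| ≤ k * e0 v)
    (H c ε h : ℝ) (hH : finrank ℚ K ≤ H)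
    (hsum : ∑ v, e0 v ≤ 2 * H) (hεpos : 0 < ε) (hc : 0 ≤ c) (hk : 0 ≤ k)
    (hh : h = logHeight₁ x) (hεh : ε * h = 16 * H) (hhH : 10 * H ≤ h)
    (hthird : ∀ v, |lg v η + γ v| ≤ c * ε * (|lg v x + γ0 v| + |lg v (1 - x) + γ1 v|) * 2) :
    logHeight₁ η ≤ (96 * c + k) * H := by
  have hab : ∑ v, (|lg v x + γ0 v| + |lg v (1 - x) + γ1 v|) ≤ 6 * h := by
    have h3 : ∀ v, |lg v x + γ0 v| + |lg v (1 - x) + γ1 v| ≤
        |lg v x| + |lg v (1 - x)| + 2 * e0 v := by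
      intro v
      have h1 := abs_add_le (lg v x) (γ0 v)
      have h2 := abs_add_le (lg v (1 - x)) (γ1 v)
      have := hγ0 v
      have := hγ1 v
      linarith
    have h4 := Finset.sum_le_sum fun v (_ : v ∈ (Finset.univ : Finset (Pl S))) => h3 v
    simp only [Finset.sum_add_distrib] at h4
    rw [sum_abs_lg sx, sum_abs_lg sx', ← Finset.mul_sum] at h4
    rw [Finset.sum_add_distrib]
    have h5 := ht_sub' 1 x
    rw [logHeight₁_one] at h5
    have h6 : (finrank ℚ K : ℝ) * log 2 ≤ H :=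
      (mul_le_of_le_one_right (Nat.cast_nonneg _) log_two_le).trans hH
    linarith
  have hfin : 2 * logHeight₁ η ≤ c * ε * (6 * h) * 2 + k * (2 * H) := by
    rw [← sum_abs_lg sη]
    have h1 : ∀ v, |lg v η| ≤ c * ε * (|lg v x + γ0 v| + |lg v (1 - x) + γ1 v|) * 2 +
        k * e0 v := by
      intro v
      have h2 := hthird v
      have h3 : lg v η = (lg v η + γ v) - γ v := by ring
      rw [h3]
      have := abs_sub (lg v η + γ v) (γ v)
      have := hγ v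
      linarith
    refine (Finset.sum_le_sum fun v _ => h1 v).trans ?_
    rw [Finset.sum_add_distrib, ← Finset.sum_mul, ← Finset.mul_sum, ← Finset.mul_sum]
    have h2 : c * ε * ∑ v, (|lg v x + γ0 v| + |lg v (1 - x) + γ1 v|) ≤ c * ε * (6 * h) :=
      mul_le_mul_of_nonneg_left hab (by positivity)
    have h3 : k * ∑ v, e0 v ≤ k * (2 * H) := mul_le_mul_of_nonneg_left hsum hk
    linarith
  have h8 : c * ε * (6 * h) * 2 = c * 192 * H := by
    have : c * ε * (6 * h) * 2 = c * 12 * (ε * h) := by ring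
    rw [this, hεh]; ring
  rw [h8] at hfin
  linarith

end

end Run7.h498.GZ
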