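import Pool.Agent.Run7.h498.GZ.R5

set_option autoImplicit false

/-!
# Ruled surfaces: bounded height of the second coordinate
-/

namespace Run7.h498.GZ

open Polynomial NumberField Height Real Module Pool.Agent.Y740 Pool.Agent.Y740.G Run7.h498

/-- a diagonally dominant matrix -/
lemma diag_dom {a b c a' b' c' A B C : ℝ} (h1 : |a + 1| ≤ 1 / 50) (h2 : |b| ≤ 1 / 50)
    (h3 : |c| ≤ 1 / 50) (h1' : |a'| ≤ 1 / 50) (h2' : |b' + 1| ≤ 1 / 50) (h3' : |c'| ≤ 1 / 50)
    (H1 : |A| ≤ 1 / 50) (H2 : |B| ≤ 1 / 50) (H3 : |C + 1| ≤ 1 / 50) :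
    ¬ Det0 a b c a' b' c' A B C := by
  intro h
  unfold Det0 at h
  have k1 := abs_le.mp h1
  have k2 := abs_le.mp h2'
  have k3 := abs_le.mp H3
  have ka : |a| ≤ 51 / 50 := by rw [abs_le]; constructor <;> linarith
  have kb : |b'| ≤ 51 / 50 := by rw [abs_le]; constructor <;> linarith
  have kC : |C| ≤ 51 / 50 := by rw [abs_le]; constructor <;> linarith
  have m1 := abs_le.mp (abs_mul_le_of ka (abs_mul_le_of h3' H2))
  have m2 := abs_le.mp (abs_mul_le_of h2 (abs_mul_le_of h1' kC))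
  have m3 := abs_le.mp (abs_mul_le_of h2 (abs_mul_le_of h3' H1))
  have m4 := abs_le.mp (abs_mul_le_of h3 (abs_mul_le_of h1' H2))
  have m5 := abs_le.mp (abs_mul_le_of h3 (abs_mul_le_of kb H1))
  have p1 : 2401 / 2500 ≤ a * b' := by nlinarith
  have p2 : a * b' * C ≤ -(2401 / 2500) * (49 / 50) := by nlinarith
  have e : a * (b' * C - c' * B) - b * (a' * C - c' * A) + c * (a' * B - b' * A) =
    a * b' * C - a * (c' * B) - b * (a' * C) + b * (c' * A) + c * (a' * B) - c * (b' * A) := by ring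
  rw [e] at h
  linarith

/-- The height of `y` is bounded by the heights of the three numbers. -/
theorem ystep : ∃ C : ℝ, 0 < C ∧ ∀ (K : Type) [Field K] [NumberField K] (D E F y : K)
    (z g : Fin 5 → K), (∀ l, z l ≠ 0) → y ≠ 0 → y - D ≠ 0 → y - E ≠ 0 → D ≠ 0 → E ≠ 0 → F ≠ 0 →
    D = E + F → (∀ l, g l ≠ 0) → z 2 = y * g 2 → z 3 = (y - D) * g 3 → z 4 = (y - E) * g 4 →
    HasRelations z 3 →
    logHeight₁ y ≤ C * (finrank ℚ K + (logHeight₁ D + logHeight₁ E + logHeight₁ F +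
      ∑ l, logHeight₁ (g l))) := by
  refine ⟨1000, by norm_num, ?_⟩
  intro K _ _ D E F y z g hz hy hyD hyE hD hE hF hDEF hg z2 z3 z4 hrel
  obtain ⟨S, hS, hsum⟩ := exists_err (κ := Fin 3 ⊕ Fin 5) (Sum.elim ![D, E, F] g)
    [y, y - D, y - E] (by
      intro z hz
      simp only [List.mem_cons, List.not_mem_nil, or_false] at hz
      rcases hz with rfl | rfl | rfl <;> assumption)
  rw [Fintype.sum_sum_type (f := fun k => logHeight₁ _)] at hsum
  simp only [Sum.elim_inl, Sum.elim_inr, Fin.sum_univ_three, Matrix.cons_val_zero,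
    Matrix.cons_val_one, Matrix.cons_val] at hsum
  have hv : ∀ v : Pl S, kp v + ∑ k, |lg v ((Sum.elim ![D, E, F] g : Fin 3 ⊕ Fin 5 → K) k)| =
      kp v + ((|lg v D| + |lg v E| + |lg v F|) + ∑ l, |lg v (g l)|) := by
    intro v
    rw [Fintype.sum_sum_type, Fin.sum_univ_three]
    rfl
  simp only [hv] at hsum
  obtain ⟨e, he⟩ : ∃ e : Pl S → ℝ, ∀ v, e v = kp v + ((|lg v D| + |lg v E| + |lg v F|) +
      ∑ l, |lg v (g l)|) := ⟨_, fun v => rfl⟩
  simp only [← he] at hsum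
  have hHg0 : 0 ≤ ∑ l, logHeight₁ (g l) := Finset.sum_nonneg fun _ _ => ht_nonneg' _
  have d1 := ht_nonneg' D
  have d2 := ht_nonneg' E
  have d3 := ht_nonneg' F
  obtain ⟨H, hH⟩ : ∃ H : ℝ, H = finrank ℚ K + (logHeight₁ D + logHeight₁ E + logHeight₁ F +
      ∑ l, logHeight₁ (g l)) := ⟨_, rfl⟩
  rw [← hH]
  have hd0 : (1 : ℝ) ≤ finrank ℚ K := by
    have : 0 < finrank ℚ K := finrank_pos
    exact_mod_cast this
  have hHd : (finrank ℚ K : ℝ) ≤ H := by rw [hH]; linarith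
  have hHD : logHeight₁ D ≤ H := by rw [hH]; linarith
  have hHE : logHeight₁ E ≤ H := by rw [hH]; linarith
  have hsum2 : ∑ v, e v ≤ 2 * H := by rw [hH]; linarith
  clear hH hsum d1 d2 d3 hHg0
  have sy : SU S y := hS _ (by simp)
  have syD : SU S (y - D) := hS _ (by simp)
  have syE : SU S (y - E) := hS _ (by simp)
  have hl2 : (finrank ℚ K : ℝ) * log 2 ≤ H :=
    (mul_le_of_le_one_right (Nat.cast_nonneg _) log_two_le).trans hHd
  have hyD' : logHeight₁ y ≤ 2 * H + logHeight₁ (y - D) := by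
    have := ht_add (y - D) D
    rw [sub_add_cancel] at this
    linarith
  have hyE' : logHeight₁ y ≤ 2 * H + logHeight₁ (y - E) := by
    have := ht_add (y - E) E
    rw [sub_add_cancel] at this
    linarith
  by_contra hcon
  rw [not_le] at hcon
  have hkp : ∀ v : Pl S, 0 ≤ kp v := fun v => kp_nonneg v
  have hg0 : ∀ v : Pl S, 0 ≤ ∑ l, |lg v (g l)| := fun v =>
    Finset.sum_nonneg fun _ _ => abs_nonneg _
  have hgl : ∀ (v : Pl S) l, |lg v (g l)| ≤ ∑ l, |lg v (g l)| := fun v l =>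
    Finset.single_le_sum (f := fun l => |lg v (g l)|) (fun _ _ => abs_nonneg _) (Finset.mem_univ l)
  have he0 : ∀ v, 0 ≤ e v := by
    intro v
    rw [he]
    have := hkp v; have := hg0 v; have := abs_nonneg (lg v D); have := abs_nonneg (lg v E)
    have := abs_nonneg (lg v F)
    linarith
  -- the places
  have hpl : ∀ w : K, SU S w → logHeight₁ y ≤ 2 * H + logHeight₁ w →
      ∃ v : Pl S, 0 < -lg v w ∧ e v ≤ 1 / 200 * -lg v w := by
    intro w sw hw
    apply exists_place _ e he0 _ (by norm_num)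
    have h1 : ∑ v : Pl S, max 0 (-lg v w) = logHeight₁ w := by
      have := sum_max_lg sw.inv
      rw [logHeight₁_inv] at this
      rw [← this]
      exact Finset.sum_congr rfl fun v _ => by rw [lg_inv]
    rw [h1]
    linarith
  -- close points
  have hcl : ∀ (v : Pl S) (w P : K), P ≠ 0 → w ≠ 0 → 0 < -lg v w → e v ≤ 1 / 200 * -lg v w →
      |lg v P| + kp v ≤ e v → |lg v (P + w)| ≤ e v := by
    intro v w P hP hw h1 h2 h3
    have h4 := abs_le.mp (le_refl |lg v P|)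
    have h5 := abs_nonneg (lg v P)
    obtain ⟨-, h6⟩ := main_add (v := v) (M := lg v w) hP (Or.inr le_rfl) (by
      have := hkp v
      linarith)
    rw [abs_le] at h6 ⊢
    constructor <;> linarith
  have hbD : ∀ v : Pl S, |lg v D| + kp v ≤ e v := by
    intro v; rw [he]
    have := hg0 v; have := abs_nonneg (lg v E); have := abs_nonneg (lg v F)
    linarith
  have hbE : ∀ v : Pl S, |lg v E| + kp v ≤ e v := by
    intro v; rw [he]
    have := hg0 v; have := abs_nonneg (lg v D); have := abs_nonneg (lg v F)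
    linarith
  have hbF : ∀ v : Pl S, |lg v F| + kp v ≤ e v := by
    intro v; rw [he]
    have := hg0 v; have := abs_nonneg (lg v D); have := abs_nonneg (lg v E)
    linarith
  have hbg : ∀ (v : Pl S) l, |lg v (g l)| ≤ e v := by
    intro v l; rw [he]
    have := hgl v l; have := abs_nonneg (lg v D); have := abs_nonneg (lg v E)
    have := abs_nonneg (lg v F); have := hkp v
    linarith
  obtain ⟨v, v1, v2⟩ := hpl y sy (by linarith)
  obtain ⟨w, w1, w2⟩ := hpl (y - D) syD hyD'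
  obtain ⟨u, u1, u2⟩ := hpl (y - E) syE hyE'
  have hn : ∀ (v : Pl S) (w : K), |lg v (-w)| = |lg v w| := fun v w => by rw [lg_neg]
  have a1 : |lg v (y - D)| ≤ e v := by
    have := hcl v y (-D) (neg_ne_zero.mpr hD) hy v1 v2 (by rw [hn]; exact hbD v)
    rwa [neg_add_eq_sub] at this
  have a2 : |lg v (y - E)| ≤ e v := by
    have := hcl v y (-E) (neg_ne_zero.mpr hE) hy v1 v2 (by rw [hn]; exact hbE v)
    rwa [neg_add_eq_sub] at this
  have b1 : |lg w y| ≤ e w := by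
    have := hcl w (y - D) D hD hyD w1 w2 (hbD w)
    rwa [add_sub_cancel] at this
  have b2 : |lg w (y - E)| ≤ e w := by
    have := hcl w (y - D) F hF hyD w1 w2 (hbF w)
    rw [show F + (y - D) = y - E by rw [hDEF]; ring] at this
    exact this
  have c1 : |lg u y| ≤ e u := by
    have := hcl u (y - E) E hE hyE u1 u2 (hbE u)
    rwa [add_sub_cancel] at this
  have c2 : |lg u (y - D)| ≤ e u := by
    have := hcl u (y - E) (-F) (neg_ne_zero.mpr hF) hyE u1 u2 (by rw [hn]; exact hbF u)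
    rw [show -F + (y - E) = y - D by rw [hDEF]; ring] at this
    exact this
  have l2 : ∀ v : Pl S, lg v (z 2) = lg v y + lg v (g 2) := fun v => by
    rw [z2, lg_mul v hy (hg 2)]
  have l3 : ∀ v : Pl S, lg v (z 3) = lg v (y - D) + lg v (g 3) := fun v => by
    rw [z3, lg_mul v hyD (hg 3)]
  have l4 : ∀ v : Pl S, lg v (z 4) = lg v (y - E) + lg v (g 4) := fun v => by
    rw [z4, lg_mul v hyE (hg 4)]
  have dd := det_of_rel' (S := S) z hz hrel 2 3 4 v w u
  simp only [l2, l3, l4] at dd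
  have hsc := dd.scale (n := -lg v y) (n' := -lg w (y - D)) (m := -lg u (y - E)) v1.ne' w1.ne'
    u1.ne'
  have hs : ∀ (N X γ e' : ℝ), 0 < N → e' ≤ 1 / 200 * N → |X| ≤ e' → |γ| ≤ e' →
      |(X + γ) / N| ≤ 1 / 50 := by
    intro N X γ e' h1 h2 h3 h4
    rw [abs_div, abs_of_pos h1, div_le_iff₀ h1]
    have := abs_add_le X γ
    linarith
  have hd : ∀ (X γ e' : ℝ), 0 < -X → e' ≤ 1 / 200 * -X → |γ| ≤ e' →
      |(X + γ) / -X + 1| ≤ 1 / 50 := by
    intro X γ e' h1 h2 h4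
    have e : (X + γ) / -X + 1 = γ / -X := by
      have : X ≠ 0 := by linarith
      field_simp
      ring
    rw [e, abs_div, abs_of_pos h1, div_le_iff₀ h1]
    linarith
  exact diag_dom (hd _ _ _ v1 v2 (hbg v 2)) (hs _ _ _ _ v1 v2 a1 (hbg v 3))
    (hs _ _ _ _ v1 v2 a2 (hbg v 4)) (hs _ _ _ _ w1 w2 b1 (hbg w 2)) (hd _ _ _ w1 w2 (hbg w 3))
    (hs _ _ _ _ w1 w2 b2 (hbg w 4)) (hs _ _ _ _ u1 u2 c1 (hbg u 2))
    (hs _ _ _ _ u1 u2 c2 (hbg u 3)) (hd _ _ _ u1 u2 (hbg u 4)) hsc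

/-- The height of `y` is bounded, over the algebraic numbers. -/
theorem ystepQ : ∃ C : ℝ, 0 < C ∧ ∀ (D E F y : Qb)
    (z g : Fin 5 → Qb), (∀ l, z l ≠ 0) → y ≠ 0 → y - D ≠ 0 → y - E ≠ 0 → D ≠ 0 → E ≠ 0 → F ≠ 0 →
    D = E + F → (∀ l, g l ≠ 0) → z 2 = y * g 2 → z 3 = (y - D) * g 3 → z 4 = (y - E) * g 4 →
    HasRelations z 3 →
    NumberField.absLogHeight₁ y ≤ C * (1 + (NumberField.absLogHeight₁ D +
      NumberField.absLogHeight₁ E + NumberField.absLogHeight₁ F +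
      ∑ l, NumberField.absLogHeight₁ (g l))) := by
  obtain ⟨C, hC, hb⟩ := ystep
  refine ⟨C, hC, ?_⟩
  intro D E F y z g hz hy hyD hyE hD hE hF hDEF hg z2 z3 z4 hrel
  obtain ⟨K, hK, hG, hmem⟩ := exists_galois ({D, E, F, y} ∪ Set.range g ∪ Set.range z)
    (((by simp : ({D, E, F, y} : Set _).Finite).union (Set.finite_range g)).union
    (Set.finite_range _))
  have hn' := finrank_pos' K
  let DK : K := ⟨D, hmem _ (by simp)⟩
  let EK : K := ⟨E, hmem _ (by simp)⟩
  let FK : K := ⟨F, hmem _ (by simp)⟩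
  let yK : K := ⟨y, hmem _ (by simp)⟩
  let gK : Fin 5 → K := fun j => ⟨g j, hmem _ (by simp)⟩
  let zK : Fin 5 → K := fun i => ⟨z i, hmem _ (by simp)⟩
  have inj := (algebraMap K Qb).injective
  have e1 : NumberField.absLogHeight₁ y = logHeight₁ yK / finrank ℚ K := ht_eq (algebraMap K Qb) yK
  have e2 : NumberField.absLogHeight₁ D = logHeight₁ DK / finrank ℚ K := ht_eq (algebraMap K Qb) DK
  have e4 : NumberField.absLogHeight₁ E = logHeight₁ EK / finrank ℚ K := ht_eq (algebraMap K Qb) EK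
  have e5 : NumberField.absLogHeight₁ F = logHeight₁ FK / finrank ℚ K := ht_eq (algebraMap K Qb) FK
  have e3 : ∀ j, NumberField.absLogHeight₁ (g j) = logHeight₁ (gK j) / finrank ℚ K := fun j =>
    ht_eq (algebraMap K Qb) (gK j)
  have h := hb K DK EK FK yK zK gK (fun l h => hz l (congrArg (algebraMap K Qb) h))
    (fun h => hy (congrArg (algebraMap K Qb) h))
    (fun h => hyD (congrArg (algebraMap K Qb) h))
    (fun h => hyE (congrArg (algebraMap K Qb) h))
    (fun h => hD (congrArg (algebraMap K Qb) h))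
    (fun h => hE (congrArg (algebraMap K Qb) h))
    (fun h => hF (congrArg (algebraMap K Qb) h))
    (inj (by rw [map_add]; exact hDEF))
    (fun l h => hg l (congrArg (algebraMap K Qb) h))
    (inj (by rw [map_mul]; exact z2)) (inj (by rw [map_mul]; exact z3))
    (inj (by rw [map_mul]; exact z4))
    (rel_descend (algebraMap K Qb) zK z (fun l => rfl) hrel)
  simp only [e1, e2, e3, e4, e5]
  simp only [← Finset.sum_div, ← add_div]
  rw [div_le_iff₀ hn']
  have e6 : ∀ T : ℝ, C * (1 + T / finrank ℚ K) * finrank ℚ K = C * (finrank ℚ K + T) := by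
    intro T
    field_simp
  rw [e6]
  exact h

/-- the points with a fixed first coordinate at which two of the lines meet -/
theorem fixed_x (w0 w1 κ : Qb) (i j k : Fin 5)
    (hijk : ∀ f : Fin 5 → Qb, ∏ l, f l = f 0 * f 1 * f i * f j * f k) :
    ∃ U : Finset (Fin 5 → ℤ), (∀ u ∈ U, u ≠ 0) ∧ ∀ z : Fin 5 → Qb, (∀ l, z l ≠ 0) →
      HasRelations z 3 → z 0 = w0 → z 1 = w1 → z i = κ * z j →
      ∃ u ∈ U, ∏ l, z l ^ u l = 1 := by
  classical
  let pr : Fin 5 → ((Fin 5 → ℤ) →ₗ[ℤ] ℤ) := fun l => LinearMap.proj l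
  let f : (Fin 5 → ℤ) →ₗ[ℤ] (Fin 2 → ℤ) := LinearMap.pi ![pr i + pr j, pr k]
  have hf : ∀ u, f u = 0 → u j = -u i ∧ u k = 0 := by
    intro u hu
    have h1 := congrFun hu 0
    have h2 := congrFun hu 1
    simp [f, pr] at h1 h2
    constructor
    · linarith
    · exact h2
  have hprod : ∀ z : Fin 5 → Qb, (∀ l, z l ≠ 0) → z 0 = w0 → z 1 = w1 → z i = κ * z j →
      ∀ u, f u = 0 → ∏ l, z l ^ u l = w0 ^ u 0 * w1 ^ u 1 * κ ^ u i := by
    intro z hz z0 z1 zi u hu
    obtain ⟨h1, h2⟩ := hf u hu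
    rw [hijk, z0, z1, zi, h1, h2, zpow_zero, mul_one, mul_zpow, mul_assoc (w0 ^ u 0 * w1 ^ u 1),
      mul_assoc (κ ^ u i), ← zpow_add₀ (hz j), add_neg_cancel, zpow_zero, mul_one]
  by_cases hex : ∃ u : Fin 5 → ℤ, u ≠ 0 ∧ f u = 0 ∧ w0 ^ u 0 * w1 ^ u 1 * κ ^ u i = 1
  · obtain ⟨u, hu0, hu, h⟩ := hex
    refine ⟨{u}, by simpa using hu0, fun z hz _ z0 z1 zi => ⟨u, by simp, ?_⟩⟩
    rw [hprod z hz z0 z1 zi u hu, h]
  · refine ⟨∅, by simp, fun z hz hrel z0 z1 zi => ?_⟩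
    exfalso
    apply hex
    obtain ⟨u, hu0, hu, h⟩ := rel_kernel hz hrel f
    exact ⟨u, hu0, hu, by rw [← hprod z hz z0 z1 zi u hu]; exact h⟩

end Run7.h498.GZ
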