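import Pool.Agent.Run7.h498.GZ.R7
import Pool.Agent.Run7.h498.GZ.D1

set_option autoImplicit false

/-!
# Ruled surfaces: expansions in iterated quadratic extensions
-/

namespace Run7.h498.GZ

open ComplexConjugate Run7.h498

/-- A family of classes of functions which is closed under sums and products. -/
structure AlgP (P : ℕ → ℝ → (ℂ → ℂ → ℂ) → Prop) (M0 : ℕ) (C0 : ℝ) : Prop where
  hC : 1 ≤ C0
  nonneg : ∀ {M Q z}, P M Q z → 0 ≤ Q
  mono : ∀ {M M' Q Q' z}, P M Q z → M ≤ M' → Q ≤ Q' → P M' Q' z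
  add : ∀ {M Q Q' z z'}, P M Q z → P M Q' z' → P M (Q + Q') (fun x y => z x y + z' x y)
  mul : ∀ {M M' Q Q' z z'}, P M Q z → P M' Q' z' →
    P (M + M' + M0) (C0 * (Q * Q')) (fun x y => z x y * z' x y)
  const : ∀ a : ℝ, P 0 |a| (fun _ _ => (a : ℂ))

/-- the functions of the absolute values -/
def P0 (rr : ℂ → ℂ → Fin 5 → ℝ) (M : ℕ) (Q : ℝ) (z : ℂ → ℂ → ℂ) : Prop :=
  ∃ f, Ex M Q f ∧ ∀ x y, z x y = (f (rr x y) : ℂ)

lemma algP0 (rr : ℂ → ℂ → Fin 5 → ℝ) : AlgP (P0 rr) 0 1 where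
  hC := le_rfl
  nonneg := fun ⟨_, h, _⟩ => h.nonneg
  mono := fun ⟨f, h, he⟩ h1 h2 => ⟨f, h.mono h1 h2, he⟩
  add := by
    rintro M Q Q' z z' ⟨f, h, he⟩ ⟨f', h', he'⟩
    exact ⟨_, h.add h', fun x y => by simp only [he, he']; push_cast; rfl⟩
  mul := by
    rintro M M' Q Q' z z' ⟨f, h, he⟩ ⟨f', h', he'⟩
    exact ⟨_, (h.mul h').mono (by omega) (by rw [one_mul]), fun x y => by
      simp only [he, he']; push_cast; rfl⟩
  const := fun a => ⟨_, Ex.const a, fun x y => rfl⟩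

/-- a quadratic extension -/
def Ext (P : ℕ → ℝ → (ℂ → ℂ → ℂ) → Prop) (θ : ℂ → ℂ → ℂ) (M : ℕ) (Q : ℝ) (z : ℂ → ℂ → ℂ) : Prop :=
  ∃ a b, P M Q a ∧ P M Q b ∧ ∀ x y, z x y = a x y + b x y * θ x y

variable {P : ℕ → ℝ → (ℂ → ℂ → ℂ) → Prop} {M0 : ℕ} {C0 : ℝ}

lemma AlgP.zero (h : AlgP P M0 C0) {M : ℕ} {Q : ℝ} (hQ : 0 ≤ Q) : P M Q (fun _ _ => 0) := by
  have := h.mono (h.const 0) (Nat.zero_le M) (by rwa [abs_zero] : |(0 : ℝ)| ≤ Q)
  simpa only [Complex.ofReal_zero] using this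

lemma AlgP.lift (h : AlgP P M0 C0) (θ : ℂ → ℂ → ℂ) {M : ℕ} {Q : ℝ} {z : ℂ → ℂ → ℂ}
    (hz : P M Q z) : Ext P θ M Q z :=
  ⟨z, fun _ _ => 0, hz, h.zero (h.nonneg hz), fun x y => by simp⟩

lemma AlgP.theta (h : AlgP P M0 C0) (θ : ℂ → ℂ → ℂ) : Ext P θ 0 1 θ :=
  ⟨fun _ _ => 0, fun _ _ => 1, h.zero zero_le_one, by simpa using h.const 1, fun x y => by simp⟩

lemma AlgP.ext (h : AlgP P M0 C0) {θ : ℂ → ℂ → ℂ} {Mc : ℕ} {Qc : ℝ}
    (hθ : P Mc Qc (fun x y => θ x y * θ x y)) :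
    AlgP (Ext P θ) (M0 + Mc + M0) (2 * C0 + C0 * (C0 * Qc)) where
  hC := by
    have := h.hC
    have := h.nonneg hθ
    have : 0 ≤ C0 * (C0 * Qc) := by positivity
    linarith
  nonneg := fun ⟨_, _, ha, _, _⟩ => h.nonneg ha
  mono := fun ⟨a, b, ha, hb, he⟩ h1 h2 => ⟨a, b, h.mono ha h1 h2, h.mono hb h1 h2, he⟩
  add := by
    rintro M Q Q' z z' ⟨a, b, ha, hb, he⟩ ⟨a', b', ha', hb', he'⟩
    exact ⟨_, _, h.add ha ha', h.add hb hb', fun x y => by simp only [he, he']; ring⟩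
  mul := by
    rintro M M' Q Q' z z' ⟨a, b, ha, hb, he⟩ ⟨a', b', ha', hb', he'⟩
    have hC := h.hC
    have hq := h.nonneg ha
    have hq' := h.nonneg ha'
    have hqc := h.nonneg hθ
    have hQQ : 0 ≤ Q * Q' := mul_nonneg hq hq'
    have k1 := h.mono (h.mul ha ha') (show M + M' + M0 ≤ M + M' + (M0 + Mc + M0) by omega) le_rfl
    have k2 := h.mono (h.mul (h.mul hb hb') hθ)
      (show M + M' + M0 + Mc + M0 ≤ M + M' + (M0 + Mc + M0) by omega) le_rfl
    have k3 := h.mono (h.mul ha hb') (show M + M' + M0 ≤ M + M' + (M0 + Mc + M0) by omega) le_rfl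
    have k4 := h.mono (h.mul hb ha') (show M + M' + M0 ≤ M + M' + (M0 + Mc + M0) by omega) le_rfl
    refine ⟨_, _, h.mono (h.add k1 k2) le_rfl ?_, h.mono (h.add k3 k4) le_rfl ?_, fun x y => ?_⟩
    · have : 0 ≤ C0 * (Q * Q') := by positivity
      nlinarith
    · have : 0 ≤ C0 * (C0 * Qc) * (Q * Q') := by positivity
      nlinarith
    · simp only [he, he']; ring
  const := fun a => ⟨_, fun _ _ => 0, h.const a, h.zero (abs_nonneg a), fun x y => by simp⟩

lemma AlgP.pow (h : AlgP P M0 C0) {M : ℕ} {Q : ℝ} {z : ℂ → ℂ → ℂ} (hz : P M Q z) (n : ℕ) :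
    P (n * (M + M0)) ((C0 * Q) ^ n) (fun x y => z x y ^ n) := by
  induction n with
  | zero => simpa using h.const 1
  | succ n ih =>
    have := h.mono (h.mul ih hz) (le_of_eq (by ring : n * (M + M0) + M + M0 = (n + 1) * (M + M0)))
      (le_of_eq (by ring : C0 * ((C0 * Q) ^ n * Q) = (C0 * Q) ^ (n + 1)))
    simpa only [pow_succ] using this

/-- belonging to one of the classes -/
def XP (P : ℕ → ℝ → (ℂ → ℂ → ℂ) → Prop) (z : ℂ → ℂ → ℂ) : Prop := ∃ M Q, P M Q z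

lemma XP.add (h : AlgP P M0 C0) {z z' : ℂ → ℂ → ℂ} (hz : XP P z) (hz' : XP P z') :
    XP P (fun x y => z x y + z' x y) := by
  obtain ⟨M, Q, h1⟩ := hz
  obtain ⟨M', Q', h2⟩ := hz'
  exact ⟨_, _, h.add (h.mono h1 (le_max_left M M') le_rfl) (h.mono h2 (le_max_right M M') le_rfl)⟩

lemma XP.mul (h : AlgP P M0 C0) {z z' : ℂ → ℂ → ℂ} (hz : XP P z) (hz' : XP P z') :
    XP P (fun x y => z x y * z' x y) := by
  obtain ⟨M, Q, h1⟩ := hz
  obtain ⟨M', Q', h2⟩ := hz'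
  exact ⟨_, _, h.mul h1 h2⟩

lemma XP.pow (h : AlgP P M0 C0) {z : ℂ → ℂ → ℂ} (hz : XP P z) (n : ℕ) :
    XP P (fun x y => z x y ^ n) := by
  obtain ⟨M, Q, h1⟩ := hz
  exact ⟨_, _, h.pow h1 n⟩

lemma XP.sum (h : AlgP P M0 C0) {κ : Type} (S : Finset κ) {z : κ → ℂ → ℂ → ℂ}
    (hz : ∀ k ∈ S, XP P (z k)) : XP P (fun x y => ∑ k ∈ S, z k x y) := by
  classical
  induction S using Finset.induction_on with
  | empty => exact ⟨0, 0, by simpa using h.zero le_rfl⟩
  | insert a S ha ih =>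
    simp only [Finset.sum_insert ha]
    exact XP.add h (hz a (Finset.mem_insert_self _ _)) (ih fun k hk => hz k (Finset.mem_insert_of_mem hk))

/-- the squares of the absolute values of the coordinates -/
noncomputable def rr2 {d : ℕ} (D E : Fin (d + 1) → ℂ) (x y : ℂ) : Fin 5 → ℝ :=
  ![Complex.normSq x, Complex.normSq (1 - x), Complex.normSq y, Complex.normSq (y - fval1 D x),
    Complex.normSq (y - fval1 E x)]

/-- the polynomial with conjugate coefficients -/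
noncomputable def cj1 {d : ℕ} (D : Fin (d + 1) → ℂ) : Fin (d + 1) → ℂ := fun i => conj (D i)

lemma conj_fval1 {d : ℕ} (D : Fin (d + 1) → ℂ) (x : ℂ) :
    conj (fval1 D x) = fval1 (cj1 D) (conj x) := by
  simp only [fval1, cj1, map_sum, map_mul, map_pow]

/-- the imaginary part of the second coordinate, relative to the polynomial -/
noncomputable def kap {d : ℕ} (D : Fin (d + 1) → ℂ) (x y : ℂ) : ℂ :=
  (conj (fval1 D x) * y - fval1 D x * conj y) / 2

/-- the expansions of the monomials -/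
theorem hpow2 {d : ℕ} (D E : Fin (d + 1) → ℂ) : ∃ (M : ℕ) (Q : ℝ), ∀ N i j : ℕ, i ≤ N → j ≤ N →
    ∃ f : Fin 8 → ((Fin 5 → ℝ) → ℝ), (∀ s, Ex (M * N) (Q ^ N) (f s)) ∧ ∀ x y : ℂ,
      (fval1 D x * conj (fval1 D x)) ^ N * (x ^ i * y ^ j) = ∑ s, (f s (rr2 D E x y) : ℂ) *
        ![1, Complex.I, (x.im : ℂ), Complex.I * x.im, kap D x y, Complex.I * kap D x y,
          x.im * kap D x y, Complex.I * x.im * kap D x y] s := by
  set rr := rr2 D E with hrr
  have r0 : ∀ x y, (rr x y 0 : ℂ) = x * conj x := fun x y => (Complex.mul_conj x).symm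
  have r1 : ∀ x y, (rr x y 1 : ℂ) = (1 - x) * (1 - conj x) := fun x y => by
    have := Complex.mul_conj (1 - x)
    rw [map_sub, map_one] at this
    exact this.symm
  have r2 : ∀ x y, (rr x y 2 : ℂ) = y * conj y := fun x y => (Complex.mul_conj y).symm
  have r3 : ∀ x y, (rr x y 3 : ℂ) = (y - fval1 D x) * (conj y - conj (fval1 D x)) := fun x y => by
    have := Complex.mul_conj (y - fval1 D x)
    rw [map_sub] at this
    exact this.symm
  have A0 := algP0 rr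
  -- the first extension
  have hI : P0 rr 0 1 (fun _ _ => Complex.I * Complex.I) := by
    refine ⟨fun _ => -1, by simpa using Ex.const (-1), fun x y => ?_⟩
    rw [Complex.I_mul_I]; simp
  have A1 := A0.ext (θ := fun _ _ => Complex.I) hI
  -- the second extension
  have hx : ∀ x y, (Rp 0 1 (rr x y) : ℂ) = (x + conj x) / 2 := by
    intro x y
    rw [Rp]; push_cast; rw [r0, r1]; ring
  have him : ∀ x : ℂ, (x.im : ℂ) = -Complex.I * (x - conj x) / 2 := by
    intro x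
    have h : x - conj x = 2 * x.im * Complex.I := by
      rw [Complex.sub_conj]; push_cast; ring
    rw [h]
    linear_combination (x.im : ℂ) * Complex.I_mul_I
  have hS : P0 rr 2 5 (fun x _ => (x.im : ℂ) * x.im) := by
    refine ⟨_, Ex_Sp 0 1, fun x y => ?_⟩
    rw [Sp]; push_cast; rw [hx, r0, him]
    linear_combination (x - conj x) ^ 2 / 4 * Complex.I_mul_I
  have A2 := A1.ext (θ := fun x _ => (x.im : ℂ)) (A0.lift _ hS)
  obtain ⟨P2, hP2⟩ : ∃ P2, P2 = Ext (Ext (P0 rr) fun _ _ => Complex.I) fun x _ => (x.im : ℂ) :=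
    ⟨_, rfl⟩
  rw [← hP2] at A2
  have E2 : ∀ {M Q z}, P0 rr M Q z → XP P2 z := fun h => ⟨_, _, by
    rw [hP2]; exact A1.lift _ (A0.lift _ h)⟩
  have xR : XP P2 (fun x _ => (x + conj x) / 2) := E2 ⟨_, Ex_Rp 0 1, fun x y => (hx x y).symm⟩
  have xI : XP P2 (fun _ _ => Complex.I) := ⟨_, _, by
    rw [hP2]; exact A1.lift _ (A0.theta _)⟩
  have xs : XP P2 (fun x _ => (x.im : ℂ)) := ⟨_, _, by rw [hP2]; exact A1.theta _⟩
  have xreal : ∀ a : ℝ, XP P2 (fun _ _ => (a : ℂ)) := fun a => ⟨_, _, A2.const a⟩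
  have xconst : ∀ c : ℂ, XP P2 (fun _ _ => c) := by
    intro c
    have := XP.add A2 (xreal c.re) (XP.mul A2 (xreal c.im) xI)
    simpa only [Complex.re_add_im] using this
  have xx : XP P2 (fun x _ => x) := by
    have := XP.add A2 xR (XP.mul A2 xI xs)
    convert this using 3 with x y
    rw [him]
    linear_combination (x - conj x) / 2 * Complex.I_mul_I
  have xcx : XP P2 (fun x _ => conj x) := by
    have := XP.add A2 xR (XP.mul A2 (xreal (-1)) (XP.mul A2 xI xs))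
    convert this using 3 with x y
    rw [him]
    push_cast
    linear_combination (-(x - conj x)) / 2 * Complex.I_mul_I
  have xD : XP P2 (fun x _ => fval1 D x) := by
    unfold fval1
    exact XP.sum A2 _ fun i _ => XP.mul A2 (xconst _) (XP.pow A2 xx _)
  have xcD : XP P2 (fun x _ => conj (fval1 D x)) := by
    simp only [conj_fval1]
    unfold fval1
    exact XP.sum A2 _ fun i _ => XP.mul A2 (xconst _) (XP.pow A2 xcx _)
  have xA : XP P2 (fun x _ => fval1 D x * conj (fval1 D x)) := XP.mul A2 xD xcD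
  have xr2 : XP P2 (fun _ y => y * conj y) := E2 ⟨_, Ex.var 2, fun x y => (r2 x y).symm⟩
  have xr3 : XP P2 (fun x y => (y - fval1 D x) * (conj y - conj (fval1 D x))) :=
    E2 ⟨_, Ex.var 3, fun x y => (r3 x y).symm⟩
  -- the real part of the second coordinate, relative to the polynomial
  have xu : XP P2 (fun x y => (conj (fval1 D x) * y + fval1 D x * conj y) / 2) := by
    have := XP.mul A2 (xreal (1 / 2)) (XP.add A2 (XP.add A2 xr2 xA) (XP.mul A2 (xreal (-1)) xr3))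
    convert this using 3 with x y
    push_cast
    ring
  have xk : XP P2 (fun x y => kap D x y * kap D x y) := by
    have := XP.add A2 (XP.mul A2 xu xu) (XP.mul A2 (xreal (-1)) (XP.mul A2 xA xr2))
    convert this using 3 with x y
    rw [kap]
    push_cast
    ring
  -- the third extension
  obtain ⟨Mk, Qk, hk⟩ := xk
  have A3 := A2.ext (θ := kap D) hk
  obtain ⟨M0, hM0⟩ : ∃ M0, M0 = 0 + 0 + 0 + 2 + (0 + 0 + 0) + Mk + (0 + 0 + 0 + 2 + (0 + 0 + 0)) :=
    ⟨_, rfl⟩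
  rw [← hM0] at A3
  obtain ⟨C0, hC0⟩ : ∃ C0 : ℝ, AlgP (Ext P2 (kap D)) M0 C0 := ⟨_, A3⟩
  have L3 : ∀ {z}, XP P2 z → XP (Ext P2 (kap D)) z := fun ⟨_, _, h⟩ => ⟨_, _, A2.lift _ h⟩
  obtain ⟨Mx, Qx, hx3⟩ := L3 xx
  obtain ⟨MA, QA, hA3⟩ := L3 xA
  have xy : XP (Ext P2 (kap D)) (fun x y => fval1 D x * conj (fval1 D x) * y) := by
    have := XP.mul hC0 (L3 xD) (XP.add hC0 (L3 xu) ⟨_, _, A2.theta (kap D)⟩)
    convert this using 3 with x y
    rw [kap]
    ring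
  obtain ⟨My, Qy, hy3⟩ := xy
  have qx := hC0.nonneg hx3
  have qA := hC0.nonneg hA3
  have qy := hC0.nonneg hy3
  have qC := hC0.hC
  obtain ⟨q, hq⟩ : ∃ q, q = 1 + C0 * Qx + C0 * QA + C0 * Qy := ⟨_, rfl⟩
  have q0 : 0 ≤ C0 * Qx := by positivity
  have q1 : 0 ≤ C0 * QA := by positivity
  have q2 : 0 ≤ C0 * Qy := by positivity
  have hq1 : 1 ≤ q := by rw [hq]; linarith
  -- the monomials
  have key : ∀ N i j : ℕ, i ≤ N → j ≤ N → Ext P2 (kap D) ((MA + Mx + My + 5 * M0) * N)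
      ((C0 * C0 * q ^ 3) ^ N) (fun x y => (fval1 D x * conj (fval1 D x)) ^ N * (x ^ i * y ^ j)) := by
    intro N i j hi hj
    rcases Nat.eq_zero_or_pos N with rfl | hN
    · obtain rfl : i = 0 := by omega
      obtain rfl : j = 0 := by omega
      simpa using hC0.const 1
    · have h := hC0.mul (hC0.mul (hC0.pow hA3 (N - j)) (hC0.pow hx3 i)) (hC0.pow hy3 j)
      have he : (fun x y : ℂ => (fval1 D x * conj (fval1 D x)) ^ N * (x ^ i * y ^ j)) =
          fun x y => (fval1 D x * conj (fval1 D x)) ^ (N - j) * x ^ i *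
            (fval1 D x * conj (fval1 D x) * y) ^ j := by
        funext x y
        rw [mul_pow _ y]
        have : (fval1 D x * conj (fval1 D x)) ^ N = (fval1 D x * conj (fval1 D x)) ^ (N - j) *
            (fval1 D x * conj (fval1 D x)) ^ j := by
          rw [← pow_add]; congr 1; omega
        rw [this]
        ring
      rw [he]
      refine hC0.mono h ?_ ?_
      · have h1 : (N - j) * (MA + M0) ≤ N * (MA + M0) := Nat.mul_le_mul_right _ (Nat.sub_le _ _)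
        have h2 : i * (Mx + M0) ≤ N * (Mx + M0) := Nat.mul_le_mul_right _ hi
        have h3 : j * (My + M0) ≤ N * (My + M0) := Nat.mul_le_mul_right _ hj
        have h4 : M0 ≤ N * M0 := Nat.le_mul_of_pos_left _ hN
        nlinarith
      · have g1 : (C0 * QA) ^ (N - j) ≤ q ^ N :=
          (pow_le_pow_left₀ q1 (by rw [hq]; linarith) _).trans (pow_le_pow_right₀ hq1 (Nat.sub_le _ _))
        have g2 : (C0 * Qx) ^ i ≤ q ^ N :=
          (pow_le_pow_left₀ q0 (by rw [hq]; linarith) _).trans (pow_le_pow_right₀ hq1 hi)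
        have g3 : (C0 * Qy) ^ j ≤ q ^ N :=
          (pow_le_pow_left₀ q2 (by rw [hq]; linarith) _).trans (pow_le_pow_right₀ hq1 hj)
        have g4 : C0 ≤ C0 ^ N := le_self_pow₀ qC (by omega)
        have hqN : 0 ≤ q ^ N := by positivity
        calc C0 * (C0 * ((C0 * QA) ^ (N - j) * (C0 * Qx) ^ i) * (C0 * Qy) ^ j)
            ≤ C0 * (C0 * (q ^ N * q ^ N) * q ^ N) := by gcongr
          _ = C0 * C0 * (q ^ N * q ^ N * q ^ N) := by ring
          _ ≤ C0 ^ N * C0 ^ N * (q ^ N * q ^ N * q ^ N) := by gcongr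
          _ = (C0 * C0 * q ^ 3) ^ N := by
            rw [mul_pow, mul_pow, ← pow_mul, ← pow_add, ← pow_add, mul_comm 3 N]
            ring
  refine ⟨MA + Mx + My + 5 * M0, C0 * C0 * q ^ 3, fun N i j hi hj => ?_⟩
  have h := key N i j hi hj
  rw [hP2] at h
  obtain ⟨a, b, ⟨a0, a1, ⟨a00, a01, ⟨f0, hf0, e0⟩, ⟨f1, hf1, e1⟩, e01⟩,
    ⟨a10, a11, ⟨f2, hf2, e2⟩, ⟨f3, hf3, e3⟩, e23⟩, e0123⟩,
    ⟨b0, b1, ⟨b00, b01, ⟨f4, hf4, e4⟩, ⟨f5, hf5, e5⟩, e45⟩,
    ⟨b10, b11, ⟨f6, hf6, e6⟩, ⟨f7, hf7, e7⟩, e67⟩, e4567⟩, he⟩ := h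
  refine ⟨![f0, f1, f2, f3, f4, f5, f6, f7], ?_, fun x y => ?_⟩
  · intro s
    fin_cases s
    · exact hf0
    · exact hf1
    · exact hf2
    · exact hf3
    · exact hf4
    · exact hf5
    · exact hf6
    · exact hf7
  · have h1 := he x y
    simp only at h1
    rw [h1, e0123, e4567, e01, e23, e45, e67, e0, e1, e2, e3, e4, e5, e6, e7,
      Fin.sum_univ_eight]
    simp only [Matrix.cons_val_zero, Matrix.cons_val_one, Matrix.cons_val]
    ring

end Run7.h498.GZ
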