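import Pool.Agent.Run7.h498.GZ.R8

set_option autoImplicit false

/-!
# Ruled surfaces: the relation between the absolute values
-/

namespace Run7.h498.GZ

open ComplexConjugate Run7.h498

/-- functions of the form `u + v s` -/
def G1 (F : (Fin 5 → ℝ) → ℂ → ℂ) : Prop := ∃ u v : (Fin 5 → ℝ) → ℝ, EX u ∧ EX v ∧
  ∀ (r : Fin 5 → ℝ) (s : ℂ), s ^ 2 = (Sp 0 1 r : ℂ) → F r s = u r + v r * s

lemma G1.ex {u : (Fin 5 → ℝ) → ℝ} (hu : EX u) : G1 (fun r _ => (u r : ℂ)) :=
  ⟨u, fun _ => 0, hu, EX.const 0, fun r s _ => by simp⟩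

lemma G1.add {F G : (Fin 5 → ℝ) → ℂ → ℂ} (h : G1 F) (h' : G1 G) : G1 (fun r s => F r s + G r s) := by
  obtain ⟨u, v, hu, hv, he⟩ := h
  obtain ⟨u', v', hu', hv', he'⟩ := h'
  refine ⟨_, _, hu.add hu', hv.add hv', fun r s hs => ?_⟩
  simp only [he r s hs, he' r s hs]; push_cast; ring

lemma G1.mul {F G : (Fin 5 → ℝ) → ℂ → ℂ} (h : G1 F) (h' : G1 G) : G1 (fun r s => F r s * G r s) := by
  obtain ⟨u, v, hu, hv, he⟩ := h
  obtain ⟨u', v', hu', hv', he'⟩ := h'
  refine ⟨_, _, (hu.mul hu').add ((hv.mul hv').mul (EX_Sp 0 1)), (hu.mul hv').add (hv.mul hu'),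
    fun r s hs => ?_⟩
  simp only [he r s hs, he' r s hs]; push_cast; rw [← hs]; ring

lemma G1.sub {F G : (Fin 5 → ℝ) → ℂ → ℂ} (h : G1 F) (h' : G1 G) : G1 (fun r s => F r s - G r s) := by
  have := h.add ((G1.ex (EX.const (-1))).mul h')
  convert this using 3
  push_cast; ring

/-- the product of the values of a polynomial and of its conjugate -/
noncomputable def nrm {d : ℕ} (D : Fin (d + 1) → ℂ) (X X' : ℂ) : ℂ := fval1 D X * fval1 (cj1 D) X'

lemma G1_nrm {d : ℕ} (D : Fin (d + 1) → ℂ) :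
    G1 (fun r s => nrm D (Rp 0 1 r + Complex.I * s) (Rp 0 1 r - Complex.I * s)) := by
  obtain ⟨h, hEX, hh⟩ := exists_h (n := 0) (fun i (_ : Fin (0 + 1)) => D i)
  refine ⟨h 0, h 1, hEX 0, hEX 1, fun r s hs => ?_⟩
  obtain ⟨t, ht⟩ := IsAlgClosed.exists_pow_nat_eq (Sp 2 3 r : ℂ) (by norm_num : 0 < 2)
  have h1 := hh r s t hs ht
  have h2 := hh r s (-t) hs (by rw [neg_sq]; exact ht)
  have e1 : ∀ X Y : ℂ, fval (fun i (_ : Fin (0 + 1)) => D i) X Y = fval1 D X := by
    intro X Y
    simp [fval, fval1]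
  have e2 : ∀ X Y : ℂ, fval (cjm fun i (_ : Fin (0 + 1)) => D i) X Y = fval1 (cj1 D) X := by
    intro X Y
    simp [fval, fval1, cjm, cj1]
  rw [e1, e2] at h1 h2
  unfold qv at h1 h2
  unfold nrm
  linear_combination (h1 + h2) / 2

/-- the determinant of Cayley and Menger, homogenised -/
def cmh {R : Type} [CommRing R] (A B C h a b c : R) : R :=
  B * (a + A * h - b) ^ 2 - (A + B - C) * (a + A * h - b) * (a + B * h - c) +
    A * (a + B * h - c) ^ 2 - a * h * (4 * A * B - (A + B - C) ^ 2)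

lemma cmh_zero (y y' D D' E E' : ℂ) : cmh (D * D') (E * E') ((D - E) * (D' - E')) 1 (y * y')
    ((y - D) * (y' - D')) ((y - E) * (y' - E')) = 0 := by
  unfold cmh; ring

/-- the relation between the absolute values -/
theorem exists_Phi {d : ℕ} (D E : Fin (d + 1) → ℂ) : ∃ Ph : (Fin 5 → ℝ) → ℝ, EX Ph ∧
    ∀ (r : Fin 5 → ℝ) (X X' : ℂ), X * X' = r 0 → (1 - X) * (1 - X') = r 1 →
      (Ph r : ℂ) = cmh (nrm D X X') (nrm E X X') (nrm (fun i => D i - E i) X X') 1
        (r 2) (r 3) (r 4) * cmh (nrm D X' X) (nrm E X' X) (nrm (fun i => D i - E i) X' X) 1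
        (r 2) (r 3) (r 4) := by
  have hA := G1_nrm D
  have hB := G1_nrm E
  have hC := G1_nrm (fun i => D i - E i)
  have ha := G1.ex (EX.var 2)
  have hb := G1.ex (EX.var 3)
  have hc := G1.ex (EX.var 4)
  have h4 := G1.ex (EX.const 4)
  have hu := (ha.add hA).sub hb
  have hv := (ha.add hB).sub hc
  have hG := (hA.add hB).sub hC
  obtain ⟨u, v, hu, hv, he⟩ := (((hB.mul (hu.mul hu)).sub ((hG.mul hu).mul hv)).add
    (hA.mul (hv.mul hv))).sub (ha.mul (((h4.mul hA).mul hB).sub (hG.mul hG)))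
  refine ⟨fun r => u r * u r - Sp 0 1 r * (v r * v r), (hu.mul hu).sub ((EX_Sp 0 1).mul (hv.mul hv)),
    fun r X X' h0 h1 => ?_⟩
  set s : ℂ := -Complex.I * (X - X') / 2 with hs
  have hI := Complex.I_sq
  have eR : (Rp 0 1 r : ℂ) = (X + X') / 2 := by
    rw [Rp]; push_cast; rw [← h0, ← h1]; ring
  have es : s ^ 2 = Sp 0 1 r := by
    rw [Sp]; push_cast; rw [eR, ← h0, hs]
    linear_combination (X - X') ^ 2 / 4 * hI
  have es' : (-s) ^ 2 = Sp 0 1 r := by rw [neg_sq]; exact es
  have a1 : (Rp 0 1 r : ℂ) + Complex.I * s = X := by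
    rw [eR, hs]; linear_combination (X' - X) / 2 * hI
  have a2 : (Rp 0 1 r : ℂ) - Complex.I * s = X' := by
    rw [eR, hs]; linear_combination (X - X') / 2 * hI
  have a3 : (Rp 0 1 r : ℂ) + Complex.I * -s = X' := by rw [← a2]; ring
  have a4 : (Rp 0 1 r : ℂ) - Complex.I * -s = X := by rw [← a1]; ring
  dsimp only at he
  have k1 := he r s es
  have k2 := he r (-s) es'
  rw [a1, a2] at k1
  rw [a3, a4] at k2
  have k3 : ((u r * u r - Sp 0 1 r * (v r * v r) : ℝ) : ℂ) = (u r + v r * s) * (u r + v r * -s) := by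
    push_cast
    rw [← es]
    ring
  rw [k3, ← k1, ← k2]
  unfold cmh
  push_cast
  ring

lemma nrm_conj {d : ℕ} (D : Fin (d + 1) → ℂ) (x : ℂ) :
    nrm D x (conj x) = fval1 D x * conj (fval1 D x) := by
  rw [nrm, conj_fval1]

/-- the data -/
theorem exists_SD2 {d : ℕ} (D E : Fin (d + 1) → ℂ) : ∃ S : SD 8, S.rr = rr2 D E ∧
    (∀ x y, S.om x y = fval1 D x * conj (fval1 D x)) ∧
    (Continuous fun z : ℂ × ℂ => S.Ds z.1 z.2) ∧ (Continuous fun z : ℂ × ℂ => S.om z.1 z.2) ∧
    (∀ (r : Fin 5 → ℝ) (X X' : ℂ), X * X' = r 0 → (1 - X) * (1 - X') = r 1 →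
      (S.Phi r : ℂ) = cmh (nrm D X X') (nrm E X X') (nrm (fun i => D i - E i) X X') 1
        (r 2) (r 3) (r 4) * cmh (nrm D X' X) (nrm E X' X) (nrm (fun i => D i - E i) X' X) 1
        (r 2) (r 3) (r 4)) := by
  obtain ⟨Ph, hPh, hfac⟩ := exists_Phi D E
  obtain ⟨M, Q, hMQ⟩ := hpow2 D E
  let S : SD 8 :=
    { rr := rr2 D E
      Phi := Ph
      Ds := fun x y => ![1, Complex.I, (x.im : ℂ), Complex.I * x.im, kap D x y,
        Complex.I * kap D x y, x.im * kap D x y, Complex.I * x.im * kap D x y]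
      om := fun x y => fval1 D x * conj (fval1 D x)
      M := M
      Q := Q
      hPhi := hPh
      hrr := by
        intro x y
        have h0 : x * conj x = (rr2 D E x y 0 : ℝ) := Complex.mul_conj x
        have h1 : (1 - x) * (1 - conj x) = (rr2 D E x y 1 : ℝ) := by
          have := Complex.mul_conj (1 - x)
          rwa [map_sub, map_one] at this
        have h := hfac (rr2 D E x y) x (conj x) h0 h1
        have h2 : (rr2 D E x y 2 : ℂ) = y * conj y := (Complex.mul_conj y).symm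
        have h3 : (rr2 D E x y 3 : ℂ) = (y - fval1 D x) * (conj y - conj (fval1 D x)) := by
          have := Complex.mul_conj (y - fval1 D x)
          rw [map_sub] at this
          exact this.symm
        have h4 : (rr2 D E x y 4 : ℂ) = (y - fval1 E x) * (conj y - conj (fval1 E x)) := by
          have := Complex.mul_conj (y - fval1 E x)
          rw [map_sub] at this
          exact this.symm
        have h5 : nrm (fun i => D i - E i) x (conj x) =
            (fval1 D x - fval1 E x) * (conj (fval1 D x) - conj (fval1 E x)) := by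
          rw [nrm_conj, fval1_sub, map_sub]
        rw [h2, h3, h4, h5, nrm_conj, nrm_conj, cmh_zero, zero_mul] at h
        exact_mod_cast h
      hpow := hMQ }
  have hcD : Continuous fun z : ℂ × ℂ => fval1 D z.1 := by
    unfold fval1
    refine continuous_finsetSum _ fun i _ => ?_
    fun_prop
  have hk : Continuous fun z : ℂ × ℂ => kap D z.1 z.2 := by
    unfold kap
    fun_prop
  have him : Continuous fun z : ℂ × ℂ => (z.1.im : ℂ) :=
    Complex.continuous_ofReal.comp (Complex.continuous_im.comp continuous_fst)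
  refine ⟨S, rfl, fun x y => rfl, ?_, ?_, hfac⟩
  · refine continuous_pi fun s => ?_
    fin_cases s
    · exact continuous_const
    · exact continuous_const
    · exact him
    · exact continuous_const.mul him
    · exact hk
    · exact continuous_const.mul hk
    · exact him.mul hk
    · exact (continuous_const.mul him).mul hk
  · show Continuous fun z : ℂ × ℂ => fval1 D z.1 * conj (fval1 D z.1)
    fun_prop

end Run7.h498.GZ
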