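import Pool.Agent.Run7.h498.BHQ

set_option autoImplicit false

/-!
# Three places, and local estimates of polynomials near the corners
-/

namespace Run7.h498.GZ

open NumberField Height Real Module Pool.Agent.Y740 Run7.h498

/-- Three places at which `x` is near to `0`, `1` and `∞`. -/
structure TP {ι : Type} (a b e : ι → ℝ) (ε : ℝ) (v0 v1 v2 : ι) : Prop where
  hε : 0 < ε
  hε1 : ε ≤ 1 / 1000
  h0 : 0 < -a v0
  h0' : e v0 ≤ ε * -a v0
  hb0 : |b v0 / -a v0| ≤ ε
  h1 : 0 < -b v1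
  h1' : e v1 ≤ ε * -b v1
  ha1 : |a v1 / -b v1| ≤ ε
  h2 : 0 < a v2
  h2' : e v2 ≤ ε * a v2
  hb2 : |b v2 / a v2 - 1| ≤ ε

lemma TP.of {ι : Type} {a b e : ι → ℝ} {ε : ℝ} {v0 v1 v2 : ι} (hε : 0 < ε) (hε1 : ε ≤ 1 / 1000)
    (t1 : ∀ v, Tri (a v) (b v) 0 (e v)) (h0 : 0 < -a v0) (h0' : e v0 ≤ ε * -a v0)
    (h1 : 0 < -b v1) (h1' : e v1 ≤ ε * -b v1) (h2 : 0 < a v2) (h2' : e v2 ≤ ε * a v2) :
    TP a b e ε v0 v1 v2 := by
  refine ⟨hε, hε1, h0, h0', ?_, h1, h1', ?_, h2, h2', ?_⟩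
  · have ht := t1 v0
    have h : |b v0| ≤ e v0 := by
      unfold Tri at ht
      simp only [abs_le] at *
      rcases ht with ⟨⟨x1, x2⟩, x3, x4⟩ | ⟨⟨x1, x2⟩, x3, x4⟩ | ⟨⟨x1, x2⟩, x3, x4⟩
      · exfalso; nlinarith
      · exfalso; nlinarith
      · constructor <;> linarith
    rw [abs_div, abs_of_pos h0, div_le_iff₀ h0]
    linarith
  · have ht := t1 v1
    have h : |a v1| ≤ e v1 := by
      unfold Tri at ht
      simp only [abs_le] at *
      rcases ht with ⟨⟨x1, x2⟩, x3, x4⟩ | ⟨⟨x1, x2⟩, x3, x4⟩ | ⟨⟨x1, x2⟩, x3, x4⟩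
      · exfalso; nlinarith
      · constructor <;> linarith
      · exfalso; nlinarith
    rw [abs_div, abs_of_pos h1, div_le_iff₀ h1]
    linarith
  · have ht := t1 v2
    have h : |b v2 - a v2| ≤ e v2 := by
      unfold Tri at ht
      simp only [abs_le] at *
      rcases ht with ⟨⟨x1, x2⟩, x3, x4⟩ | ⟨⟨x1, x2⟩, x3, x4⟩ | ⟨⟨x1, x2⟩, x3, x4⟩
      · constructor <;> linarith
      · exfalso; nlinarith
      · constructor <;> nlinarith
    have e1 : b v2 / a v2 - 1 = (b v2 - a v2) / a v2 := by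
      rw [sub_div, div_self h2.ne']
    rw [e1, abs_div, abs_of_pos h2, div_le_iff₀ h2]
    linarith

section
variable {ι : Type} {a b e : ι → ℝ} {ε : ℝ} {v0 v1 v2 : ι}

lemma TP.bal (h : TP a b e ε v0 v1 v2) {u : ι → ℝ}
    (hu : ∀ v w x, Det0 (a v) (b v) (u v) (a w) (b w) (u w) (a x) (b x) (u x)) {N N' : ℝ}
    (hN : |u v0 / -a v0| ≤ N) (hN' : |u v1 / -b v1| ≤ N') :
    |u v0 / -a v0 + u v1 / -b v1 + u v2 / a v2| ≤ 3 * ε * (N + N') := by
  have ea0 : a v0 / -a v0 = -1 := by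
    rw [div_neg, div_self (by linarith [h.h0] : a v0 ≠ 0)]
  have eb1 : b v1 / -b v1 = -1 := by
    rw [div_neg, div_self (by linarith [h.h1] : b v1 ≠ 0)]
  have ea2 : a v2 / a v2 = 1 := div_self h.h2.ne'
  have := (hu v0 v1 v2).scale (n := -a v0) (n' := -b v1) (m := a v2) h.h0.ne' h.h1.ne' h.h2.ne'
  rw [ea0, eb1, ea2] at this
  exact balance h.hε.le h.hε1 h.hb0 h.ha1 h.hb2 hN hN' this

lemma TP.third (h : TP a b e ε v0 v1 v2) {u : ι → ℝ}
    (hu : ∀ v w x, Det0 (a v) (b v) (u v) (a w) (b w) (u w) (a x) (b x) (u x)) {C z z' : ℝ}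
    (hz : |z| ≤ 2) (hz' : |z'| ≤ 2) (hCε : C * ε ≤ 1)
    (h1 : |u v0 / -a v0 - z| ≤ C * ε) (h2 : |u v1 / -b v1 - z'| ≤ C * ε) (x : ι) :
    |z * a x + z' * b x + u x| ≤ (C + 10) * ε * (|a x| + |b x|) * 2 := by
  have ea0 : a v0 / -a v0 = -1 := by
    rw [div_neg, div_self (by linarith [h.h0] : a v0 ≠ 0)]
  have eb1 : b v1 / -b v1 = -1 := by
    rw [div_neg, div_self (by linarith [h.h1] : b v1 ≠ 0)]
  have := (hu v0 v1 x).scale (n := -a v0) (n' := -b v1) (m := 1) h.h0.ne' h.h1.ne' one_ne_zero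
  rw [ea0, eb1, div_one, div_one, div_one] at this
  exact Run7.h498.third h.hε.le h.hε1 h.hb0 h.ha1 h1 h2 hz hz' hCε this

end

section places

variable {K : Type} [Field K] [NumberField K] {S : Finset (FinitePlace K)}

/-- the three places exist -/
theorem exists_TP {x : K} (hx0 : x ≠ 0) (hx1 : 1 - x ≠ 0) (sx : SU S x) (sx' : SU S (1 - x))
    (γ0 γ1 e : Pl S → ℝ) (he : ∀ v, kp v + 2 * |γ0 v| + 2 * |γ1 v| ≤ e v) (E : ℝ)
    (hE : ∑ v, e v ≤ E) (hE0 : 0 < E) (ε : ℝ) (hε : 0 < ε) (hε1 : ε ≤ 1 / 1000)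
    (hh : 4 * E ≤ ε * logHeight₁ x) :
    ∃ v0 v1 v2 : Pl S, TP (fun v => lg v x + γ0 v) (fun v => lg v (1 - x) + γ1 v) e ε v0 v1 v2 := by
  have hkp := fun v : Pl S => kp_nonneg v
  have he0 : ∀ v, 0 ≤ e v := fun v => by
    have := he v; have := hkp v; have := abs_nonneg (γ0 v); have := abs_nonneg (γ1 v)
    linarith
  have t1 : ∀ v, Tri (lg v x + γ0 v) (lg v (1 - x) + γ1 v) 0 (e v) := fun v => by
    have h := lg_tri v hx0 hx1 one_ne_zero (by ring : x + (1 - x) = 1)
    rw [lg_one] at h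
    have h3 := abs_nonneg (γ0 v)
    have h4 := abs_nonneg (γ1 v)
    refine h.pert (δ := |γ0 v| + |γ1 v|) ?_ ?_ (by simp; linarith) (by linarith [he v])
    · rw [add_sub_cancel_left]; linarith
    · rw [add_sub_cancel_left]; linarith
  set h := logHeight₁ x with hhdef
  have hsk : ∑ v : Pl S, kp v = finrank ℚ K * log 2 := sum_kp
  have hsum := Finset.sum_le_sum fun v (_ : v ∈ (Finset.univ : Finset (Pl S))) => he v
  simp only [Finset.sum_add_distrib, ← Finset.mul_sum] at hsum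
  rw [hsk] at hsum
  have hg0 : 0 ≤ ∑ v, |γ0 v| := Finset.sum_nonneg fun _ _ => abs_nonneg _
  have hg1 : 0 ≤ ∑ v, |γ1 v| := Finset.sum_nonneg fun _ _ => abs_nonneg _
  have hd : (0 : ℝ) ≤ finrank ℚ K * log 2 := mul_nonneg (Nat.cast_nonneg _)
    (Real.log_nonneg (by norm_num))
  have hx' : h ≤ finrank ℚ K * log 2 + logHeight₁ (1 - x) := by
    have := ht_sub' 1 (1 - x)
    rw [logHeight₁_one, sub_sub_cancel] at this
    linarith
  have hmax : ∀ (f f' δ : Pl S → ℝ), (∀ v, |f v - f' v| ≤ δ v) →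
      ∑ v, max 0 (f' v) - ∑ v, δ v ≤ ∑ v, max 0 (f v) := by
    intro f f' δ h1
    rw [← Finset.sum_sub_distrib]
    apply Finset.sum_le_sum
    intro v _
    have h2 := abs_le.mp (h1 v)
    rcases le_total 0 (f' v) with h3 | h3
    · rw [max_eq_right h3]
      have := le_max_right 0 (f v)
      linarith
    · rw [max_eq_left h3]
      have := le_max_left 0 (f v)
      have := (abs_nonneg _).trans (h1 v)
      linarith
  have H0 : h - E ≤ ∑ v, max 0 (-(lg v x + γ0 v)) := by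
    have h1 := hmax (fun v => -(lg v x + γ0 v)) (fun v => lg v x⁻¹) (fun v => |γ0 v|) (by
      intro v
      rw [lg_inv, ← abs_neg (γ0 v)]
      apply le_of_eq; congr 1; ring)
    rw [sum_max_lg sx.inv, logHeight₁_inv] at h1
    linarith
  have H1 : h - E ≤ ∑ v, max 0 (-(lg v (1 - x) + γ1 v)) := by
    have h1 := hmax (fun v => -(lg v (1 - x) + γ1 v)) (fun v => lg v (1 - x)⁻¹) (fun v => |γ1 v|) (by
      intro v
      rw [lg_inv, ← abs_neg (γ1 v)]
      apply le_of_eq; congr 1; ring)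
    rw [sum_max_lg sx'.inv, logHeight₁_inv] at h1
    linarith
  have H2 : h - E ≤ ∑ v, max 0 (lg v x + γ0 v) := by
    have h1 := hmax (fun v => lg v x + γ0 v) (fun v => lg v x) (fun v => |γ0 v|) (by
      intro v
      rw [add_sub_cancel_left])
    rw [sum_max_lg sx] at h1
    linarith
  have hstr : ∀ T : ℝ, h - E ≤ T → ∑ v, e v < ε * T := by
    intro T hT
    have h1 : ε * (h - E) ≤ ε * T := mul_le_mul_of_nonneg_left hT hε.le
    nlinarith
  obtain ⟨v0, h0, h0'⟩ := exists_place _ e he0 ε hε (hstr _ H0)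
  obtain ⟨v1, h1, h1'⟩ := exists_place _ e he0 ε hε (hstr _ H1)
  obtain ⟨v2, h2, h2'⟩ := exists_place _ e he0 ε hε (hstr _ H2)
  exact ⟨v0, v1, v2, TP.of hε hε1 t1 h0 h0' h1 h1' h2 h2'⟩

lemma sum_abs_lg' {z : K} (hz : z ≠ 0 → SU S z) : ∑ v : Pl S, |lg v z| ≤ 2 * logHeight₁ z := by
  by_cases h : z = 0
  · subst h
    have h1 : ∀ v : Pl S, lg v (0 : K) = 0 := by
      intro v
      rcases v with φ | w <;> simp [lg]
    simp only [h1, abs_zero, Finset.sum_const_zero]
    have := ht_nonneg' (0 : K)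
    linarith
  · exact (sum_abs_lg (hz h)).le

/-! ## bounds -/

/-- `z` is zero or of logarithm at most `M` -/
def Bd (v : Pl S) (M : ℝ) (z : K) : Prop := z = 0 ∨ lg v z ≤ M

variable {v : Pl S} {M M' : ℝ} {z w x : K}

lemma Bd.mono (h : Bd v M z) (hM : M ≤ M') : Bd v M' z := h.imp id fun h => h.trans hM

lemma Bd.add (h : Bd v M z) (h' : Bd v M w) : Bd v (M + kp v) (z + w) := by
  have hk := kp_nonneg v
  by_cases hz : z = 0
  · rw [hz, zero_add]; exact h'.mono (by linarith)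
  by_cases hw : w = 0
  · rw [hw, add_zero]; exact h.mono (by linarith)
  by_cases hzw : z + w = 0
  · exact Or.inl hzw
  right
  have h1 := h.resolve_left hz
  have h2 := h'.resolve_left hw
  have := lg_add_le v hz hw hzw
  have := max_le h1 h2
  linarith

lemma Bd.mul (h : Bd v M z) (h' : Bd v M' w) : Bd v (M + M') (z * w) := by
  by_cases hz : z = 0
  · left; rw [hz, zero_mul]
  by_cases hw : w = 0
  · left; rw [hw, mul_zero]
  right
  rw [lg_mul v hz hw]
  exact add_le_add (h.resolve_left hz) (h'.resolve_left hw)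

lemma Bd.neg (h : Bd v M z) : Bd v M (-z) := by
  rcases h with h | h
  · left; rw [h, neg_zero]
  · right; rw [lg_neg]; exact h

lemma Bd.one : Bd v 0 (1 : K) := Or.inr (lg_one v).le

lemma Bd.zero : Bd v M (0 : K) := Or.inl rfl

lemma Bd.pow (h : Bd v M z) (n : ℕ) : Bd v (n * M) (z ^ n) := by
  induction n with
  | zero => simpa using Bd.one
  | succ n ih =>
    rw [pow_succ]
    refine (ih.mul h).mono (le_of_eq ?_)
    push_cast; ring

lemma Bd.sum {κ : Type} (s : Finset κ) (f : κ → K) (h : ∀ i ∈ s, Bd v M (f i)) :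
    Bd v (M + s.card * kp v) (∑ i ∈ s, f i) := by
  classical
  have hk := kp_nonneg v
  induction s using Finset.induction_on with
  | empty => left; simp
  | insert i s hi ih =>
    rw [Finset.sum_insert hi, Finset.card_insert_of_notMem hi]
    have h1 := h i (Finset.mem_insert_self i s)
    have h2 := ih fun j hj => h j (Finset.mem_insert_of_mem hj)
    have h3 : (0 : ℝ) ≤ s.card * kp v := mul_nonneg (Nat.cast_nonneg _) hk
    refine ((h1.mono (by linarith)).add h2).mono (le_of_eq ?_)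
    push_cast; ring

lemma Bd.abs (z : K) : Bd v |lg v z| z := Or.inr (le_abs_self _)

/-- a main term and a small rest -/
lemma main_add {P R : K} (hP : P ≠ 0) (hR : Bd v M R) (hM : M + kp v < lg v P) :
    P + R ≠ 0 ∧ |lg v (P + R) - lg v P| ≤ kp v := by
  have hk := kp_nonneg v
  by_cases hR0 : R = 0
  · rw [hR0, add_zero, sub_self, abs_zero]
    exact ⟨hP, hk⟩
  have hR1 := hR.resolve_left hR0
  have hne : P + R ≠ 0 := by
    intro h
    have h1 : R = -P := by linear_combination h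
    rw [h1, lg_neg] at hR1
    linarith
  refine ⟨hne, ?_⟩
  have h := lg_tri v hP hR0 hne rfl
  unfold Tri at h
  simp only [abs_le] at *
  rcases h with ⟨⟨x1, x2⟩, x3, x4⟩ | ⟨⟨x1, x2⟩, x3, x4⟩ | ⟨⟨x1, x2⟩, x3, x4⟩
  · exfalso; linarith
  · constructor <;> linarith
  · exfalso; linarith

/-! ## the corners -/

/-- the local parameter at `0`, `1`, `∞` -/
def loc (σ : Fin 3) (x : K) : K := ![x, 1 - x, x⁻¹] σ

/-- the order of the pole -/
def pol (σ : Fin 3) : ℕ := ![0, 0, 1] σ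

/-- the values of the powers at `0`, `1`, `∞` -/
def eps (F : Type) [Zero F] [One F] (σ : Fin 3) (m : ℕ) (i : Fin (m + 1)) : F :=
  ![if (i : ℕ) = 0 then 1 else 0, 1, if (i : ℕ) = m then 1 else 0] σ

/-- the normalised powers -/
def zet {F : Type} [Field F] (σ : Fin 3) (m : ℕ) (x : F) (i : Fin (m + 1)) : F :=
  ![x ^ (i : ℕ), x ^ (i : ℕ), x⁻¹ ^ (m - i)] σ

lemma pow_eq_zet {F : Type} [Field F] (σ : Fin 3) (m : ℕ) {x : F} (hx : x ≠ 0) (i : Fin (m + 1)) :
    x ^ (i : ℕ) = x ^ (pol σ * m) * zet σ m x i := by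
  have hi : (i : ℕ) ≤ m := Nat.lt_succ_iff.mp i.2
  fin_cases σ
  · simp [pol, zet]
  · simp [pol, zet]
  · simp only [pol, zet]
    simp only [Fin.reduceFinMk, Matrix.cons_val, one_mul]
    rw [inv_pow, ← div_eq_mul_inv, eq_div_iff (pow_ne_zero _ hx), ← pow_add]
    congr 1
    omega

lemma zet_bd (σ : Fin 3) (m : ℕ) (h : Bd v 0 (loc σ x)) (i : Fin (m + 1)) :
    Bd v (m * kp v) (zet σ m x i) := by
  have hk := kp_nonneg v
  have hmk : (0 : ℝ) ≤ m * kp v := mul_nonneg (Nat.cast_nonneg _) hk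
  have hi : (i : ℕ) ≤ m := Nat.lt_succ_iff.mp i.2
  fin_cases σ
  · exact (h.pow i).mono (by simpa using hmk)
  · have hx : Bd v (kp v) x := by
      have := (Bd.one (v := v)).add h.neg
      rw [zero_add] at this
      convert this using 1
      show x = 1 + -(1 - x)
      ring
    exact (hx.pow i).mono (mul_le_mul_of_nonneg_right (by exact_mod_cast hi) hk)
  · exact (h.pow (m - i)).mono (by simpa using hmk)

lemma zet_eps (σ : Fin 3) (m : ℕ) (h : Bd v 0 (loc σ x)) (i : Fin (m + 1)) :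
    ∃ ρ : K, zet σ m x i = eps K σ m i + loc σ x * ρ ∧ Bd v (2 * m * kp v) ρ := by
  have hk := kp_nonneg v
  have hmk : (0 : ℝ) ≤ m * kp v := mul_nonneg (Nat.cast_nonneg _) hk
  have hi : (i : ℕ) ≤ m := Nat.lt_succ_iff.mp i.2
  fin_cases σ
  · by_cases h0 : (i : ℕ) = 0
    · refine ⟨0, ?_, Bd.zero⟩
      simp [zet, eps, h0]
    · refine ⟨x ^ ((i : ℕ) - 1), ?_, (h.pow _).mono (by simp; linarith)⟩
      simp only [zet, eps, loc, h0]
      simp only [if_false, Fin.zero_eta, Matrix.cons_val_zero, zero_add]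
      rw [← pow_succ']
      congr 1
      omega
  · have hx : Bd v (kp v) x := by
      have := (Bd.one (v := v)).add h.neg
      rw [zero_add] at this
      convert this using 1
      show x = 1 + -(1 - x)
      ring
    refine ⟨-∑ j ∈ Finset.range i, x ^ j, ?_, ?_⟩
    · show x ^ (i : ℕ) = 1 + (1 - x) * -∑ j ∈ Finset.range i, x ^ j
      have := mul_neg_geom_sum x i
      rw [mul_neg, this]
      ring
    · apply Bd.neg
      have h1 := Bd.sum (v := v) (M := m * kp v) (Finset.range i) (fun j => x ^ j) (by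
        intro j hj
        refine (hx.pow j).mono (mul_le_mul_of_nonneg_right ?_ hk)
        have := Finset.mem_range.mp hj
        exact_mod_cast (by omega : j ≤ m))
      rw [Finset.card_range] at h1
      refine h1.mono ?_
      have : ((i : ℕ) : ℝ) * kp v ≤ m * kp v :=
        mul_le_mul_of_nonneg_right (by exact_mod_cast hi) hk
      linarith
  · by_cases h0 : (i : ℕ) = m
    · refine ⟨0, ?_, Bd.zero⟩
      simp [zet, eps, h0]
    · refine ⟨x⁻¹ ^ (m - i - 1), ?_, (h.pow _).mono (by simp; linarith)⟩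
      simp only [zet, eps, loc, h0]
      simp only [if_false, Fin.reduceFinMk, Matrix.cons_val, zero_add]
      rw [← pow_succ']
      congr 1
      omega

/-- a polynomial in one variable near a corner -/
lemma corner1 (σ : Fin 3) (m : ℕ) (A : Fin (m + 1) → K) (hA : ∀ i, Bd v M (A i))
    (h0 : loc σ x ≠ 0) (h1 : lg v (loc σ x) ≤ 0) (hL : ∑ i, A i * eps K σ m i ≠ 0)
    (h : lg v (loc σ x) + M + (3 * m + 2) * kp v < lg v (∑ i, A i * eps K σ m i)) :
    ∑ i, A i * zet σ m x i ≠ 0 ∧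
      |lg v (∑ i, A i * zet σ m x i) - lg v (∑ i, A i * eps K σ m i)| ≤ kp v := by
  choose ρ hρ hρ2 using fun i => zet_eps (v := v) σ m (Or.inr h1) i
  have e1 : ∑ i, A i * zet σ m x i = ∑ i, A i * eps K σ m i + loc σ x * ∑ i, A i * ρ i := by
    rw [Finset.mul_sum, ← Finset.sum_add_distrib]
    apply Finset.sum_congr rfl
    intro i _
    rw [hρ i]; ring
  have hR : Bd v (lg v (loc σ x) + ((M + 2 * m * kp v) + (m + 1) * kp v))
      (loc σ x * ∑ i, A i * ρ i) := by
    refine Bd.mul (Or.inr le_rfl) ?_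
    have := Bd.sum (v := v) (M := M + 2 * m * kp v) Finset.univ (fun i => A i * ρ i)
      fun i _ => (hA i).mul (hρ2 i)
    rw [Finset.card_univ, Fintype.card_fin] at this
    push_cast at this
    exact this
  rw [e1]
  exact main_add hL hR (by linarith)

lemma eps_bd (σ : Fin 3) (m : ℕ) (i : Fin (m + 1)) : Bd v 0 (eps K σ m i) := by
  fin_cases σ
  · simp only [eps]
    by_cases h : (i : ℕ) = 0
    · simpa [h] using Bd.one
    · simpa [h] using Bd.zero
  · exact Bd.one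
  · simp only [eps]
    by_cases h : (i : ℕ) = m
    · simpa [h] using Bd.one
    · simpa [h] using Bd.zero

/-- a polynomial in two variables near a corner -/
lemma corner2 (σ τ : Fin 3) (m n : ℕ) (A : Fin (m + 1) → Fin (n + 1) → K) (x y : K)
    (hA : ∀ i j, Bd v M (A i j))
    (hx : loc σ x ≠ 0) (hy : loc τ y ≠ 0)
    (hL : ∑ i, ∑ j, A i j * eps K σ m i * eps K τ n j ≠ 0)
    (h1 : lg v (loc σ x) ≤ 0) (h2 : lg v (loc τ y) ≤ 0)
    (h1' : lg v (loc σ x) + M + (5 * m + 5 * n + 10) * kp v <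
      lg v (∑ i, ∑ j, A i j * eps K σ m i * eps K τ n j))
    (h2' : lg v (loc τ y) + M + (5 * m + 5 * n + 10) * kp v <
      lg v (∑ i, ∑ j, A i j * eps K σ m i * eps K τ n j)) :
    ∑ i, ∑ j, A i j * zet σ m x i * zet τ n y j ≠ 0 ∧
      |lg v (∑ i, ∑ j, A i j * zet σ m x i * zet τ n y j) -
        lg v (∑ i, ∑ j, A i j * eps K σ m i * eps K τ n j)| ≤ 2 * kp v := by
  have hk := kp_nonneg v
  have hm : (0 : ℝ) ≤ m * kp v := mul_nonneg (Nat.cast_nonneg _) hk
  have hn : (0 : ℝ) ≤ n * kp v := mul_nonneg (Nat.cast_nonneg _) hk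
  set L := ∑ i, ∑ j, A i j * eps K σ m i * eps K τ n j with hLdef
  -- first in the second variable
  have hb : ∀ j, Bd v (M + (m + 1) * kp v) (∑ i, A i j * eps K σ m i) := by
    intro j
    have := Bd.sum (v := v) (M := M + 0) Finset.univ (fun i => A i j * eps K σ m i)
      fun i _ => (hA i j).mul (eps_bd σ m i)
    rw [Finset.card_univ, Fintype.card_fin, add_zero] at this
    push_cast at this
    exact this
  have e1 : ∑ j, (∑ i, A i j * eps K σ m i) * eps K τ n j = L := by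
    rw [hLdef, Finset.sum_comm]
    apply Finset.sum_congr rfl
    intro j _
    rw [Finset.sum_mul]
  obtain ⟨k1, k2⟩ := corner1 τ n (fun j => ∑ i, A i j * eps K σ m i) hb hy h2
    (by rw [e1]; exact hL) (by rw [e1]; linarith)
  rw [e1] at k2
  -- then in the first variable
  have hb2 : ∀ i, Bd v (M + n * kp v + (n + 1) * kp v) (∑ j, A i j * zet τ n y j) := by
    intro i
    have := Bd.sum (v := v) (M := M + n * kp v) Finset.univ (fun j => A i j * zet τ n y j)
      fun j _ => (hA i j).mul (zet_bd τ n (Or.inr h2) j)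
    rw [Finset.card_univ, Fintype.card_fin] at this
    push_cast at this
    exact this
  have e2 : ∑ i, (∑ j, A i j * zet τ n y j) * eps K σ m i =
      ∑ j, (∑ i, A i j * eps K σ m i) * zet τ n y j := by
    simp only [Finset.sum_mul]
    rw [Finset.sum_comm]
    exact Finset.sum_congr rfl fun j _ => Finset.sum_congr rfl fun i _ => by ring
  have k3 := abs_le.mp k2
  obtain ⟨k4, k5⟩ := corner1 σ m (fun i => ∑ j, A i j * zet τ n y j) hb2 hx h1
    (by rw [e2]; exact k1) (by rw [e2]; linarith)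
  rw [e2] at k5
  have e3 : ∑ i, (∑ j, A i j * zet τ n y j) * zet σ m x i =
      ∑ i, ∑ j, A i j * zet σ m x i * zet τ n y j := by
    apply Finset.sum_congr rfl
    intro i _
    rw [Finset.sum_mul]
    exact Finset.sum_congr rfl fun j _ => by ring
  rw [e3] at k4 k5
  refine ⟨k4, ?_⟩
  have k6 := abs_le.mp k5
  rw [abs_le]
  constructor <;> linarith

end places

end Run7.h498.GZ
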