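import Pool.Agent.Run7.h498.GZ.Q3

set_option autoImplicit false

/-!
# Products of powers of linear forms along one-parameter groups
-/

namespace Run7.h498.GZ

open Filter Topology ComplexConjugate Run7.h498

/-- Pairs of points on the line `Z₀ + Z₁ + Z₂ = 0` whose product moves along a one-parameter group. -/
structure ZP3 (Z Z' : ℝ → Fin 3 → ℂ) (r w : Fin 3 → ℝ) : Prop where
  e1 : ∀ t, ∑ k, Z t k = 0
  e2 : ∀ t, ∑ k, Z' t k = 0
  e3 : ∀ t k, Z t k * Z' t k = ((r k * Real.exp (t * w k) : ℝ) : ℂ)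

lemma ZP3.perm {Z Z' : ℝ → Fin 3 → ℂ} {r w : Fin 3 → ℝ} (h : ZP3 Z Z' r w)
    (e : Equiv.Perm (Fin 3)) : ZP3 (fun t k => Z t (e k)) (fun t k => Z' t (e k))
      (fun k => r (e k)) (fun k => w (e k)) where
  e1 t := by rw [Equiv.sum_comp e (Z t)]; exact h.e1 t
  e2 t := by rw [Equiv.sum_comp e (Z' t)]; exact h.e2 t
  e3 t k := h.e3 t (e k)

lemma ZP3.neg {Z Z' : ℝ → Fin 3 → ℂ} {r w : Fin 3 → ℝ} (h : ZP3 Z Z' r w) :
    ZP3 (fun t => Z (-t)) (fun t => Z' (-t)) r (fun k => -w k) where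
  e1 t := h.e1 _
  e2 t := h.e2 _
  e3 t k := by
    rw [h.e3 (-t) k]; congr 2; ring_nf

lemma fm_perm (a Z Z' : Fin 3 → ℂ) (e : Equiv.Perm (Fin 3)) :
    fm (fun k => a (e k)) (fun k => Z (e k)) (fun k => Z' (e k)) = fm a Z Z' := by
  rw [fm, fm, Equiv.sum_comp e (fun k => a k * Z k), Equiv.sum_comp e (fun k => conj (a k) * Z' k)]

/-- a form, if the third coordinate dominates -/
lemma fm_dom {Z Z' : ℝ → Fin 3 → ℂ} {r w : Fin 3 → ℝ} (h : ZP3 Z Z' r w) (a : Fin 3 → ℂ)
    (hr : ∀ k, 0 < r k) (h0 : w 0 < w 2) (h1 : w 1 < w 2) :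
    Tendsto (fun t => fm a (Z t) (Z' t) * Real.exp (-(t * w 2))) atTop
      (𝓝 (‖a 0 - a 2‖ * ‖a 1 - a 2‖ * r 2)) := by
  obtain ⟨e1, e2, e3⟩ := h
  set p : ℝ → Fin 3 → ℝ := fun t k => r k * Real.exp (t * w k) with hp
  have hp0 : ∀ t k, 0 < p t k := fun t k => mul_pos (hr k) (Real.exp_pos _)
  have hlim : ∀ k, w k < w 2 → Tendsto (fun t => p t k * Real.exp (-(t * w 2))) atTop (𝓝 0) := by
    intro k hk
    have h2 := (exp_zero (sub_neg.mpr hk)).const_mul (r k)
    rw [mul_zero] at h2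
    refine h2.congr fun t => ?_
    simp only [hp]
    rw [mul_assoc, ← Real.exp_add]
    congr 2
    ring
  have hlim2 : ∀ t, p t 2 * Real.exp (-(t * w 2)) = r 2 := by
    intro t
    simp only [hp]
    rw [mul_assoc, ← Real.exp_add, add_neg_cancel, Real.exp_zero, mul_one]
  set A := a 0 - a 2 with hA
  set B := a 1 - a 2 with hB
  have hb : ∀ t, abs (fm a (Z t) (Z' t) * Real.exp (-(t * w 2)) -
      ‖A‖ * ‖B‖ * abs (r 2 - p t 0 * Real.exp (-(t * w 2)) - p t 1 * Real.exp (-(t * w 2)))) ≤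
      2 * (‖A‖ ^ 2 * (p t 0 * Real.exp (-(t * w 2))) +
        ‖B‖ ^ 2 * (p t 1 * Real.exp (-(t * w 2)))) := by
    intro t
    obtain ⟨f1, f2, f3⟩ := form_eq (a := a) (p := p t) (e1 t) (e2 t) (fun k => e3 t k)
    have f4 := form_large (A := A) (B := B) (hp0 t 0).le (hp0 t 1).le f2 f3
    rw [← f1] at f4
    have hE := Real.exp_pos (-(t * w 2))
    have f5 : |r 2 - p t 0 * Real.exp (-(t * w 2)) - p t 1 * Real.exp (-(t * w 2))| =
        |p t 2 - p t 0 - p t 1| * Real.exp (-(t * w 2)) := by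
      rw [← abs_of_pos hE, ← abs_mul, abs_of_pos hE, ← hlim2 t]
      congr 1; ring
    rw [f5]
    have f6 : fm a (Z t) (Z' t) * Real.exp (-(t * w 2)) -
        ‖A‖ * ‖B‖ * (|p t 2 - p t 0 - p t 1| * Real.exp (-(t * w 2))) =
        (fm a (Z t) (Z' t) - ‖A‖ * ‖B‖ * |p t 2 - p t 0 - p t 1|) *
          Real.exp (-(t * w 2)) := by ring
    rw [f6, abs_mul, abs_of_pos hE]
    have f7 := mul_le_mul_of_nonneg_right f4 hE.le
    refine f7.trans (le_of_eq ?_)
    ring
  have l0 := hlim 0 h0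
  have l1 := hlim 1 h1
  have l2 : Tendsto (fun t => 2 * (‖A‖ ^ 2 * (p t 0 * Real.exp (-(t * w 2))) +
        ‖B‖ ^ 2 * (p t 1 * Real.exp (-(t * w 2))))) atTop (𝓝 0) := by
    have := ((l0.const_mul (‖A‖ ^ 2)).add (l1.const_mul (‖B‖ ^ 2))).const_mul 2
    simpa using this
  have l3 : Tendsto (fun t => ‖A‖ * ‖B‖ * |r 2 - p t 0 * Real.exp (-(t * w 2)) -
      p t 1 * Real.exp (-(t * w 2))|) atTop (𝓝 (‖A‖ * ‖B‖ * r 2)) := by
    have := (((tendsto_const_nhds (x := r 2)).sub l0).sub l1).abs.const_mul (‖A‖ * ‖B‖)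
    rwa [sub_zero, sub_zero, abs_of_pos (hr 2)] at this
  have l4 : Tendsto (fun t => fm a (Z t) (Z' t) * Real.exp (-(t * w 2)) -
      ‖A‖ * ‖B‖ * |r 2 - p t 0 * Real.exp (-(t * w 2)) - p t 1 * Real.exp (-(t * w 2))|)
      atTop (𝓝 0) :=
    squeeze_zero_norm (fun t => by rw [Real.norm_eq_abs]; exact hb t) l2
  have l5 := l4.add l3
  rw [zero_add] at l5
  refine l5.congr fun t => ?_
  ring

/-- a form, if the third coordinate is small and the others are equal -/
lemma fm_small {Z Z' : ℝ → Fin 3 → ℂ} {r w : Fin 3 → ℝ} (h : ZP3 Z Z' r w) (a : Fin 3 → ℂ)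
    (hr : ∀ k, 0 < r k) (ha0 : a 0 ≠ a 2) (h0 : w 1 = w 0) (h1 : w 2 < w 0) :
    Tendsto (fun t => fm a (Z t) (Z' t) * Real.exp (-(t *
      (if (a 0 - a 2) * r 0 = (a 1 - a 2) * r 1 then w 2 else w 0)))) atTop
      (𝓝 (if (a 0 - a 2) * r 0 = (a 1 - a 2) * r 1 then
        ‖a 0 - a 2‖ ^ 2 * (r 0 / r 1) * r 2 else
        ‖a 0 - a 1‖ * ‖(a 0 - a 2) * r 0 - (a 1 - a 2) * r 1‖)) := by
  obtain ⟨e1, e2, e3⟩ := h
  set p : ℝ → Fin 3 → ℝ := fun t k => r k * Real.exp (t * w k) with hp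
  have hp0 : ∀ t k, 0 < p t k := fun t k => mul_pos (hr k) (Real.exp_pos _)
  have hpe : ∀ t k, w k = w 0 → p t k * Real.exp (-(t * w 0)) = r k := by
    intro t k hk
    simp only [hp]
    rw [mul_assoc, hk, ← Real.exp_add, add_neg_cancel, Real.exp_zero, mul_one]
  set A := a 0 - a 2 with hA
  set B := a 1 - a 2 with hB
  by_cases hi : A * r 0 = B * r 1
  · rw [if_pos hi, if_pos hi]
    refine tendsto_const_nhds.congr fun t => ?_
    obtain ⟨f1, f2, f3⟩ := form_eq (a := a) (p := p t) (e1 t) (e2 t) (fun k => e3 t k)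
    have hr1 : (r 1 : ℂ) ≠ 0 := by exact_mod_cast (hr 1).ne'
    have hBA : B = A * (r 0 / r 1 : ℝ) := by
      push_cast
      field_simp
      rw [hi]
    have e5 : p t 0 * r 1 = p t 1 * r 0 := by
      simp only [hp]
      rw [h0]; ring
    have e6 : p t 0 = p t 1 * (r 0 / r 1) := by
      have := (hr 1).ne'
      field_simp
      exact e5
    have nB : ‖B‖ = ‖A‖ * (r 0 / r 1) := by
      rw [hBA, norm_mul, Complex.norm_real, Real.norm_eq_abs,
        abs_of_pos (div_pos (hr 0) (hr 1))]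
    set κ := r 0 / r 1 with hκ
    have hκ0 : 0 < κ := div_pos (hr 0) (hr 1)
    have nA : ((‖A‖ ^ 2 : ℝ) : ℂ) = A * conj A := by
      rw [Complex.mul_conj, Complex.normSq_eq_norm_sq]
    have e7 : (∑ k, a k * Z t k) * ∑ k, conj (a k) * Z' t k =
        ((‖A‖ ^ 2 * κ * p t 2 : ℝ) : ℂ) := by
      rw [f1, nB, e6]
      have e8 : (A * conj B * (Z t 0 * Z' t 1) + conj A * B * (Z t 1 * Z' t 0)) =
          A * conj A * κ * (Z t 0 * Z' t 1 + Z t 1 * Z' t 0) := by
        rw [hBA, map_mul, Complex.conj_ofReal]; ring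
      rw [add_assoc, e8, f2, ← nA, e6]
      push_cast
      ring
    show ‖A‖ ^ 2 * κ * r 2 = fm a (Z t) (Z' t) * Real.exp (-(t * w 2))
    rw [fm, e7, Complex.norm_real, Real.norm_eq_abs, abs_of_pos (by
      have := norm_pos_iff.mpr (sub_ne_zero.mpr ha0)
      have := hp0 t 2
      positivity)]
    simp only [hp]
    have : ‖A‖ ^ 2 * κ * (r 2 * Real.exp (t * w 2)) * Real.exp (-(t * w 2)) =
        ‖A‖ ^ 2 * κ * r 2 * (Real.exp (t * w 2) * Real.exp (-(t * w 2))) := by ring
    rw [this, ← Real.exp_add, add_neg_cancel, Real.exp_zero, mul_one]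
  · rw [if_neg hi, if_neg hi]
    have hb : ∀ t, |fm a (Z t) (Z' t) * Real.exp (-(t * w 0)) -
        ‖A - B‖ * ‖A * r 0 - B * r 1‖| ≤
        ‖A‖ * ‖B‖ * (2 * Real.sqrt (r 0 * (p t 2 * Real.exp (-(t * w 0)))) +
          p t 2 * Real.exp (-(t * w 0))) := by
      intro t
      obtain ⟨f1, f2, f3⟩ := form_eq (a := a) (p := p t) (e1 t) (e2 t) (fun k => e3 t k)
      have f4 := form_small (A := A) (B := B) (hp0 t 0).le (hp0 t 2).le f2 f3
      rw [← f1] at f4
      have hE := Real.exp_pos (-(t * w 0))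
      have f5 : ‖A * r 0 - B * r 1‖ = ‖A * p t 0 - B * p t 1‖ * Real.exp (-(t * w 0)) := by
        rw [← hpe t 0 rfl, ← hpe t 1 h0]
        have : A * ((p t 0 * Real.exp (-(t * w 0)) : ℝ) : ℂ) -
            B * ((p t 1 * Real.exp (-(t * w 0)) : ℝ) : ℂ) =
            (A * p t 0 - B * p t 1) * ((Real.exp (-(t * w 0)) : ℝ) : ℂ) := by
          push_cast; ring
        rw [this, norm_mul, Complex.norm_real, Real.norm_eq_abs, abs_of_pos hE]
      have f6 : Real.sqrt (r 0 * (p t 2 * Real.exp (-(t * w 0)))) =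
          Real.sqrt (p t 0) * Real.sqrt (p t 2) * Real.exp (-(t * w 0)) := by
        rw [← hpe t 0 rfl, ← Real.sqrt_mul (hp0 t 0).le]
        have : p t 0 * Real.exp (-(t * w 0)) * (p t 2 * Real.exp (-(t * w 0))) =
            (p t 0 * p t 2) * Real.exp (-(t * w 0)) ^ 2 := by ring
        rw [this, Real.sqrt_mul (mul_pos (hp0 t 0) (hp0 t 2)).le, Real.sqrt_sq hE.le]
      rw [f5, f6]
      have f7 : fm a (Z t) (Z' t) * Real.exp (-(t * w 0)) -
          ‖A - B‖ * (‖A * p t 0 - B * p t 1‖ * Real.exp (-(t * w 0))) =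
          (fm a (Z t) (Z' t) - ‖A - B‖ * ‖A * p t 0 - B * p t 1‖) *
            Real.exp (-(t * w 0)) := by ring
      rw [f7, abs_mul, abs_of_pos hE]
      have f8 := mul_le_mul_of_nonneg_right f4 hE.le
      refine f8.trans (le_of_eq ?_)
      ring
    have l0 : Tendsto (fun t => p t 2 * Real.exp (-(t * w 0))) atTop (𝓝 0) := by
      have h2 := (exp_zero (sub_neg.mpr h1)).const_mul (r 2)
      rw [mul_zero] at h2
      refine h2.congr fun t => ?_
      simp only [hp]
      rw [mul_assoc, ← Real.exp_add]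
      congr 2
      ring
    have l1 : Tendsto (fun t => Real.sqrt (r 0 * (p t 2 * Real.exp (-(t * w 0))))) atTop
        (𝓝 0) := by
      have := (Real.continuous_sqrt.tendsto _).comp (l0.const_mul (r 0))
      rwa [mul_zero, Real.sqrt_zero] at this
    have l2 : Tendsto (fun t => ‖A‖ * ‖B‖ * (2 * Real.sqrt (r 0 * (p t 2 *
        Real.exp (-(t * w 0)))) + p t 2 * Real.exp (-(t * w 0)))) atTop (𝓝 0) := by
      have := ((l1.const_mul 2).add l0).const_mul (‖A‖ * ‖B‖)
      simpa using this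
    have l4 : Tendsto (fun t => fm a (Z t) (Z' t) * Real.exp (-(t * w 0)) -
        ‖A - B‖ * ‖A * r 0 - B * r 1‖) atTop (𝓝 0) :=
      squeeze_zero_norm (fun t => by rw [Real.norm_eq_abs]; exact hb t) l2
    have l5 := l4.add_const (‖A - B‖ * ‖A * r 0 - B * r 1‖)
    rw [zero_add] at l5
    have hAB : A - B = a 0 - a 1 := by rw [hA, hB]; ring
    rw [hAB] at l5
    refine l5.congr fun t => ?_
    ring

/-- comparison of the exponents of two products -/
lemma prod_tendsto2 {n : ℕ} {F : Fin n → ℝ → ℝ} {m L : Fin n → ℝ} {ρ ω : ℝ} (hρ : 0 < ρ)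
    (p q : Fin n → ℕ) (hL : ∀ i, 0 < L i)
    (h : ∀ t, ρ * Real.exp (t * ω) * ∏ i, F i t ^ q i = ∏ i, F i t ^ p i)
    (hF : ∀ i, Tendsto (fun t => F i t * Real.exp (-(t * m i))) atTop (𝓝 (L i))) :
    ω = ∑ i, ((p i : ℝ) - q i) * m i := by
  have hpow : ∀ k : Fin n → ℕ, Tendsto (fun t => ∏ i, (F i t * Real.exp (-(t * m i))) ^ k i) atTop
      (𝓝 (∏ i, L i ^ k i)) := fun k =>
    tendsto_finsetProd Finset.univ fun i (_ : i ∈ Finset.univ) => (hF i).pow (k i)
  have hexp : ∀ (k : Fin n → ℕ) (t : ℝ), ∏ i, (F i t * Real.exp (-(t * m i))) ^ k i =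
      (∏ i, F i t ^ k i) * Real.exp (-(t * ∑ i, (k i : ℝ) * m i)) := by
    intro k t
    simp only [mul_pow, Finset.prod_mul_distrib, ← Real.exp_nat_mul, ← Real.exp_sum]
    congr 2
    rw [Finset.mul_sum, ← Finset.sum_neg_distrib]
    exact Finset.sum_congr rfl fun i _ => by ring
  have hpos : ∀ k : Fin n → ℕ, 0 < ∏ i, L i ^ k i := fun k =>
    Finset.prod_pos fun i _ => pow_pos (hL i) _
  have h1 : Tendsto (fun t : ℝ => ρ * Real.exp (t * (ω - ∑ i, ((p i : ℝ) - q i) * m i))) atTop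
      (𝓝 ((∏ i, L i ^ p i) / ∏ i, L i ^ q i)) := by
    refine ((hpow p).div (hpow q) (hpos q).ne').congr' ?_
    have hev : ∀ᶠ t in atTop, ∏ i, (F i t * Real.exp (-(t * m i))) ^ q i ≠ 0 :=
      (hpow q).eventually_ne (hpos q).ne'
    filter_upwards [hev] with t ht
    rw [Pi.div_apply, div_eq_iff ht, hexp, hexp, ← h t]
    have e1 : t * (ω - ∑ i, ((p i : ℝ) - q i) * m i) =
        t * ω + (-(t * ∑ i, (p i : ℝ) * m i)) - (-(t * ∑ i, (q i : ℝ) * m i)) := by
      simp only [sub_mul, Finset.sum_sub_distrib]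
      ring
    rw [e1, Real.exp_sub, Real.exp_add]
    have := (Real.exp_pos (-(t * ∑ i, (q i : ℝ) * m i))).ne'
    field_simp
  have := exp_lim hρ (div_pos (hpos p) (hpos q)) h1
  linarith

/-- the exponents are equal -/
theorem na_equal {n : ℕ} {a : Fin n → Fin 3 → ℂ} {p q : Fin n → ℕ} {r w : Fin 3 → ℝ} {ρ ω : ℝ}
    {Z Z' : ℝ → Fin 3 → ℂ} (h : ZP3 Z Z' r w)
    (hprod : ∀ t, ρ * Real.exp (t * ω) * ∏ i, fm (a i) (Z t) (Z' t) ^ q i =
      ∏ i, fm (a i) (Z t) (Z' t) ^ p i)
    (hr : ∀ k, 0 < r k) (hρ : 0 < ρ) (ha : ∀ i k l, k ≠ l → a i k ≠ a i l)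
    (hn : ∑ i, ((p i : ℝ) - q i) ≠ 0)
    (hm : ∀ (k l m : Fin 3) (x y : ℝ), k ≠ l → k ≠ m → l ≠ m → 0 < x → 0 < y →
      ∑ i, ((p i : ℝ) - q i) *
        (if (a i k - a i m) * x = (a i l - a i m) * y then (0 : ℝ) else 1) ≠ 0) :
    w 0 = w 2 ∧ w 1 = w 2 := by
  set N : ℝ := ∑ i, ((p i : ℝ) - q i) with hN
  -- the third coordinate dominates
  have dom : ∀ (e : Equiv.Perm (Fin 3)), w (e 0) < w (e 2) → w (e 1) < w (e 2) →
      ω = N * w (e 2) := by
    intro e h0 h1
    have h2 := prod_tendsto2 hρ p q (m := fun _ => w (e 2)) (fun i => ?_) hprod (fun i => ?_)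
      (L := fun i => ‖a i (e 0) - a i (e 2)‖ * ‖a i (e 1) - a i (e 2)‖ * r (e 2))
    · rw [h2, hN, Finset.sum_mul]
    · have d02 : (0 : Fin 3) ≠ 2 := by decide
      have d12 : (1 : Fin 3) ≠ 2 := by decide
      have g0 := norm_pos_iff.mpr (sub_ne_zero.mpr (ha i (e 0) (e 2) fun h => d02 (e.injective h)))
      have g1 := norm_pos_iff.mpr (sub_ne_zero.mpr (ha i (e 1) (e 2) fun h => d12 (e.injective h)))
      have := hr (e 2)
      positivity
    · have h3 := fm_dom (h.perm e) (fun k => a i (e k)) (fun k => hr _) h0 h1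
      refine h3.congr fun t => ?_
      rw [fm_perm]
  have domn : ∀ (e : Equiv.Perm (Fin 3)), w (e 2) < w (e 0) → w (e 2) < w (e 1) →
      ω = N * w (e 2) := by
    intro e h0 h1
    have h2 := prod_tendsto2 (ω := -ω) (F := fun i t => fm (a i) (Z (-t)) (Z' (-t))) hρ p q
      (m := fun _ => -w (e 2)) (fun i => ?_) (fun t => ?_) (fun i => ?_)
      (L := fun i => ‖a i (e 0) - a i (e 2)‖ * ‖a i (e 1) - a i (e 2)‖ * r (e 2))
    · rw [← Finset.sum_mul, ← hN] at h2
      linarith
    · have d02 : (0 : Fin 3) ≠ 2 := by decide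
      have d12 : (1 : Fin 3) ≠ 2 := by decide
      have g0 := norm_pos_iff.mpr (sub_ne_zero.mpr (ha i (e 0) (e 2) fun h => d02 (e.injective h)))
      have g1 := norm_pos_iff.mpr (sub_ne_zero.mpr (ha i (e 1) (e 2) fun h => d12 (e.injective h)))
      have := hr (e 2)
      positivity
    · rw [← hprod (-t)]
      congr 3
      ring
    · have h3 := fm_dom (h.neg.perm e) (fun k => a i (e k)) (fun k => hr _) (neg_lt_neg h0)
        (neg_lt_neg h1)
      refine h3.congr fun t => ?_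
      rw [fm_perm]
  -- two equal exponents and a smaller one
  have core : ∀ (e : Equiv.Perm (Fin 3)) (s : ℝ), (s = 1 ∨ s = -1) → w (e 1) = w (e 0) →
      s * w (e 2) < s * w (e 0) → ω = N * w (e 2) → False := by
    intro e s hs h0 h1 hω
    have hsm : ω = ∑ i, ((p i : ℝ) - q i) * (if (a i (e 0) - a i (e 2)) * r (e 0) =
        (a i (e 1) - a i (e 2)) * r (e 1) then w (e 2) else w (e 0)) := by
      rcases hs with rfl | rfl
      · rw [one_mul, one_mul] at h1
        refine prod_tendsto2 hρ p q (fun i => ?_) hprod (fun i => ?_)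
          (L := fun i => if (a i (e 0) - a i (e 2)) * r (e 0) = (a i (e 1) - a i (e 2)) * r (e 1)
            then ‖a i (e 0) - a i (e 2)‖ ^ 2 * (r (e 0) / r (e 1)) * r (e 2) else
            ‖a i (e 0) - a i (e 1)‖ * ‖(a i (e 0) - a i (e 2)) * r (e 0) -
              (a i (e 1) - a i (e 2)) * r (e 1)‖)
        · have d02 : (0 : Fin 3) ≠ 2 := by decide
          have d01 : (0 : Fin 3) ≠ 1 := by decide
          have g0 := norm_pos_iff.mpr (sub_ne_zero.mpr
            (ha i (e 0) (e 2) fun h => d02 (e.injective h)))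
          have g1 := norm_pos_iff.mpr (sub_ne_zero.mpr
            (ha i (e 0) (e 1) fun h => d01 (e.injective h)))
          have := hr (e 0)
          have := hr (e 1)
          have := hr (e 2)
          split_ifs with hi
          · positivity
          · have := norm_pos_iff.mpr (sub_ne_zero.mpr hi)
            positivity
        · have d02 : (0 : Fin 3) ≠ 2 := by decide
          have h3 := fm_small (h.perm e) (fun k => a i (e k)) (fun k => hr _)
            (ha i (e 0) (e 2) fun h => d02 (e.injective h)) h0 h1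
          refine h3.congr fun t => ?_
          rw [fm_perm]
      · have h2 := prod_tendsto2 (ω := -ω) (F := fun i t => fm (a i) (Z (-t)) (Z' (-t))) hρ p q
          (m := fun i => if (a i (e 0) - a i (e 2)) * r (e 0) = (a i (e 1) - a i (e 2)) * r (e 1)
            then -w (e 2) else -w (e 0)) (fun i => ?_) (fun t => ?_) (fun i => ?_)
          (L := fun i => if (a i (e 0) - a i (e 2)) * r (e 0) = (a i (e 1) - a i (e 2)) * r (e 1)
            then ‖a i (e 0) - a i (e 2)‖ ^ 2 * (r (e 0) / r (e 1)) * r (e 2) else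
            ‖a i (e 0) - a i (e 1)‖ * ‖(a i (e 0) - a i (e 2)) * r (e 0) -
              (a i (e 1) - a i (e 2)) * r (e 1)‖)
        · have h3 : ω = -∑ i, ((p i : ℝ) - q i) * (if (a i (e 0) - a i (e 2)) * r (e 0) =
              (a i (e 1) - a i (e 2)) * r (e 1) then -w (e 2) else -w (e 0)) := by linarith
          rw [h3, ← Finset.sum_neg_distrib]
          apply Finset.sum_congr rfl
          intro i _
          split_ifs <;> ring
        · have d02 : (0 : Fin 3) ≠ 2 := by decide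
          have d01 : (0 : Fin 3) ≠ 1 := by decide
          have g0 := norm_pos_iff.mpr (sub_ne_zero.mpr
            (ha i (e 0) (e 2) fun h => d02 (e.injective h)))
          have g1 := norm_pos_iff.mpr (sub_ne_zero.mpr
            (ha i (e 0) (e 1) fun h => d01 (e.injective h)))
          have := hr (e 0)
          have := hr (e 1)
          have := hr (e 2)
          split_ifs with hi
          · positivity
          · have := norm_pos_iff.mpr (sub_ne_zero.mpr hi)
            positivity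
        · rw [← hprod (-t)]
          congr 3
          ring
        · have d02 : (0 : Fin 3) ≠ 2 := by decide
          have h3 := fm_small (h.neg.perm e) (fun k => a i (e k)) (fun k => hr _)
            (ha i (e 0) (e 2) fun h => d02 (e.injective h)) (by
              show -w (e 1) = -w (e 0)
              rw [h0]) (by
              show -w (e 2) < -w (e 0)
              linarith)
          refine h3.congr fun t => ?_
          rw [fm_perm]
    have hne : w (e 0) - w (e 2) ≠ 0 := by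
      intro h2
      have : w (e 0) = w (e 2) := by linarith
      rw [this] at h1
      exact lt_irrefl _ h1
    have d01 : (0 : Fin 3) ≠ 1 := by decide
    have d02 : (0 : Fin 3) ≠ 2 := by decide
    have d12 : (1 : Fin 3) ≠ 2 := by decide
    apply hm (e 0) (e 1) (e 2) (r (e 0)) (r (e 1)) (fun h => d01 (e.injective h))
      (fun h => d02 (e.injective h)) (fun h => d12 (e.injective h)) (hr _) (hr _)
    apply mul_left_cancel₀ hne
    rw [mul_zero]
    have h3 : ∑ i, ((p i : ℝ) - q i) * (if (a i (e 0) - a i (e 2)) * r (e 0) =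
        (a i (e 1) - a i (e 2)) * r (e 1) then w (e 2) else w (e 0)) - N * w (e 2) =
        (w (e 0) - w (e 2)) * ∑ i, ((p i : ℝ) - q i) * (if (a i (e 0) - a i (e 2)) * r (e 0) =
        (a i (e 1) - a i (e 2)) * r (e 1) then (0 : ℝ) else 1) := by
      rw [hN, Finset.sum_mul, Finset.mul_sum, ← Finset.sum_sub_distrib]
      apply Finset.sum_congr rfl
      intro i _
      split_ifs <;> ring
    rw [← h3, ← hsm, hω, sub_self]
  set e := Tuple.sort w with he
  have hs : Monotone (w ∘ e) := Tuple.monotone_sort w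
  have s01 : w (e 0) ≤ w (e 1) := hs (by decide)
  have s12 : w (e 1) ≤ w (e 2) := hs (by decide)
  set f : Equiv.Perm (Fin 3) := (Equiv.swap 0 2).trans e with hf
  have f0 : f 0 = e 2 := by simp [hf]
  have f1 : f 1 = e 1 := by
    rw [hf, Equiv.trans_apply, Equiv.swap_apply_of_ne_of_ne (by decide) (by decide)]
  have f2 : f 2 = e 0 := by simp [hf]
  have heq : w (e 0) = w (e 1) ∧ w (e 1) = w (e 2) := by
    rcases s01.lt_or_eq with h01 | h01
    · rcases s12.lt_or_eq with h12 | h12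
      · exfalso
        have e1 := dom e (h01.trans h12) h12
        have e2 := domn f (by rw [f0, f2]; exact h01.trans h12) (by rw [f1, f2]; exact h01)
        rw [f2] at e2
        have e3 : N * w (e 2) = N * w (e 0) := by linarith
        have e4 := mul_left_cancel₀ hn e3
        linarith
      · exfalso
        refine core f 1 (Or.inl rfl) (by rw [f0, f1, h12]) (by
          rw [f0, f2, one_mul, one_mul]; linarith) ?_
        exact domn f (by rw [f0, f2]; linarith) (by rw [f1, f2]; linarith)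
    · rcases s12.lt_or_eq with h12 | h12
      · exfalso
        refine core e (-1) (Or.inr rfl) h01.symm (by linarith) ?_
        exact dom e (by linarith) h12
      · exact ⟨h01, h12⟩
  have hall : ∀ k, w (e k) = w (e 2) := by
    intro k
    fin_cases k
    · exact heq.1.trans heq.2
    · exact heq.2
    · rfl
  have hall' : ∀ k, w k = w (e 2) := by
    intro k
    have := hall (e.symm k)
    rwa [Equiv.apply_symm_apply] at this
  exact ⟨by rw [hall' 0, hall' 2], by rw [hall' 1, hall' 2]⟩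

end Run7.h498.GZ
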