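import Pool.Agent.Run7.h498.GZ.V1
import Pool.Agent.Run7.h498.GZ.Q5
import Pool.Agent.Run7.h498.GZ.R9

set_option autoImplicit false

/-!
# The points of a curve over the lines through the origin
-/

namespace Run7.h498.GZ

open Filter Topology ComplexConjugate Run7.h498

/-- the equation of a common zero -/
lemma affine_eq {k l m : Fin 3} (hkl : k ≠ l) (hkm : k ≠ m) (hlm : l ≠ m) {x y : ℝ} (hx : 0 < x)
    (hy : 0 < y) : ∃ c0 c1 : ℝ, (c1 ≠ 0 ∨ c0 ≠ 0) ∧ ∀ β : ℂ,
      (![1, 0, β] k - ![1, 0, β] m) * x - (![1, 0, β] l - ![1, 0, β] m) * y = c0 + c1 * β := by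
  have key : ∀ c0 c1 : ℝ, (c1 ≠ 0 ∨ c0 ≠ 0) → (∀ β : ℂ,
      (![1, 0, β] k - ![1, 0, β] m) * x - (![1, 0, β] l - ![1, 0, β] m) * y = c0 + c1 * β) →
      ∃ c0 c1 : ℝ, (c1 ≠ 0 ∨ c0 ≠ 0) ∧ ∀ β : ℂ,
      (![1, 0, β] k - ![1, 0, β] m) * x - (![1, 0, β] l - ![1, 0, β] m) * y = c0 + c1 * β :=
    fun c0 c1 h h' => ⟨c0, c1, h, h'⟩
  fin_cases k <;> fin_cases l <;> fin_cases m <;> first
    | exact absurd rfl hkl
    | exact absurd rfl hkm
    | exact absurd rfl hlm
    | skip
  · refine key x (y - x) (Or.inr hx.ne') fun β => ?_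
    simp only [Fin.zero_eta, Fin.mk_one, Fin.reduceFinMk, Matrix.cons_val_zero,
      Matrix.cons_val_one, Matrix.cons_val]
    push_cast; ring
  · refine key x (-y) (Or.inr hx.ne') fun β => ?_
    simp only [Fin.zero_eta, Fin.mk_one, Fin.reduceFinMk, Matrix.cons_val_zero,
      Matrix.cons_val_one, Matrix.cons_val]
    push_cast; ring
  · refine key (-y) (y - x) (Or.inr (neg_ne_zero.mpr hy.ne')) fun β => ?_
    simp only [Fin.zero_eta, Fin.mk_one, Fin.reduceFinMk, Matrix.cons_val_zero,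
      Matrix.cons_val_one, Matrix.cons_val]
    push_cast; ring
  · refine key (y - x) (-y) (Or.inl (neg_ne_zero.mpr hy.ne')) fun β => ?_
    simp only [Fin.zero_eta, Fin.mk_one, Fin.reduceFinMk, Matrix.cons_val_zero,
      Matrix.cons_val_one, Matrix.cons_val]
    push_cast; ring
  · refine key (-y) x (Or.inl hx.ne') fun β => ?_
    simp only [Fin.zero_eta, Fin.mk_one, Fin.reduceFinMk, Matrix.cons_val_zero,
      Matrix.cons_val_one, Matrix.cons_val]
    push_cast; ring
  · refine key (y - x) x (Or.inl hx.ne') fun β => ?_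
    simp only [Fin.zero_eta, Fin.mk_one, Fin.reduceFinMk, Matrix.cons_val_zero,
      Matrix.cons_val_one, Matrix.cons_val]
    push_cast; ring

/-- the coefficients of a polynomial -/
lemma exists_vec (P : Polynomial ℂ) : ∃ (d : ℕ) (D : Fin (d + 1) → ℂ), ∀ x, fval1 D x = P.eval x := by
  refine ⟨P.natDegree, fun i => P.coeff i, fun x => ?_⟩
  rw [fval1, Polynomial.eval_eq_sum_range, Finset.sum_range]

/-- The points of a curve over a segment are finite in number. -/
theorem finW {n : ℕ} (β : Fin n → ℂ) (hβ : Function.Injective β) (hβ0 : ∀ i, β i ≠ 0)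
    (hβ1 : ∀ i, β i ≠ 1) (p q : Fin n → ℕ) (hn : ∑ i, ((p i : ℝ) - q i) ≠ 0)
    (hm : ∀ i, (p i : ℝ) - q i = ∑ k, ((p k : ℝ) - q k) → (β i).im ≠ 0)
    (G : Fin 3 → ℝ) (hG : ∀ j, 0 < G j) (τ : Fin 3 → ℝ) (hτ : τ ≠ 0) (R : ℝ) :
    {z : ℂ | ∃ s ∈ Set.Icc (0 : ℝ) R, G 0 * ‖z‖ = Real.exp (s * τ 0) ∧
      G 1 * ‖1 - z‖ = Real.exp (s * τ 1) ∧ (∀ i, z ≠ β i) ∧
      G 2 * ∏ i, ‖z - β i‖ ^ p i = Real.exp (s * τ 2) * ∏ i, ‖z - β i‖ ^ q i}.Finite := by
  have hsq : ∀ (g u v s : ℝ), 0 < g → g * u = Real.exp (s * v) →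
      u ^ 2 = 1 / g ^ 2 * Real.exp (s * (2 * v)) := by
    intro g u v s hg h
    have h1 : Real.exp (s * (2 * v)) = (g * u) ^ 2 := by
      rw [h, ← Real.exp_nat_mul]
      congr 1
      push_cast; ring
    rw [h1]
    field_simp
  by_cases h01 : τ 0 = 0 ∧ τ 1 = 0
  · refine (two_points (1 / G 0 ^ 2) (1 / G 1 ^ 2)).subset ?_
    rintro z ⟨s, -, h0, h1, -⟩
    have k0 := hsq _ _ _ s (hG 0) h0
    have k1 := hsq _ _ _ s (hG 1) h1
    rw [h01.1, mul_zero, mul_zero, Real.exp_zero, mul_one] at k0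
    rw [h01.2, mul_zero, mul_zero, Real.exp_zero, mul_one] at k1
    exact ⟨by rw [Complex.normSq_eq_norm_sq]; exact k0, by rw [Complex.normSq_eq_norm_sq]; exact k1⟩
  -- the relation
  obtain ⟨dP, P, hP⟩ := exists_vec (∏ i, (Polynomial.X - Polynomial.C (β i)) ^ p i)
  obtain ⟨dQ, Q, hQ⟩ := exists_vec (∏ i, (Polynomial.X - Polynomial.C (β i)) ^ q i)
  have evP : ∀ x, fval1 P x = ∏ i, (x - β i) ^ p i := by
    intro x; rw [hP]; simp [Polynomial.eval_prod]
  have evQ : ∀ x, fval1 Q x = ∏ i, (x - β i) ^ q i := by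
    intro x; rw [hQ]; simp [Polynomial.eval_prod]
  have hH := ((G1_nrm Q).mul (G1.ex (EX.var 2))).sub (G1_nrm P)
  obtain ⟨u, v, hu, hv, huv⟩ := hH
  have hPhi : EX (fun r => u r * u r - v r * v r * Sp 0 1 r) :=
    (hu.mul hu).sub ((hv.mul hv).mul (EX_Sp 0 1))
  obtain ⟨M', Q', ι, hι, c, m, -, -, he⟩ := hPhi
  set Ph : (Fin 5 → ℝ) → ℝ := fun r => u r * u r - v r * v r * Sp 0 1 r with hPh
  have hfac : ∀ (r : Fin 5 → ℝ) (s : ℂ), s ^ 2 = (Sp 0 1 r : ℂ) → (Ph r : ℂ) =
      (nrm Q (Rp 0 1 r + Complex.I * s) (Rp 0 1 r - Complex.I * s) * (r 2 : ℂ) -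
        nrm P (Rp 0 1 r + Complex.I * s) (Rp 0 1 r - Complex.I * s)) *
      (nrm Q (Rp 0 1 r + Complex.I * (-s)) (Rp 0 1 r - Complex.I * (-s)) * (r 2 : ℂ) -
        nrm P (Rp 0 1 r + Complex.I * (-s)) (Rp 0 1 r - Complex.I * (-s))) := by
    intro r s hs
    have h1 := huv r s hs
    have h2 := huv r (-s) (by rw [neg_sq]; exact hs)
    dsimp only at h1 h2
    rw [h1, h2, hPh]
    push_cast
    linear_combination ((v r : ℂ) ^ 2) * hs
  set r : Fin 5 → ℝ := ![1 / G 0 ^ 2, 1 / G 1 ^ 2, 1 / G 2 ^ 2, 1, 1] with hr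
  set w : Fin 5 → ℝ := ![2 * τ 0, 2 * τ 1, 2 * τ 2, 0, 0] with hw
  set F : ℝ → ℝ := fun s => Ph (fun j => r j * Real.exp (s * w j)) with hFdef
  have hFa : AnalyticOnNhd ℝ F Set.univ := by
    have e : F = fun s => ∑ i, c i * ∏ j, (r j * Real.exp (s * w j)) ^ m i j := by
      funext s
      rw [hFdef]
      exact he _
    rw [e]
    intro s _
    fun_prop
  have g0 := hG 0
  have g1 := hG 1
  have g2 := hG 2
  have hconjN : ∀ {d : ℕ} (D : Fin (d + 1) → ℂ) (X X' : ℂ),
      nrm D X X' = fval1 D X * conj (fval1 D (conj X')) := by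
    intro d D X X'
    rw [nrm, conj_fval1, Complex.conj_conj]
  have hFne : ∃ t, F t ≠ 0 := by
    by_contra hcon
    push Not at hcon
    -- the pairs
    have hpair : ∀ t : ℝ, ∃ X X' : ℂ, X * X' = ((1 / G 0 ^ 2 * Real.exp (t * (2 * τ 0)) : ℝ) : ℂ) ∧
        (1 - X) * (1 - X') = ((1 / G 1 ^ 2 * Real.exp (t * (2 * τ 1)) : ℝ) : ℂ) ∧
        nrm Q X X' * ((1 / G 2 ^ 2 * Real.exp (t * (2 * τ 2)) : ℝ) : ℂ) = nrm P X X' := by
      intro t
      set rt : Fin 5 → ℝ := fun j => r j * Real.exp (t * w j) with hrt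
      obtain ⟨s, hs⟩ := IsAlgClosed.exists_pow_nat_eq (Sp 0 1 rt : ℂ) (by norm_num : 0 < 2)
      have h1 := hfac rt s hs
      have h2 : Ph rt = 0 := hcon t
      rw [h2, Complex.ofReal_zero] at h1
      have h3 : ∀ s' : ℂ, s' ^ 2 = (Sp 0 1 rt : ℂ) →
          nrm Q (Rp 0 1 rt + Complex.I * s') (Rp 0 1 rt - Complex.I * s') * (rt 2 : ℂ) -
          nrm P (Rp 0 1 rt + Complex.I * s') (Rp 0 1 rt - Complex.I * s') = 0 →
          ∃ X X' : ℂ, X * X' = (rt 0 : ℂ) ∧ (1 - X) * (1 - X') = (rt 1 : ℂ) ∧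
          nrm Q X X' * (rt 2 : ℂ) = nrm P X X' := by
        intro s' hs' h4
        refine ⟨_, _, ?_, ?_, sub_eq_zero.mp h4⟩
        · have e1 : (Sp 0 1 rt : ℂ) = rt 0 - (Rp 0 1 rt : ℂ) ^ 2 := by
            rw [Sp]; push_cast; ring
          have e2 : (Rp 0 1 rt + Complex.I * s') * (Rp 0 1 rt - Complex.I * s') =
              (Rp 0 1 rt : ℂ) ^ 2 + s' ^ 2 := by
            linear_combination (-s' ^ 2) * Complex.I_sq
          rw [e2, hs', e1]; ring
        · have e1 : (Sp 0 1 rt : ℂ) = rt 0 - (Rp 0 1 rt : ℂ) ^ 2 := by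
            rw [Sp]; push_cast; ring
          have e3 : (Rp 0 1 rt : ℂ) = (1 + rt 0 - rt 1) / 2 := by
            rw [Rp]; push_cast; ring
          have e2 : (1 - (Rp 0 1 rt + Complex.I * s')) * (1 - (Rp 0 1 rt - Complex.I * s')) =
              1 - 2 * (Rp 0 1 rt : ℂ) + (Rp 0 1 rt : ℂ) ^ 2 + s' ^ 2 := by
            linear_combination (-s' ^ 2) * Complex.I_sq
          rw [e2, hs', e1, e3]; ring
      rcases mul_eq_zero.mp h1.symm with h4 | h4
      · exact h3 s hs h4
      · exact h3 (-s) (by rw [neg_sq]; exact hs) h4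
    choose X X' hX hX1 hX2 using hpair
    set Z : ℝ → Fin 3 → ℂ := fun t => ![X t, 1 - X t, -1] with hZ
    set Z' : ℝ → Fin 3 → ℂ := fun t => ![X' t, 1 - X' t, -1] with hZ'
    have hzp : ZP3 Z Z' ![1 / G 0 ^ 2, 1 / G 1 ^ 2, 1] ![2 * τ 0, 2 * τ 1, 0] := by
      refine ⟨fun t => ?_, fun t => ?_, fun t k => ?_⟩
      · rw [Fin.sum_univ_three]; simp [hZ]
      · rw [Fin.sum_univ_three]; simp [hZ']
      · fin_cases k
        · exact hX t
        · exact hX1 t
        · simp [hZ, hZ']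
    have hfm : ∀ t i, fm ![1, 0, β i] (Z t) (Z' t) = ‖X t - β i‖ * ‖X' t - conj (β i)‖ := by
      intro t i
      rw [fm, ← norm_mul, Fin.sum_univ_three, Fin.sum_univ_three]
      congr 1
      simp only [hZ, hZ', Matrix.cons_val_zero, Matrix.cons_val_one, Matrix.cons_val, map_one,
        map_zero]
      ring
    have hnn : ∀ {d : ℕ} (D : Fin (d + 1) → ℂ) (k : Fin n → ℕ),
        (∀ x, fval1 D x = ∏ i, (x - β i) ^ k i) → ∀ t, ‖nrm D (X t) (X' t)‖ =
        ∏ i, fm ![1, 0, β i] (Z t) (Z' t) ^ k i := by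
      intro d D k hD t
      rw [hconjN, norm_mul, Complex.norm_conj, hD, hD, norm_prod, norm_prod,
        ← Finset.prod_mul_distrib]
      apply Finset.prod_congr rfl
      intro i _
      rw [hfm, norm_pow, norm_pow, mul_pow]
      congr 2
      rw [← Complex.norm_conj, map_sub, Complex.conj_conj]
    have hprod : ∀ t, 1 / G 2 ^ 2 * Real.exp (t * (2 * τ 2)) *
        ∏ i, fm ![1, 0, β i] (Z t) (Z' t) ^ q i = ∏ i, fm ![1, 0, β i] (Z t) (Z' t) ^ p i := by
      intro t
      rw [← hnn P p evP, ← hX2 t, norm_mul, hnn Q q evQ, Complex.norm_real, Real.norm_eq_abs,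
        abs_of_pos (by positivity)]
      ring
    have h2 := na_equal (a := fun i => ![1, 0, β i]) hzp hprod (by
      intro k
      fin_cases k
      · show 0 < 1 / G 0 ^ 2
        positivity
      · show 0 < 1 / G 1 ^ 2
        positivity
      · exact one_pos) (by positivity) (by
      intro i j l hjl
      fin_cases j <;> fin_cases l
      · exact absurd rfl hjl
      · simp
      · simpa using (hβ1 i).symm
      · simp
      · exact absurd rfl hjl
      · simpa using (hβ0 i).symm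
      · simpa using hβ1 i
      · simpa using hβ0 i
      · exact absurd rfl hjl) hn (by
      intro k l m x y hkl hkm hlm hx hy
      obtain ⟨c0, c1, hc, hA⟩ := affine_eq hkl hkm hlm hx hy
      by_cases hex : ∃ i, (![1, 0, β i] k - ![1, 0, β i] m) * (x : ℂ) =
          (![1, 0, β i] l - ![1, 0, β i] m) * (y : ℂ)
      · obtain ⟨i0, hi0⟩ := hex
        have h3 : ∀ i, (![1, 0, β i] k - ![1, 0, β i] m) * (x : ℂ) =
          (![1, 0, β i] l - ![1, 0, β i] m) * (y : ℂ) ↔ (c0 : ℂ) + c1 * β i = 0 := by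
          intro i
          rw [← hA, sub_eq_zero]
        have h4 := (h3 i0).mp hi0
        have hc1 : c1 ≠ 0 := by
          intro h5
          rw [h5, Complex.ofReal_zero, zero_mul, add_zero] at h4
          have h6 : c0 = 0 := by exact_mod_cast h4
          rcases hc with h | h
          · exact h h5
          · exact h h6
        have hc1' : (c1 : ℂ) ≠ 0 := by exact_mod_cast hc1
        have him : (β i0).im = 0 := by
          have h5 : β i0 = ((-c0 / c1 : ℝ) : ℂ) := by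
            push_cast
            field_simp
            linear_combination h4
          rw [h5, Complex.ofReal_im]
        have hun : ∀ i, (c0 : ℂ) + c1 * β i = 0 ↔ i = i0 := by
          intro i
          constructor
          · intro h5
            apply hβ
            apply mul_left_cancel₀ hc1'
            linear_combination h5 - h4
          · rintro rfl; exact h4
        have hsum : ∑ i, ((p i : ℝ) - q i) * (if (![1, 0, β i] k - ![1, 0, β i] m) * (x : ℂ) =
            (![1, 0, β i] l - ![1, 0, β i] m) * (y : ℂ) then (0 : ℝ) else 1) =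
            ∑ i, ((p i : ℝ) - q i) - ((p i0 : ℝ) - q i0) := by
          rw [← Finset.sum_erase_add _ _ (Finset.mem_univ i0),
            ← Finset.sum_erase_add (Finset.univ) (fun i => (p i : ℝ) - q i) (Finset.mem_univ i0),
            if_pos hi0, mul_zero, add_zero, add_sub_cancel_right]
          apply Finset.sum_congr rfl
          intro i hi
          rw [if_neg, mul_one]
          rw [h3, hun]
          exact Finset.ne_of_mem_erase hi
        rw [hsum]
        intro h5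
        exact hm i0 (by linarith) him
      · push Not at hex
        have hsum : ∑ i, ((p i : ℝ) - q i) * (if (![1, 0, β i] k - ![1, 0, β i] m) * (x : ℂ) =
            (![1, 0, β i] l - ![1, 0, β i] m) * (y : ℂ) then (0 : ℝ) else 1) =
            ∑ i, ((p i : ℝ) - q i) := by
          apply Finset.sum_congr rfl
          intro i _
          rw [if_neg (hex i), mul_one]
        rw [hsum]
        exact hn)
    have k0 : 2 * τ 0 = 0 := h2.1
    have k1 : 2 * τ 1 = 0 := h2.2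
    exact h01 ⟨by linarith, by linarith⟩
  have hfin := zeros_fin F hFa hFne R
  refine Set.Finite.subset (Set.Finite.biUnion hfin fun s _ =>
    two_points (1 / G 0 ^ 2 * Real.exp (s * (2 * τ 0))) (1 / G 1 ^ 2 * Real.exp (s * (2 * τ 1)))) ?_
  rintro z ⟨s, hs, y0, y1, yβ, y2⟩
  have y0' : Complex.normSq z = 1 / G 0 ^ 2 * Real.exp (s * (2 * τ 0)) := by
    rw [Complex.normSq_eq_norm_sq]
    exact hsq _ _ _ s (hG 0) y0
  have y1' : Complex.normSq (1 - z) = 1 / G 1 ^ 2 * Real.exp (s * (2 * τ 1)) := by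
    rw [Complex.normSq_eq_norm_sq]
    exact hsq _ _ _ s (hG 1) y1
  have hFs : F s = 0 := by
    set rs : Fin 5 → ℝ := fun j => r j * Real.exp (s * w j) with hrs
    have r0 : rs 0 = Complex.normSq z := y0'.symm
    have r1 : rs 1 = Complex.normSq (1 - z) := y1'.symm
    have eR : Rp 0 1 rs = z.re := by
      rw [Rp, r0, r1, Complex.normSq_apply, Complex.normSq_apply]
      simp only [Complex.sub_re, Complex.one_re, Complex.sub_im, Complex.one_im, zero_sub]
      ring
    have eS : ((z.im : ℝ) : ℂ) ^ 2 = (Sp 0 1 rs : ℂ) := by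
      rw [Sp, eR, r0, Complex.normSq_apply]
      push_cast; ring
    have h1 := hfac rs (z.im : ℂ) eS
    have eX : (Rp 0 1 rs : ℂ) + Complex.I * (z.im : ℂ) = z := by
      rw [eR, mul_comm]
      exact Complex.re_add_im z
    have eX' : (Rp 0 1 rs : ℂ) - Complex.I * (z.im : ℂ) = conj z := by
      rw [eR]
      apply Complex.ext <;> simp
    have h2 : nrm Q z (conj z) * (rs 2 : ℂ) = nrm P z (conj z) := by
      have hnz : ∀ {d : ℕ} (D : Fin (d + 1) → ℂ) (k : Fin n → ℕ),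
          (∀ x, fval1 D x = ∏ i, (x - β i) ^ k i) →
          nrm D z (conj z) = (((∏ i, ‖z - β i‖ ^ k i) ^ 2 : ℝ) : ℂ) := by
        intro d D k hD
        rw [hconjN, Complex.conj_conj, Complex.mul_conj, Complex.normSq_eq_norm_sq, hD, norm_prod]
        simp only [norm_pow]
      rw [hnz Q q evQ, hnz P p evP]
      have e1 : rs 2 = 1 / G 2 ^ 2 * Real.exp (s * (2 * τ 2)) := rfl
      rw [e1]
      have e2 : Real.exp (s * (2 * τ 2)) = Real.exp (s * τ 2) ^ 2 := by
        rw [← Real.exp_nat_mul]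
        congr 1
        push_cast; ring
      rw [e2]
      have e3 : (∏ i, ‖z - β i‖ ^ q i) ^ 2 * (1 / G 2 ^ 2 * Real.exp (s * τ 2) ^ 2) =
          (∏ i, ‖z - β i‖ ^ p i) ^ 2 := by
        have e4 : (∏ i, ‖z - β i‖ ^ q i) ^ 2 * (1 / G 2 ^ 2 * Real.exp (s * τ 2) ^ 2) =
            1 / G 2 ^ 2 * (Real.exp (s * τ 2) * ∏ i, ‖z - β i‖ ^ q i) ^ 2 := by ring
        rw [e4, ← y2]
        field_simp
      exact_mod_cast e3
    have h3 : Ph rs = 0 := by
      have h4 : (Ph rs : ℂ) = 0 := by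
        rw [h1, eX, eX', h2, sub_self, zero_mul]
      exact_mod_cast h4
    exact h3
  rw [Set.mem_iUnion₂]
  exact ⟨s, ⟨hs, hFs⟩, y0', y1'⟩

end Run7.h498.GZ
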