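import Pool.Agent.Run7.h498.GZ.V2
import Pool.Agent.Y740.Z.Main

set_option autoImplicit false

/-!
# Scattered curves
-/

namespace Run7.h498.GZ

open Polynomial Real Pool.Agent.Y740 Pool.Agent.Y740.G

/-- the zeros and poles of the coordinates -/
noncomputable def aV {n : ℕ} (β : Fin n → Qb) : Fin (n + 2) → Qb := Fin.cons 0 (Fin.cons 1 β)

/-- the exponents of the coordinates -/
def nuV {n : ℕ} (m : Fin n → ℤ) : Fin 3 → Fin (n + 2) → ℤ :=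
  ![Fin.cons 1 (Fin.cons 0 0), Fin.cons 0 (Fin.cons 1 0), Fin.cons 0 (Fin.cons 0 m)]

/-- the coefficients of the coordinates -/
noncomputable def gV (g : Fin 3 → Qb) : Fin 3 → Qb := ![g 0, -g 1, g 2]

lemma prodV {n : ℕ} (β : Fin n → Qb) (m : Fin n → ℤ) (g : Fin 3 → Qb) {L : Type} [Field L]
    (φ : Qb →+* L) (s : L) :
    (φ (gV g 0) * ∏ i, (s - φ (aV β i)) ^ nuV m 0 i = φ (g 0) * s) ∧
    (φ (gV g 1) * ∏ i, (s - φ (aV β i)) ^ nuV m 1 i = φ (g 1) * (1 - s)) ∧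
    (φ (gV g 2) * ∏ i, (s - φ (aV β i)) ^ nuV m 2 i = φ (g 2) * ∏ i, (s - φ (β i)) ^ m i) := by
  refine ⟨?_, ?_, ?_⟩
  · rw [Fin.prod_univ_succ, Fin.prod_univ_succ]
    simp [gV, aV, nuV]
  · rw [Fin.prod_univ_succ, Fin.prod_univ_succ]
    simp [gV, aV, nuV]
    ring
  · rw [Fin.prod_univ_succ, Fin.prod_univ_succ]
    simp [gV, aV, nuV]

lemma nuV_indep {n : ℕ} (m : Fin n → ℤ) (hm : ∑ i, m i ≠ 0) : LinearIndependent ℤ (nuV m) := by
  obtain ⟨i, -, hi⟩ := Finset.exists_ne_zero_of_sum_ne_zero hm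
  rw [Fintype.linearIndependent_iff]
  intro c hc
  rw [Fin.sum_univ_three] at hc
  have h0 := congrFun hc 0
  have h1 := congrFun hc (Fin.succ 0)
  have h2 := congrFun hc i.succ.succ
  simp [nuV] at h0 h1 h2
  intro j
  fin_cases j
  · exact h0
  · exact h1
  · exact h2.resolve_right hi

lemma aV_inj {n : ℕ} (β : Fin n → Qb) (hβ : Function.Injective β) (hβ0 : ∀ i, β i ≠ 0)
    (hβ1 : ∀ i, β i ≠ 1) : Function.Injective (aV β) := by
  rw [aV, Fin.cons_injective_iff, Fin.cons_injective_iff]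
  refine ⟨?_, ?_, hβ⟩
  · rintro ⟨i, hi⟩
    induction i using Fin.cases with
    | zero => simp at hi
    | succ i => exact hβ0 i (by simpa using hi)
  · rintro ⟨i, hi⟩
    exact hβ1 i hi

/-- **The curves `(s, 1 - s, f(s))` are scattered.** -/
theorem scattered_graph {n : ℕ} (β : Fin n → Qb) (hβ : Function.Injective β) (hβ0 : ∀ i, β i ≠ 0)
    (hβ1 : ∀ i, β i ≠ 1) (m : Fin n → ℤ) (hm : ∑ i, m i ≠ 0)
    (hm' : ∀ i, m i = ∑ k, m k → ∀ Ψ : Qb →+* ℂ, (Ψ (β i)).im ≠ 0)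
    (g : Fin 3 → Qb) (hg : ∀ j, g j ≠ 0) : Scattered (nuV m) (aV β) (gV g) := by
  intro Ψ c c' hc K hK hKa
  have hgΨ : ∀ j, 0 < ‖Ψ (g j)‖ := fun j =>
    norm_pos_iff.mpr ((_root_.map_ne_zero Ψ).mpr (hg j))
  obtain ⟨w, hw, hpar⟩ := exists_cross c c' hc
  have hne0 : ∀ z ∈ K, z ≠ 0 := by
    intro z hz h
    have := hKa 0
    simp only [aV, Fin.cons_zero, map_zero] at this
    exact this (by rw [← h]; exact hz)
  have hne1 : ∀ z ∈ K, 1 - z ≠ 0 := by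
    intro z hz h
    have := hKa (Fin.succ 0)
    simp only [aV, Fin.cons_succ, Fin.cons_zero, map_one] at this
    exact this (by rw [sub_eq_zero.mp h]; exact hz)
  have hneβ : ∀ z ∈ K, ∀ i, z - Ψ (β i) ≠ 0 := by
    intro z hz i h
    have := hKa i.succ.succ
    simp only [aV, Fin.cons_succ] at this
    exact this (by rw [← sub_eq_zero.mp h]; exact hz)
  -- the logarithms
  have l0 : ∀ z, G.lg (nuV m) (aV β) (gV g) Ψ z 0 = Real.log (‖Ψ (g 0)‖ * ‖z‖) := by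
    intro z
    rw [G.lg, (prodV β m g Ψ z).1, norm_mul]
  have l1 : ∀ z, G.lg (nuV m) (aV β) (gV g) Ψ z 1 = Real.log (‖Ψ (g 1)‖ * ‖1 - z‖) := by
    intro z
    rw [G.lg, (prodV β m g Ψ z).2.1, norm_mul]
  have l2 : ∀ z, G.lg (nuV m) (aV β) (gV g) Ψ z 2 =
      Real.log (‖Ψ (g 2)‖ * ∏ i, ‖z - Ψ (β i)‖ ^ m i) := by
    intro z
    rw [G.lg, (prodV β m g Ψ z).2.2, norm_mul, norm_prod]
    simp only [norm_zpow]
  have pos0 : ∀ z ∈ K, 0 < ‖Ψ (g 0)‖ * ‖z‖ := fun z hz =>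
    mul_pos (hgΨ 0) (norm_pos_iff.mpr (hne0 z hz))
  have pos1 : ∀ z ∈ K, 0 < ‖Ψ (g 1)‖ * ‖1 - z‖ := fun z hz =>
    mul_pos (hgΨ 1) (norm_pos_iff.mpr (hne1 z hz))
  have posβ : ∀ z ∈ K, ∀ i, 0 < ‖z - Ψ (β i)‖ := fun z hz i => norm_pos_iff.mpr (hneβ z hz i)
  have pos2 : ∀ z ∈ K, 0 < ‖Ψ (g 2)‖ * ∏ i, ‖z - Ψ (β i)‖ ^ m i := fun z hz =>
    mul_pos (hgΨ 2) (Finset.prod_pos fun i _ => zpow_pos (posβ z hz i) _)
  -- a bound for the parameter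
  obtain ⟨j0, hj0⟩ : ∃ j, w j ≠ 0 := by
    by_contra hcon
    push Not at hcon
    exact hw (funext hcon)
  obtain ⟨C, hC⟩ : ∃ C : ℝ, ∀ z ∈ K, |G.lg (nuV m) (aV β) (gV g) Ψ z j0| ≤ C := by
    have hcont : ContinuousOn (fun z => G.lg (nuV m) (aV β) (gV g) Ψ z j0) K := by
      fin_cases j0
      · refine ContinuousOn.congr (f := fun z => Real.log (‖Ψ (g 0)‖ * ‖z‖)) ?_
          (fun z _ => l0 z)
        exact ContinuousOn.log (by fun_prop) fun z hz => (pos0 z hz).ne'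
      · refine ContinuousOn.congr (f := fun z => Real.log (‖Ψ (g 1)‖ * ‖1 - z‖)) ?_
          (fun z _ => l1 z)
        exact ContinuousOn.log (by fun_prop) fun z hz => (pos1 z hz).ne'
      · refine ContinuousOn.congr (f := fun z => Real.log (‖Ψ (g 2)‖ *
          ∏ i, ‖z - Ψ (β i)‖ ^ m i)) ?_ (fun z _ => l2 z)
        refine ContinuousOn.log ?_ fun z hz => (pos2 z hz).ne'
        refine continuousOn_const.mul (continuousOn_finsetProd _ fun i _ => ?_)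
        exact ContinuousOn.zpow₀ (by fun_prop) _ fun z hz => Or.inl (posβ z hz i).ne'
    obtain ⟨C, hC⟩ := hK.exists_bound_of_continuousOn hcont
    exact ⟨C, fun z hz => by simpa using hC z hz⟩
  set R : ℝ := C / |w j0| with hR
  have hpq : ∀ k : ℤ, ((k.toNat : ℕ) : ℝ) - (((-k).toNat : ℕ) : ℝ) = (k : ℝ) := by
    intro k
    have h := Int.toNat_sub_toNat_neg k
    exact_mod_cast congrArg (fun x : ℤ => (x : ℝ)) h
  have hsum : ∑ i, (((m i).toNat : ℝ) - ((-m i).toNat : ℝ)) = ((∑ i, m i : ℤ) : ℝ) := by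
    rw [Int.cast_sum]
    exact Finset.sum_congr rfl fun i _ => hpq (m i)
  have hβΨ : Function.Injective fun i => Ψ (β i) := fun i j h => hβ (Ψ.injective h)
  have hfin : ∀ τ : Fin 3 → ℝ, τ ≠ 0 → _ := fun τ hτ =>
    finW (fun i => Ψ (β i)) hβΨ (fun i h => hβ0 i ((_root_.map_eq_zero Ψ).mp h))
      (fun i h => hβ1 i (Ψ.injective (by rw [h, map_one]))) (fun i => (m i).toNat)
      (fun i => (-m i).toNat) (by rw [hsum]; exact_mod_cast hm) (fun i hi => by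
        apply hm' i _ Ψ
        rw [hpq, hsum] at hi
        exact_mod_cast hi) (fun j => ‖Ψ (g j)‖) hgΨ τ hτ R
  refine ((hfin w hw).union (hfin (-w) (neg_ne_zero.mpr hw))).subset ?_
  rintro z ⟨hz, h1, h2⟩
  obtain ⟨t, ht⟩ := hpar (fun j => G.lg (nuV m) (aV β) (gV g) Ψ z j) h1 h2
  have htR : |t| ≤ R := by
    rw [hR, le_div_iff₀ (abs_pos.mpr hj0), ← abs_mul, ← ht j0]
    exact hC z hz
  have k0 : ‖Ψ (g 0)‖ * ‖z‖ = Real.exp (t * w 0) := by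
    rw [← ht 0, l0, Real.exp_log (pos0 z hz)]
  have k1 : ‖Ψ (g 1)‖ * ‖1 - z‖ = Real.exp (t * w 1) := by
    rw [← ht 1, l1, Real.exp_log (pos1 z hz)]
  have k2 : ‖Ψ (g 2)‖ * ∏ i, ‖z - Ψ (β i)‖ ^ (m i).toNat =
      Real.exp (t * w 2) * ∏ i, ‖z - Ψ (β i)‖ ^ (-m i).toNat := by
    rw [← ht 2, l2, Real.exp_log (pos2 z hz), mul_assoc, ← Finset.prod_mul_distrib]
    congr 1
    apply Finset.prod_congr rfl
    intro i _
    rw [← zpow_natCast, ← zpow_natCast, ← zpow_add₀ (posβ z hz i).ne']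
    congr 1
    have h := Int.toNat_sub_toNat_neg (m i)
    omega
  have k3 : ∀ i, z ≠ Ψ (β i) := fun i => sub_ne_zero.mp (hneβ z hz i)
  rcases le_total 0 t with h0 | h0
  · left
    refine ⟨t, ⟨h0, (le_abs_self t).trans htR⟩, k0, k1, k3, k2⟩
  · right
    refine ⟨-t, ⟨by linarith, (neg_le_abs t).trans htR⟩, ?_, ?_, k3, ?_⟩
    · rw [k0]; congr 1; simp
    · rw [k1]; congr 1; simp
    · rw [k2]; congr 2; simp

/-- the theorem -/
theorem fibred_graph {r n : ℕ} (β : Fin r → Qb) (hβ : Function.Injective β) (hβ0 : ∀ i, β i ≠ 0)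
    (hβ1 : ∀ i, β i ≠ 1) (m : Fin r → ℤ) (hm : ∑ i, m i ≠ 0)
    (hm' : ∀ i, m i = ∑ k, m k → ∀ Ψ : Qb →+* ℂ, (Ψ (β i)).im ≠ 0)
    (g : Fin 3 → Qb) (hg : ∀ j, g j ≠ 0)
    (α : Fin (n + 1) → Qb[X]) (hα : ∀ k, α k ≠ 0) (e : Fin (n + 1) → Fin 2 → ℕ)
    (he : Function.Injective e)
    (hspan : LinearIndependent ℤ (fun (i : Fin 2) (k : Fin (n + 1)) =>
      (e k i : ℤ) - (e 0 i : ℤ)))
    (hirr : {s : Qb | ¬ Irreducible (mv (fun k => (α k).eval s) e)}.Finite)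
    (hR : ¬ ∃ v : Fin 2 → ℕ, ∀ k, ∃ l, e k + e l = v)
    (E : Matrix (Fin 3 ⊕ Fin 2) (Fin 3 ⊕ Fin 2) ℤ) (hE : E.det ≠ 0) :
    ∃ U : Finset (Fin 3 ⊕ Fin 2 → ℤ), (∀ u ∈ U, u ≠ 0) ∧
      ∀ (L : Type) [Field L] [Algebra Qb L] (s : L) (x : Fin 3 ⊕ Fin 2 → L) (y : Fin 2 → L),
        (∀ k, x k ≠ 0) →
        ∏ l, x l ^ E (Sum.inl 0) l = algebraMap Qb L (g 0) * s →
        ∏ l, x l ^ E (Sum.inl 1) l = algebraMap Qb L (g 1) * (1 - s) →
        ∏ l, x l ^ E (Sum.inl 2) l = algebraMap Qb L (g 2) *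
          ∏ i, (s - algebraMap Qb L (β i)) ^ m i →
        (∀ i, ∏ l, x l ^ E (Sum.inr i) l = y i) →
        ∑ k, aeval s (α k) * ∏ i, y i ^ e k i = 0 →
        (∃ u : Fin 3 → (Fin 3 ⊕ Fin 2) → ℤ, LinearIndependent ℤ u ∧
          ∀ k, ∏ l, x l ^ u k l = 1) →
        ∃ u ∈ U, ∏ l, x l ^ u l = 1 := by
  obtain ⟨U, hU0, hU⟩ := Pool.Agent.Y740.Z.surfE (r + 2) n (nuV m) (nuV_indep m hm) (aV β)
    (aV_inj β hβ hβ0 hβ1) (gV g) (by
      intro j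
      fin_cases j
      · exact hg 0
      · exact neg_ne_zero.mpr (hg 1)
      · exact hg 2) (scattered_graph β hβ hβ0 hβ1 m hm hm' g hg) α hα e he hspan hirr (Or.inl hR) E hE
  refine ⟨U, hU0, fun L _ _ s x y hx h0 h1 h2 hy hf hrel => hU L s x y hx ?_ hy hf hrel⟩
  obtain ⟨p0, p1, p2⟩ := prodV β m g (algebraMap Qb L) s
  intro j
  fin_cases j
  · exact h0.trans p0.symm
  · exact h1.trans p1.symm
  · exact h2.trans p2.symm

end Run7.h498.GZ
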