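import Pool.Agent.Run7.h498.GZ.R4

set_option autoImplicit false

/-!
# Planes: the three places
-/

namespace Run7.h498.GZ

open NumberField Height Real Module Pool.Agent.Y740 Run7.h498

/-- the position of the second point at a corner: generic, or the first line meets the second or the
third there -/
def Cnr (zD zE : Prop) (p q s d N : ℝ) : Prop :=
  TG p q s d N ∨ (zD ∧ T0 p s q d N) ∨ (zE ∧ T0 p q s d N)

lemma TG.sw {p q s d N : ℝ} (h : TG p q s d N) : TG p s q d N := by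
  rcases h with ⟨h1, h2, h3⟩ | ⟨h1, h2, h3⟩ | h | h
  · exact Or.inl ⟨h2, h1, h3⟩
  · exact Or.inr (Or.inl ⟨h2, h1, h3⟩)
  · exact Or.inr (Or.inr (Or.inr h))
  · exact Or.inr (Or.inr (Or.inl h))

lemma T0_bound {p q s d N : ℝ} (hd : 0 ≤ d) (h : T0 p q s d N) :
    |p| ≤ N + 1 ∧ |q| ≤ N + 1 ∧ |s| ≤ N + 1 := by
  unfold T0 at h
  simp only [abs_le] at *
  rcases h with ⟨⟨x1, x2⟩, ⟨x3, x4⟩, x5, x6⟩ | ⟨⟨x1, x2⟩, ⟨x3, x4⟩, x5, x6⟩ |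
    ⟨⟨x1, x2⟩, ⟨x3, x4⟩, x5, x7, x6⟩ | ⟨⟨x1, x2⟩, ⟨x3, x4⟩, x5, x6⟩ |
    ⟨⟨x1, x2⟩, ⟨x3, x4⟩, x5, x6⟩ <;>
  refine ⟨⟨?_, ?_⟩, ⟨?_, ?_⟩, ⟨?_, ?_⟩⟩ <;> linarith

lemma Cnr.bound {zD zE : Prop} {p q s d N : ℝ} (hd : 0 ≤ d)
    (h : Cnr zD zE p q s d N) : |p| ≤ N + 1 ∧ |q| ≤ N + 1 ∧ |s| ≤ N + 1 := by
  rcases h with h | ⟨-, h⟩ | ⟨-, h⟩
  · obtain ⟨h1, h2, h3⟩ := h.bound hd
    exact ⟨by linarith, by linarith, by linarith⟩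
  · obtain ⟨h1, h2, h3⟩ := T0_bound hd h
    exact ⟨h1, h3, h2⟩
  · exact T0_bound hd h

lemma Cl3.mono {p p' p'' e e' a b c : ℝ} (h : Cl3 p p' p'' e a b c) (he : e ≤ e') :
    Cl3 p p' p'' e' a b c := by
  unfold Cl3 at *
  obtain ⟨⟨h1, h2⟩, ⟨h3, h4⟩, h5, h6⟩ := h
  exact ⟨⟨by linarith, by linarith⟩, ⟨by linarith, by linarith⟩, by linarith, by linarith⟩

lemma Cl3.swap {p p' p'' e a b c : ℝ} (h : Cl3 p p' p'' e a b c) : Cl3 p' p p'' e b a c :=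
  ⟨h.2.1, h.1, h.2.2⟩

lemma Cl3.swap2 {p p' p'' e a b c : ℝ} (h : Cl3 p p' p'' e a b c) : Cl3 p p'' p' e a c b :=
  ⟨h.1, h.2.2, h.2.1⟩

/-- the conclusion -/
def Fin3 (a b : Prop) (p p' p'' e : ℝ) : Prop :=
  Cl3 p p' p'' e (-1) 0 0 ∨ Cl3 p p' p'' e 0 (-1) 0 ∨ Cl3 p p' p'' e 0 0 (-1) ∨
    (a ∧ b ∧ Cl3 p p' p'' e (-1) (-1) 1)

/-- at most two special corners, the last one generic -/
lemma combS {zD zE zD' zE' : Prop} {p q s p' q' s' p'' q'' s'' d N N' N'' θ : ℝ}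
    (hd : 0 ≤ d) (hd1 : d ≤ 1 / 100)
    (hθ : 0 ≤ θ) (hθ1 : θ ≤ (N + N' + N'') / 100)
    (h0 : Cnr zD zE p q s d N) (h1 : Cnr zD' zE' p' q' s' d N') (h2 : TG p'' q'' s'' d N'')
    (nD : ¬ (zD ∧ zD')) (nE : ¬ (zE ∧ zE'))
    (e1 : |p + p' + p'' + 1| ≤ θ) (e2 : |q + q' + q'' + 1| ≤ θ) (e3 : |s + s' + s'' + 1| ≤ θ) :
    N + N' + N'' ≤ 20 ∧ Fin3 (zD ∨ zE) (zD' ∨ zE') p p' p'' (20 * (d + θ)) := by
  have hmono : 10 * (d + θ) ≤ 20 * (d + θ) := by linarith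
  have c1 : ∀ x y z t : ℝ, |x + y + z + t| ≤ θ → |y + x + z + t| ≤ θ := by
    intro x y z t h
    rwa [add_comm y x]
  have up : ∀ {P Q R : Prop}, (P ∨ Q ∨ R) → ∀ {S : Prop}, (P ∨ Q ∨ R ∨ S) := by
    intro P Q R h S
    tauto
  rcases h0 with h0 | ⟨z0, h0⟩ | ⟨z0, h0⟩ <;> rcases h1 with h1 | ⟨z1, h1⟩ | ⟨z1, h1⟩
  · obtain ⟨k0, k1⟩ := combG hd hd1 le_rfl hθ hθ1 h0 h1 h2 e1 e2 e3
    refine ⟨by linarith, up ?_⟩
    rcases k1 with k | k | k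
    · exact Or.inl (k.mono hmono)
    · exact Or.inr (Or.inl (k.mono hmono))
    · exact Or.inr (Or.inr (k.mono hmono))
  · obtain ⟨k0, k1⟩ := comb1 (N := N') (N' := N) (N'' := N'') hd hd1 hθ (by linarith) h1 h0.sw h2.sw
      (c1 _ _ _ _ e1) (c1 _ _ _ _ e3) (c1 _ _ _ _ e2)
    refine ⟨by linarith, up ?_⟩
    rcases k1 with k | k | k
    · exact Or.inr (Or.inl k.swap)
    · exact Or.inl k.swap
    · exact Or.inr (Or.inr k.swap)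
  · obtain ⟨k0, k1⟩ := comb1 (N := N') (N' := N) (N'' := N'') hd hd1 hθ (by linarith) h1 h0 h2
      (c1 _ _ _ _ e1) (c1 _ _ _ _ e2) (c1 _ _ _ _ e3)
    refine ⟨by linarith, up ?_⟩
    rcases k1 with k | k | k
    · exact Or.inr (Or.inl k.swap)
    · exact Or.inl k.swap
    · exact Or.inr (Or.inr k.swap)
  · obtain ⟨k0, k1⟩ := comb1 hd hd1 hθ hθ1 h0 h1.sw h2.sw e1 e3 e2
    exact ⟨k0, up k1⟩
  · exact absurd ⟨z0, z1⟩ nD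
  · obtain ⟨k0, k1⟩ := comb2 (N := N') (N' := N) (N'' := N'') hd hd1 hθ (by linarith) h1 h0 h2
      (c1 _ _ _ _ e1) (c1 _ _ _ _ e2) (c1 _ _ _ _ e3)
    refine ⟨by linarith, ?_⟩
    rcases k1 with k | k | k | k
    · exact Or.inr (Or.inl k.swap)
    · exact Or.inl k.swap
    · exact Or.inr (Or.inr (Or.inl k.swap))
    · exact Or.inr (Or.inr (Or.inr ⟨Or.inl z0, Or.inr z1, k.swap⟩))
  · obtain ⟨k0, k1⟩ := comb1 hd hd1 hθ hθ1 h0 h1 h2 e1 e2 e3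
    exact ⟨k0, up k1⟩
  · obtain ⟨k0, k1⟩ := comb2 hd hd1 hθ hθ1 h0 h1 h2 e1 e2 e3
    refine ⟨k0, ?_⟩
    rcases k1 with k | k | k | k
    · exact Or.inl k
    · exact Or.inr (Or.inl k)
    · exact Or.inr (Or.inr (Or.inl k))
    · exact Or.inr (Or.inr (Or.inr ⟨Or.inr z0, Or.inl z1, k⟩))
  · exact absurd ⟨z0, z1⟩ nE

/-- at most two special corners -/
lemma combAll {zD zE : Fin 3 → Prop} {p q s p' q' s' p'' q'' s'' d N N' N'' θ : ℝ}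
    (hd : 0 ≤ d) (hd1 : d ≤ 1 / 100)
    (hθ : 0 ≤ θ) (hθ1 : θ ≤ (N + N' + N'') / 100)
    (h0 : Cnr (zD 0) (zE 0) p q s d N) (h1 : Cnr (zD 1) (zE 1) p' q' s' d N')
    (h2 : Cnr (zD 2) (zE 2) p'' q'' s'' d N'')
    (nD : ∀ σ τ, σ ≠ τ → ¬ (zD σ ∧ zD τ)) (nE : ∀ σ τ, σ ≠ τ → ¬ (zE σ ∧ zE τ))
    (hg : ∃ σ, ¬ zD σ ∧ ¬ zE σ)
    (e1 : |p + p' + p'' + 1| ≤ θ) (e2 : |q + q' + q'' + 1| ≤ θ) (e3 : |s + s' + s'' + 1| ≤ θ) :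
    N + N' + N'' ≤ 20 ∧ (Cl3 p p' p'' (20 * (d + θ)) (-1) 0 0 ∨
      Cl3 p p' p'' (20 * (d + θ)) 0 (-1) 0 ∨ Cl3 p p' p'' (20 * (d + θ)) 0 0 (-1) ∨
      ((zD 0 ∨ zE 0) ∧ (zD 1 ∨ zE 1) ∧ Cl3 p p' p'' (20 * (d + θ)) (-1) (-1) 1) ∨
      ((zD 0 ∨ zE 0) ∧ (zD 2 ∨ zE 2) ∧ Cl3 p p' p'' (20 * (d + θ)) (-1) 1 (-1)) ∨
      ((zD 1 ∨ zE 1) ∧ (zD 2 ∨ zE 2) ∧ Cl3 p p' p'' (20 * (d + θ)) 1 (-1) (-1))) := by
  have gen : ∀ {a b : Prop} {p q s N : ℝ}, Cnr a b p q s d N → ¬ a → ¬ b → TG p q s d N := by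
    intro a b p q s N h ha hb
    rcases h with h | ⟨h, -⟩ | ⟨h, -⟩
    · exact h
    · exact absurd h ha
    · exact absurd h hb
  have r1 : ∀ x y z t : ℝ, |x + y + z + t| ≤ θ → |x + z + y + t| ≤ θ := by
    intro x y z t h
    rwa [add_right_comm x z y]
  have r2 : ∀ x y z t : ℝ, |x + y + z + t| ≤ θ → |y + z + x + t| ≤ θ := by
    intro x y z t h
    have e : y + z + x + t = x + y + z + t := by ring
    rwa [e]
  obtain ⟨σ, g0, g1⟩ := hg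
  fin_cases σ
  · obtain ⟨k0, k1⟩ := combS (N := N') (N' := N'') (N'' := N) hd hd1 hθ (by linarith) h1 h2
      (gen h0 g0 g1) (nD 1 2 (by decide))
      (nE 1 2 (by decide)) (r2 _ _ _ _ e1) (r2 _ _ _ _ e2) (r2 _ _ _ _ e3)
    refine ⟨by linarith, ?_⟩
    rcases k1 with k | k | k | ⟨ka, kb, k⟩
    · exact Or.inr (Or.inl ⟨k.2.2, k.1, k.2.1⟩)
    · exact Or.inr (Or.inr (Or.inl ⟨k.2.2, k.1, k.2.1⟩))
    · exact Or.inl ⟨k.2.2, k.1, k.2.1⟩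
    · exact Or.inr (Or.inr (Or.inr (Or.inr (Or.inr ⟨ka, kb, ⟨k.2.2, k.1, k.2.1⟩⟩))))
  · obtain ⟨k0, k1⟩ := combS (N := N) (N' := N'') (N'' := N') hd hd1 hθ (by linarith) h0 h2
      (gen h1 g0 g1) (nD 0 2 (by decide))
      (nE 0 2 (by decide)) (r1 _ _ _ _ e1) (r1 _ _ _ _ e2) (r1 _ _ _ _ e3)
    refine ⟨by linarith, ?_⟩
    rcases k1 with k | k | k | ⟨ka, kb, k⟩
    · exact Or.inl k.swap2
    · exact Or.inr (Or.inr (Or.inl k.swap2))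
    · exact Or.inr (Or.inl k.swap2)
    · exact Or.inr (Or.inr (Or.inr (Or.inr (Or.inl ⟨ka, kb, k.swap2⟩))))
  · obtain ⟨k0, k1⟩ := combS hd hd1 hθ hθ1 h0 h1 (gen h2 g0 g1) (nD 0 1 (by decide))
      (nE 0 1 (by decide)) e1 e2 e3
    refine ⟨k0, ?_⟩
    rcases k1 with k | k | k | ⟨ka, kb, k⟩
    · exact Or.inl k
    · exact Or.inr (Or.inl k)
    · exact Or.inr (Or.inr (Or.inl k))
    · exact Or.inr (Or.inr (Or.inr (Or.inl ⟨ka, kb, k⟩)))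

section
variable {K : Type} [Field K] [NumberField K]

/-- the size of a linear polynomial near a corner at which it vanishes -/
lemma size_special {S : Finset (FinitePlace K)} {v : Pl S} (B : Fin (1 + 1) → K) {x : K}
    (σ : Fin 3) {e0 : ℝ}
    (he0 : kp v + ∑ i, |lg v (B i)| + ∑ σ, |lg v (cval1 B σ)| ≤ e0)
    (hL : cval1 B σ = 0) (hx0 : x ≠ 0) (hx1 : 1 - x ≠ 0) (hF : fval1 B x ≠ 0)
    {N ε γ0 γ1 c X Y : ℝ} (hN : 0 < N) (hε : 0 < ε) (heN : 2 * e0 ≤ ε * N)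
    (hC : 40 ≤ c) (hγ0 : |γ0| ≤ e0) (hγ1 : |γ1| ≤ e0)
    (hXY : (σ = 0 ∧ X = -1 ∧ Y = 0) ∨ (σ = 1 ∧ X = 0 ∧ Y = -1) ∨ (σ = 2 ∧ X = 1 ∧ Y = 1))
    (hX : |(lg v x + γ0) / N - X| ≤ ε) (hY : |(lg v (1 - x) + γ1) / N - Y| ≤ ε) :
    |lg v (fval1 B x) / N - pol σ * (1 : ℕ) - (-1)| ≤ c * ε := by
  have he : 0 ≤ e0 := (abs_nonneg _).trans hγ0
  have hk := kp_nonneg v
  have hB : ∀ i, |lg v (B i)| ≤ e0 := by
    intro i
    have h1 : |lg v (B i)| ≤ ∑ i, |lg v (B i)| :=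
      Finset.single_le_sum (f := fun i => |lg v (B i)|) (fun _ _ => abs_nonneg _)
        (Finset.mem_univ i)
    have h2 : 0 ≤ ∑ σ, |lg v (cval1 B σ)| := Finset.sum_nonneg fun _ _ => abs_nonneg _
    linarith
  have heN' : e0 / N ≤ ε / 2 := by
    rw [div_le_iff₀ hN]; linarith
  have hdiv : ∀ t : ℝ, |t| ≤ e0 → |t / N| ≤ ε / 2 := by
    intro t ht
    rw [abs_div, abs_of_pos hN]
    exact (div_le_div_of_nonneg_right ht hN.le).trans heN'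
  have hcε : 40 * ε ≤ c * ε := mul_le_mul_of_nonneg_right hC hε.le
  rw [fval1, Fin.sum_univ_two] at hF ⊢
  rw [cval1, Fin.sum_univ_two] at hL
  simp only [Fin.val_zero, Fin.val_one, pow_zero, pow_one, mul_one] at hF ⊢
  rcases hXY with ⟨rfl, rfl, rfl⟩ | ⟨rfl, rfl, rfl⟩ | ⟨rfl, rfl, rfl⟩
  · have h0 : B 0 = 0 := by simpa [eps] using hL
    rw [h0, zero_add] at hF ⊢
    rw [lg_mul v (left_ne_zero_of_mul hF) hx0]
    have h1 := hdiv _ (hB 1)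
    have h2 := hdiv _ hγ0
    have e : (lg v (B 1) + lg v x) / N - (pol (0 : Fin 3) : ℕ) * ((1 : ℕ) : ℝ) - (-1) =
        lg v (B 1) / N - γ0 / N + ((lg v x + γ0) / N - (-1)) := by
      simp [pol]; ring
    rw [e]
    have h3 := abs_add_le (lg v (B 1) / N - γ0 / N) ((lg v x + γ0) / N - (-1))
    have h4 := abs_sub (lg v (B 1) / N) (γ0 / N)
    linarith
  · have h0 : B 0 = -B 1 := by
      have : B 0 + B 1 = 0 := by simpa [eps] using hL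
      linear_combination this
    have e1 : B 0 + B 1 * x = B 0 * (1 - x) := by rw [h0]; ring
    rw [e1] at hF ⊢
    rw [lg_mul v (left_ne_zero_of_mul hF) hx1]
    have h1 := hdiv _ (hB 0)
    have h2 := hdiv _ hγ1
    have e : (lg v (B 0) + lg v (1 - x)) / N - (pol (1 : Fin 3) : ℕ) * ((1 : ℕ) : ℝ) - (-1) =
        lg v (B 0) / N - γ1 / N + ((lg v (1 - x) + γ1) / N - (-1)) := by
      simp [pol]; ring
    rw [e]
    have h3 := abs_add_le (lg v (B 0) / N - γ1 / N) ((lg v (1 - x) + γ1) / N - (-1))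
    have h4 := abs_sub (lg v (B 0) / N) (γ1 / N)
    linarith
  · have h0 : B 1 = 0 := by simpa [eps] using hL
    rw [h0, zero_mul, add_zero] at hF ⊢
    have h1 := hdiv _ (hB 0)
    have e : lg v (B 0) / N - (pol (2 : Fin 3) : ℕ) * ((1 : ℕ) : ℝ) - (-1) = lg v (B 0) / N := by
      simp [pol]
    rw [e]
    linarith

/-- the tree at one of the three places -/
lemma tree_placeS {S : Finset (FinitePlace K)} {v : Pl S} (B : Fin 3 → Fin (1 + 1) → K)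
    {x y : K} (σ : Fin 3) {e0 : ℝ}
    (he0 : ∀ k, kp v + ∑ i, |lg v (B k i)| + ∑ σ, |lg v (cval1 (B k) σ)| ≤ e0) (hk : kp v ≤ e0)
    (hL2 : cval1 (B 2) σ ≠ 0) (hx0 : x ≠ 0) (hx1 : 1 - x ≠ 0) (hy : y ≠ 0)
    (hy1 : y - fval1 (B 0) x ≠ 0) (hy2 : y - fval1 (B 1) x ≠ 0) (hB : ∀ k, fval1 (B k) x ≠ 0)
    (hBs : fval1 (B 0) x = fval1 (B 1) x + fval1 (B 2) x)
    (hBs' : cval1 (B 0) σ = cval1 (B 1) σ + cval1 (B 2) σ)
    {N ε c X Y : ℝ} {γ : Fin 5 → ℝ} (hN : 0 < N) (hε : 0 < ε) (heN : 2 * e0 ≤ ε * N)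
    (hC : 40 ≤ c) (hεC : ε * c ≤ 1 / 1000) (hγ : ∀ l, |γ l| ≤ e0)
    (hXY : (σ = 0 ∧ X = -1 ∧ Y = 0) ∨ (σ = 1 ∧ X = 0 ∧ Y = -1) ∨ (σ = 2 ∧ X = 1 ∧ Y = 1))
    (hX : |(lg v x + γ 0) / N - X| ≤ ε) (hY : |(lg v (1 - x) + γ 1) / N - Y| ≤ ε) :
    ∃ N', Cnr (cval1 (B 0) σ = 0) (cval1 (B 1) σ = 0)
      ((lg v y + γ 2) / N - pol σ * (1 : ℕ)) ((lg v (y - fval1 (B 0) x) + γ 3) / N - pol σ * (1 : ℕ))
      ((lg v (y - fval1 (B 1) x) + γ 4) / N - pol σ * (1 : ℕ)) (3 * ((2 * c + 2) * ε)) N' := by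
  have hc : 0 ≤ c := by linarith
  have hC' : 10 * ((1 : ℕ) : ℝ) + 30 ≤ c := by push_cast; linarith
  have hg := fun k (h : cval1 (B k) σ ≠ 0) => size_corner (B k) σ (he0 k) h hx0 hx1 (hB k) hN hε heN
    hC' hεC (hγ 0) (hγ 1) hXY hX hY
  have hsp := fun k (h : cval1 (B k) σ = 0) => size_special (B k) σ (he0 k) h hx0 hx1 (hB k) hN hε
    heN hC (hγ 0) (hγ 1) hXY hX hY
  have hcε : 0 ≤ c * ε := by positivity
  have hcε' : c * ε ≤ 1 / 1000 := by rw [mul_comm]; exact hεC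
  have hk0 : (0 : ℝ) ≤ 3 / 2 * ((2 * c + 2) * ε) := by positivity
  have hk1 : 3 / 2 * ((2 * c + 2) * ε) ≤ 1 / 10 := by nlinarith
  have t1 : ∀ w : ℝ, |lg v (fval1 (B 0) x) / N - pol σ * (1 : ℕ) - w| ≤ c * ε → _ := fun w h =>
    tri_corner (v := v) (C := c) (γ := γ 2) (γ' := γ 3) (w := w) (hB 0) hy hy1
    (by ring) hN hk heN hcε (hγ 2) (hγ 3) h
  have t2 : ∀ w : ℝ, |lg v (fval1 (B 1) x) / N - pol σ * (1 : ℕ) - w| ≤ c * ε → _ := fun w h =>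
    tri_corner (v := v) (C := c) (γ := γ 2) (γ' := γ 4) (w := w) (hB 1) hy hy2
    (by ring) hN hk heN hcε (hγ 2) (hγ 4) h
  have t3 := tri_corner (v := v) (C := c) (γ := γ 4) (γ' := γ 3) (hB 2) hy2 hy1
    (by rw [hBs]; ring) hN hk heN hcε (hγ 4) (hγ 3) (hg 2 hL2)
  have wk : ∀ {a b d : ℝ}, Tri a b d ((2 * c + 2) * ε) → Tri a b d (3 / 2 * ((2 * c + 2) * ε)) := by
    intro a b d h
    have : (0 : ℝ) ≤ (2 * c + 2) * ε := by positivity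
    exact h.pert (δ := 0) (by simp) (by simp) (by simp) (by linarith)
  have e3 : 2 * (3 / 2 * ((2 * c + 2) * ε)) = 3 * ((2 * c + 2) * ε) := by ring
  by_cases h0 : cval1 (B 0) σ = 0
  · have h1 : cval1 (B 1) σ ≠ 0 := by
      intro h1
      apply hL2
      rw [h0, h1, zero_add] at hBs'
      exact hBs'.symm
    obtain ⟨N', hN'⟩ := tree0 hk0 hk1 (wk (t2 0 (by simpa using hg 1 h1)))
      (wk (t1 (-1) (hsp 0 h0)).swap) (wk t3.swap.swap2)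
    rw [e3] at hN'
    exact ⟨N', Or.inr (Or.inl ⟨h0, hN'⟩)⟩
  · by_cases h1 : cval1 (B 1) σ = 0
    · obtain ⟨N', hN'⟩ := tree0 hk0 hk1 (wk (t1 0 (by simpa using hg 0 h0)))
        (wk (t2 (-1) (hsp 1 h1)).swap) (wk t3.swap2)
      rw [e3] at hN'
      exact ⟨N', Or.inr (Or.inr ⟨h1, hN'⟩)⟩
    · obtain ⟨N', hN'⟩ := treeG (by positivity) (t1 0 (by simpa using hg 0 h0))
        (t2 0 (by simpa using hg 1 h1)) t3.swap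
      exact ⟨N', Or.inl hN'⟩

end

end Run7.h498.GZ
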