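import Pool.Agent.Run7.h498.GZ.W1
import Pool.Agent.Run7.h498.GZ.R7

set_option autoImplicit false

/-!
# Planes: the first step
-/

namespace Run7.h498.GZ

open NumberField Height Real Module Pool.Agent.Y740 Pool.Agent.Y740.G Run7.h498

lemma TG.low {p q s d N : ℝ} (hd : 0 ≤ d) (h : TG p q s d N) : d ≤ N := by
  rcases h with ⟨-, -, h1, h2⟩ | ⟨-, -, h1, h2⟩ | ⟨-, -, h1, h2⟩ | ⟨-, -, h1, h2⟩ <;> linarith

lemma T0_low {p q s d N : ℝ} (hd : 0 ≤ d) (h : T0 p q s d N) : d ≤ N := by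
  rcases h with ⟨-, -, h1, h2⟩ | ⟨-, -, h1, h2⟩ | ⟨-, -, -, h1, h2⟩ | ⟨-, -, h1, h2⟩ |
    ⟨-, -, h1, h2⟩ <;> linarith

lemma Cnr.low {zD zE : Prop} {p q s d N : ℝ} (hd : 0 ≤ d) (h : Cnr zD zE p q s d N) : d ≤ N := by
  rcases h with h | ⟨-, h⟩ | ⟨-, h⟩
  · exact h.low hd
  · exact T0_low hd h
  · exact T0_low hd h

/-- the possible exponents -/
def Exps (sp : Fin 3 → Prop) (α β : ℤ) : Prop :=
  (α = 1 ∧ β = 0) ∨ (α = 0 ∧ β = 1) ∨ (α = 0 ∧ β = 0) ∨ (sp 0 ∧ sp 1 ∧ α = 1 ∧ β = 1) ∨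
    (sp 0 ∧ sp 2 ∧ α = 1 ∧ β = -1) ∨ (sp 1 ∧ sp 2 ∧ α = -1 ∧ β = 1)

/-- The first step: the height of `x` or of `y / (x ^ α (1 - x) ^ β)` is bounded. -/
theorem step1P : ∃ C : ℝ, 0 < C ∧
    ∀ (K : Type) [Field K] [NumberField K] (B : Fin 3 → Fin (1 + 1) → K) (x y : K)
      (z g : Fin 5 → K), (∀ l, z l ≠ 0) → x ≠ 0 → 1 - x ≠ 0 → y ≠ 0 →
      y - fval1 (B 0) x ≠ 0 → y - fval1 (B 1) x ≠ 0 → (∀ k, fval1 (B k) x ≠ 0) →
      fval1 (B 0) x = fval1 (B 1) x + fval1 (B 2) x →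
      (∀ σ, cval1 (B 0) σ = cval1 (B 1) σ + cval1 (B 2) σ) → (∀ σ, cval1 (B 2) σ ≠ 0) →
      (∀ σ τ, σ ≠ τ → ¬ (cval1 (B 0) σ = 0 ∧ cval1 (B 0) τ = 0)) →
      (∀ σ τ, σ ≠ τ → ¬ (cval1 (B 1) σ = 0 ∧ cval1 (B 1) τ = 0)) →
      (∃ σ, ¬ cval1 (B 0) σ = 0 ∧ ¬ cval1 (B 1) σ = 0) →
      (∀ l, g l ≠ 0) → z 0 = x * g 0 → z 1 = (1 - x) * g 1 → z 2 = y * g 2 →
      z 3 = (y - fval1 (B 0) x) * g 3 → z 4 = (y - fval1 (B 1) x) * g 4 → HasRelations z 3 →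
      logHeight₁ x ≤ C * (finrank ℚ K + (∑ k, ∑ i, logHeight₁ (B k i) +
        ∑ k, ∑ σ, logHeight₁ (cval1 (B k) σ) + ∑ l, logHeight₁ (g l))) ∨
      ∃ α β : ℤ, Exps (fun σ => cval1 (B 0) σ = 0 ∨ cval1 (B 1) σ = 0) α β ∧
        logHeight₁ (y / (x ^ α * (1 - x) ^ β)) ≤ C * (finrank ℚ K +
        (∑ k, ∑ i, logHeight₁ (B k i) +
        ∑ k, ∑ σ, logHeight₁ (cval1 (B k) σ) + ∑ l, logHeight₁ (g l))) := by
  obtain ⟨c, hc⟩ : ∃ c : ℝ, c = 100 := ⟨_, rfl⟩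
  refine ⟨10000000 * c, by linarith, ?_⟩
  intro K _ _ B x y z g hz hx0 hx1 hy hy1 hy2 hB hBs hBs' hcor nD nE hgen hg z0 z1 z2 z3 z4 hrel
  obtain ⟨S, e0, hS, he0, hγ, hkp, hγ2, hsum⟩ := err2 B g [x, 1 - x, y] (by
    intro z hz
    simp only [List.mem_cons, List.not_mem_nil, or_false] at hz
    rcases hz with rfl | rfl | rfl <;> assumption)
  have hHA0 : 0 ≤ ∑ k, ∑ i, logHeight₁ (B k i) :=
    Finset.sum_nonneg fun _ _ => Finset.sum_nonneg fun _ _ => ht_nonneg' _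
  have hHL0 : 0 ≤ ∑ k, ∑ σ, logHeight₁ (cval1 (B k) σ) :=
    Finset.sum_nonneg fun _ _ => Finset.sum_nonneg fun _ _ => ht_nonneg' _
  have hHg0 : 0 ≤ ∑ l, logHeight₁ (g l) := Finset.sum_nonneg fun _ _ => ht_nonneg' _
  obtain ⟨H, hH⟩ : ∃ H : ℝ, H = finrank ℚ K + (∑ k, ∑ i, logHeight₁ (B k i) +
        ∑ k, ∑ σ, logHeight₁ (cval1 (B k) σ) + ∑ l, logHeight₁ (g l)) := ⟨_, rfl⟩
  rw [← hH] at hsum ⊢
  have hd0 : (1 : ℝ) ≤ finrank ℚ K := by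
    have : 0 < finrank ℚ K := finrank_pos
    exact_mod_cast this
  have hHd : (finrank ℚ K : ℝ) ≤ H := by rw [hH]; linarith
  clear hH hHA0 hHL0 hHg0
  have sx : SU S x := hS _ (by simp)
  have sx' : SU S (1 - x) := hS _ (by simp)
  have sy : SU S y := hS _ (by simp)
  clear hS
  have hHpos : 0 < H := by linarith
  by_cases hcon : logHeight₁ x ≤ 10000000 * c * H
  · exact Or.inl hcon
  right
  rw [not_le] at hcon
  obtain ⟨h, hhdef⟩ : ∃ h, h = logHeight₁ x := ⟨_, rfl⟩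
  rw [← hhdef] at hcon
  have hhpos : 0 < h := lt_trans (by rw [hc]; positivity) hcon
  obtain ⟨ε, hε⟩ : ∃ ε, ε = 16 * H / h := ⟨_, rfl⟩
  have hεpos : 0 < ε := by rw [hε]; positivity
  have hεh : ε * h = 16 * H := by rw [hε]; field_simp
  have hεc' : ε * c ≤ 1 / 100000 := by
    rw [hε, div_mul_eq_mul_div, div_le_iff₀ hhpos]
    linarith
  have hεc : ε * c ≤ 1 / 1000 := by linarith
  have hε7 : ε ≤ 1 / 10000000 := by rw [hc] at hεc'; linarith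
  have hε1 : ε ≤ 1 / 1000 := by linarith
  obtain ⟨v0, v1, v2, hTP⟩ := exists_TP hx0 hx1 sx sx' (fun v => lg v (g 0)) (fun v => lg v (g 1))
    (fun v => 2 * e0 v) (fun v => hγ2 v 0 1 (by decide)) (4 * H)
    (by rw [← Finset.mul_sum]; linarith) (by positivity) ε hεpos
    hε1 (by rw [← hhdef, hεh]; linarith)
  have l0 : ∀ v : Pl S, lg v (z 0) = lg v x + lg v (g 0) := fun v => by rw [z0, lg_mul v hx0 (hg 0)]
  have l1 : ∀ v : Pl S, lg v (z 1) = lg v (1 - x) + lg v (g 1) := fun v => by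
    rw [z1, lg_mul v hx1 (hg 1)]
  have l2 : ∀ v : Pl S, lg v (z 2) = lg v y + lg v (g 2) := fun v => by
    rw [z2, lg_mul v hy (hg 2)]
  have l3 : ∀ v : Pl S, lg v (z 3) = lg v (y - fval1 (B 0) x) + lg v (g 3) := fun v => by
    rw [z3, lg_mul v hy1 (hg 3)]
  have l4 : ∀ v : Pl S, lg v (z 4) = lg v (y - fval1 (B 1) x) + lg v (g 4) := fun v => by
    rw [z4, lg_mul v hy2 (hg 4)]
  have dd2 := det_of_rel' (S := S) z hz hrel 0 1 2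
  have dd3 := det_of_rel' (S := S) z hz hrel 0 1 3
  have dd4 := det_of_rel' (S := S) z hz hrel 0 1 4
  simp only [l0, l1, l2, l3, l4] at dd2 dd3 dd4
  have N0 := hTP.h0
  have N1 := hTP.h1
  have N2 := hTP.h2
  have hc40 : 40 ≤ c := by rw [hc]; norm_num
  obtain ⟨M0, T0⟩ := tree_placeS B 0 (he0 v0) (hkp v0) (hcor 0) hx0 hx1 hy hy1 hy2 hB hBs (hBs' 0)
    (X := -1) (Y := 0) (γ := fun l => lg v0 (g l)) N0 hεpos hTP.h0' hc40 hεc (hγ v0)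
    (Or.inl ⟨rfl, rfl, rfl⟩) (by
      rw [div_neg, div_self (by linarith : (lg v0 x + lg v0 (g 0)) ≠ 0)]
      simpa using hεpos.le) (by rw [sub_zero]; exact hTP.hb0)
  obtain ⟨M1, T1⟩ := tree_placeS B 1 (he0 v1) (hkp v1) (hcor 1) hx0 hx1 hy hy1 hy2 hB hBs (hBs' 1)
    (X := 0) (Y := -1) (γ := fun l => lg v1 (g l)) N1 hεpos hTP.h1' hc40 hεc (hγ v1)
    (Or.inr (Or.inl ⟨rfl, rfl, rfl⟩)) (by rw [sub_zero]; exact hTP.ha1) (by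
      rw [div_neg, div_self (by linarith : (lg v1 (1 - x) + lg v1 (g 1)) ≠ 0)]
      simpa using hεpos.le)
  obtain ⟨M2, T2⟩ := tree_placeS B 2 (he0 v2) (hkp v2) (hcor 2) hx0 hx1 hy hy1 hy2 hB hBs (hBs' 2)
    (X := 1) (Y := 1) (γ := fun l => lg v2 (g l)) N2 hεpos hTP.h2' hc40 hεc (hγ v2)
    (Or.inr (Or.inr ⟨rfl, rfl, rfl⟩)) (by
      rw [div_self (by linarith : (lg v2 x + lg v2 (g 0)) ≠ 0)]
      simpa using hεpos.le) hTP.hb2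
  have p0 : ((pol (0 : Fin 3) : ℕ) : ℝ) * ((1 : ℕ) : ℝ) = 0 := by simp [pol]
  have p1 : ((pol (1 : Fin 3) : ℕ) : ℝ) * ((1 : ℕ) : ℝ) = 0 := by simp [pol]
  have p2 : ((pol (2 : Fin 3) : ℕ) : ℝ) * ((1 : ℕ) : ℝ) = 1 := by simp [pol]
  rw [p0, sub_zero, sub_zero, sub_zero] at T0
  rw [p1, sub_zero, sub_zero, sub_zero] at T1
  rw [p2] at T2
  have hδ0 : 0 ≤ 3 * ((2 * c + 2) * ε) := by rw [hc]; positivity
  have hδe : 3 * ((2 * c + 2) * ε) = 606 * ε := by rw [hc]; ring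
  have hδ1 : 3 * ((2 * c + 2) * ε) ≤ 1 / 100 := by rw [hδe]; linarith
  obtain ⟨a0, a1, a2⟩ := T0.bound hδ0
  obtain ⟨b0, b1, b2⟩ := T1.bound hδ0
  have k0 := T0.low hδ0
  have k1 := T1.low hδ0
  have k2 := T2.low hδ0
  have s2 := hTP.bal dd2 a0 b0
  have s3 := hTP.bal dd3 a1 b1
  have s4 := hTP.bal dd4 a2 b2
  have es : ∀ X Y Z : ℝ, X + Y + (Z - 1) + 1 = X + Y + Z := fun X Y Z => by ring
  rw [← es] at s2 s3 s4
  have kk : 0 ≤ M0 + M1 := by linarith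
  have hθ0 : 0 ≤ 3 * ε * (M0 + 1 + (M1 + 1)) := by
    have : 0 ≤ M0 + 1 + (M1 + 1) := by linarith
    positivity
  have hθ1 : 3 * ε * (M0 + 1 + (M1 + 1)) ≤ (M0 + M1 + M2) / 100 := by
    rw [hδe] at k0 k1 k2
    have h1 : ε * (M0 + M1) ≤ 1 / 10000000 * (M0 + M1) := mul_le_mul_of_nonneg_right hε7 kk
    have h2 : 3 * ε * (M0 + 1 + (M1 + 1)) = 3 * (ε * (M0 + M1)) + 6 * ε := by ring
    rw [h2]
    linarith
  obtain ⟨hM, hcl⟩ := combAll (zD := fun σ => cval1 (B 0) σ = 0) (zE := fun σ => cval1 (B 1) σ = 0)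
    hδ0 hδ1 hθ0 hθ1 T0 T1 T2 nD nE hgen s2 s3 s4
  have herr : 20 * (3 * ((2 * c + 2) * ε) + 3 * ε * (M0 + 1 + (M1 + 1))) ≤ (200 * c) * ε := by
    rw [hδe] at k0 k1 k2 ⊢
    have h1 : ε * (M0 + M1) ≤ ε * 20 := by
      apply mul_le_mul_of_nonneg_left _ hεpos.le
      linarith
    have h2 : 3 * ε * (M0 + 1 + (M1 + 1)) = 3 * (ε * (M0 + M1)) + 6 * ε := by ring
    rw [h2, hc]
    linarith
  clear s2 s3 s4 T0 T1 T2 a0 a1 a2 b0 b1 b2 es dd3 dd4 l0 l1 l2 l3 l4 he0 hkp hγ2 hθ1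
  obtain ⟨α, β, hαβ, hα, hβ, q0, q1⟩ : ∃ α β : ℤ,
      Exps (fun σ => cval1 (B 0) σ = 0 ∨ cval1 (B 1) σ = 0) α β ∧
      |(α : ℝ)| ≤ 1 ∧ |(β : ℝ)| ≤ 1 ∧
      |(lg v0 y + lg v0 (g 2)) / -(lg v0 x + lg v0 (g 0)) + α| ≤ (200 * c) * ε ∧
      |(lg v1 y + lg v1 (g 2)) / -(lg v1 (1 - x) + lg v1 (g 1)) + β| ≤ (200 * c) * ε := by
    have fin : ∀ (α β : ℤ) (r : ℝ), Exps (fun σ => cval1 (B 0) σ = 0 ∨ cval1 (B 1) σ = 0) α β →
        |(α : ℝ)| ≤ 1 → |(β : ℝ)| ≤ 1 →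
        Cl3 ((lg v0 y + lg v0 (g 2)) / -(lg v0 x + lg v0 (g 0)))
          ((lg v1 y + lg v1 (g 2)) / -(lg v1 (1 - x) + lg v1 (g 1)))
          ((lg v2 y + lg v2 (g 2)) / (lg v2 x + lg v2 (g 0)) - 1)
          (20 * (3 * ((2 * c + 2) * ε) + 3 * ε * (M0 + 1 + (M1 + 1)))) (-α) (-β) r →
        ∃ α β : ℤ, Exps (fun σ => cval1 (B 0) σ = 0 ∨ cval1 (B 1) σ = 0) α β ∧
        |(α : ℝ)| ≤ 1 ∧ |(β : ℝ)| ≤ 1 ∧
        |(lg v0 y + lg v0 (g 2)) / -(lg v0 x + lg v0 (g 0)) + α| ≤ (200 * c) * ε ∧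
        |(lg v1 y + lg v1 (g 2)) / -(lg v1 (1 - x) + lg v1 (g 1)) + β| ≤ (200 * c) * ε := by
      intro α β r h1 h2 h3 h4
      refine ⟨α, β, h1, h2, h3, ?_, ?_⟩
      · have := h4.1
        rw [abs_le]; constructor <;> linarith
      · have := h4.2.1
        rw [abs_le]; constructor <;> linarith
    rcases hcl with k | k | k | ⟨u, w, k⟩ | ⟨u, w, k⟩ | ⟨u, w, k⟩
    · exact fin 1 0 0 (Or.inl ⟨rfl, rfl⟩) (by simp) (by simp) (by simpa using k)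
    · exact fin 0 1 0 (Or.inr (Or.inl ⟨rfl, rfl⟩)) (by simp) (by simp) (by simpa using k)
    · exact fin 0 0 (-1) (Or.inr (Or.inr (Or.inl ⟨rfl, rfl⟩))) (by simp) (by simp) (by simpa using k)
    · exact fin 1 1 1 (Or.inr (Or.inr (Or.inr (Or.inl ⟨u, w, rfl, rfl⟩)))) (by simp) (by simp)
        (by simpa using k)
    · exact fin 1 (-1) (-1) (Or.inr (Or.inr (Or.inr (Or.inr (Or.inl ⟨u, w, rfl, rfl⟩)))))
        (by simp) (by simp) (by simpa using k)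
    · exact fin (-1) 1 (-1) (Or.inr (Or.inr (Or.inr (Or.inr (Or.inr ⟨u, w, rfl, rfl⟩)))))
        (by simp) (by simp) (by simpa using k)
  refine ⟨α, β, hαβ, ?_⟩
  have hbig : (200 * c + |(α : ℝ)| + |(β : ℝ)|) * ε ≤ 1 := by
    have : (200 * c + |(α : ℝ)| + |(β : ℝ)|) * ε ≤ (200 * c + 1 + 1) * ε :=
      mul_le_mul_of_nonneg_right (by linarith) hεpos.le
    rw [hc] at this ⊢
    linarith
  have hthird := hTP.third' (u := fun v => lg v y + lg v (g 2)) dd2 (C := 200 * c) hbig q0 q1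
  have hne0 := zpow_ne_zero α hx0
  have hne1 := zpow_ne_zero β hx1
  have hc0 : 0 ≤ c := by linarith
  have := plane3 (η := y / (x ^ α * (1 - x) ^ β)) sx sx'
    (sy.div ((SU_zpow sx α).mul (SU_zpow sx' β))) (fun v => lg v (g 0)) (fun v => lg v (g 1))
    (fun v => lg v (g 2) - α * lg v (g 0) - β * lg v (g 1)) e0 (fun v => hγ v 0) (fun v => hγ v 1)
    (1 + |(α : ℝ)| + |(β : ℝ)|) (fun v => by
      have h1 := hγ v 0
      have h2 := hγ v 1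
      have h3 := hγ v 2
      have h4 := abs_sub (lg v (g 2) - α * lg v (g 0)) (β * lg v (g 1))
      have h5 := abs_sub (lg v (g 2)) (α * lg v (g 0))
      rw [abs_mul] at h4 h5
      have h6 := mul_le_mul_of_nonneg_left h1 (abs_nonneg (α : ℝ))
      have h7 := mul_le_mul_of_nonneg_left h2 (abs_nonneg (β : ℝ))
      linarith) H (200 * c + |(α : ℝ)| + |(β : ℝ)| + 10) ε h hHd hsum hεpos (by positivity)
    (by positivity) hhdef hεh (by rw [hc] at hcon; linarith) (fun v => by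
      refine le_of_eq_of_le ?_ (hthird v)
      congr 1
      rw [lg_div v hy (mul_ne_zero hne0 hne1), lg_mul v hne0 hne1, lg_zpow, lg_zpow]
      ring)
  refine this.trans ?_
  apply mul_le_mul_of_nonneg_right _ hHpos.le
  rw [hc]
  linarith

end Run7.h498.GZ
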