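import Pool.Agent.Run7.h498.GZ.W2

set_option autoImplicit false

/-!
# Planes: the first step over the algebraic numbers, and curves
-/

namespace Run7.h498.GZ

open Polynomial NumberField Height Real Module Pool.Agent.Y740 Pool.Agent.Y740.G Run7.h498
open Pool.Agent.Y740.Z (ev)

/-- The first step, over the algebraic numbers. -/
theorem step1PQ (D E : Fin (1 + 1) → Qb)
    (hF : ∀ σ, cval1 (fun i => D i - E i) σ ≠ 0)
    (nD : ∀ σ τ, σ ≠ τ → ¬ (cval1 D σ = 0 ∧ cval1 D τ = 0))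
    (nE : ∀ σ τ, σ ≠ τ → ¬ (cval1 E σ = 0 ∧ cval1 E τ = 0))
    (hgen : ∃ σ, ¬ cval1 D σ = 0 ∧ ¬ cval1 E σ = 0) (g : Fin 5 → Qb) (hg : ∀ l, g l ≠ 0) :
    ∃ C : ℝ, ∀ x y : Qb, (∀ l, cvec D E x y l ≠ 0) → fval1 D x ≠ 0 → fval1 E x ≠ 0 →
      fval1 D x ≠ fval1 E x → HasRelations (fun l => g l * cvec D E x y l) 3 →
      NumberField.absLogHeight₁ x ≤ C ∨
      ∃ α β : ℤ, Exps (fun σ => cval1 D σ = 0 ∨ cval1 E σ = 0) α β ∧
        NumberField.absLogHeight₁ (y / (x ^ α * (1 - x) ^ β)) ≤ C := by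
  obtain ⟨C, hC, hb⟩ := step1P
  obtain ⟨B, hB0, hB1, hB2⟩ : ∃ B : Fin 3 → Fin (1 + 1) → Qb, B 0 = D ∧ B 1 = E ∧
      B 2 = fun i => D i - E i := ⟨![D, E, fun i => D i - E i], rfl, rfl, rfl⟩
  refine ⟨C * (1 + (∑ k, ∑ i, NumberField.absLogHeight₁ (B k i) +
    ∑ k, ∑ σ, NumberField.absLogHeight₁ (cval1 (B k) σ) + ∑ l, NumberField.absLogHeight₁ (g l))), ?_⟩
  intro x y hz xD xE xF hrel
  obtain ⟨K, hK, hG, hmem⟩ := exists_galois ({x, y} ∪ Set.range g ∪
    Set.range fun i : Fin 3 × Fin (1 + 1) => B i.1 i.2)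
    (((by simp : ({x, y} : Set _).Finite).union (Set.finite_range g)).union (Set.finite_range _))
  have hn' := finrank_pos' K
  let xK : K := ⟨x, hmem _ (by simp)⟩
  let yK : K := ⟨y, hmem _ (by simp)⟩
  let gK : Fin 5 → K := fun j => ⟨g j, hmem _ (by simp)⟩
  let BK : Fin 3 → Fin (1 + 1) → K := fun i j => ⟨B i j, hmem _ (Or.inr ⟨(i, j), rfl⟩)⟩
  have inj := (algebraMap K Qb).injective
  have e1 : NumberField.absLogHeight₁ x = logHeight₁ xK / finrank ℚ K := ht_eq (algebraMap K Qb) xK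
  have e3 : ∀ j, NumberField.absLogHeight₁ (g j) = logHeight₁ (gK j) / finrank ℚ K := fun j =>
    ht_eq (algebraMap K Qb) (gK j)
  have e4 : ∀ i j, NumberField.absLogHeight₁ (B i j) = logHeight₁ (BK i j) / finrank ℚ K :=
    fun i j => ht_eq (algebraMap K Qb) (BK i j)
  have c1 : ∀ k σ, algebraMap K Qb (cval1 (BK k) σ) = cval1 (B k) σ := fun k σ => map_cval1 _ _ _
  have e5 : ∀ k σ, NumberField.absLogHeight₁ (cval1 (B k) σ) =
      logHeight₁ (cval1 (BK k) σ) / finrank ℚ K := fun k σ => by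
    rw [← c1]; exact ht_eq (algebraMap K Qb) _
  have c2 : ∀ k, algebraMap K Qb (fval1 (BK k) xK) = fval1 (B k) x := fun k => map_fval1 _ _ _
  have e6 : ∀ α β : ℤ, NumberField.absLogHeight₁ (y / (x ^ α * (1 - x) ^ β)) =
      logHeight₁ (yK / (xK ^ α * (1 - xK) ^ β)) / finrank ℚ K := fun α β => by
    rw [← ht_eq (algebraMap K Qb)]
    congr 1
  have hB2' : ∀ t, fval1 (B 2) t = fval1 D t - fval1 E t := fun t => by rw [hB2, fval1_sub]
  have hBne : ∀ k, fval1 (B k) x ≠ 0 := by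
    intro k
    fin_cases k
    · show fval1 (B 0) x ≠ 0
      rw [hB0]; exact xD
    · show fval1 (B 1) x ≠ 0
      rw [hB1]; exact xE
    · show fval1 (B 2) x ≠ 0
      rw [hB2']; exact sub_ne_zero.mpr xF
  have cK : ∀ k σ, cval1 (BK k) σ = 0 ↔ cval1 (B k) σ = 0 := by
    intro k σ
    rw [← c1, _root_.map_eq_zero]
  have hcs : ∀ σ, cval1 (B 0) σ = cval1 (B 1) σ + cval1 (B 2) σ := by
    intro σ
    rw [hB0, hB1, hB2]
    simp only [cval1, sub_mul, Finset.sum_sub_distrib]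
    ring
  have hB0' : ∀ t, fval1 (B 0) t = fval1 D t := fun t => by rw [hB0]
  have hB1' : ∀ t, fval1 (B 1) t = fval1 E t := fun t => by rw [hB1]
  have h := hb K BK xK yK (fun l => ![xK * gK 0, (1 - xK) * gK 1, yK * gK 2,
      (yK - fval1 (BK 0) xK) * gK 3, (yK - fval1 (BK 1) xK) * gK 4] l) gK
    (by
      have k0 : algebraMap K Qb (xK * gK 0) ≠ 0 := by
        rw [map_mul]; exact mul_ne_zero (hz 0) (hg 0)
      have k1 : algebraMap K Qb ((1 - xK) * gK 1) ≠ 0 := by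
        rw [map_mul]; exact mul_ne_zero (hz 1) (hg 1)
      have k2 : algebraMap K Qb (yK * gK 2) ≠ 0 := by
        rw [map_mul]; exact mul_ne_zero (hz 2) (hg 2)
      have k3 : algebraMap K Qb ((yK - fval1 (BK 0) xK) * gK 3) ≠ 0 := by
        rw [map_mul, map_sub, c2, hB0']; exact mul_ne_zero (hz 3) (hg 3)
      have k4 : algebraMap K Qb ((yK - fval1 (BK 1) xK) * gK 4) ≠ 0 := by
        rw [map_mul, map_sub, c2, hB1']; exact mul_ne_zero (hz 4) (hg 4)
      intro l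
      fin_cases l
      · exact fun h => k0 (by rw [← map_zero (algebraMap K Qb)]; exact congrArg _ h)
      · exact fun h => k1 (by rw [← map_zero (algebraMap K Qb)]; exact congrArg _ h)
      · exact fun h => k2 (by rw [← map_zero (algebraMap K Qb)]; exact congrArg _ h)
      · exact fun h => k3 (by rw [← map_zero (algebraMap K Qb)]; exact congrArg _ h)
      · exact fun h => k4 (by rw [← map_zero (algebraMap K Qb)]; exact congrArg _ h))
    (fun h => hz 0 (congrArg (algebraMap K Qb) h))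
    (fun h => hz 1 (congrArg (algebraMap K Qb) h))
    (fun h => hz 2 (congrArg (algebraMap K Qb) h))
    (fun h => hz 3 (by
      have := congrArg (algebraMap K Qb) h
      rw [map_sub, c2, hB0', map_zero] at this
      exact this))
    (fun h => hz 4 (by
      have := congrArg (algebraMap K Qb) h
      rw [map_sub, c2, hB1', map_zero] at this
      exact this))
    (fun k h => hBne k (by rw [← c2, h, map_zero]))
    (inj (by rw [map_add, c2, c2, c2, hB0', hB1', hB2']; ring))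
    (fun σ => inj (by rw [map_add, c1, c1, c1]; exact hcs σ))
    (fun σ h => hF σ (by rw [cK, hB2] at h; exact h))
    (fun σ τ hne h => nD σ τ hne (by rw [cK, cK, hB0] at h; exact h))
    (fun σ τ hne h => nE σ τ hne (by rw [cK, cK, hB1] at h; exact h))
    (by
      obtain ⟨σ, h0, h1⟩ := hgen
      refine ⟨σ, ?_, ?_⟩
      · rw [cK, hB0]; exact h0
      · rw [cK, hB1]; exact h1)
    (fun l h => hg l (congrArg (algebraMap K Qb) h))
    rfl rfl rfl rfl rfl
    (rel_descend (algebraMap K Qb) _ _ (fun l => by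
      fin_cases l
      · exact mul_comm _ _
      · exact mul_comm _ _
      · exact mul_comm _ _
      · show algebraMap K Qb ((yK - fval1 (BK 0) xK) * gK 3) = g 3 * (y - fval1 D x)
        rw [map_mul, map_sub, c2, hB0']
        exact mul_comm _ _
      · show algebraMap K Qb ((yK - fval1 (BK 1) xK) * gK 4) = g 4 * (y - fval1 E x)
        rw [map_mul, map_sub, c2, hB1']
        exact mul_comm _ _) hrel)
  simp only [e1, e3, e4, e5, e6]
  simp only [← Finset.sum_div, ← add_div]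
  have e7 : ∀ T : ℝ, C * (1 + T / finrank ℚ K) * finrank ℚ K = C * (finrank ℚ K + T) := by
    intro T
    field_simp
  rcases h with h | ⟨α, β, hαβ, h⟩
  · left
    rw [div_le_iff₀ hn', e7]
    exact h
  · right
    refine ⟨α, β, ?_, ?_⟩
    · simp only [cK, hB0, hB1] at hαβ
      exact hαβ
    · rw [div_le_iff₀ hn', e7]
      exact h

/-- the points of a curve given by three polynomials and a monomial -/
noncomputable def vZ (P : Fin 3 → Qb[X]) (a b : ℤ) (x : Qb) : Fin 5 → Qb :=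
  ![x, 1 - x, x ^ a * (1 - x) ^ b * (P 0).eval x, x ^ a * (1 - x) ^ b * (P 1).eval x,
    x ^ a * (1 - x) ^ b * (P 2).eval x]

lemma vZ_ne (P : Fin 3 → Qb[X]) (a b : ℤ) {x : Qb} (hx0 : x ≠ 0) (hx1 : 1 - x ≠ 0)
    (h : ∀ k, (P k).eval x ≠ 0) (l : Fin 5) : vZ P a b x l ≠ 0 := by
  have hm := mul_ne_zero (zpow_ne_zero a hx0) (zpow_ne_zero b hx1)
  fin_cases l
  · exact hx0
  · exact hx1
  · exact mul_ne_zero hm (h 0)
  · exact mul_ne_zero hm (h 1)
  · exact mul_ne_zero hm (h 2)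

/-- the curves given by three fixed rational functions -/
theorem fixed_curveZ (g : Fin 5 → Qb) (hg : ∀ l, g l ≠ 0) (P : Fin 3 → Qb[X]) (a b : ℤ) :
    ∃ (C : ℝ) (U : Finset (Fin 5 → ℤ)), (∀ u ∈ U, u ≠ 0) ∧ ∀ x : Qb, x ≠ 0 → 1 - x ≠ 0 →
      (∀ k, (P k).eval x ≠ 0) → HasRelations (fun l => g l *
        vZ P a b x l) 3 →
      NumberField.absLogHeight₁ x ≤ C ∨
        ∃ u ∈ U, ∏ l, (g l * vZ P a b x l) ^ u l = 1 := by
  classical
  by_cases hP : ∃ k, P k = 0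
  · obtain ⟨k, hk⟩ := hP
    refine ⟨0, ∅, by simp, fun x _ _ h => ?_⟩
    exact absurd (by rw [hk, eval_zero]) (h k)
  push Not at hP
  choose α β d B hB hPx using fun k => factor (P k) (hP k)
  by_cases hd : ∃ k, 1 ≤ d k
  · obtain ⟨k, hk⟩ := hd
    obtain ⟨C, hC, hb⟩ := pass2kQ (α k + a) (β k + b) (d k) hk
    obtain ⟨k', hk'⟩ : ∃ k' : Fin 5, ∀ x : Qb, vZ P a b x k' =
        x ^ a * (1 - x) ^ b * (P k).eval x := by
      fin_cases k
      · exact ⟨2, fun x => rfl⟩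
      · exact ⟨3, fun x => rfl⟩
      · exact ⟨4, fun x => rfl⟩
    refine ⟨_, ∅, by simp, fun x hx0 hx1 hPx' hrel => Or.inl (hb (B k) x _ ![g 0, g 1, g k'] k' ?_
      hx0 hx1 ?_ (hB k) ?_ ?_ ?_ ?_ hrel)⟩
    · exact fun l => mul_ne_zero (hg l) (vZ_ne P a b hx0 hx1 hPx' l)
    · have := hPx' k
      rw [hPx] at this
      exact right_ne_zero_of_mul this
    · intro l
      fin_cases l
      · exact hg 0
      · exact hg 1
      · exact hg k'
    · exact mul_comm _ _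
    · exact mul_comm _ _
    · rw [hk', hPx, zpow_add₀ hx0, zpow_add₀ hx1, zpow_natCast, zpow_natCast]
      show g k' * _ = _ * g k'
      ring
  · push Not at hd
    -- a coset
    have hd0 : ∀ k, d k = 0 := fun k => by have := hd k; omega
    have hex : ∀ k, ∃ c : Qb, c ≠ 0 ∧ ∀ x, (P k).eval x = x ^ α k * (1 - x) ^ β k * c := by
      intro k
      refine ⟨fval1 (B k) 1, ?_, fun x => ?_⟩
      · have h1 := hB k 1
        intro h
        apply h1
        rw [cval1]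
        rw [fval1] at h
        rw [← h]
        apply Finset.sum_congr rfl
        intro i _
        simp [eps]
      · rw [hPx]
        congr 1
        rw [fval1, fval1]
        apply Finset.sum_congr rfl
        intro i _
        have hi : (i : ℕ) = 0 := by
          have := i.2
          have := hd0 k
          omega
        rw [hi, pow_zero, pow_zero]
    choose c hc0 hc using hex
    let f : (Fin 5 → ℤ) →ₗ[ℤ] (Fin 2 → ℤ) := LinearMap.pi
      ![LinearMap.proj 0 + (α 0 + a : ℤ) • LinearMap.proj 2 + (α 1 + a : ℤ) • LinearMap.proj 3 +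
          (α 2 + a : ℤ) • LinearMap.proj 4,
        LinearMap.proj 1 + (β 0 + b : ℤ) • LinearMap.proj 2 + (β 1 + b : ℤ) • LinearMap.proj 3 +
          (β 2 + b : ℤ) • LinearMap.proj 4]
    have hf : ∀ u, f u = 0 → u 0 + (α 0 + a) * u 2 + (α 1 + a) * u 3 + (α 2 + a) * u 4 = 0 ∧
        u 1 + (β 0 + b) * u 2 + (β 1 + b) * u 3 + (β 2 + b) * u 4 = 0 := by
      intro u hu
      have h1 := congrFun hu 0
      have h2 := congrFun hu 1
      simp [f] at h1 h2
      exact ⟨h1, h2⟩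
    have hprod : ∀ x : Qb, x ≠ 0 → 1 - x ≠ 0 → ∀ u, f u = 0 →
        ∏ l, (g l * vZ P a b x l) ^ u l =
          g 0 ^ u 0 * g 1 ^ u 1 * (g 2 * c 0) ^ u 2 * (g 3 * c 1) ^ u 3 * (g 4 * c 2) ^ u 4 := by
      intro x hx0 hx1 u hu
      obtain ⟨h1, h2⟩ := hf u hu
      have ev : ∀ k, x ^ a * (1 - x) ^ b * (P k).eval x =
          x ^ ((α k : ℤ) + a) * (1 - x) ^ ((β k : ℤ) + b) * c k := by
        intro k
        rw [hc, zpow_add₀ hx0, zpow_add₀ hx1, zpow_natCast, zpow_natCast]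
        ring
      rw [Fin.prod_univ_five, vZ]
      simp only [Matrix.cons_val_zero, Matrix.cons_val_one, Matrix.cons_val]
      rw [ev 0, ev 1, ev 2]
      simp only [mul_zpow]
      have e1 : x ^ u 0 * (x ^ ((α 0 : ℤ) + a)) ^ u 2 * (x ^ ((α 1 : ℤ) + a)) ^ u 3 *
          (x ^ ((α 2 : ℤ) + a)) ^ u 4 = 1 := by
        rw [← zpow_mul, ← zpow_mul, ← zpow_mul,
          ← zpow_add₀ hx0, ← zpow_add₀ hx0, ← zpow_add₀ hx0, h1, zpow_zero]
      have e2 : (1 - x) ^ u 1 * ((1 - x) ^ ((β 0 : ℤ) + b)) ^ u 2 *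
          ((1 - x) ^ ((β 1 : ℤ) + b)) ^ u 3 * ((1 - x) ^ ((β 2 : ℤ) + b)) ^ u 4 = 1 := by
        rw [← zpow_mul, ← zpow_mul, ← zpow_mul,
          ← zpow_add₀ hx1, ← zpow_add₀ hx1, ← zpow_add₀ hx1, h2, zpow_zero]
      calc _ = (x ^ u 0 * (x ^ ((α 0 : ℤ) + a)) ^ u 2 * (x ^ ((α 1 : ℤ) + a)) ^ u 3 *
            (x ^ ((α 2 : ℤ) + a)) ^ u 4) *
            ((1 - x) ^ u 1 * ((1 - x) ^ ((β 0 : ℤ) + b)) ^ u 2 *
              ((1 - x) ^ ((β 1 : ℤ) + b)) ^ u 3 * ((1 - x) ^ ((β 2 : ℤ) + b)) ^ u 4) *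
            (g 0 ^ u 0 * g 1 ^ u 1 * (g 2 ^ u 2 * c 0 ^ u 2) * (g 3 ^ u 3 * c 1 ^ u 3) *
              (g 4 ^ u 4 * c 2 ^ u 4)) := by ring
        _ = _ := by rw [e1, e2, one_mul, one_mul]
    by_cases hex : ∃ u : Fin 5 → ℤ, u ≠ 0 ∧ f u = 0 ∧
        g 0 ^ u 0 * g 1 ^ u 1 * (g 2 * c 0) ^ u 2 * (g 3 * c 1) ^ u 3 * (g 4 * c 2) ^ u 4 = 1
    · obtain ⟨u, hu0, hu, h⟩ := hex
      refine ⟨0, {u}, by simpa using hu0, fun x hx0 hx1 _ _ => Or.inr ⟨u, by simp, ?_⟩⟩
      rw [hprod x hx0 hx1 u hu, h]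
    · refine ⟨0, ∅, by simp, fun x hx0 hx1 hPx hrel => ?_⟩
      exfalso
      apply hex
      obtain ⟨u, hu0, hu, h⟩ := rel_kernel
        (fun l => mul_ne_zero (hg l) (vZ_ne P a b hx0 hx1 hPx l)) hrel f
      exact ⟨u, hu0, hu, by rw [← hprod x hx0 hx1 u hu]; exact h⟩


end Run7.h498.GZ
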