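import Pool.Agent.Run7.h498.GZ.W3

set_option autoImplicit false

/-!
# Planes: bounded height
-/

namespace Run7.h498.GZ

open Polynomial NumberField Height Real Module Pool.Agent.Y740 Pool.Agent.Y740.G Run7.h498
open Pool.Agent.Y740.Z (ev)

/-- the height of `x` is bounded if `y / (x ^ a (1 - x) ^ b)` has bounded height -/
def Pen (D E : Fin (1 + 1) → Qb) (g : Fin 5 → Qb) (C1 : ℝ) (a b : ℤ) : Prop :=
  ∃ (C : ℝ) (U : Finset (Fin 5 → ℤ)), (∀ u ∈ U, u ≠ 0) ∧
    ∀ x y : Qb, (∀ l, cvec D E x y l ≠ 0) → HasRelations (fun l => g l * cvec D E x y l) 3 →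
      NumberField.absLogHeight₁ (y / (x ^ a * (1 - x) ^ b)) ≤ C1 →
      NumberField.absLogHeight₁ x ≤ C ∨ ∃ u ∈ U, ∏ l, (g l * cvec D E x y l) ^ u l = 1

/-- The second step. -/
theorem step2Z (D E : Fin (1 + 1) → Qb) (g : Fin 5 → Qb) (hg : ∀ l, g l ≠ 0) (C1 : ℝ) (a b : ℤ)
    (A B A' B' : ℕ) (ha : a = A - A') (hb : b = B - B') (k : Fin 5) (α β : ℤ)
    (m1 D1 : Fin (1 + 1) → Qb)
    (hk : ∀ x η : Qb, x ≠ 0 → 1 - x ≠ 0 → cvec D E x (η * (x ^ a * (1 - x) ^ b)) k =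
      x ^ α * (1 - x) ^ β * (η * fval1 m1 x - fval1 D1 x))
    (hcor : ∀ σ, cval1 D1 σ ≠ 0 ∨ cval1 m1 σ ≠ 0) : Pen D E g C1 a b := by
  classical
  obtain ⟨C, hC, hbd⟩ := pass2kQ α β 1 le_rfl
  -- the heights of the coefficients
  choose T1 hT1 hT1' using fun i : Fin (1 + 1) => ht_eval (X * Polynomial.C (m1 i) -
    Polynomial.C (D1 i))
  choose T2 hT2 hT2' using fun σ : Fin 3 => ht_eval (X * Polynomial.C (cval1 m1 σ) -
    Polynomial.C (cval1 D1 σ))
  set G : ℝ := NumberField.absLogHeight₁ (g 0) + NumberField.absLogHeight₁ (g 1) +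
    NumberField.absLogHeight₁ (g k) with hG
  -- the exceptional values
  set R : Finset Qb := Finset.univ.image fun σ : Fin 3 => cval1 D1 σ / cval1 m1 σ with hR
  have hR' : ∀ η, η ∉ R → ∀ σ, η * cval1 m1 σ - cval1 D1 σ ≠ 0 := by
    intro η hη σ h
    by_cases hm : cval1 m1 σ = 0
    · rcases hcor σ with h1 | h1
      · apply h1
        rw [hm, mul_zero, zero_sub, neg_eq_zero] at h
        exact h
      · exact h1 hm
    · apply hη
      rw [hR, Finset.mem_image]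
      refine ⟨σ, Finset.mem_univ _, ?_⟩
      rw [div_eq_iff hm]
      linear_combination -h
  have hfix : ∀ η : Qb, ∃ (C : ℝ) (U : Finset (Fin 5 → ℤ)), (∀ u ∈ U, u ≠ 0) ∧
      ∀ x y : Qb, (∀ l, cvec D E x y l ≠ 0) → HasRelations (fun l => g l * cvec D E x y l) 3 →
      y = η * (x ^ a * (1 - x) ^ b) → NumberField.absLogHeight₁ x ≤ C ∨
        ∃ u ∈ U, ∏ l, (g l * cvec D E x y l) ^ u l = 1 := by
    intro η
    obtain ⟨P, hP0, hP1, hP2⟩ : ∃ P : Fin 3 → Qb[X],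
        P 0 = Polynomial.C η * (X ^ A * (1 - X) ^ B) ∧
        P 1 = Polynomial.C η * (X ^ A * (1 - X) ^ B) - vP D * (X ^ A' * (1 - X) ^ B') ∧
        P 2 = Polynomial.C η * (X ^ A * (1 - X) ^ B) - vP E * (X ^ A' * (1 - X) ^ B') :=
      ⟨![_, _, _], rfl, rfl, rfl⟩
    obtain ⟨C, U, hU, h⟩ := fixed_curveZ g hg P (-A') (-B')
    refine ⟨C, U, hU, fun x y hz hrel hy => ?_⟩
    have hx0 : x ≠ 0 := hz 0
    have hx1 : 1 - x ≠ 0 := hz 1
    have n0 : x ^ A' ≠ 0 := pow_ne_zero _ hx0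
    have n1 : (1 - x) ^ B' ≠ 0 := pow_ne_zero _ hx1
    have hy' : y = η * (x ^ A / x ^ A' * ((1 - x) ^ B / (1 - x) ^ B')) := by
      rw [hy, ha, hb, zpow_sub₀ hx0, zpow_sub₀ hx1]
      simp only [zpow_natCast]
    have hm : x ^ (-(A' : ℤ)) * (1 - x) ^ (-(B' : ℤ)) = (x ^ A')⁻¹ * ((1 - x) ^ B')⁻¹ := by
      rw [zpow_neg, zpow_neg, zpow_natCast, zpow_natCast]
    have e0 : x ^ (-(A' : ℤ)) * (1 - x) ^ (-(B' : ℤ)) * (P 0).eval x = y := by
      rw [hm, hP0, hy']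
      simp only [eval_mul, eval_C, eval_pow, eval_X, eval_sub, eval_one]
      field_simp
    have e1 : x ^ (-(A' : ℤ)) * (1 - x) ^ (-(B' : ℤ)) * (P 1).eval x = y - fval1 D x := by
      rw [hm, hP1, hy']
      simp only [eval_mul, eval_C, eval_pow, eval_X, eval_sub, eval_one, vP_eval]
      field_simp
    have e2 : x ^ (-(A' : ℤ)) * (1 - x) ^ (-(B' : ℤ)) * (P 2).eval x = y - fval1 E x := by
      rw [hm, hP2, hy']
      simp only [eval_mul, eval_C, eval_pow, eval_X, eval_sub, eval_one, vP_eval]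
      field_simp
    have ev : vZ P (-A') (-B') x = cvec D E x y := by
      rw [vZ, e0, e1, e2, cvec]
    have h' := h x hx0 hx1
    rw [ev] at h'
    refine h' ?_ hrel
    intro k hk0
    fin_cases k
    · exact hz 2 (by
        show y = 0
        rw [← e0]
        exact mul_eq_zero_of_right _ hk0)
    · exact hz 3 (by
        show y - fval1 D x = 0
        rw [← e1]
        exact mul_eq_zero_of_right _ hk0)
    · exact hz 4 (by
        show y - fval1 E x = 0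
        rw [← e2]
        exact mul_eq_zero_of_right _ hk0)
  choose Cy Uy hUy hy using hfix
  refine ⟨|C * (1 + (∑ i, T1 i * (1 + C1) + ∑ σ, T2 σ * (1 + C1) + G))| + ∑ y ∈ R, |Cy y|,
    R.biUnion Uy, ?_, ?_⟩
  · intro u hu
    obtain ⟨y, -, h⟩ := Finset.mem_biUnion.mp hu
    exact hUy y u h
  intro x y hz hrel hη
  have hx0 : x ≠ 0 := hz 0
  have hx1 : 1 - x ≠ 0 := hz 1
  set η := y / (x ^ a * (1 - x) ^ b) with hηdef
  have hyη : y = η * (x ^ a * (1 - x) ^ b) := by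
    rw [hηdef, div_mul_cancel₀ _ (mul_ne_zero (zpow_ne_zero _ hx0) (zpow_ne_zero _ hx1))]
  by_cases hyR : η ∈ R
  · rcases hy η x y hz hrel hyη with h | ⟨u, hu, h⟩
    · left
      have h1 : |Cy η| ≤ ∑ y ∈ R, |Cy y| :=
        Finset.single_le_sum (f := fun y => |Cy y|) (fun _ _ => abs_nonneg _) hyR
      have := le_abs_self (Cy η)
      have := abs_nonneg (C * (1 + (∑ i, T1 i * (1 + C1) + ∑ σ, T2 σ * (1 + C1) + G)))
      linarith
    · exact Or.inr ⟨u, Finset.mem_biUnion.mpr ⟨η, hyR, hu⟩, h⟩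
  · left
    have hcy := hR' η hyR
    have hkx : cvec D E x y k = x ^ α * (1 - x) ^ β * fval1 (fun i => η * m1 i - D1 i) x := by
      rw [fval1_lin, ← hk x η hx0 hx1, ← hyη]
    have hBx : fval1 (fun i => η * m1 i - D1 i) x ≠ 0 := by
      intro h0
      apply hz k
      rw [hkx, h0, mul_zero]
    have h1 := hbd (fun i => η * m1 i - D1 i) x _ ![g 0, g 1, g k] k
      (fun l => mul_ne_zero (hg l) (hz l)) hx0 hx1 hBx
      (fun σ => by rw [cval1_lin]; exact hcy σ) (by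
      intro l
      fin_cases l
      · exact hg 0
      · exact hg 1
      · exact hg k) (mul_comm _ _) (mul_comm _ _) (by
        rw [hkx]
        exact mul_comm _ _) hrel
    have h2 : ∑ i, NumberField.absLogHeight₁ (η * m1 i - D1 i) ≤ ∑ i, T1 i * (1 + C1) := by
      apply Finset.sum_le_sum
      intro i _
      have h3 := hT1' i η
      simp only [eval_sub, eval_mul, eval_X, eval_C] at h3
      exact h3.trans (mul_le_mul_of_nonneg_left (by linarith) (hT1 i))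
    have h3 : ∑ σ, NumberField.absLogHeight₁ (cval1 (fun i => η * m1 i - D1 i) σ) ≤
        ∑ σ, T2 σ * (1 + C1) := by
      apply Finset.sum_le_sum
      intro σ _
      have h3 := hT2' σ η
      simp only [eval_sub, eval_mul, eval_X, eval_C] at h3
      rw [cval1_lin]
      exact h3.trans (mul_le_mul_of_nonneg_left (by linarith) (hT2 σ))
    have h4 : ∑ l, NumberField.absLogHeight₁ (![g 0, g 1, g k] l) = G := by
      rw [Fin.sum_univ_three]
      rfl
    rw [h4] at h1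
    have h5 : 0 ≤ ∑ y ∈ R, |Cy y| := Finset.sum_nonneg fun _ _ => abs_nonneg _
    have h6 := le_abs_self (C * (1 + (∑ i, T1 i * (1 + C1) + ∑ σ, T2 σ * (1 + C1) + G)))
    have h7 := mul_le_mul_of_nonneg_left (show (1 + (∑ i, NumberField.absLogHeight₁
        (η * m1 i - D1 i) + ∑ σ, NumberField.absLogHeight₁ (cval1 (fun i => η * m1 i - D1 i) σ) +
        G)) ≤ (1 + (∑ i, T1 i * (1 + C1) + ∑ σ, T2 σ * (1 + C1) + G)) by linarith) hC.le
    linarith

lemma fval1_two {F : Type} [Field F] (a b x : F) : fval1 (d := 1) ![a, b] x = a + b * x := by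
  simp [fval1, Fin.sum_univ_two]

lemma cval1_two {F : Type} [Field F] (a b : F) :
    cval1 (d := 1) ![a, b] 0 = a ∧ cval1 (d := 1) ![a, b] 1 = a + b ∧
      cval1 (d := 1) ![a, b] 2 = b := by
  refine ⟨?_, ?_, ?_⟩ <;> simp [cval1, Fin.sum_univ_two, eps]

lemma two_eta {F : Type} (D : Fin (1 + 1) → F) : D = ![D 0, D 1] := by
  funext i
  fin_cases i <;> rfl

/-- the coordinate of one of the two lines -/
lemma exists_line (D E : Fin (1 + 1) → Qb) (σ : Fin 3) (h : cval1 D σ = 0 ∨ cval1 E σ = 0)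
    (hgen : ∃ σ, ¬ cval1 D σ = 0 ∧ ¬ cval1 E σ = 0) :
    ∃ (k : Fin 5) (D' : Fin (1 + 1) → Qb), (∀ x y : Qb, cvec D E x y k = y - fval1 D' x) ∧
      cval1 D' σ = 0 ∧ ∃ τ, cval1 D' τ ≠ 0 := by
  obtain ⟨τ, h0, h1⟩ := hgen
  rcases h with h | h
  · exact ⟨3, D, fun x y => rfl, h, τ, h0⟩
  · exact ⟨4, E, fun x y => rfl, h, τ, h1⟩

/-- the coordinate of a line which does not meet the first one at a given corner -/
lemma exists_line' (D E : Fin (1 + 1) → Qb) (σ : Fin 3)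
    (hF : cval1 (fun i => D i - E i) σ ≠ 0) :
    ∃ (k : Fin 5) (D' : Fin (1 + 1) → Qb), (∀ x y : Qb, cvec D E x y k = y - fval1 D' x) ∧
      cval1 D' σ ≠ 0 := by
  by_cases h : cval1 D σ = 0
  · refine ⟨4, E, fun x y => rfl, fun h' => hF ?_⟩
    have : cval1 (fun i => D i - E i) σ = cval1 D σ - cval1 E σ := by
      simp only [cval1, sub_mul, Finset.sum_sub_distrib]
    rw [this, h, h', sub_zero]
  · exact ⟨3, D, fun x y => rfl, h⟩

/-- all pencils -/
theorem pens (D E : Fin (1 + 1) → Qb)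
    (hF : ∀ σ, cval1 (fun i => D i - E i) σ ≠ 0)
    (hgen : ∃ σ, ¬ cval1 D σ = 0 ∧ ¬ cval1 E σ = 0) (g : Fin 5 → Qb) (hg : ∀ l, g l ≠ 0) (C1 : ℝ)
    (a b : ℤ) (h : Exps (fun σ => cval1 D σ = 0 ∨ cval1 E σ = 0) a b) : Pen D E g C1 a b := by
  rcases h with ⟨rfl, rfl⟩ | ⟨rfl, rfl⟩ | ⟨rfl, rfl⟩ | ⟨h0, h1, rfl, rfl⟩ | ⟨h0, h1, rfl, rfl⟩ |
    ⟨h0, h1, rfl, rfl⟩
  · obtain ⟨k, D', hk, hD'⟩ := exists_line' D E 0 (hF 0)
    refine step2Z D E g hg C1 1 0 1 0 0 0 (by norm_num) (by norm_num) k 0 0 ![0, 1] D' ?_ ?_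
    · intro x η hx0 hx1
      rw [hk, fval1_two]
      simp
    · intro σ
      obtain ⟨c0, c1, c2⟩ := cval1_two (0 : Qb) 1
      fin_cases σ
      · exact Or.inl hD'
      · right
        show cval1 (d := 1) ![0, 1] 1 ≠ 0
        rw [c1]; norm_num
      · right
        show cval1 (d := 1) ![0, 1] 2 ≠ 0
        rw [c2]; norm_num
  · obtain ⟨k, D', hk, hD'⟩ := exists_line' D E 1 (hF 1)
    refine step2Z D E g hg C1 0 1 0 1 0 0 (by norm_num) (by norm_num) k 0 0 ![1, -1] D' ?_ ?_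
    · intro x η hx0 hx1
      rw [hk, fval1_two]
      simp only [zpow_zero, zpow_one, one_mul]
      ring
    · intro σ
      obtain ⟨c0, c1, c2⟩ := cval1_two (1 : Qb) (-1)
      fin_cases σ
      · right
        show cval1 (d := 1) ![1, -1] 0 ≠ 0
        rw [c0]; norm_num
      · exact Or.inl hD'
      · right
        show cval1 (d := 1) ![1, -1] 2 ≠ 0
        rw [c2]; norm_num
  · obtain ⟨k, D', hk, hD'⟩ := exists_line' D E 2 (hF 2)
    refine step2Z D E g hg C1 0 0 0 0 0 0 (by norm_num) (by norm_num) k 0 0 ![1, 0] D' ?_ ?_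
    · intro x η hx0 hx1
      rw [hk, fval1_two]
      simp
    · intro σ
      obtain ⟨c0, c1, c2⟩ := cval1_two (1 : Qb) 0
      fin_cases σ
      · right
        show cval1 (d := 1) ![1, 0] 0 ≠ 0
        rw [c0]; norm_num
      · right
        show cval1 (d := 1) ![1, 0] 1 ≠ 0
        rw [c1]; norm_num
      · exact Or.inl hD'
  · -- `x (1 - x)`
    obtain ⟨k, D', hk, hD', τ, hτ⟩ := exists_line D E 0 h0 hgen
    have e := two_eta D'
    rw [e, (cval1_two _ _).1] at hD'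
    rw [hD'] at e
    have hc : D' 1 ≠ 0 := by
      intro hc
      apply hτ
      rw [e, hc]
      simp [cval1]
    refine step2Z D E g hg C1 1 1 1 1 0 0 (by norm_num) (by norm_num) k 1 0 ![1, -1] ![D' 1, 0]
      ?_ ?_
    · intro x η hx0 hx1
      rw [hk, fval1_two, fval1_two, e, fval1_two, ← e]
      simp
      ring
    · intro σ
      obtain ⟨c0, c1, c2⟩ := cval1_two (1 : Qb) (-1)
      obtain ⟨d0, d1, d2⟩ := cval1_two (D' 1) 0
      fin_cases σ
      · left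
        show cval1 (d := 1) ![D' 1, 0] 0 ≠ 0
        rw [d0]; exact hc
      · left
        show cval1 (d := 1) ![D' 1, 0] 1 ≠ 0
        rw [d1, add_zero]; exact hc
      · right
        show cval1 (d := 1) ![1, -1] 2 ≠ 0
        rw [c2]; norm_num
  · -- `x / (1 - x)`
    obtain ⟨k, D', hk, hD', τ, hτ⟩ := exists_line D E 0 h0 hgen
    have e := two_eta D'
    rw [e, (cval1_two _ _).1] at hD'
    rw [hD'] at e
    have hc : D' 1 ≠ 0 := by
      intro hc
      apply hτ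
      rw [e, hc]
      simp [cval1]
    refine step2Z D E g hg C1 1 (-1) 1 0 0 1 (by norm_num) (by norm_num) k 1 (-1) ![1, 0]
      ![D' 1, -D' 1] ?_ ?_
    · intro x η hx0 hx1
      rw [hk, fval1_two, fval1_two, e, fval1_two, ← e]
      simp only [zpow_one, zpow_neg]
      field_simp
      ring
    · intro σ
      obtain ⟨c0, c1, c2⟩ := cval1_two (1 : Qb) 0
      obtain ⟨d0, d1, d2⟩ := cval1_two (D' 1) (-D' 1)
      fin_cases σ
      · right
        show cval1 (d := 1) ![1, 0] 0 ≠ 0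
        rw [c0]; norm_num
      · right
        show cval1 (d := 1) ![1, 0] 1 ≠ 0
        rw [c1]; norm_num
      · left
        show cval1 (d := 1) ![D' 1, -D' 1] 2 ≠ 0
        rw [d2]; exact neg_ne_zero.mpr hc
  · -- `(1 - x) / x`
    obtain ⟨k, D', hk, hD', τ, hτ⟩ := exists_line D E 1 h0 hgen
    have e := two_eta D'
    rw [e, (cval1_two _ _).2.1] at hD'
    have e1 : D' 1 = -D' 0 := by linear_combination hD'
    rw [e1] at e
    have hc : D' 0 ≠ 0 := by
      intro hc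
      apply hτ
      rw [e, hc]
      simp [cval1]
    refine step2Z D E g hg C1 (-1) 1 0 1 1 0 (by norm_num) (by norm_num) k (-1) 1 ![1, 0]
      ![0, D' 0] ?_ ?_
    · intro x η hx0 hx1
      rw [hk, fval1_two, fval1_two, e, fval1_two, ← e]
      simp only [zpow_one, zpow_neg]
      field_simp
      ring
    · intro σ
      obtain ⟨c0, c1, c2⟩ := cval1_two (1 : Qb) 0
      obtain ⟨d0, d1, d2⟩ := cval1_two 0 (D' 0)
      fin_cases σ
      · right
        show cval1 (d := 1) ![1, 0] 0 ≠ 0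
        rw [c0]; norm_num
      · right
        show cval1 (d := 1) ![1, 0] 1 ≠ 0
        rw [c1]; norm_num
      · left
        show cval1 (d := 1) ![0, D' 0] 2 ≠ 0
        rw [d2]; exact hc

/-- bounded height of the first coordinate -/
def HX {d : ℕ} (D E : Fin (d + 1) → Qb) (g : Fin 5 → Qb) : Prop :=
  ∃ (C : ℝ) (U : Finset (Fin 5 → ℤ)), (∀ u ∈ U, u ≠ 0) ∧
      ∀ x y : Qb, (∀ l, cvec D E x y l ≠ 0) → fval1 D x ≠ 0 → fval1 E x ≠ 0 →
      fval1 D x ≠ fval1 E x → HasRelations (fun l => g l * cvec D E x y l) 3 →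
      NumberField.absLogHeight₁ x ≤ C ∨ ∃ u ∈ U, ∏ l, (g l * cvec D E x y l) ^ u l = 1

theorem hbhN1 (D E : Fin (1 + 1) → Qb)
    (hF : ∀ σ, cval1 (fun i => D i - E i) σ ≠ 0)
    (nD : ∀ σ τ, σ ≠ τ → ¬ (cval1 D σ = 0 ∧ cval1 D τ = 0))
    (nE : ∀ σ τ, σ ≠ τ → ¬ (cval1 E σ = 0 ∧ cval1 E τ = 0))
    (hgen : ∃ σ, ¬ cval1 D σ = 0 ∧ ¬ cval1 E σ = 0) (g : Fin 5 → Qb) (hg : ∀ l, g l ≠ 0) :
    HX D E g := by
  classical
  obtain ⟨C1, h1⟩ := step1PQ D E hF nD nE hgen g hg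
  have hp : ∀ p : ℤ × ℤ, ∃ (C : ℝ) (U : Finset (Fin 5 → ℤ)), (∀ u ∈ U, u ≠ 0) ∧
      (Exps (fun σ => cval1 D σ = 0 ∨ cval1 E σ = 0) p.1 p.2 → ∀ x y : Qb,
      (∀ l, cvec D E x y l ≠ 0) → HasRelations (fun l => g l * cvec D E x y l) 3 →
      NumberField.absLogHeight₁ (y / (x ^ p.1 * (1 - x) ^ p.2)) ≤ C1 →
      NumberField.absLogHeight₁ x ≤ C ∨ ∃ u ∈ U, ∏ l, (g l * cvec D E x y l) ^ u l = 1) := by
    intro p
    by_cases h : Exps (fun σ => cval1 D σ = 0 ∨ cval1 E σ = 0) p.1 p.2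
    · obtain ⟨C, U, hU, hb⟩ := pens D E hF hgen g hg C1 p.1 p.2 h
      exact ⟨C, U, hU, fun _ => hb⟩
    · exact ⟨0, ∅, by simp, fun h' => absurd h' h⟩
  choose C U hU hb using hp
  set P : Finset (ℤ × ℤ) := {(1, 0), (0, 1), (0, 0), (1, 1), (1, -1), (-1, 1)} with hP
  refine ⟨|C1| + ∑ p ∈ P, |C p|, P.biUnion U, ?_, ?_⟩
  · intro u hu
    obtain ⟨p, -, h⟩ := Finset.mem_biUnion.mp hu
    exact hU p u h
  intro x y hz xD xE xF hrel
  have hsum : 0 ≤ ∑ p ∈ P, |C p| := Finset.sum_nonneg fun _ _ => abs_nonneg _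
  rcases h1 x y hz xD xE xF hrel with h | ⟨α, β, hαβ, h⟩
  · left
    have := le_abs_self C1
    linarith
  · have hmem : (α, β) ∈ P := by
      rw [hP]
      simp only [Finset.mem_insert, Finset.mem_singleton, Prod.mk.injEq]
      rcases hαβ with h | h | h | ⟨-, -, h⟩ | ⟨-, -, h⟩ | ⟨-, -, h⟩ <;> tauto
    rcases hb (α, β) hαβ x y hz hrel h with h | ⟨u, hu, h⟩
    · left
      have h2 : |C (α, β)| ≤ ∑ p ∈ P, |C p| :=
        Finset.single_le_sum (f := fun p => |C p|) (fun _ _ => abs_nonneg _) hmem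
      have := le_abs_self (C (α, β))
      have := abs_nonneg C1
      linarith
    · exact Or.inr ⟨u, Finset.mem_biUnion.mpr ⟨_, hmem, hu⟩, h⟩

end Run7.h498.GZ
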