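import Pool.Agent.Run7.h498.GZ.W4
import Pool.Agent.Run7.h498.GZ.R14

set_option autoImplicit false

/-!
# Zilber–Pink for planes
-/

namespace Run7.h498.GZ

open Polynomial Real Module Pool.Agent.Y740 Pool.Agent.Y740.G Run7.h498
open Pool.Agent.Y740.Z (ev)
open Pool.Agent.Results.MP_b7926e_nt.NoAtypical (coset idealOf dim mem_idealOf)

lemma HasRelations.perm {z z' : Fin 5 → Qb} (q : Equiv.Perm (Fin 5)) (h : HasRelations z 3)
    (hz : ∀ l, z' l = z (q l)) : HasRelations z' 3 := by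
  obtain ⟨u, hu, h⟩ := h
  refine ⟨fun k => u k ∘ q, ?_, fun k => ?_⟩
  · have := hu.map' (LinearMap.funLeft ℤ ℤ q) (by
      rw [LinearMap.ker_eq_bot]
      exact LinearMap.funLeft_injective_of_surjective ℤ ℤ q q.surjective)
    exact this
  · rw [← h k]
    simp only [hz]
    exact Equiv.prod_comp q (fun j => z j ^ u k j)

lemma HX_perm {D E D' E' : Fin (1 + 1) → Qb} {g : Fin 5 → Qb} (s : Qb → Qb)
    (q : Equiv.Perm (Fin 5))
    (hq : ∀ x y l, cvec D' E' x (y - s x) l = cvec D E x y (q l))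
    (hD : ∀ x, fval1 D x ≠ 0 → fval1 E x ≠ 0 → fval1 D x ≠ fval1 E x →
      fval1 D' x ≠ 0 ∧ fval1 E' x ≠ 0 ∧ fval1 D' x ≠ fval1 E' x)
    (h : HX D' E' (fun l => g (q l))) : HX D E g := by
  classical
  obtain ⟨C, U, hU, h⟩ := h
  refine ⟨C, U.image (fun u => u ∘ q.symm), ?_, ?_⟩
  · intro u hu h0
    obtain ⟨v, hv, rfl⟩ := Finset.mem_image.mp hu
    apply hU v hv
    funext l
    have := congrFun h0 (q l)
    simpa using this
  intro x y hz xD xE xF hrel
  obtain ⟨yD, yE, yF⟩ := hD x xD xE xF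
  rcases h x (y - s x) (fun l => by rw [hq]; exact hz _) yD yE yF
    (HasRelations.perm q hrel fun l => by rw [hq]) with h | ⟨u, hu, h⟩
  · exact Or.inl h
  · refine Or.inr ⟨_, Finset.mem_image.mpr ⟨u, hu, rfl⟩, ?_⟩
    rw [← h, ← Equiv.prod_comp q]
    refine Finset.prod_congr rfl fun l _ => ?_
    rw [hq]
    simp

lemma csub (A B : Fin (1 + 1) → Qb) (σ : Fin 3) :
    cval1 (fun i => A i - B i) σ = cval1 A σ - cval1 B σ := by
  simp only [cval1, sub_mul, Finset.sum_sub_distrib]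

lemma cneg (A : Fin (1 + 1) → Qb) (σ : Fin 3) : cval1 (fun i => -A i) σ = -cval1 A σ := by
  simp only [cval1, neg_mul, Finset.sum_neg_distrib]

lemma fneg (A : Fin (1 + 1) → Qb) (x : Qb) : fval1 (fun i => -A i) x = -fval1 A x := by
  simp only [fval1, neg_mul, Finset.sum_neg_distrib]

lemma fsub (A B : Fin (1 + 1) → Qb) (x : Qb) :
    fval1 (fun i => A i - B i) x = fval1 A x - fval1 B x := by
  simp only [fval1, sub_mul, Finset.sum_sub_distrib]

/-- a polynomial of degree one which vanishes at two corners vanishes -/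
lemma two_corners (D : Fin (1 + 1) → Qb) {ρ : Fin 3} (h : cval1 D ρ ≠ 0) :
    ∀ σ τ, σ ≠ τ → ¬ (cval1 D σ = 0 ∧ cval1 D τ = 0) := by
  intro σ τ hστ ⟨h1, h2⟩
  apply h
  have e := two_eta D
  rw [e] at h1 h2 ⊢
  obtain ⟨c0, c1, c2⟩ := cval1_two (D 0) (D 1)
  have key : D 0 = 0 ∧ D 1 = 0 := by
    fin_cases σ <;> fin_cases τ <;> first
    | exact absurd rfl hστ
    | (simp only [Fin.zero_eta, Fin.mk_one, Fin.reduceFinMk, c0, c1, c2] at h1 h2
       refine ⟨?_, ?_⟩ <;> first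
        | exact h1
        | exact h2
        | linear_combination h1
        | linear_combination h2
        | linear_combination h1 - h2
        | linear_combination h2 - h1)
  rw [key.1, key.2]
  obtain ⟨c0, c1, c2⟩ := cval1_two (0 : Qb) 0
  fin_cases ρ
  · exact c0
  · rw [← add_zero (0 : Qb)]
    exact c1
  · exact c2

theorem HX_plane (D E : Fin (1 + 1) → Qb)
    (h1 : ∀ σ, ¬ (cval1 D σ = 0 ∧ cval1 E σ = 0))
    (h2 : ∃ σ, cval1 D σ ≠ 0 ∧ cval1 E σ ≠ 0 ∧ cval1 D σ ≠ cval1 E σ)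
    (g : Fin 5 → Qb) (hg : ∀ l, g l ≠ 0) : HX D E g := by
  obtain ⟨ρ, rD, rE, rF⟩ := h2
  have rF' : cval1 (fun i => D i - E i) ρ ≠ 0 := by
    rw [csub]; exact sub_ne_zero.mpr rF
  have nn : ∀ A : Fin (1 + 1) → Qb, ∀ {σ : Fin 3}, cval1 A σ ≠ 0 → cval1 (fun i => -A i) σ ≠ 0 :=
    fun A σ h => by rw [cneg]; exact neg_ne_zero.mpr h
  by_cases cF : ∀ σ, cval1 (fun i => D i - E i) σ ≠ 0
  · exact hbhN1 D E cF (two_corners D rD) (two_corners E rE) ⟨ρ, rD, rE⟩ g hg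
  by_cases cD : ∀ σ, cval1 D σ ≠ 0
  · have eF : (fun i => (fun i => -E i) i - (fun i => D i - E i) i) = fun i => -D i := by
      funext i; ring
    refine HX_perm (D' := fun i => -E i) (E' := fun i => D i - E i) (fun x => fval1 E x)
      ⟨![0, 1, 4, 2, 3], ![0, 1, 3, 4, 2], by decide, by decide⟩ ?_ ?_ ?_
    · intro x y l
      fin_cases l
      · rfl
      · rfl
      · rfl
      · show y - fval1 E x - fval1 (fun i => -E i) x = y
        rw [fneg]; ring
      · show y - fval1 E x - fval1 (fun i => D i - E i) x = y - fval1 D x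
        rw [fsub]; ring
    · intro x xD xE xF
      rw [fneg, fsub]
      refine ⟨neg_ne_zero.mpr xE, sub_ne_zero.mpr xF, fun h => xD ?_⟩
      linear_combination -h
    · refine hbhN1 _ _ ?_ (two_corners _ (nn E rE)) (two_corners _ rF')
        ⟨ρ, nn E rE, rF'⟩ _ fun l => hg _
      rw [eF]
      exact fun σ => nn D (cD σ)
  by_cases cE : ∀ σ, cval1 E σ ≠ 0
  · have eF : (fun i => (fun i => -D i) i - (fun i => E i - D i) i) = fun i => -E i := by
      funext i; ring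
    have rF'' : cval1 (fun i => E i - D i) ρ ≠ 0 := by
      rw [csub]; exact sub_ne_zero.mpr rF.symm
    refine HX_perm (D' := fun i => -D i) (E' := fun i => E i - D i) (fun x => fval1 D x)
      ⟨![0, 1, 3, 2, 4], ![0, 1, 3, 2, 4], by decide, by decide⟩ ?_ ?_ ?_
    · intro x y l
      fin_cases l
      · rfl
      · rfl
      · rfl
      · show y - fval1 D x - fval1 (fun i => -D i) x = y
        rw [fneg]; ring
      · show y - fval1 D x - fval1 (fun i => E i - D i) x = y - fval1 E x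
        rw [fsub]; ring
    · intro x xD xE xF
      rw [fneg, fsub]
      refine ⟨neg_ne_zero.mpr xD, sub_ne_zero.mpr xF.symm, fun h => xE ?_⟩
      linear_combination -h
    · refine hbhN1 _ _ ?_ (two_corners _ (nn D rD)) (two_corners _ rF'')
        ⟨ρ, nn D rD, rF''⟩ _ fun l => hg _
      rw [eF]
      exact fun σ => nn E (cE σ)
  · exfalso
    push Not at cF cD cE
    obtain ⟨σ, hσ⟩ := cF
    obtain ⟨τ, hτ⟩ := cD
    obtain ⟨υ, hυ⟩ := cE
    rw [csub, sub_eq_zero] at hσ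
    have a1 : σ ≠ ρ := by rintro rfl; exact rF hσ
    have a2 : τ ≠ ρ := by rintro rfl; exact rD hτ
    have a3 : υ ≠ ρ := by rintro rfl; exact rE hυ
    have a4 : σ ≠ τ := by
      rintro rfl
      exact h1 σ ⟨hτ, by rw [← hσ]; exact hτ⟩
    have a5 : σ ≠ υ := by
      rintro rfl
      exact h1 σ ⟨by rw [hσ]; exact hυ, hυ⟩
    have a6 : τ ≠ υ := by
      rintro rfl
      exact h1 τ ⟨hτ, hυ⟩
    revert a1 a2 a3 a4 a5 a6
    revert σ τ υ ρ
    intro ρ _ _ _ _ σ _ τ _ υ _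
    fin_cases ρ <;> fin_cases σ <;> fin_cases τ <;> fin_cases υ <;> simp

/-- the polynomials are not proportional, or no corner is special -/
lemma prop_plane (D E : Fin (1 + 1) → Qb)
    (h1 : ∀ σ, ¬ (cval1 D σ = 0 ∧ cval1 E σ = 0))
    {ρ : Fin 3} (rE : cval1 E ρ ≠ 0) :
    (∃ i j, D i * E j ≠ D j * E i) ∨ (1 ≤ 1 ∧ ∀ σ, cval1 E σ ≠ 0) := by
  by_cases h : ∃ i j, D i * E j ≠ D j * E i
  · exact Or.inl h
  · right
    push Not at h
    refine ⟨le_rfl, fun σ hσ => ?_⟩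
    -- `D` is a multiple of `E`
    obtain ⟨j, hj⟩ : ∃ j, E j ≠ 0 := by
      by_contra hj
      push Not at hj
      apply rE
      rw [cval1]
      exact Finset.sum_eq_zero fun i _ => by rw [hj, zero_mul]
    have hc : ∀ σ, cval1 D σ * E j = D j * cval1 E σ := by
      intro σ
      rw [cval1, cval1, Finset.sum_mul, Finset.mul_sum]
      refine Finset.sum_congr rfl fun i _ => ?_
      linear_combination (eps Qb σ 1 i) * h i j
    have h3 := hc σ
    rw [hσ, mul_zero] at h3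
    exact h1 σ ⟨(mul_eq_zero.mp h3).resolve_right hj, hσ⟩

/-- Zilber–Pink for planes. -/
theorem zpP (D E : Fin (1 + 1) → ℂ)
    (hDa : ∀ i, IsAlgebraic ℚ (D i)) (hEa : ∀ i, IsAlgebraic ℚ (E i))
    (h1 : ∀ σ, ¬ (cval1 D σ = 0 ∧ cval1 E σ = 0))
    (h2 : ∃ σ, cval1 D σ ≠ 0 ∧ cval1 E σ ≠ 0 ∧ cval1 D σ ≠ cval1 E σ) (g : Fin 5 → ℂ)
    (hg0 : ∀ j, g j ≠ 0) (hg : ∀ j, IsAlgebraic ℚ (g j))
    (m : Matrix (Fin 5) (Fin 5) ℤ) (hm : m.det ≠ 0) :
    ∃ U : Finset (Fin 5 → ℤ), (∀ u ∈ U, u ≠ 0) ∧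
      ∀ (M : Submodule ℤ (Fin 5 → ℤ)) (η : Fin 5 → ℂ), (∃ m : ℕ, 0 < m ∧ ∀ i, η i ^ m = 1) →
        ∀ A : Set (Fin 5 → ℂ), A ⊆ {z | (∀ l, z l ≠ 0) ∧ ∃ x y : ℂ, ∀ j, ∏ l, z l ^ m j l =
          g j * cvec D E x y j} → A ⊆ coset M η → (idealOf A).IsPrime →
          2 < dim A + (Module.finrank ℤ M : Cardinal) →
          ∃ u ∈ U, ∀ z ∈ A, ∏ l, z l ^ u l = 1 := by
  obtain ⟨φ, hlift⟩ := lift_alg
  choose D' hD' using fun i => hlift (D i) (hDa i)
  choose E' hE' using fun i => hlift (E i) (hEa i)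
  choose b hb using fun j => hlift (g j) (hg j)
  have eD : (fun i => φ (D' i)) = D := funext hD'
  have eE : (fun i => φ (E' i)) = E := funext hE'
  have hb0 : ∀ j, b j ≠ 0 := by
    intro j h
    apply hg0 j
    rw [← hb j, h, map_zero]
  have mD : ∀ σ, cval1 D σ = φ (cval1 D' σ) := fun σ => by rw [← eD, ← map_cval1]
  have mE : ∀ σ, cval1 E σ = φ (cval1 E' σ) := fun σ => by rw [← eE, ← map_cval1]
  have c1 : ∀ σ, ¬ (cval1 D' σ = 0 ∧ cval1 E' σ = 0) := by
    intro σ ⟨ha, hb⟩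
    exact h1 σ ⟨by rw [mD, ha, map_zero], by rw [mE, hb, map_zero]⟩
  obtain ⟨ρ, rD, rE, rF⟩ := h2
  have rD' : cval1 D' ρ ≠ 0 := fun h => rD (by rw [mD, h, map_zero])
  have rE' : cval1 E' ρ ≠ 0 := fun h => rE (by rw [mE, h, map_zero])
  have rF' : cval1 D' ρ ≠ cval1 E' ρ := fun h => rF (by rw [mD, mE, h])
  have nD := vP_ne_of_cval rD'
  have nE := vP_ne_of_cval rE'
  have nF : vP (fun i => D' i - E' i) ≠ 0 := vP_ne_of_cval (σ := ρ) (by
    rw [csub]; exact sub_ne_zero.mpr rF')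
  have hx := HX_plane D' E' c1 ⟨ρ, rD', rE', rF'⟩ b hb0
  have hbh := hbh_of D' E' nD nE nF b hb0 hx
  have hz := zilR D' E' nD nE nF (prop_plane D' E' c1 rE') b hb0 hbh
  have h := zpR_of D' E' b hb0 hz φ m hm
  rw [eD, eE] at h
  simp only [hb] at h
  exact h

end Run7.h498.GZ
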