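import Pool.Agent.Run7.h498.GZ.W5

set_option autoImplicit false

/-!
# Zilber–Pink for planes given by six linear forms
-/

namespace Run7.h498.GZ

open Pool.Agent.Results.MP_b7926e_nt.NoAtypical (coset idealOf dim mem_idealOf)

/-- the determinant of three vectors -/
def br (a b c : Fin 3 → ℂ) : ℂ := Matrix.det (Matrix.of ![a, b, c])

lemma br_eq (a b c : Fin 3 → ℂ) : br a b c = a 0 * b 1 * c 2 - a 0 * b 2 * c 1 - a 1 * b 0 * c 2 +
    a 1 * b 2 * c 0 + a 2 * b 0 * c 1 - a 2 * b 1 * c 0 := by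
  rw [br, Matrix.det_fin_three]
  simp

lemma br_swap (a b c : Fin 3 → ℂ) : br b a c = -br a b c := by
  rw [br_eq, br_eq]; ring

lemma br_swap' (a b c : Fin 3 → ℂ) : br a c b = -br a b c := by
  rw [br_eq, br_eq]; ring

lemma br_rot (a b c : Fin 3 → ℂ) : br b c a = br a b c := by
  rw [br_eq, br_eq]; ring

lemma dot3 (a v : Fin 3 → ℂ) : a ⬝ᵥ v = a 0 * v 0 + a 1 * v 1 + a 2 * v 2 := by
  rw [dotProduct, Fin.sum_univ_three]

/-- the relation between four vectors -/
lemma rel4 (i k l m v : Fin 3 → ℂ) : br i k l * (m ⬝ᵥ v) =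
    br k l m * (i ⬝ᵥ v) - br i l m * (k ⬝ᵥ v) + br i k m * (l ⬝ᵥ v) := by
  rw [br_eq, br_eq, br_eq, br_eq, dot3, dot3, dot3, dot3]
  ring

/-- the Plücker relation -/
lemma pluck (i k l m n : Fin 3 → ℂ) :
    br i l m * br i k n - br i l n * br i k m = br i l k * br i m n := by
  simp only [br_eq]
  ring

lemma pluck' (i j k l m : Fin 3 → ℂ) :
    br i l m * br k l j - br k l m * br i l j = -(br i k l * br l j m) := by
  simp only [br_eq]
  ring

/-- the exponents of the ratio of two coordinates -/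
def ep : Fin 6 → Fin 5 → ℤ := Fin.cons 0 fun j => Pi.single j 1

/-- the matrix of a change of coordinates -/
def PM (e : Equiv.Perm (Fin 6)) : Matrix (Fin 5) (Fin 5) ℤ :=
  fun s t => ep (e s.succ) t - ep (e 0) t

lemma PM_det (e : Equiv.Perm (Fin 6)) : (PM e).det ≠ 0 := by
  classical
  let Q : Matrix (Fin 5) (Fin 5) ℤ := fun t s => (if e (Fin.succ s) = Fin.succ t then 1 else 0) -
      (if e (Fin.succ s) = 0 then 1 else 0)
  have key : Q * PM e = 1 := by
    ext t r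
    rw [Matrix.mul_apply]
    show ∑ s : Fin 5, ((if e (Fin.succ s) = Fin.succ t then (1 : ℤ) else 0) -
      (if e (Fin.succ s) = 0 then 1 else 0)) * PM e s r = _
    have h : ∀ a : Fin 6, ∑ s : Fin 5, (if e (Fin.succ s) = a then (1 : ℤ) else 0) * PM e s r =
        ep a r - ep (e 0) r := by
      intro a
      have h1 : ∑ s : Fin 6, (if e s = a then (1 : ℤ) else 0) * (ep (e s) r - ep (e 0) r) =
          ep a r - ep (e 0) r := by
        rw [Finset.sum_eq_single (e.symm a)]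
        · simp
        · intro b _ hb
          rw [if_neg, zero_mul]
          intro h
          apply hb
          rw [← h, Equiv.symm_apply_apply]
        · intro h; exact absurd (Finset.mem_univ _) h
      rw [Fin.sum_univ_succ] at h1
      rw [sub_self, mul_zero, zero_add] at h1
      exact h1
    simp only [sub_mul, Finset.sum_sub_distrib]
    rw [h, h]
    simp only [ep, Fin.cons_succ, Fin.cons_zero, Pi.zero_apply, Matrix.one_apply]
    rw [Pi.single_apply]
    by_cases htr : t = r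
    · subst htr; simp
    · rw [if_neg htr, if_neg (fun h => htr h.symm)]; ring
  intro h
  have := congrArg Matrix.det key
  rw [Matrix.det_mul, h, mul_zero, Matrix.det_one] at this
  exact one_ne_zero this.symm

lemma PM_prod (e : Equiv.Perm (Fin 6)) (m : Matrix (Fin 5) (Fin 5) ℤ) (z : Fin 5 → ℂ)
    (hz : ∀ l, z l ≠ 0) (Z : Fin 6 → ℂ) (hZ0 : Z 0 ≠ 0)
    (hZ : ∀ j : Fin 5, ∏ l, z l ^ m j l = Z j.succ / Z 0) (s : Fin 5) :
    ∏ l, z l ^ (PM e * m) s l = Z (e s.succ) / Z (e 0) := by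
  have hZne : ∀ j, Z j ≠ 0 := by
    intro j
    refine Fin.cases hZ0 (fun j => ?_) j
    have h1 : ∏ l, z l ^ m j l ≠ 0 := Finset.prod_ne_zero_iff.mpr fun l _ => zpow_ne_zero _ (hz l)
    rw [hZ] at h1
    intro h
    rw [h, zero_div] at h1
    exact h1 rfl
  have h1 : ∏ l, z l ^ (PM e * m) s l = ∏ t, (∏ l, z l ^ m t l) ^ PM e s t := by
    simp only [Matrix.mul_apply]
    calc ∏ l, z l ^ (∑ t, PM e s t * m t l) = ∏ l, ∏ t, (z l ^ m t l) ^ PM e s t := by
          refine Finset.prod_congr rfl fun l _ => ?_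
          rw [Pool.Agent.Y740.zpow_sum_eq _ (hz l)]
          refine Finset.prod_congr rfl fun t _ => ?_
          rw [← zpow_mul, mul_comm]
      _ = ∏ t, ∏ l, (z l ^ m t l) ^ PM e s t := Finset.prod_comm
      _ = _ := by
          refine Finset.prod_congr rfl fun t _ => ?_
          rw [Finset.prod_zpow]
  have h2 : ∀ a : Fin 6, ∏ t, (Z (Fin.succ t) / Z 0) ^ ep a t = Z a / Z 0 := by
    intro a
    refine Fin.cases ?_ (fun a => ?_) a
    · simp [ep, div_self hZ0]
    · rw [Finset.prod_eq_single a]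
      · simp [ep]
      · intro b _ hb
        simp [ep, hb]
      · intro h; exact absurd (Finset.mem_univ _) h
  rw [h1]
  simp only [hZ]
  have h3 : ∀ t, Z (Fin.succ t) / Z 0 ≠ 0 := fun t => div_ne_zero (hZne _) hZ0
  calc ∏ t, (Z (Fin.succ t) / Z 0) ^ PM e s t =
        ∏ t, ((Z (Fin.succ t) / Z 0) ^ ep (e s.succ) t / (Z (Fin.succ t) / Z 0) ^ ep (e 0) t) := by
        refine Finset.prod_congr rfl fun t _ => ?_
        rw [← zpow_sub₀ (h3 t)]; rfl
    _ = (Z (e s.succ) / Z 0) / (Z (e 0) / Z 0) := by rw [Finset.prod_div_distrib, h2, h2]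
    _ = _ := by
        have := hZne (e 0)
        field_simp

/-- the preimage of a plane under an isogeny -/
def planeS (A : Fin 6 → Fin 3 → ℂ) (m : Matrix (Fin 5) (Fin 5) ℤ) : Set (Fin 5 → ℂ) :=
  {z | (∀ l, z l ≠ 0) ∧ ∃ v : Fin 3 → ℂ, A 0 ⬝ᵥ v ≠ 0 ∧
    ∀ j : Fin 5, ∏ l, z l ^ m j l = (A j.succ ⬝ᵥ v) / (A 0 ⬝ᵥ v)}

theorem plane_perm (A : Fin 6 → Fin 3 → ℂ) (hA : ∀ i c, IsAlgebraic ℚ (A i c))
    (e : Equiv.Perm (Fin 6)) {i j k l m n : Fin 3 → ℂ} (ek : A (e 0) = k) (ei : A (e 1) = i)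
    (ej : A (e 2) = j) (el : A (e 3) = l) (em : A (e 4) = m) (en : A (e 5) = n)
    (ikj : br i k j = 0) (ikl : br i k l ≠ 0) (ikm : br i k m ≠ 0) (ikn : br i k n ≠ 0)
    (klj : br k l j ≠ 0) (ilj : br i l j ≠ 0) (ilm : br i l m ≠ 0) (iln : br i l n ≠ 0)
    (imn : br i m n ≠ 0) (hk : ¬ (br k l m = 0 ∧ br k l n = 0))
    (hj : ¬ (br l j m = 0 ∧ br l j n = 0))
    (m0 : Matrix (Fin 5) (Fin 5) ℤ) (hm0 : m0.det ≠ 0) :
    ∃ U : Finset (Fin 5 → ℤ), (∀ u ∈ U, u ≠ 0) ∧
      ∀ (M : Submodule ℤ (Fin 5 → ℤ)) (η : Fin 5 → ℂ), (∃ m : ℕ, 0 < m ∧ ∀ i, η i ^ m = 1) →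
        ∀ X : Set (Fin 5 → ℂ), X ⊆ planeS A m0 → X ⊆ coset M η → (idealOf X).IsPrime →
          2 < dim X + (Module.finrank ℤ M : Cardinal) →
          ∃ u ∈ U, ∀ z ∈ X, ∏ l, z l ^ u l = 1 := by
  have alg : ∀ a b c : Fin 6, br (A a) (A b) (A c) ∈ algebraicClosure ℚ ℂ := by
    intro a b c
    have h : ∀ a c, A a c ∈ algebraicClosure ℚ ℂ := fun a c =>
      mem_algebraicClosure_iff.mpr (hA a c)
    rw [br_eq]
    exact sub_mem (add_mem (add_mem (sub_mem (sub_mem (mul_mem (mul_mem (h _ _) (h _ _)) (h _ _))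
      (mul_mem (mul_mem (h _ _) (h _ _)) (h _ _))) (mul_mem (mul_mem (h _ _) (h _ _)) (h _ _)))
      (mul_mem (mul_mem (h _ _) (h _ _)) (h _ _))) (mul_mem (mul_mem (h _ _) (h _ _)) (h _ _)))
      (mul_mem (mul_mem (h _ _) (h _ _)) (h _ _))
  have aikl := alg (e 1) (e 0) (e 3)
  have aikm := alg (e 1) (e 0) (e 4)
  have aikn := alg (e 1) (e 0) (e 5)
  have aklj := alg (e 0) (e 3) (e 2)
  have ailj := alg (e 1) (e 3) (e 2)
  have ailm := alg (e 1) (e 3) (e 4)
  have ailn := alg (e 1) (e 3) (e 5)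
  have aklm := alg (e 0) (e 3) (e 4)
  have akln := alg (e 0) (e 3) (e 5)
  rw [ei, ek, el] at aikl
  rw [ei, ek, em] at aikm
  rw [ei, ek, en] at aikn
  rw [ek, el, ej] at aklj
  rw [ei, el, ej] at ailj
  rw [ei, el, em] at ailm
  rw [ei, el, en] at ailn
  rw [ek, el, em] at aklm
  rw [ek, el, en] at akln
  -- the normal form
  obtain ⟨D, hD0, hD1⟩ : ∃ D : Fin (1 + 1) → ℂ, D 0 = br i l m / br i k m ∧
      D 1 = -(br k l m * br i l j / (br k l j * br i k m)) := ⟨![_, _], rfl, rfl⟩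
  obtain ⟨E, hE0, hE1⟩ : ∃ E : Fin (1 + 1) → ℂ, E 0 = br i l n / br i k n ∧
      E 1 = -(br k l n * br i l j / (br k l j * br i k n)) := ⟨![_, _], rfl, rfl⟩
  obtain ⟨g, hg0, hg1, hg2, hg3, hg4⟩ : ∃ g : Fin 5 → ℂ, g 0 = br i l j / br k l j ∧
      g 1 = -(br i l j / br i k l) ∧ g 2 = 1 ∧ g 3 = br i k m / br i k l ∧
      g 4 = br i k n / br i k l := ⟨![_, _, _, _, _], rfl, rfl, rfl, rfl, rfl⟩
  have cor : ∀ (F : Type) [Field F] (B : Fin (1 + 1) → F), cval1 B 0 = B 0 ∧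
      cval1 B 1 = B 0 + B 1 ∧ cval1 B 2 = B 1 := by
    intro F _ B
    have e : B = ![B 0, B 1] := two_eta B
    rw [e]
    exact cval1_two _ _
  obtain ⟨d0, d1, d2⟩ := cor ℂ D
  obtain ⟨f0, f1, f2⟩ := cor ℂ E
  have key := zpP D E ?_ ?_ ?_ ⟨0, ?_, ?_, ?_⟩ g ?_ ?_ (PM e * m0) ?_
  · obtain ⟨U, hU, h⟩ := key
    refine ⟨U, hU, fun M η hη X hX hXc hXp hdim => h M η hη X ?_ hXc hXp hdim⟩
    intro z hz
    obtain ⟨hz0, v, hv0, hv⟩ := hX hz
    have hp := PM_prod e m0 z hz0 (fun a => A a ⬝ᵥ v) hv0 hv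
    have hkv : k ⬝ᵥ v ≠ 0 := by
      have h1 : ∏ l, z l ^ (PM e * m0) 0 l ≠ 0 :=
        Finset.prod_ne_zero_iff.mpr fun l _ => zpow_ne_zero _ (hz0 l)
      rw [hp 0] at h1
      intro h
      apply h1
      show (A (e (Fin.succ 0)) ⬝ᵥ v) / (A (e 0) ⬝ᵥ v) = 0
      rw [ek, h, div_zero]
    refine ⟨hz0, br k l j / br i l j * ((i ⬝ᵥ v) / (k ⬝ᵥ v)), (l ⬝ᵥ v) / (k ⬝ᵥ v), ?_⟩
    have rj := rel4 i k l j v
    have rm := rel4 i k l m v
    have rn := rel4 i k l n v
    rw [ikj, zero_mul, add_zero] at rj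
    intro s
    rw [hp s]
    fin_cases s
    · show (A (e 1) ⬝ᵥ v) / (A (e 0) ⬝ᵥ v) = g 0 * _
      rw [ek, ei, hg0]
      show _ = _ * (br k l j / br i l j * ((i ⬝ᵥ v) / (k ⬝ᵥ v)))
      field_simp
    · show (A (e 2) ⬝ᵥ v) / (A (e 0) ⬝ᵥ v) = g 1 * _
      rw [ek, ej, hg1]
      show _ = _ * (1 - br k l j / br i l j * ((i ⬝ᵥ v) / (k ⬝ᵥ v)))
      field_simp
      linear_combination rj
    · show (A (e 3) ⬝ᵥ v) / (A (e 0) ⬝ᵥ v) = g 2 * _
      rw [ek, el, hg2]
      show _ = _ * ((l ⬝ᵥ v) / (k ⬝ᵥ v))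
      ring
    · show (A (e 4) ⬝ᵥ v) / (A (e 0) ⬝ᵥ v) = g 3 * _
      rw [ek, em, hg3]
      show _ = _ * ((l ⬝ᵥ v) / (k ⬝ᵥ v) - fval1 D (br k l j / br i l j * ((i ⬝ᵥ v) / (k ⬝ᵥ v))))
      rw [two_eta D, fval1_two, hD0, hD1]
      field_simp
      linear_combination rm
    · show (A (e 5) ⬝ᵥ v) / (A (e 0) ⬝ᵥ v) = g 4 * _
      rw [ek, en, hg4]
      show _ = _ * ((l ⬝ᵥ v) / (k ⬝ᵥ v) - fval1 E (br k l j / br i l j * ((i ⬝ᵥ v) / (k ⬝ᵥ v))))
      rw [two_eta E, fval1_two, hE0, hE1]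
      field_simp
      linear_combination rn
  · intro c
    fin_cases c
    · show IsAlgebraic ℚ (D 0)
      rw [hD0]
      exact mem_algebraicClosure_iff.mp (div_mem ailm aikm)
    · show IsAlgebraic ℚ (D 1)
      rw [hD1]
      exact mem_algebraicClosure_iff.mp (neg_mem (div_mem (mul_mem aklm ailj)
        (mul_mem aklj aikm)))
  · intro c
    fin_cases c
    · show IsAlgebraic ℚ (E 0)
      rw [hE0]
      exact mem_algebraicClosure_iff.mp (div_mem ailn aikn)
    · show IsAlgebraic ℚ (E 1)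
      rw [hE1]
      exact mem_algebraicClosure_iff.mp (neg_mem (div_mem (mul_mem akln ailj)
        (mul_mem aklj aikn)))
  · -- no quadruple point
    intro s ⟨h1, h2⟩
    fin_cases s
    · change cval1 D 0 = 0 at h1
      rw [d0, hD0] at h1
      exact (div_ne_zero ilm ikm) h1
    · change cval1 D 1 = 0 at h1
      change cval1 E 1 = 0 at h2
      rw [d1, hD0, hD1] at h1
      rw [f1, hE0, hE1] at h2
      apply hj
      have p1 := pluck' i j k l m
      have p2 := pluck' i j k l n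
      refine ⟨?_, ?_⟩
      · have : br i k l * br l j m = 0 := by
          field_simp at h1
          linear_combination p1 - h1
        exact (mul_eq_zero.mp this).resolve_left ikl
      · have : br i k l * br l j n = 0 := by
          field_simp at h2
          linear_combination p2 - h2
        exact (mul_eq_zero.mp this).resolve_left ikl
    · change cval1 D 2 = 0 at h1
      change cval1 E 2 = 0 at h2
      rw [d2, hD1] at h1
      rw [f2, hE1] at h2
      apply hk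
      refine ⟨?_, ?_⟩
      · by_contra h
        exact neg_ne_zero.mpr (div_ne_zero (mul_ne_zero h ilj) (mul_ne_zero klj ikm)) h1
      · by_contra h
        exact neg_ne_zero.mpr (div_ne_zero (mul_ne_zero h ilj) (mul_ne_zero klj ikn)) h2
  · rw [d0, hD0]
    exact div_ne_zero ilm ikm
  · rw [f0, hE0]
    exact div_ne_zero iln ikn
  · rw [d0, f0, hD0, hE0]
    intro h
    have p := pluck i k l m n
    have h1 : br i l k * br i m n = 0 := by
      rw [div_eq_div_iff ikm ikn] at h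
      linear_combination -p + h
    rcases mul_eq_zero.mp h1 with h | h
    · rw [br_swap'] at h
      exact ikl (neg_eq_zero.mp h)
    · exact imn h
  · intro s
    fin_cases s
    · show g 0 ≠ 0
      rw [hg0]; exact div_ne_zero ilj klj
    · show g 1 ≠ 0
      rw [hg1]; exact neg_ne_zero.mpr (div_ne_zero ilj ikl)
    · show g 2 ≠ 0
      rw [hg2]; exact one_ne_zero
    · show g 3 ≠ 0
      rw [hg3]; exact div_ne_zero ikm ikl
    · show g 4 ≠ 0
      rw [hg4]; exact div_ne_zero ikn ikl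
  · intro s
    fin_cases s
    · show IsAlgebraic ℚ (g 0)
      rw [hg0]; exact mem_algebraicClosure_iff.mp (div_mem ailj aklj)
    · show IsAlgebraic ℚ (g 1)
      rw [hg1]; exact mem_algebraicClosure_iff.mp (neg_mem (div_mem ailj aikl))
    · show IsAlgebraic ℚ (g 2)
      rw [hg2]; exact isAlgebraic_one
    · show IsAlgebraic ℚ (g 3)
      rw [hg3]; exact mem_algebraicClosure_iff.mp (div_mem aikm aikl)
    · show IsAlgebraic ℚ (g 4)
      rw [hg4]; exact mem_algebraicClosure_iff.mp (div_mem aikn aikl)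
  · rw [Matrix.det_mul]
    exact mul_ne_zero (PM_det e) hm0

/-- Zilber–Pink for planes with a triple point. -/
theorem planeC (A : Fin 6 → Fin 3 → ℂ) (hA : ∀ i c, IsAlgebraic ℚ (A i c))
    (h4 : ∀ a b c d : Fin 6, a ≠ b → a ≠ c → a ≠ d → b ≠ c → b ≠ d → c ≠ d →
      ¬ (br (A a) (A b) (A c) = 0 ∧ br (A a) (A b) (A d) = 0))
    (i j k : Fin 6) (hij : i ≠ j) (hik : i ≠ k) (hjk : j ≠ k)
    (h3 : br (A i) (A j) (A k) = 0)
    (h1 : ∀ l m, l ≠ i → m ≠ i → l ≠ m → br (A i) (A l) (A m) = 0 →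
      (l = j ∨ l = k) ∧ (m = j ∨ m = k))
    (m0 : Matrix (Fin 5) (Fin 5) ℤ) (hm0 : m0.det ≠ 0) :
    ∃ U : Finset (Fin 5 → ℤ), (∀ u ∈ U, u ≠ 0) ∧
      ∀ (M : Submodule ℤ (Fin 5 → ℤ)) (η : Fin 5 → ℂ), (∃ m : ℕ, 0 < m ∧ ∀ i, η i ^ m = 1) →
        ∀ X : Set (Fin 5 → ℂ), X ⊆ planeS A m0 → X ⊆ coset M η → (idealOf X).IsPrime →
          2 < dim X + (Module.finrank ℤ M : Cardinal) →
          ∃ u ∈ U, ∀ z ∈ X, ∏ l, z l ^ u l = 1 := by
  classical
  -- the other three forms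
  obtain ⟨l, m, n, hlm, hln, hmn, hc⟩ : ∃ l m n : Fin 6, l ≠ m ∧ l ≠ n ∧ m ≠ n ∧
      ({i, j, k} : Finset (Fin 6))ᶜ = {l, m, n} := by
    apply Finset.card_eq_three.mp
    rw [Finset.card_compl, Finset.card_eq_three.mpr ⟨i, j, k, hij, hik, hjk, rfl⟩]
    rfl
  have mem : ∀ a, a ∈ ({l, m, n} : Finset (Fin 6)) → a ≠ i ∧ a ≠ j ∧ a ≠ k := by
    intro a ha
    rw [← hc] at ha
    simpa [not_or] using ha
  obtain ⟨li, lj, lk⟩ := mem l (by simp)
  obtain ⟨mi, mj, mk⟩ := mem m (by simp)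
  obtain ⟨ni, nj, nk⟩ := mem n (by simp)
  let f : Fin 6 → Fin 6 := ![k, i, j, l, m, n]
  have hf : Function.Injective f := by
    intro a b hab
    fin_cases a <;> fin_cases b <;> first
    | rfl
    | (exfalso
       simp [f] at hab
       first
       | exact hij hab
       | exact hij hab.symm
       | exact hik hab
       | exact hik hab.symm
       | exact hjk hab
       | exact hjk hab.symm
       | exact hlm hab
       | exact hlm hab.symm
       | exact hln hab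
       | exact hln hab.symm
       | exact hmn hab
       | exact hmn hab.symm
       | exact li hab
       | exact li hab.symm
       | exact lj hab
       | exact lj hab.symm
       | exact lk hab
       | exact lk hab.symm
       | exact mi hab
       | exact mi hab.symm
       | exact mj hab
       | exact mj hab.symm
       | exact mk hab
       | exact mk hab.symm
       | exact ni hab
       | exact ni hab.symm
       | exact nj hab
       | exact nj hab.symm
       | exact nk hab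
       | exact nk hab.symm)
  let e : Equiv.Perm (Fin 6) := Equiv.ofBijective f (Finite.injective_iff_bijective.mp hf)
  have ikj : br (A i) (A k) (A j) = 0 := by rw [br_swap', h3, neg_zero]
  have ijx : ∀ x, x ≠ i → x ≠ j → x ≠ k → br (A i) (A j) (A x) ≠ 0 := fun x xi xj xk h =>
    h4 i j k x hij hik xi.symm hjk xj.symm xk.symm ⟨h3, h⟩
  have ikx : ∀ x, x ≠ i → x ≠ j → x ≠ k → br (A i) (A k) (A x) ≠ 0 := fun x xi xj xk h =>
    h4 i k j x hik hij xi.symm hjk.symm xk.symm xj.symm ⟨ikj, h⟩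
  have jkx : ∀ x, x ≠ i → x ≠ j → x ≠ k → br (A j) (A k) (A x) ≠ 0 := fun x xi xj xk h =>
    h4 j k i x hjk hij.symm xj.symm hik.symm xk.symm xi.symm ⟨by rw [br_rot]; exact h3, h⟩
  refine plane_perm A hA e (k := A k) (i := A i) (j := A j) (l := A l) (m := A m) (n := A n)
    rfl rfl rfl rfl rfl rfl ikj (ikx l li lj lk) (ikx m mi mj mk) (ikx n ni nj nk) ?_ ?_ ?_ ?_ ?_
    ?_ ?_ m0 hm0
  · intro h
    apply jkx l li lj lk
    rw [← h]
    exact (br_rot _ _ _).symm
  · intro h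
    apply ijx l li lj lk
    rw [br_swap', h, neg_zero]
  · intro h
    rcases (h1 l m li mi hlm h).1 with h | h
    · exact lj h
    · exact lk h
  · intro h
    rcases (h1 l n li ni hln h).1 with h | h
    · exact lj h
    · exact lk h
  · intro h
    rcases (h1 m n mi ni hmn h).1 with h | h
    · exact mj h
    · exact mk h
  · exact h4 k l m n lk.symm mk.symm nk.symm hlm hln hmn
  · exact h4 l j m n lj hlm hln mj.symm nj.symm hmn

end Run7.h498.GZ
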